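import Pool.Agent.Run7.h982.D3

/-!
# Insulating cracks: the divergence inequality in a Lipschitz domain
-/

set_option autoImplicit false

open MeasureTheory Set Filter Topology Metric
open scoped ContDiff ENNReal NNReal InnerProductSpace

namespace Pool.Agent.Run7.h982

theorem surf_lintegral (Ω : Set E) (f : E → ℝ≥0∞) : ∫⁻ x, f x ∂(surf Ω)
    = ENNReal.ofReal (Real.pi / 4) * ∫⁻ x in frontier Ω, f x ∂(Measure.hausdorffMeasure 2) := by
  unfold surf
  rw [lintegral_smul_measure, smul_eq_mul]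

theorem front_lintegral (Ω : Set E) (f : E → ℝ≥0∞) :
    ∫⁻ x in frontier Ω, f x ∂(Measure.hausdorffMeasure 2)
      = (ENNReal.ofReal (Real.pi / 4))⁻¹ * ∫⁻ x, f x ∂(surf Ω) := by
  rw [surf_lintegral, ← mul_assoc, ENNReal.inv_mul_cancel, one_mul]
  · rw [Ne, ENNReal.ofReal_eq_zero, not_le]
    have := Real.pi_pos
    positivity
  · exact ENNReal.ofReal_ne_top

/-- the local inequality at the boundary -/
theorem di_local {Ω : Set E} (hΩ : IsOpen Ω) {p : E} {e : E ≃ₗᵢ[ℝ] E} {g : P2 → ℝ} {L : ℝ≥0}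
    {r : ℝ} (hg : LipschitzWith L g)
    (h : ∀ x ∈ ball p r, x ∈ Ω ↔ g (Pr (e x)) < e x 2) :
    ∃ C : ℝ≥0∞, C ≠ ⊤ ∧ ∀ φ, IsTest (ball p r) φ → ∀ w : E,
      ‖∫ x in Ω, fderiv ℝ φ x w‖ₑ ≤ C * ‖w‖ₑ * ∫⁻ x, ‖φ x‖ₑ ∂(surf Ω) := by
  obtain ⟨c₀, hc₀⟩ := h2_scale
  refine ⟨ENNReal.ofReal (2 * (L + 1)) * (c₀ * (ENNReal.ofReal (Real.pi / 4))⁻¹), ?_, ?_⟩
  · apply ENNReal.mul_ne_top ENNReal.ofReal_ne_top
    apply ENNReal.mul_ne_top ENNReal.coe_ne_top
    rw [Ne, ENNReal.inv_eq_top, ENNReal.ofReal_eq_zero, not_le]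
    have := Real.pi_pos
    positivity
  intro φ hφ w
  have h0 : ∀ x ∉ ball p r, φ x = 0 := fun x hx =>
    image_eq_zero_of_notMem_tsupport (fun h2 => hx (hφ.2.2 h2))
  have hd0 : ∀ x ∉ ball p r, fderiv ℝ φ x = 0 := fun x hx =>
    fderiv_zero_of (fun h2 => hx (hφ.2.2 h2))
  set U : Set E := {y : E | g (Pr y) < y 2} with hU
  have hUo : IsOpen U := isOpen_lt (hg.continuous.comp Pr_cont) (coord_cont 2)
  have hUm : MeasurableSet (e ⁻¹' U) := (hUo.preimage e.continuous).measurableSet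
  set φ' : E → ℝ := fun y => φ (e.symm y) with hφ'
  have hφ's : ContDiff ℝ ∞ φ' := hφ.1.comp e.symm.toContinuousLinearEquiv.contDiff
  have hφ'c : HasCompactSupport φ' := hφ.2.1.comp_homeomorph e.symm.toHomeomorph
  have h1 : ∫ x in Ω, fderiv ℝ φ x w = ∫ x in e ⁻¹' U, fderiv ℝ φ x w := by
    rw [← integral_indicator hΩ.measurableSet, ← integral_indicator hUm]
    congr 1
    ext x
    by_cases hx : x ∈ ball p r
    · have h2 : x ∈ Ω ↔ x ∈ e ⁻¹' U := h x hx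
      by_cases h3 : x ∈ Ω
      · rw [indicator_of_mem h3, indicator_of_mem (h2.1 h3)]
      · rw [indicator_of_notMem h3, indicator_of_notMem (fun h4 => h3 (h2.2 h4))]
    · have h2 : fderiv ℝ φ x w = 0 := by rw [hd0 x hx]; rfl
      classical
      rw [indicator_apply, indicator_apply, h2]
      simp
  have h2 : ∫ x in e ⁻¹' U, fderiv ℝ φ x w = ∫ y in U, fderiv ℝ φ' y (e w) := by
    have h3 : ∀ x, fderiv ℝ φ x w = fderiv ℝ φ' (e x) (e w) := by
      intro x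
      have h4 : HasFDerivAt φ (fderiv ℝ φ x) (e.symm (e x)) := by
        rw [LinearIsometryEquiv.symm_apply_apply]
        exact ((hφ.1.differentiable (by simp)) x).hasFDerivAt
      have h5 := h4.comp (e x) (e.symm.toContinuousLinearEquiv : E →L[ℝ] E).hasFDerivAt
      have h6 : HasFDerivAt φ' _ (e x) := h5
      rw [h6.fderiv]
      simp
    simp_rw [h3]
    exact e.measurePreserving.setIntegral_preimage_emb e.toHomeomorph.measurableEmbedding
      (fun y => fderiv ℝ φ' y (e w)) U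
  rw [h1, h2]
  have h3 := graph_ineq hg (hφ's.of_le (by simp)) hφ'c (e w)
  refine h3.trans ?_
  have h4 := area_le hΩ hg h hc₀ hφ.1.continuous h0
  rw [front_lintegral] at h4
  have h5 : ENNReal.ofReal (2 * ((L + 1) * ‖e w‖)) = ENNReal.ofReal (2 * (L + 1)) * ‖w‖ₑ := by
    rw [e.norm_map, ← ofReal_norm, ← ENNReal.ofReal_mul (by positivity)]
    congr 1
    ring
  rw [h5]
  calc _ ≤ ENNReal.ofReal (2 * (L + 1)) * ‖w‖ₑ *
        (c₀ * ((ENNReal.ofReal (Real.pi / 4))⁻¹ * ∫⁻ x, ‖φ x‖ₑ ∂(surf Ω))) :=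
        mul_le_mul_right h4 _
    _ = _ := by ring

theorem di_cover {Ω : Set E} (hΩ : IsDomain3 Ω) :
    ∃ O, IsOpen O ∧ closure Ω ⊆ O ∧ ∃ C : ℝ≥0∞, C ≠ ⊤ ∧ ∀ φ, IsTest O φ → ∀ w : E,
      ‖∫ x in Ω, fderiv ℝ φ x w‖ₑ ≤ C * ‖w‖ₑ * ∫⁻ x, ‖φ x‖ₑ ∂(surf Ω) := by
  have hK : IsCompact (closure Ω) := hΩ.bdd.isCompact_closure
  refine IsCompact.induction_on (p := fun s => ∃ O, IsOpen O ∧ s ⊆ O ∧ ∃ C : ℝ≥0∞, C ≠ ⊤ ∧
      ∀ φ, IsTest O φ → ∀ w : E,
      ‖∫ x in Ω, fderiv ℝ φ x w‖ₑ ≤ C * ‖w‖ₑ * ∫⁻ x, ‖φ x‖ₑ ∂(surf Ω)) hK ?_ ?_ ?_ ?_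
  · refine ⟨∅, isOpen_empty, Subset.rfl, 0, by simp, fun φ hφ w => ?_⟩
    have : φ = fun _ => 0 := by
      funext x
      exact image_eq_zero_of_notMem_tsupport (fun h => hφ.2.2 h)
    rw [this]
    simp
  · rintro s t hst ⟨O, h1, h2, h3⟩
    exact ⟨O, h1, hst.trans h2, h3⟩
  · rintro s t ⟨O, h1, h2, C, hC, h3⟩ ⟨O', h1', h2', C', hC', h3'⟩
    refine ⟨O ∪ O', h1.union h1', union_subset_union h2 h2', C + C', by simp [hC, hC'],
      fun φ hφ w => ?_⟩
    obtain ⟨K₁, K₂, hK₁, hK₂, hs₁, hs₂, hKK⟩ :=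
      (show IsCompact (tsupport φ) from hφ.2.1).binary_compact_cover h1 h1' hφ.2.2
    obtain ⟨χ, c1, c2, c3, c4, W, hW, hKW, hW1⟩ := cutoff hK₁ h1 hs₁
    have e1 : IsTest O (fun x => χ x * φ x) :=
      ⟨c1.mul hφ.1, c2.mul_right, (tsupport_mul_subset_left).trans c3⟩
    have e2 : IsTest O' (fun x => (1 - χ x) * φ x) := by
      refine ⟨(contDiff_const.sub c1).mul hφ.1, hφ.2.1.mul_left, ?_⟩
      have h5 : tsupport (fun x => (1 - χ x) * φ x) ⊆ tsupport φ ∩ Wᶜ := by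
        apply closure_minimal _ ((isClosed_tsupport φ).inter hW.isClosed_compl)
        intro x hx
        refine ⟨subset_tsupport φ (fun h => hx (by simp [h])), fun h => hx ?_⟩
        simp [hW1 x h]
      intro x hx
      have := h5 hx
      rw [hKK] at this
      rcases this.1 with h | h
      · exact absurd (hKW h) this.2
      · exact hs₂ h
    have i : ∀ ψ : E → ℝ, ContDiff ℝ ∞ ψ → HasCompactSupport ψ →
        Integrable (fun x => fderiv ℝ ψ x w) (volume.restrict Ω) := by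
      intro ψ hψ hψc
      apply Integrable.integrableOn
      apply Continuous.integrable_of_hasCompactSupport
      · exact (hψ.continuous_fderiv (by simp)).clm_apply continuous_const
      · exact hψc.fderiv_apply (𝕜 := ℝ) w
    have e3 : ∫ x in Ω, fderiv ℝ φ x w = (∫ x in Ω, fderiv ℝ (fun x => χ x * φ x) x w)
        + ∫ x in Ω, fderiv ℝ (fun x => (1 - χ x) * φ x) x w := by
      rw [← integral_add (i _ e1.1 e1.2.1) (i _ e2.1 e2.2.1)]
      congr 1
      ext x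
      have d1 := ((e1.1.differentiable (by simp)) x).hasFDerivAt
      have d2 := ((e2.1.differentiable (by simp)) x).hasFDerivAt
      have d3 := d1.add d2
      have d4 : ((fun x => χ x * φ x) + fun x => (1 - χ x) * φ x) = φ := by
        funext x
        simp only [Pi.add_apply]
        ring
      rw [d4] at d3
      rw [d3.fderiv]
      rfl
    have e4 : ∫⁻ x, ‖φ x‖ₑ ∂(surf Ω) = (∫⁻ x, ‖χ x * φ x‖ₑ ∂(surf Ω))
        + ∫⁻ x, ‖(1 - χ x) * φ x‖ₑ ∂(surf Ω) := by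
      have hm : Measurable (fun x => ‖χ x * φ x‖ₑ) :=
        (c1.continuous.mul hφ.1.continuous).enorm.measurable
      rw [← lintegral_add_left hm]
      congr 1
      ext x
      have g1 : 0 ≤ 1 - χ x := by linarith [(c4 x).2]
      rw [enorm_mul, enorm_mul, ← add_mul, Real.enorm_of_nonneg (c4 x).1,
        Real.enorm_of_nonneg g1, ← ENNReal.ofReal_add (c4 x).1 g1]
      simp
    rw [e3, e4]
    refine (enorm_add_le _ _).trans ?_
    have f1 := h3 _ e1 w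
    have f2 := h3' _ e2 w
    calc _ ≤ C * ‖w‖ₑ * (∫⁻ x, ‖χ x * φ x‖ₑ ∂(surf Ω))
          + C' * ‖w‖ₑ * ∫⁻ x, ‖(1 - χ x) * φ x‖ₑ ∂(surf Ω) := add_le_add f1 f2
      _ ≤ (C + C') * ‖w‖ₑ * (∫⁻ x, ‖χ x * φ x‖ₑ ∂(surf Ω))
          + (C + C') * ‖w‖ₑ * ∫⁻ x, ‖(1 - χ x) * φ x‖ₑ ∂(surf Ω) := by
          gcongr
          · exact le_self_add
          · exact le_add_self
      _ = _ := by ring
  · intro x hx
    by_cases hxΩ : x ∈ Ω
    · refine ⟨Ω, mem_nhdsWithin_of_mem_nhds (hΩ.isOpen.mem_nhds hxΩ), Ω, hΩ.isOpen,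
        Subset.rfl, 0, by simp, fun φ hφ w => ?_⟩
      have h1 : ∫ x in Ω, fderiv ℝ φ x w = 0 := by
        have := ibp hΩ.isOpen (u := fun _ => (1 : ℝ)) contDiffOn_const (hφ.1.of_le (by simp))
          hφ.2.1 hφ.2.2 w
        simpa using this
      rw [h1]
      simp
    · have hxf : x ∈ frontier Ω := by
        rw [hΩ.isOpen.frontier_eq]
        exact ⟨hx, hxΩ⟩
      obtain ⟨e, g, L, r, hr, hg, h⟩ := hΩ.lip x hxf
      obtain ⟨C, hC, h3⟩ := di_local hΩ.isOpen hg h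
      exact ⟨ball x r, mem_nhdsWithin_of_mem_nhds (ball_mem_nhds x hr), ball x r, isOpen_ball,
        Subset.rfl, C, hC, h3⟩

/-- **DI** -/
theorem di : DI_stm := by
  intro Ω hΩ
  have hfc : IsCompact (frontier Ω) :=
    Metric.isCompact_of_isClosed_isBounded isClosed_frontier
      (hΩ.bdd.closure.subset frontier_subset_closure)
  have hfin : surf Ω univ < ⊤ := by
    have h1 : (Measure.hausdorffMeasure 2 : Measure E) (frontier Ω) < ⊤ := by
      apply hfc.measure_lt_top_of_nhdsWithin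
      intro x hx
      obtain ⟨e, g, L, r, hr, hg, h⟩ := hΩ.lip x hx
      have h2 := front_fin hΩ.isOpen hg h
      exact ⟨frontier Ω ∩ ball x r,
        inter_mem self_mem_nhdsWithin (mem_nhdsWithin_of_mem_nhds (ball_mem_nhds x hr)), h2⟩
    unfold surf
    rw [Measure.smul_apply, Measure.restrict_apply_univ, smul_eq_mul]
    exact ENNReal.mul_lt_top ENNReal.ofReal_lt_top h1
  refine ⟨hfin, ?_⟩
  obtain ⟨O, hO, hΩO, C, hC, h3⟩ := di_cover hΩ
  refine ⟨C.toReal, ENNReal.toReal_nonneg, fun F hF w => ?_⟩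
  obtain ⟨χ, c1, c2, c3, c4, W, hW, hKW, hW1⟩ := cutoff hΩ.bdd.isCompact_closure hO hΩO
  have hT : IsTest O (fun x => χ x * F x) :=
    ⟨c1.mul hF, c2.mul_right, (tsupport_mul_subset_left).trans c3⟩
  have h4 := h3 _ hT w
  have h5 : ∫ x in Ω, fderiv ℝ (fun x => χ x * F x) x w = ∫ x in Ω, fderiv ℝ F x w := by
    apply setIntegral_congr_fun hΩ.isOpen.measurableSet
    intro x hx
    have : (fun x => χ x * F x) =ᶠ[𝓝 x] F := by
      filter_upwards [hW.mem_nhds (hKW (subset_closure hx))] with y hy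
      rw [hW1 y hy, one_mul]
    simp only
    rw [this.fderiv_eq]
  have h6 : ∫⁻ x, ‖χ x * F x‖ₑ ∂(surf Ω) = ∫⁻ x, ‖F x‖ₑ ∂(surf Ω) := by
    apply lintegral_congr_ae
    filter_upwards [surf_ae Ω] with x hx
    rw [hW1 x (hKW (frontier_subset_closure hx)), one_mul]
  rw [h5, h6] at h4
  have hFi : Integrable F (surf Ω) := by
    have := memLp_surf hΩ.bdd hfin hF.continuous 1
    exact memLp_one_iff_integrable.1 this
  have h7 : ∫⁻ x, ‖F x‖ₑ ∂(surf Ω) ≠ ⊤ := hFi.2.ne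
  have h8 := ENNReal.toReal_mono (ENNReal.mul_ne_top (ENNReal.mul_ne_top hC
    enorm_ne_top) h7) h4
  rw [ENNReal.toReal_mul, ENNReal.toReal_mul, toReal_enorm, toReal_enorm, Real.norm_eq_abs] at h8
  rw [← integral_norm_eq_lintegral_enorm hFi.1] at h8
  exact h8

end Pool.Agent.Run7.h982
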