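import Pool.Agent.Run7.h982.L2

/-!
# Insulating cracks: Lipschitz curves are negligible
-/

set_option autoImplicit false

open MeasureTheory Set Filter Topology Metric
open scoped ContDiff ENNReal NNReal InnerProductSpace Convolution

namespace Pool.Agent.Run7.h982

/-- smoothing of Lipschitz functions -/
theorem smooth_lip {κ₀ : E → ℝ} {C : ℝ≥0} (hL : LipschitzWith C κ₀)
    (h01 : ∀ x, 0 ≤ κ₀ x ∧ κ₀ x ≤ 1) {ε : ℝ} (hε : 0 < ε) :
    ∃ κ : E → ℝ, ContDiff ℝ ∞ κ ∧ LipschitzWith C κ ∧ (∀ x, 0 ≤ κ x ∧ κ x ≤ 1) ∧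
      ∀ x, (∀ y ∈ ball x ε, κ₀ y = κ₀ x) → κ x = κ₀ x := by
  let φ : ContDiffBump (0 : E) := ⟨ε / 2, ε, half_pos hε, half_lt_self hε⟩
  have hφi : Integrable (φ.normed volume) := φ.integrable_normed
  have hint : ∀ x, Integrable (fun t => φ.normed volume t * κ₀ (x - t)) := by
    intro x
    have := hφi.mul_bdd (c := 1) (g := fun t => κ₀ (x - t))
      (hL.continuous.comp (continuous_const.sub continuous_id)).aestronglyMeasurable
      (Eventually.of_forall (fun t => by
        rw [Real.norm_eq_abs, abs_le]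
        constructor <;> linarith [(h01 (x - t)).1, (h01 (x - t)).2]))
    exact this
  have hval : ∀ x, (φ.normed volume ⋆[ContinuousLinearMap.lsmul ℝ ℝ, volume] κ₀) x =
      ∫ t, φ.normed volume t * κ₀ (x - t) := fun x => rfl
  refine ⟨φ.normed volume ⋆[ContinuousLinearMap.lsmul ℝ ℝ, volume] κ₀, ?_, ?_, ?_, ?_⟩
  · exact φ.hasCompactSupport_normed.contDiff_convolution_left _ φ.contDiff_normed
      hL.continuous.locallyIntegrable
  · apply LipschitzWith.of_dist_le_mul
    intro x y
    rw [Real.dist_eq, hval, hval, ← integral_sub (hint x) (hint y)]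
    calc |∫ t, (φ.normed volume t * κ₀ (x - t) - φ.normed volume t * κ₀ (y - t))|
        ≤ ∫ t, |φ.normed volume t * κ₀ (x - t) - φ.normed volume t * κ₀ (y - t)| :=
          abs_integral_le_integral_abs
      _ ≤ ∫ t, φ.normed volume t * (C * dist x y) := by
          apply integral_mono_of_nonneg
          · exact Eventually.of_forall (fun _ => abs_nonneg _)
          · exact hφi.mul_const _
          · refine Eventually.of_forall (fun t => ?_)
            simp only
            rw [← mul_sub, abs_mul, abs_of_nonneg (φ.nonneg_normed t)]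
            apply mul_le_mul_of_nonneg_left _ (φ.nonneg_normed t)
            have := hL.dist_le_mul (x - t) (y - t)
            rw [Real.dist_eq, dist_sub_right] at this
            exact this
      _ = C * dist x y := by
          rw [integral_mul_const, φ.integral_normed, one_mul]
  · intro x
    rw [hval]
    constructor
    · exact integral_nonneg (fun t => mul_nonneg (φ.nonneg_normed t) (h01 _).1)
    · calc ∫ t, φ.normed volume t * κ₀ (x - t) ≤ ∫ t, φ.normed volume t := by
            apply integral_mono (hint x) hφi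
            intro t
            exact mul_le_of_le_one_right (φ.nonneg_normed t) (h01 _).2
        _ = 1 := φ.integral_normed
  · intro x hx
    rw [hval]
    have : ∀ t, φ.normed volume t * κ₀ (x - t) = φ.normed volume t * κ₀ x := by
      intro t
      by_cases ht : t ∈ ball (0 : E) ε
      · rw [hx (x - t) (by
          rw [mem_ball, dist_eq_norm]
          simpa using ht)]
      · have : φ.normed volume t = 0 := by
          have h1 : t ∉ Function.support (φ.normed volume) := by
            rw [φ.support_normed_eq]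
            exact ht
          simpa using h1
        rw [this]; simp
    simp_rw [this]
    rw [integral_mul_const, φ.integral_normed, one_mul]

/-- volume of tubes about Lipschitz curves -/
theorem tube_vol {γ : ℝ → E} {C : ℝ≥0} (hγ : LipschitzOnWith C γ (Icc 0 1)) {K : Set E}
    (hK : K ⊆ γ '' Icc 0 1) (hKc : IsCompact K) :
    ∃ M : ℝ, 0 ≤ M ∧ ∀ ρ : ℝ, 0 < ρ → ρ ≤ 1 →
      volume (cthickening (3 * ρ) K) ≤ ENNReal.ofReal (M * ρ ^ 2) := by
  set v : ℝ := (volume (ball (0 : E) 1)).toReal with hv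
  have hv0 : 0 ≤ v := ENNReal.toReal_nonneg
  refine ⟨3 * (C + 3) ^ 3 * v, by positivity, fun ρ hρ hρ1 => ?_⟩
  set N : ℕ := ⌈1 / ρ⌉₊ with hN
  have hN0 : 0 < N := Nat.ceil_pos.2 (by positivity)
  have hN0' : (0 : ℝ) < N := by exact_mod_cast hN0
  have hN1 : 1 / ρ ≤ N := Nat.le_ceil _
  have hN2 : (N : ℝ) < 1 / ρ + 1 := Nat.ceil_lt_add_one (by positivity)
  have hN3 : 1 / (N : ℝ) ≤ ρ := by
    rw [div_le_iff₀ hN0']
    rw [div_le_iff₀ hρ] at hN1
    linarith
  have hcov : cthickening (3 * ρ) K ⊆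
      ⋃ k ∈ Finset.range (N + 1), closedBall (γ (k / N)) ((C + 3) * ρ) := by
    intro x hx
    rw [hKc.cthickening_eq_biUnion_closedBall (by positivity)] at hx
    simp only [mem_iUnion, exists_prop] at hx
    obtain ⟨z, hz, hxz⟩ := hx
    obtain ⟨s, hs, rfl⟩ := hK hz
    simp only [mem_iUnion, exists_prop, Finset.mem_range]
    have hsN : 0 ≤ s * N := mul_nonneg hs.1 hN0'.le
    have hfl : ((⌊s * N⌋₊ : ℕ) : ℝ) ≤ s * N := Nat.floor_le hsN
    have hfl2 : s * N < (⌊s * N⌋₊ : ℕ) + 1 := Nat.lt_floor_add_one _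
    have hk1 : ((⌊s * N⌋₊ : ℕ) : ℝ) / N ∈ Icc (0 : ℝ) 1 := by
      constructor
      · positivity
      · rw [div_le_one hN0']
        nlinarith [hs.2]
    refine ⟨⌊s * N⌋₊, ?_, ?_⟩
    · have : (⌊s * N⌋₊ : ℝ) ≤ N := by nlinarith [hs.2]
      have h3 : ⌊s * N⌋₊ ≤ N := by exact_mod_cast this
      omega
    · rw [mem_closedBall] at hxz ⊢
      have h1 := hγ.dist_le_mul s hs _ hk1
      have h2 : dist s (((⌊s * N⌋₊ : ℕ) : ℝ) / N) ≤ ρ := by
        rw [Real.dist_eq]
        have e1 : s - ((⌊s * N⌋₊ : ℕ) : ℝ) / N = (s * N - (⌊s * N⌋₊ : ℕ)) / N := by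
          field_simp
        rw [e1, abs_of_nonneg (div_nonneg (by linarith) hN0'.le)]
        refine le_trans ?_ hN3
        exact div_le_div_of_nonneg_right (by linarith) hN0'.le
      have h3 : (C : ℝ) * dist s (((⌊s * N⌋₊ : ℕ) : ℝ) / N) ≤ C * ρ :=
        mul_le_mul_of_nonneg_left h2 C.2
      have h4 := dist_triangle x (γ s) (γ (((⌊s * N⌋₊ : ℕ) : ℝ) / N))
      linarith
  refine (measure_mono hcov).trans ((measure_biUnion_finset_le _ _).trans ?_)
  have hball : ∀ x : E, volume (closedBall x ((C + 3) * ρ)) =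
      ENNReal.ofReal (((C + 3) * ρ) ^ 3 * v) := by
    intro x
    rw [Measure.addHaar_closedBall volume x (by positivity)]
    have : Module.finrank ℝ E = 3 := by simp [E]
    rw [this, ENNReal.ofReal_mul (by positivity), hv,
      ENNReal.ofReal_toReal (measure_ball_lt_top).ne]
  simp_rw [hball]
  rw [Finset.sum_const, Finset.card_range, nsmul_eq_mul]
  have e1 : ((N + 1 : ℕ) : ℝ≥0∞) = ENNReal.ofReal ((N : ℝ) + 1) := by
    rw [ENNReal.ofReal_add (by positivity) zero_le_one]
    simp
  rw [e1, ← ENNReal.ofReal_mul (by positivity)]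
  apply ENNReal.ofReal_le_ofReal
  have h5 : ((N : ℝ) + 1) * ρ ≤ 3 := by
    have : (N : ℝ) * ρ < (1 / ρ + 1) * ρ := mul_lt_mul_of_pos_right hN2 hρ
    have e2 : (1 / ρ + 1) * ρ = 1 + ρ := by field_simp
    rw [e2] at this
    linarith
  have h6 : 0 ≤ ((C : ℝ) + 3) ^ 3 * ρ ^ 2 * v := by positivity
  calc ((N : ℝ) + 1) * (((C + 3) * ρ) ^ 3 * v)
      = (((N : ℝ) + 1) * ρ) * (((C : ℝ) + 3) ^ 3 * ρ ^ 2 * v) := by ring
    _ ≤ 3 * (((C : ℝ) + 3) ^ 3 * ρ ^ 2 * v) := mul_le_mul_of_nonneg_right h5 h6
    _ = 3 * ((C : ℝ) + 3) ^ 3 * v * ρ ^ 2 := by ring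

theorem edge : EDGE_stm := by
  intro γ C hγ K hK hKc g hg O hO hKO ε hε
  obtain ⟨M, hM, hvol⟩ := tube_vol hγ hK hKc
  -- K is null
  have hK0 : volume K = 0 := by
    have h1 : ∀ ρ : ℝ, 0 < ρ → ρ ≤ 1 → volume K ≤ ENNReal.ofReal (M * ρ ^ 2) := fun ρ h1 h2 =>
      (measure_mono (self_subset_cthickening K)).trans (hvol ρ h1 h2)
    have h2 : Tendsto (fun ρ : ℝ => ENNReal.ofReal (M * ρ ^ 2)) (𝓝[>] 0) (𝓝 0) := by
      have : Tendsto (fun ρ : ℝ => ENNReal.ofReal (M * ρ ^ 2)) (𝓝 0) (𝓝 (ENNReal.ofReal 0)) := by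
        apply ENNReal.tendsto_ofReal
        have : Continuous (fun ρ : ℝ => M * ρ ^ 2) := by fun_prop
        simpa using this.tendsto 0
      rw [ENNReal.ofReal_zero] at this
      exact this.mono_left nhdsWithin_le_nhds
    have h3 : volume K ≤ 0 := by
      apply ge_of_tendsto h2
      filter_upwards [Ioc_mem_nhdsGT (zero_lt_one' ℝ)] with ρ hρ
      exact h1 ρ hρ.1 hρ.2
    exact le_antisymm h3 zero_le
  -- energy in the tubes
  set a : ℝ → ℝ≥0∞ := fun ρ => eLpNorm g 2 (volume.restrict (cthickening (3 * ρ) K)) with ha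
  have ha0 : Tendsto a (𝓝[>] 0) (𝓝 0) := by
    set ν : Measure E := volume.withDensity (fun x => ‖g x‖ₑ ^ (2 : ℝ)) with hν
    have hνfin : IsFiniteMeasure ν := by
      constructor
      rw [hν, withDensity_apply _ MeasurableSet.univ, Measure.restrict_univ]
      have := eLpNorm_nnreal_pow_eq_lintegral (f := g) (μ := volume) (p := 2) (by norm_num)
      have h2 : ((2 : ℝ≥0) : ℝ) = 2 := by norm_num
      rw [h2] at this
      rw [← this]
      exact ENNReal.rpow_lt_top_of_nonneg (by norm_num) (by simpa using hg.2.ne)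
    have hνK : ν K = 0 := withDensity_absolutelyContinuous _ _ hK0
    have h1 : Tendsto (fun r => ν (cthickening r K)) (𝓝 0) (𝓝 (ν K)) :=
      tendsto_measure_cthickening_of_isCompact hKc
    rw [hνK] at h1
    have h2 : ∀ ρ, a ρ = (ν (cthickening (3 * ρ) K)) ^ (1 / 2 : ℝ) := by
      intro ρ
      rw [hν, withDensity_apply _ isClosed_cthickening.measurableSet]
      have := eLpNorm_nnreal_pow_eq_lintegral (f := g)
        (μ := volume.restrict (cthickening (3 * ρ) K)) (p := 2) (by norm_num)
      have h2 : ((2 : ℝ≥0) : ℝ) = 2 := by norm_num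
      rw [h2] at this
      rw [← this, ← ENNReal.rpow_mul]
      simp [ha]
    have h3 : Tendsto (fun ρ : ℝ => 3 * ρ) (𝓝[>] 0) (𝓝 0) := by
      have : Continuous (fun ρ : ℝ => 3 * ρ) := by fun_prop
      have := this.tendsto 0
      rw [mul_zero] at this
      exact this.mono_left nhdsWithin_le_nhds
    have h4 := (h1.comp h3).ennrpow_const (1 / 2 : ℝ)
    rw [ENNReal.zero_rpow_of_pos (by norm_num)] at h4
    refine h4.congr (fun ρ => ?_)
    rw [h2]; rfl
  have ha1 : Tendsto (fun ρ => (a ρ).toReal * Real.sqrt M) (𝓝[>] 0) (𝓝 0) := by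
    have := ((ENNReal.tendsto_toReal ENNReal.zero_ne_top).comp ha0).mul_const (Real.sqrt M)
    simpa using this
  obtain ⟨δ, hδ, hδO⟩ := hKc.exists_cthickening_subset_open hO hKO
  have hev : ∀ᶠ ρ : ℝ in 𝓝[>] 0, ρ ∈ Ioc (0 : ℝ) (min 1 (δ / 3)) :=
    Ioc_mem_nhdsGT (lt_min zero_lt_one (by positivity))
  obtain ⟨ρ, hρ1, hρ2⟩ := (hev.and (ha1.eventually (gt_mem_nhds hε))).exists
  have hρ0 : 0 < ρ := hρ1.1
  have hρ1' : ρ ≤ 1 := hρ1.2.trans (min_le_left _ _)
  have hρδ : 3 * ρ ≤ δ := by
    have := hρ1.2.trans (min_le_right _ _)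
    linarith
  rcases K.eq_empty_or_nonempty with hKe | hKne
  · subst hKe
    refine ⟨fun _ => 0, contDiff_const, HasCompactSupport.zero, ?_, fun x => by simp,
      ⟨∅, isOpen_empty, Subset.rfl, fun x hx => by simp at hx⟩, ?_⟩
    · have : tsupport (fun _ : E => (0 : ℝ)) = ∅ := by
        simp [tsupport, Function.support]
      rw [this]; exact empty_subset _
    · have : ∀ x : E, gradient (fun _ : E => (0 : ℝ)) x = 0 :=
        fun x => grad_of_fderiv_zero (by simp)
      simp [this, hε]
  -- the cutoff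
  set κ₀ : E → ℝ := fun x => min 1 (max 0 (2 - infDist x K / ρ)) with hκ₀
  have hκL : LipschitzWith (1 / ρ).toNNReal κ₀ := by
    apply LipschitzWith.const_min
    apply LipschitzWith.const_max
    apply LipschitzWith.of_dist_le_mul
    intro x y
    rw [Real.dist_eq, Real.coe_toNNReal _ (by positivity)]
    have e1 : 2 - infDist x K / ρ - (2 - infDist y K / ρ) =
        (infDist y K - infDist x K) * (1 / ρ) := by field_simp; ring
    rw [e1, abs_mul, abs_of_pos (by positivity : 0 < 1 / ρ), mul_comm]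
    apply mul_le_mul_of_nonneg_left _ (by positivity)
    have := (lipschitz_infDist_pt K).dist_le_mul y x
    rw [Real.dist_eq, NNReal.coe_one, one_mul, dist_comm] at this
    exact this
  have h01 : ∀ x, 0 ≤ κ₀ x ∧ κ₀ x ≤ 1 := fun x =>
    ⟨le_min zero_le_one (le_max_left _ _), min_le_left _ _⟩
  obtain ⟨κ, b1, b2, b3, b4⟩ := smooth_lip hκL h01 (half_pos hρ0)
  have hinf : ∀ x y : E, infDist y K ≤ infDist x K + dist x y := fun x y =>
    infDist_le_infDist_add_dist.trans (by rw [dist_comm])
  have hzero : ∀ x, 3 * ρ < infDist x K → κ x = 0 := by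
    intro x hx
    have h1 : κ₀ x = 0 := by
      have : 2 - infDist x K / ρ ≤ 0 := by
        rw [sub_nonpos, le_div_iff₀ hρ0]; linarith
      simp [hκ₀, max_eq_left this]
    rw [b4 x, h1]
    intro y hy
    rw [h1]
    have h2 : 2 * ρ ≤ infDist y K := by
      have := hinf y x
      rw [mem_ball] at hy
      linarith
    have : 2 - infDist y K / ρ ≤ 0 := by
      rw [sub_nonpos, le_div_iff₀ hρ0]; linarith
    simp [hκ₀, max_eq_left this]
  have hone : ∀ x, infDist x K < ρ / 2 → κ x = 1 := by
    intro x hx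
    have h1 : ∀ y, infDist y K ≤ ρ → κ₀ y = 1 := by
      intro y hy
      have : 1 ≤ 2 - infDist y K / ρ := by
        have : infDist y K / ρ ≤ 1 := (div_le_one hρ0).2 hy
        linarith
      simp only [hκ₀]
      rw [max_eq_right (by linarith), min_eq_left this]
    rw [b4 x, h1 x (by linarith)]
    intro y hy
    rw [h1 x (by linarith), h1 y]
    have := hinf x y
    rw [mem_ball, dist_comm] at hy
    linarith
  have hsub : tsupport κ ⊆ cthickening (3 * ρ) K := by
    apply closure_minimal _ isClosed_cthickening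
    intro x hx
    by_contra h
    apply hx
    apply hzero
    rw [mem_cthickening_iff] at h
    push Not at h
    rw [infDist]
    rw [ENNReal.ofReal_lt_iff_lt_toReal (by positivity) (infEDist_ne_top hKne)] at h
    exact h
  have hcs : HasCompactSupport κ :=
    HasCompactSupport.of_support_subset_isCompact hKc.cthickening ((subset_tsupport κ).trans hsub)
  refine ⟨κ, b1, hcs, hsub.trans ((cthickening_mono hρδ K).trans hδO), b3,
    ⟨{x | infDist x K < ρ / 2}, isOpen_lt (continuous_infDist_pt K) continuous_const, ?_, ?_⟩, ?_⟩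
  · intro x hx
    show infDist x K < ρ / 2
    rw [infDist_zero_of_mem hx]
    positivity
  · exact fun x hx => hone x hx
  · set T := cthickening (3 * ρ) K with hT
    have hTm : MeasurableSet T := isClosed_cthickening.measurableSet
    have hTfin : volume T < ⊤ := hKc.cthickening.measure_lt_top
    have hgT : MemLp g 2 (volume.restrict T) := hg.restrict T
    have hκn : ∀ x, ‖gradient κ x‖ ≤ 1 / ρ := by
      intro x
      rw [norm_grad]
      have := norm_fderiv_le_of_lipschitz ℝ b2 (x₀ := x)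
      rwa [Real.coe_toNNReal _ (by positivity)] at this
    have h1T : MemLp (fun _ : E => (1 : ℝ)) 2 (volume.restrict T) := by
      have : IsFiniteMeasure (volume.restrict T) := ⟨by simpa using hTfin⟩
      exact memLp_const 1
    have i1 : Integrable (fun x => |g x|) (volume.restrict T) := by
      have := int_mul hgT.abs h1T
      simpa using this
    have e1 : ∫ x, |g x| * ‖gradient κ x‖ = ∫ x in T, |g x| * ‖gradient κ x‖ := by
      symm
      apply setIntegral_eq_integral_of_forall_compl_eq_zero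
      intro x hx
      rw [grad_zero_of (fun h => hx (hsub h))]; simp
    rw [e1]
    have e2 : ∫ x in T, |g x| * ‖gradient κ x‖ ≤ ∫ x in T, |g x * 1| * (1 / ρ) := by
      apply integral_mono_of_nonneg
      · exact Eventually.of_forall (fun x => by positivity)
      · simpa using i1.mul_const _
      · refine Eventually.of_forall (fun x => ?_)
        simp only [mul_one]
        exact mul_le_mul_of_nonneg_left (hκn x) (abs_nonneg _)
    rw [integral_mul_const] at e2
    have e3 := int_abs_mul_le hgT h1T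
    have e4 : (eLpNorm (fun _ : E => (1 : ℝ)) 2 (volume.restrict T)).toReal ≤
        Real.sqrt M * ρ := by
      rw [eLpNorm_const' _ (by norm_num) (by norm_num)]
      simp only [enorm_one, one_mul, Measure.restrict_apply_univ]
      have h5 := hvol ρ hρ0 hρ1'
      have h6 : (volume T ^ (1 / (2 : ℝ≥0∞).toReal)).toReal = Real.sqrt (volume T).toReal := by
        rw [Real.sqrt_eq_rpow, ← ENNReal.toReal_rpow]
        norm_num
      rw [h6]
      have h7 : (volume T).toReal ≤ M * ρ ^ 2 :=
        ENNReal.toReal_le_of_le_ofReal (by positivity) h5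
      calc Real.sqrt (volume T).toReal ≤ Real.sqrt (M * ρ ^ 2) := Real.sqrt_le_sqrt h7
        _ = Real.sqrt M * ρ := by
          rw [Real.sqrt_mul hM, Real.sqrt_sq hρ0.le]
    calc ∫ x in T, |g x| * ‖gradient κ x‖ ≤ (∫ x in T, |g x * 1|) * (1 / ρ) := e2
      _ ≤ ((a ρ).toReal * (Real.sqrt M * ρ)) * (1 / ρ) := by
          apply mul_le_mul_of_nonneg_right _ (by positivity)
          exact e3.trans (mul_le_mul_of_nonneg_left e4 ENNReal.toReal_nonneg)
      _ = (a ρ).toReal * Real.sqrt M := by field_simp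
      _ < ε := hρ2

end Pool.Agent.Run7.h982
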