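import Pool.Agent.Run7.h982.Strip

/-!
# Insulating cracks: interior points are negligible
-/

set_option autoImplicit false

open MeasureTheory Set Filter Topology Metric
open scoped ContDiff ENNReal NNReal InnerProductSpace

namespace Pool.Agent.Run7.h982

theorem cof_pull {M : E →L[ℝ] E} (h : M.IsInvertible) (α β : E) :
    ⟪cof M (ContinuousLinearMap.adjoint M α), ContinuousLinearMap.adjoint M β⟫_ℝ =
      |M.det| * ⟪α, β⟫_ℝ := by
  have e1 : ∀ γ : E, ContinuousLinearMap.adjoint M.inverse (ContinuousLinearMap.adjoint M γ) =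
      γ := by
    intro γ
    have : ContinuousLinearMap.adjoint M.inverse ∘L
        ContinuousLinearMap.adjoint M = ContinuousLinearMap.id ℝ E := by
      rw [← ContinuousLinearMap.adjoint_comp, h.self_comp_inverse]
      exact ContinuousLinearMap.adjoint_id
    have h3 := congrArg (fun L : E →L[ℝ] E => L γ) this
    simpa using h3
  rw [cof_inner, e1, e1]

theorem exists_loc {Ω S : Set E} {u : E → ℝ} (hΩ : IsOpen Ω) (hS : IsCompact S)
    (hSΩ : S ⊆ Ω) (hu : Sol Ω S u) {p : E} (hp : p ∈ S) (hint : IntPt ∞ S p) :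
    ∃ (Φ : OpenPartialHomeomorph E E) (R : ℝ), Φ 0 = p ∧ Loc Ω S u Φ R := by
  obtain ⟨Φ₀, k0, k1, k2, k3, k4⟩ := hint
  obtain ⟨Φ, m0, m1, m2, m3, m4, m5⟩ := rechart k2 k3 Φ₀.open_source Subset.rfl k0 (by simp) k4 hΩ
    (by rw [k1]; exact hSΩ hp)
  obtain ⟨R₀, hR₀, hb₀⟩ := Metric.isOpen_iff.1 Φ.open_source 0 m0
  refine ⟨Φ, R₀ / 4, by rw [m1, k1], ⟨hΩ, hS, hu, m2, m3, m4, by positivity, ?_, m5⟩⟩
  exact (closedBall_subset_ball (by linarith)).trans hb₀

theorem Loc.half {Ω S : Set E} {u : E → ℝ} {Φ : OpenPartialHomeomorph E E} {R : ℝ}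
    (h : Loc Ω S u Φ R) : Loc Ω S u Φ (R / 2) :=
  ⟨h.hΩ, h.hS, h.hu, h.h1, h.h2, h.hSS, by linarith [h.hR], by
    refine (closedBall_subset_closedBall ?_).trans h.hb
    linarith [h.hR], h.hT⟩

theorem int_removable : INT_stm := by
  intro Ω S u hΩ hS hSΩ hu p hp hint
  obtain ⟨Φ, R, hΦ0, h⟩ := exists_loc hΩ hS hSΩ hu hp hint
  have hR := h.hR
  have h' := h.half
  set r := R / 2 with hr
  have hr0 : 0 < r := by positivity
  have hbr : ball (0 : E) r ⊆ Φ.source := ball_subset_closedBall.trans h'.hbR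
  have oH := HB_open r
  have oV : IsOpen (Φ '' ball (0 : E) r) := Φ.isOpen_image_of_subset_source isOpen_ball hbr
  refine ⟨Φ '' ball (0 : E) r, oV, ⟨0, mem_ball_self hr0, hΦ0⟩, ?_⟩
  intro K hK hKc O hO hKO ε hε
  -- the compact set in the coordinates
  have hKV : ∀ x ∈ K, x ∈ Φ '' ball (0 : E) r := fun x hx => (hK hx).2
  have hKT : K ⊆ Φ.target := by
    intro x hx
    obtain ⟨ζ, hζ, rfl⟩ := hKV x hx
    exact Φ.map_source (hbr hζ)
  set K' := Φ.symm '' K with hK'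
  have hK'c : IsCompact K' := hKc.image_of_continuousOn (Φ.symm.continuousOn.mono hKT)
  have oB : IsOpen (ball (0 : E) r ∩ Φ ⁻¹' O) :=
    (Φ.continuousOn.mono hbr).isOpen_inter_preimage isOpen_ball hO
  have hK's : K' ⊆ ball (0 : E) r ∩ Φ ⁻¹' O := by
    rintro _ ⟨x, hx, rfl⟩
    obtain ⟨ζ, hζ, hζx⟩ := hKV x hx
    have : Φ.symm x = ζ := by rw [← hζx]; exact Φ.left_inv (hbr hζ)
    refine ⟨by rw [this]; exact hζ, ?_⟩
    show Φ (Φ.symm x) ∈ O
    rw [Φ.right_inv (hKT hx)]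
    exact hKO hx
  obtain ⟨k, c1, c2, c3, c4, W, c5, c6, c7⟩ := cutoff hK'c oB hK's
  have hkt : IsTest (ball (0 : E) r) k := ⟨c1, c2, c3.trans inter_subset_left⟩
  have hlim := strip_three (b := flux Φ u) (h'.flux_smooth.of_le (by simp)) h'.flux_memLp
    h.flux_nor (fun φ hφ => h'.sol.weak φ hφ) hkt (fun ζ => (c4 ζ).1)
  obtain ⟨s, hs1, hs0⟩ := ((hlim.eventually (gt_mem_nhds hε)).and self_mem_nhdsWithin).exists
  have hs0 : 0 < s := hs0
  -- the cutoff
  set κ' : E → ℝ := fun ζ => k ζ * (1 - stP (ζ 2 / s)) with hκ'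
  have hκ's : ContDiff ℝ ∞ κ' :=
    c1.mul (contDiff_const.sub (stP_smooth.comp ((coord_smooth 2).div_const s)))
  have hκ'0 : ∀ ζ ∉ tsupport k, κ' ζ = 0 := fun ζ hζ => by
    simp [hκ', image_eq_zero_of_notMem_tsupport hζ]
  have hκ'01 : ∀ ζ, 0 ≤ κ' ζ ∧ κ' ζ ≤ 1 := by
    intro ζ
    obtain ⟨p1, p2⟩ := stP_mem (ζ 2 / s)
    obtain ⟨p3, p4⟩ := c4 ζ
    simp only [hκ']
    constructor
    · exact mul_nonneg p3 (by linarith)
    · calc k ζ * (1 - stP (ζ 2 / s)) ≤ 1 * 1 := by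
            apply mul_le_mul p4 (by linarith) (by linarith) zero_le_one
        _ = 1 := one_mul 1
  have hC : IsCompact (Φ '' tsupport k) :=
    (show IsCompact (tsupport k) from c2).image_of_continuousOn
      (Φ.continuousOn.mono (hkt.2.2.trans hbr))
  have hCO : Φ '' tsupport k ⊆ O := by
    rintro _ ⟨ζ, hζ, rfl⟩
    exact (c3 hζ).2
  have hCV : Φ '' tsupport k ⊆ Φ '' ball (0 : E) r := image_mono hkt.2.2
  set V := Φ '' ball (0 : E) r with hV
  set κ : E → ℝ := V.indicator (fun x => κ' (Φ.symm x)) with hκ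
  have hκ0 : ∀ x ∉ Φ '' tsupport k, κ x = 0 := by
    intro x hx
    by_cases hxV : x ∈ V
    · rw [hκ, indicator_of_mem hxV]
      apply hκ'0
      intro h1
      obtain ⟨ζ, hζ, rfl⟩ := hxV
      rw [Φ.left_inv (hbr hζ)] at h1
      exact hx ⟨ζ, h1, rfl⟩
    · rw [hκ, indicator_of_notMem hxV]
  have hκts : tsupport κ ⊆ Φ '' tsupport k := by
    apply closure_minimal _ hC.isClosed
    intro x hx
    by_contra h1
    exact hx (hκ0 x h1)
  have hnear : ∀ ζ ∈ ball (0 : E) r, κ =ᶠ[𝓝 (Φ ζ)] fun x => κ' (Φ.symm x) := by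
    intro ζ hζ
    filter_upwards [oV.mem_nhds ⟨ζ, hζ, rfl⟩] with x hx
    rw [hκ, indicator_of_mem hx]
  have hκs : ContDiff ℝ ∞ κ := by
    rw [contDiff_iff_contDiffAt]
    intro x
    by_cases hxV : x ∈ V
    · obtain ⟨ζ, hζ, rfl⟩ := hxV
      apply ContDiffAt.congr_of_eventuallyEq _ (hnear ζ hζ)
      have e1 : ContDiffAt ℝ ∞ Φ.symm (Φ ζ) :=
        h.h2.contDiffAt (Φ.open_target.mem_nhds (Φ.map_source (hbr hζ)))
      exact hκ's.contDiffAt.comp (Φ ζ) e1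
    · have hx2 : x ∉ Φ '' tsupport k := fun h1 => hxV (hCV h1)
      have : κ =ᶠ[𝓝 x] fun _ => 0 := by
        filter_upwards [hC.isClosed.isOpen_compl.mem_nhds hx2] with y hy
        exact hκ0 y hy
      exact contDiffAt_const.congr_of_eventuallyEq this
  have hκc : HasCompactSupport κ :=
    HasCompactSupport.of_support_subset_isCompact hC ((subset_tsupport κ).trans hκts)
  have oW' : IsOpen ((ball (0 : E) r ∩ W) ∩ {ζ : E | |ζ 2| < s}) :=
    (isOpen_ball.inter c5).inter (isOpen_lt (coord_cont 2).abs continuous_const)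
  refine ⟨κ, hκs, hκc, hκts.trans hCO, ?_, ⟨Φ '' ((ball (0 : E) r ∩ W) ∩ {ζ : E | |ζ 2| < s}),
    Φ.isOpen_image_of_subset_source oW' (inter_subset_left.trans (inter_subset_left.trans hbr)),
    ?_, ?_⟩, ?_⟩
  · intro x
    by_cases hxV : x ∈ V
    · rw [hκ, indicator_of_mem hxV]; exact hκ'01 _
    · rw [hκ, indicator_of_notMem hxV]; simp
  · intro x hx
    have hx1 : Φ.symm x ∈ K' := ⟨x, hx, rfl⟩
    refine ⟨Φ.symm x, ⟨⟨(hK's hx1).1, c6 hx1⟩, ?_⟩, Φ.right_inv (hKT hx)⟩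
    have : (Φ.symm x) 2 = 0 := by
      apply (h.hSS _ (Φ.map_target (hKT hx))).1
      rw [Φ.right_inv (hKT hx)]
      exact (hK hx).1
    show |(Φ.symm x) 2| < s
    rw [this, abs_zero]
    exact hs0
  · rintro _ ⟨ζ, ⟨⟨hζ1, hζ2⟩, hζ3⟩, rfl⟩
    rw [(hnear ζ hζ1).eq_of_nhds, Φ.left_inv (hbr hζ1)]
    simp only [hκ']
    have hζ3' : |ζ 2| < s := hζ3
    rw [c7 ζ hζ2, stP_near (τ := ζ 2 / s) (by
      rw [abs_div, abs_of_pos hs0, div_le_one hs0]
      exact hζ3'.le)]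
    simp
  · -- change of variables
    have hHb : HB r ⊆ ball (0 : E) r := inter_subset_left
    have oUS : IsOpen (Φ '' HB r) := Φ.isOpen_image_of_subset_source oH (hHb.trans hbr)
    have oS : IsOpen (Ω \ S) := hΩ.sdiff hS.isClosed
    have hmap : ∀ ζ ∈ HB r, Φ ζ ∈ Ω \ S := fun ζ hζ =>
      ⟨h.hT (Φ.map_source (hbr hζ.1)), fun h1 => hζ.2 ((h.hSS ζ (hbr hζ.1)).1 h1)⟩
    have hUSs : Φ '' HB r ⊆ Ω \ S := by
      rintro _ ⟨ζ, hζ, rfl⟩
      exact hmap ζ hζ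
    have hout : ∀ x ∈ Ω \ S, x ∉ Φ '' HB r → gradient κ x = 0 := by
      intro x hx hx2
      apply grad_zero_of
      intro h1
      apply hx2
      obtain ⟨ζ, hζ, rfl⟩ := hκts h1
      exact ⟨ζ, ⟨hkt.2.2 hζ, fun h2 => hx.2 ((h.hSS ζ (hbr (hkt.2.2 hζ))).2 h2)⟩, rfl⟩
    have e1 : ∫ x in Ω \ S, |⟪gradient u x, gradient κ x⟫_ℝ| =
        ∫ x in Φ '' HB r, |⟪gradient u x, gradient κ x⟫_ℝ| := by
      rw [← integral_indicator oS.measurableSet, ← integral_indicator oUS.measurableSet]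
      congr 1
      funext x
      by_cases hx : x ∈ Ω \ S
      · rw [indicator_of_mem hx]
        by_cases hxU : x ∈ Φ '' HB r
        · rw [indicator_of_mem hxU]
        · rw [indicator_of_notMem hxU, hout x hx hxU]; simp
      · rw [indicator_of_notMem hx, indicator_of_notMem (fun h => hx (hUSs h))]
    rw [e1, integral_image_eq_integral_abs_det_fderiv_smul volume oH.measurableSet
      (chart_deriv h.h1 h.h2 h'.hbR hHb) (Φ.injOn.mono (hHb.trans hbr))]
    have e2 : ∫ ζ in HB r, |(fderiv ℝ Φ ζ).det| • |⟪gradient u (Φ ζ), gradient κ (Φ ζ)⟫_ℝ| =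
        ∫ ζ in HB r, |⟪flux Φ u ζ, gradient κ' ζ⟫_ℝ| := by
      apply setIntegral_congr_fun oH.measurableSet
      intro ζ hζ
      simp only
      have hζs := hbr hζ.1
      have dΦ : HasFDerivAt Φ (fderiv ℝ Φ ζ) ζ :=
        ((h.h1.contDiffAt (Φ.open_source.mem_nhds hζs)).differentiableAt (by simp)).hasFDerivAt
      have du : DifferentiableAt ℝ u (Φ ζ) := (hu.an _ (hmap ζ hζ)).differentiableAt
      have dκ : DifferentiableAt ℝ κ (Φ ζ) := hκs.differentiable (by simp) _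
      have g1 : gradient (fun ζ => u (Φ ζ)) ζ =
          ContinuousLinearMap.adjoint (fderiv ℝ Φ ζ) (gradient u (Φ ζ)) := grad_comp dΦ du
      have g2 : gradient κ' ζ =
          ContinuousLinearMap.adjoint (fderiv ℝ Φ ζ) (gradient κ (Φ ζ)) := by
        rw [← grad_comp dΦ dκ]
        apply Filter.EventuallyEq.gradient_eq
        filter_upwards [isOpen_ball.mem_nhds hζ.1] with ξ hξ
        rw [(hnear ξ hξ).eq_of_nhds, Φ.left_inv (hbr hξ)]
      unfold flux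
      rw [g1, g2, cof_pull (chart_inv h.h1 h.h2 hζs).1, abs_mul, abs_abs, smul_eq_mul]
    rw [e2]
    exact hs1

end Pool.Agent.Run7.h982
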