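import Pool.Agent.Run7.h982.Iface

/-!
# Insulating cracks: basic lemmas
-/

set_option autoImplicit false

open MeasureTheory Set Filter Topology Metric
open scoped ContDiff ENNReal NNReal InnerProductSpace

namespace Pool.Agent.Run7.h982

theorem IsTest.mono {U V : Set E} (h : U ⊆ V) {φ : E → ℝ} (hφ : IsTest U φ) : IsTest V φ :=
  ⟨hφ.1, hφ.2.1, hφ.2.2.trans h⟩

theorem fderiv_zero_of {φ : E → ℝ} {x : E} (h : x ∉ tsupport φ) : fderiv ℝ φ x = 0 :=
  image_eq_zero_of_notMem_tsupport (fun h2 => h ((tsupport_fderiv_subset ℝ (f := φ)) h2))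

theorem grad_of_fderiv_zero {φ : E → ℝ} {x : E} (h : fderiv ℝ φ x = 0) : gradient φ x = 0 := by
  unfold gradient; rw [h]; simp

theorem grad_zero_of {φ : E → ℝ} {x : E} (h : x ∉ tsupport φ) : gradient φ x = 0 :=
  grad_of_fderiv_zero (fderiv_zero_of h)

theorem norm_grad (φ : E → ℝ) (x : E) : ‖gradient φ x‖ = ‖fderiv ℝ φ x‖ := by
  unfold gradient; simp

theorem inner_grad (φ : E → ℝ) (x e : E) : ⟪gradient φ x, e⟫_ℝ = fderiv ℝ φ x e :=
  inner_gradient_left ..

theorem inner_grad' (φ : E → ℝ) (x e : E) : ⟪e, gradient φ x⟫_ℝ = fderiv ℝ φ x e := by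
  rw [real_inner_comm, inner_grad]

theorem grad_contOn {O : Set E} (hO : IsOpen O) {u : E → ℝ} (hu : ContDiffOn ℝ 1 u O) :
    ContinuousOn (gradient u) O := by
  unfold gradient
  exact (InnerProductSpace.toDual ℝ E).symm.continuous.comp_continuousOn
    (hu.continuousOn_fderiv_of_isOpen hO le_rfl)

theorem grad_cont {φ : E → ℝ} (hφ : ContDiff ℝ 1 φ) : Continuous (gradient φ) := by
  rw [← continuousOn_univ]
  exact grad_contOn isOpen_univ hφ.contDiffOn

theorem grad_compact {φ : E → ℝ} (hc : HasCompactSupport φ) : HasCompactSupport (gradient φ) := by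
  apply HasCompactSupport.of_support_subset_isCompact hc
  intro z hz
  by_contra h
  exact hz (grad_zero_of h)

theorem grad_memLp {φ : E → ℝ} (hφ : ContDiff ℝ 1 φ) (hc : HasCompactSupport φ) (p : ℝ≥0∞)
    (μ : Measure E) [IsFiniteMeasureOnCompacts μ] : MemLp (gradient φ) p μ :=
  (grad_cont hφ).memLp_of_hasCompactSupport (grad_compact hc)

/-- directional derivatives of test functions are test functions -/
theorem IsTest.fderiv_apply {U : Set E} {φ : E → ℝ} (hφ : IsTest U φ) (v : E) :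
    IsTest U (fun z => fderiv ℝ φ z v) := by
  refine ⟨?_, ?_, ?_⟩
  · have h1 : ContDiff ℝ ∞ (fderiv ℝ φ) := hφ.1.fderiv_right (by simp)
    exact h1.clm_apply contDiff_const
  · exact HasCompactSupport.fderiv_apply (𝕜 := ℝ) hφ.2.1 v
  · exact (tsupport_fderiv_apply_subset ℝ v).trans hφ.2.2

theorem cont_mul_of {O : Set E} (hO : IsOpen O) {F : Type} [NormedAddCommGroup F]
    [NormedSpace ℝ F] {f : E → F} (hf : ContinuousOn f O) {φ : E → ℝ} (hφ : Continuous φ)
    (hs : tsupport φ ⊆ O) : Continuous (fun x => φ x • f x) := by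
  apply continuous_of_tsupport
  intro x hx
  have h1 : tsupport (fun x => φ x • f x) ⊆ tsupport φ := closure_mono (by
    intro y hy; by_contra h; apply hy; simp at h; simp [h])
  exact hφ.continuousAt.smul (hf.continuousAt (hO.mem_nhds (hs (h1 hx))))

theorem int_mul_of {O : Set E} (hO : IsOpen O) {f : E → ℝ} (hf : ContinuousOn f O) {φ : E → ℝ}
    (hφ : Continuous φ) (hc : HasCompactSupport φ) (hs : tsupport φ ⊆ O) :
    Integrable (fun x => f x * φ x) := by
  have h1 := cont_mul_of hO hf hφ hs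
  have h2 : (fun x => φ x • f x) = fun x => f x * φ x := by
    funext x; simp [mul_comm]
  rw [h2] at h1
  exact h1.integrable_of_hasCompactSupport hc.mul_left

/-- Integration by parts for classical derivatives on open sets. -/
theorem ibp {O : Set E} (hO : IsOpen O) {u : E → ℝ} (hu : ContDiffOn ℝ 1 u O) {φ : E → ℝ}
    (hφ : ContDiff ℝ 1 φ) (hc : HasCompactSupport φ) (hs : tsupport φ ⊆ O) (e : E) :
    ∫ x in O, u x * fderiv ℝ φ x e = - ∫ x in O, fderiv ℝ u x e * φ x := by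
  have h1 : ∫ x in O, u x * fderiv ℝ φ x e = ∫ x, u x * fderiv ℝ φ x e := by
    apply setIntegral_eq_integral_of_forall_compl_eq_zero
    intro x hx
    rw [fderiv_zero_of (fun h => hx (hs h))]; simp
  have h2 : ∫ x in O, fderiv ℝ u x e * φ x = ∫ x, fderiv ℝ u x e * φ x := by
    apply setIntegral_eq_integral_of_forall_compl_eq_zero
    intro x hx
    rw [image_eq_zero_of_notMem_tsupport (fun h => hx (hs h))]; simp
  rw [h1, h2]
  have hfc : Continuous (fun x => fderiv ℝ φ x e) :=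
    (hφ.continuous_fderiv one_ne_zero).clm_apply continuous_const
  apply integral_mul_fderiv_eq_neg_fderiv_mul_of_integrable
  · exact int_mul_of hO ((hu.continuousOn_fderiv_of_isOpen hO le_rfl).clm_apply
      continuousOn_const) hφ.continuous hc hs
  · exact int_mul_of hO hu.continuousOn hfc (HasCompactSupport.fderiv_apply (𝕜 := ℝ) hc e)
      ((tsupport_fderiv_apply_subset ℝ e).trans hs)
  · exact int_mul_of hO hu.continuousOn hφ.continuous hc hs
  · intro x hx
    exact (hu.contDiffAt (hO.mem_nhds (hs hx))).differentiableAt one_ne_zero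
  · intro x _
    exact hφ.differentiable one_ne_zero x

theorem isH1_of_c1 {O : Set E} (hO : IsOpen O) {u : E → ℝ} (hu : ContDiffOn ℝ 1 u O)
    (h2 : MemLp u 2 (volume.restrict O)) (h3 : MemLp (gradient u) 2 (volume.restrict O)) :
    IsH1 O u (gradient u) := by
  refine ⟨h2, h3, fun φ hφ e => ?_⟩
  simp_rw [inner_grad]
  exact ibp hO hu (hφ.1.of_le (by simp)) hφ.2.1 hφ.2.2 e

theorem IsTest.isH1 {U O : Set E} (hO : IsOpen O) {φ : E → ℝ} (hφ : IsTest U φ) :
    IsH1 O φ (gradient φ) := by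
  apply isH1_of_c1 hO (hφ.1.of_le (by simp)).contDiffOn
  · exact (hφ.1.continuous.memLp_of_hasCompactSupport hφ.2.1).restrict O
  · exact (grad_memLp (hφ.1.of_le (by simp)) hφ.2.1 2 volume).restrict O

/-- smooth cutoff functions -/
theorem cutoff {K O : Set E} (hK : IsCompact K) (hO : IsOpen O) (h : K ⊆ O) :
    ∃ χ : E → ℝ, ContDiff ℝ ∞ χ ∧ HasCompactSupport χ ∧ tsupport χ ⊆ O ∧
      (∀ x, 0 ≤ χ x ∧ χ x ≤ 1) ∧ ∃ W, IsOpen W ∧ K ⊆ W ∧ ∀ x ∈ W, χ x = 1 := by
  obtain ⟨L, hL, hKL, hLO⟩ := exists_compact_between hK hO h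
  obtain ⟨f, h1, h2, h3⟩ := exists_contMDiffMap_one_nhds_of_subset_interior
    (modelWithCornersSelf ℝ E) (n := ⊤) hK.isClosed hKL
  have h4 : tsupport (f : E → ℝ) ⊆ L := by
    apply closure_minimal _ hL.isClosed
    intro x hx
    by_contra h
    exact hx (h2 x h)
  refine ⟨f, f.contMDiff.contDiff, HasCompactSupport.of_support_subset_isCompact hL
    (subset_closure.trans h4), h4.trans hLO, fun x => ⟨(h3 x).1, (h3 x).2⟩, ?_⟩
  obtain ⟨W, hW1, hW2, hW3⟩ := mem_nhdsSet_iff_exists.1 h1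
  exact ⟨W, hW1, hW2, fun x hx => hW3 hx⟩

theorem IsTest.add {U : Set E} {φ ψ : E → ℝ} (hφ : IsTest U φ) (hψ : IsTest U ψ) :
    IsTest U (fun x => φ x + ψ x) :=
  ⟨hφ.1.add hψ.1, hφ.2.1.add hψ.2.1,
    (tsupport_add φ ψ).trans (union_subset hφ.2.2 hψ.2.2)⟩

theorem IsTest.mul_left {U : Set E} {φ ψ : E → ℝ} (hφ : ContDiff ℝ ∞ φ) (hψ : IsTest U ψ) :
    IsTest U (fun x => φ x * ψ x) :=
  ⟨hφ.mul hψ.1, hψ.2.1.mul_left, (tsupport_mul_subset_right).trans hψ.2.2⟩

/-- localisation of an additive property of test functions -/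
theorem localise {K : Set E} (hK : IsCompact K) {P : (E → ℝ) → Prop}
    (hadd : ∀ φ ψ, IsTest univ φ → IsTest univ ψ → P φ → P ψ → P (fun x => φ x + ψ x))
    (hloc : ∀ x ∈ K, ∃ U, IsOpen U ∧ x ∈ U ∧ ∀ φ, IsTest U φ → P φ)
    (hzero : P (fun _ => 0)) :
    ∀ φ, IsTest univ φ → tsupport φ ⊆ K → P φ := by
  have key : ∃ O, IsOpen O ∧ K ⊆ O ∧ ∀ φ, IsTest O φ → P φ := by
    refine IsCompact.induction_on (p := fun s => ∃ O, IsOpen O ∧ s ⊆ O ∧ ∀ φ, IsTest O φ → P φ)
      hK ?_ ?_ ?_ ?_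
    · refine ⟨∅, isOpen_empty, Subset.rfl, fun φ hφ => ?_⟩
      have : φ = fun _ => 0 := by
        funext x
        exact image_eq_zero_of_notMem_tsupport (fun h => hφ.2.2 h)
      rw [this]; exact hzero
    · rintro s t hst ⟨O, h1, h2, h3⟩
      exact ⟨O, h1, hst.trans h2, h3⟩
    · rintro s t ⟨O, h1, h2, h3⟩ ⟨O', h1', h2', h3'⟩
      refine ⟨O ∪ O', h1.union h1', union_subset_union h2 h2', fun φ hφ => ?_⟩
      obtain ⟨K₁, K₂, hK₁, hK₂, hs₁, hs₂, hKK⟩ :=
        (show IsCompact (tsupport φ) from hφ.2.1).binary_compact_cover h1 h1' hφ.2.2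
      obtain ⟨χ, c1, c2, c3, c4, W, hW, hKW, hW1⟩ := cutoff hK₁ h1 hs₁
      have e1 : IsTest O (fun x => χ x * φ x) := by
        refine ⟨c1.mul hφ.1, c2.mul_right, (tsupport_mul_subset_left).trans c3⟩
      have e2 : IsTest O' (fun x => (1 - χ x) * φ x) := by
        refine ⟨(contDiff_const.sub c1).mul hφ.1, hφ.2.1.mul_left, ?_⟩
        have h5 : tsupport (fun x => (1 - χ x) * φ x) ⊆ tsupport φ ∩ Wᶜ := by
          apply closure_minimal _ ((isClosed_tsupport φ).inter hW.isClosed_compl)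
          intro x hx
          refine ⟨subset_tsupport φ (fun h => hx (by simp [h])), fun h => hx ?_⟩
          simp [hW1 x h]
        intro x hx
        have := h5 hx
        rw [hKK] at this
        rcases this.1 with h | h
        · exact absurd (hKW h) this.2
        · exact hs₂ h
      have e3 := hadd _ _ (e1.mono (subset_univ _)) (e2.mono (subset_univ _)) (h3 _ e1) (h3' _ e2)
      have e4 : (fun x => χ x * φ x + (1 - χ x) * φ x) = φ := by funext x; ring
      rwa [e4] at e3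
    · intro x hx
      obtain ⟨U, h1, h2, h3⟩ := hloc x hx
      exact ⟨U, mem_nhdsWithin_of_mem_nhds (h1.mem_nhds h2), U, h1, Subset.rfl, h3⟩
  obtain ⟨O, h1, h2, h3⟩ := key
  intro φ hφ hs
  exact h3 φ ⟨hφ.1, hφ.2.1, hs.trans h2⟩

end Pool.Agent.Run7.h982
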