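import Pool.Agent.Run7.h982.Loc2
import Pool.Agent.Run7.h982.Basic

/-!
# Insulating cracks: a smooth surface tangent to two harmonic gradients is somewhere analytic
-/

set_option autoImplicit false

open MeasureTheory Set Filter Topology Metric
open scoped ContDiff ENNReal NNReal InnerProductSpace

namespace Pool.Agent.Run7.h982

/-- an analytic function with vanishing derivatives vanishes -/
theorem an_zero {W : E → ℝ} {x₀ : E} (hW : AnalyticAt ℝ W x₀)
    (h : ∀ n, iteratedFDeriv ℝ n W x₀ = 0) : ∀ᶠ x in 𝓝 x₀, W x = 0 := by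
  obtain ⟨p, r, hp⟩ := hW
  have h1 : Metric.eball x₀ r ∈ 𝓝 x₀ := Metric.eball_mem_nhds x₀ hp.r_pos
  filter_upwards [h1] with x hx
  have h2 : x - x₀ ∈ Metric.eball (0 : E) r := by
    rw [Metric.mem_eball] at hx ⊢
    rwa [edist_zero_right, ← edist_eq_enorm_sub]
  have h3 := hp.hasSum_iteratedFDeriv h2
  simp only [h, zero_apply, smul_zero, add_sub_cancel] at h3
  exact h3.unique hasSum_zero

/-- a nonzero analytic function vanishing on the surface -/
theorem vanishing_analytic {S : Set E} {Φ : OpenPartialHomeomorph E E}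
    (hΦ : ContDiffOn ℝ ∞ Φ Φ.source) (hΨ : ContDiffOn ℝ ∞ Φ.symm Φ.target)
    (hS : ∀ ζ ∈ Φ.source, Φ ζ ∈ S ↔ ζ 2 = 0) {W : E → ℝ} {x₀ : E} (hx₀ : x₀ ∈ Φ.target)
    (hxS : x₀ ∈ S) (hW : AnalyticOnNhd ℝ W Φ.target) (hW0 : ∀ x ∈ Φ.target ∩ S, W x = 0)
    (hW1 : ¬ ∀ᶠ x in 𝓝 x₀, W x = 0) : ∃ x ∈ Φ.target ∩ S, IntPt ω S x := by
  classical
  have hex : ∃ n, ∃ x ∈ Φ.target ∩ S, iteratedFDeriv ℝ n W x ≠ 0 := by
    by_contra hcon
    push Not at hcon
    exact hW1 (an_zero (hW x₀ hx₀) (fun n => hcon n x₀ ⟨hx₀, hxS⟩))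
  obtain ⟨x₁, hx₁, hne⟩ := Nat.find_spec hex
  set m := Nat.find hex with hm
  have hmin : ∀ n < m, ∀ x ∈ Φ.target ∩ S, iteratedFDeriv ℝ n W x = 0 := by
    intro n hn x hx
    by_contra h
    exact Nat.find_min hex hn ⟨x, hx, h⟩
  refine ⟨x₁, hx₁, ?_⟩
  obtain ⟨k, hk⟩ : ∃ k, m = k + 1 := by
    apply Nat.exists_eq_succ_of_ne_zero
    intro h0
    rw [h0] at hne
    apply hne
    ext v
    simp [hW0 x₁ hx₁]
  rw [hk] at hne hmin
  obtain ⟨v, hv⟩ : ∃ v, iteratedFDeriv ℝ (k + 1) W x₁ v ≠ 0 := by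
    by_contra hcon
    push Not at hcon
    apply hne
    ext v
    exact hcon v
  rw [iteratedFDeriv_succ_apply_left] at hv
  set G : E → ℝ := fun x => iteratedFDeriv ℝ k W x (Fin.tail v) with hG
  have hit : AnalyticAt ℝ (iteratedFDeriv ℝ k W) x₁ := (hW.iteratedFDeriv k) x₁ hx₁.1
  have hGan : AnalyticAt ℝ G x₁ :=
    ((ContinuousMultilinearMap.apply ℝ (fun _ : Fin k => E) ℝ (Fin.tail v)).analyticAt _).comp hit
  have hGd : fderiv ℝ G x₁ (v 0) ≠ 0 := by
    have h1 := (ContinuousMultilinearMap.apply ℝ (fun _ : Fin k => E) ℝ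
      (Fin.tail v)).hasFDerivAt.comp x₁ hit.differentiableAt.hasFDerivAt
    have h2 : HasFDerivAt G _ x₁ := h1
    rw [h2.fderiv]
    exact hv
  have hfin := an_chart (S := S) (Φ := Φ) (ζ₀ := Φ.symm x₁) (G := G)
    (Φ.map_target hx₁.1) (by
      rw [← hS _ (Φ.map_target hx₁.1), Φ.right_inv hx₁.1]
      exact hx₁.2) hΦ hΨ hS
  rw [Φ.right_inv hx₁.1] at hfin
  apply hfin hGan
  · filter_upwards [Φ.open_target.mem_nhds hx₁.1] with x hx hxS
    simp only [hG]
    rw [hmin k (Nat.lt_succ_self k) x ⟨hx, hxS⟩]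
    rfl
  · intro h0
    rw [h0] at hGd
    exact hGd rfl

theorem snd_symm {v : E → ℝ} {x : E} (h : AnalyticAt ℝ v x) (a b : E) :
    fderiv ℝ (fun y => fderiv ℝ v y a) x b = fderiv ℝ (fun y => fderiv ℝ v y b) x a := by
  have h1 : DifferentiableAt ℝ (fderiv ℝ v) x := h.fderiv.differentiableAt
  have h2 : ∀ c : E, fderiv ℝ (fun y => fderiv ℝ v y c) x
      = (ContinuousLinearMap.apply ℝ ℝ c).comp (fderiv ℝ (fderiv ℝ v) x) := fun c =>
    ((ContinuousLinearMap.apply ℝ ℝ c).hasFDerivAt.comp x h1.hasFDerivAt).fderiv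
  rw [h2, h2]
  have h3 := (h.contDiffAt (n := ω)).isSymmSndFDerivAt (by simp)
  exact h3 b a

/-- parallel harmonic gradients are proportional -/
theorem parallel_const {v : Fin 2 → E → ℝ} {V : Set E} (hV : IsOpen V) (hVn : V.Nonempty)
    (hva : ∀ i, AnalyticOnNhd ℝ (v i) V) (hvh : ∀ i, ∀ x ∈ V, lap (v i) x = 0)
    (hpar : ∀ x ∈ V, ∀ i k : Fin 3, fderiv ℝ (v 0) x (bv i) * fderiv ℝ (v 1) x (bv k)
      = fderiv ℝ (v 0) x (bv k) * fderiv ℝ (v 1) x (bv i)) :
    ∃ U, IsOpen U ∧ U.Nonempty ∧ U ⊆ V ∧ ∃ a : Fin 2 → ℝ, a ≠ 0 ∧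
        ∀ x ∈ U, ∑ i, a i • gradient (v i) x = 0 := by
  by_cases h0 : ∀ x ∈ V, fderiv ℝ (v 0) x = 0
  · refine ⟨V, hV, hVn, Subset.rfl, ![1, 0], ?_, ?_⟩
    · intro h
      have := congrFun h 0
      simp at this
    · intro x hx
      simp [Fin.sum_univ_two, gradient, h0 x hx]
  push Not at h0
  obtain ⟨z, hzV, hz⟩ := h0
  have hc : ContinuousAt (fderiv ℝ (v 0)) z := ((hva 0) z hzV).fderiv.continuousAt
  have hnb : V ∩ {x | fderiv ℝ (v 0) x ≠ 0} ∈ 𝓝 z :=
    inter_mem (hV.mem_nhds hzV) (hc.eventually_ne hz)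
  obtain ⟨r, hr, hB⟩ := Metric.mem_nhds_iff.1 hnb
  set B := ball z r with hBdef
  set Q : E → ℝ := fun x => ∑ k, (fderiv ℝ (v 0) x (bv k)) ^ 2 with hQ
  set P : E → ℝ := fun x => ∑ k, fderiv ℝ (v 1) x (bv k) * fderiv ℝ (v 0) x (bv k) with hP
  have hQ0 : ∀ x ∈ B, Q x ≠ 0 := by
    intro x hx h
    apply (hB hx).2
    have h1 : ∀ k, fderiv ℝ (v 0) x (bv k) = 0 := by
      intro k
      have := (Finset.sum_eq_zero_iff_of_nonneg (fun i _ => sq_nonneg _)).1 h k (Finset.mem_univ _)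
      exact pow_eq_zero_iff (two_ne_zero) |>.1 this
    ext y
    rw [vec_sum' y, map_sum]
    simp [h1]
  have hd : ∀ i k, ∀ x ∈ B, DifferentiableAt ℝ (fun y => fderiv ℝ (v i) y (bv k)) x := by
    intro i k x hx
    have h1 : DifferentiableAt ℝ (fderiv ℝ (v i)) x :=
      ((hva i) x (hB hx).1).fderiv.differentiableAt
    exact h1.clm_apply (differentiableAt_const _)
  set lam : E → ℝ := fun x => P x / Q x with hlam
  have hlamd : ∀ x ∈ B, DifferentiableAt ℝ lam x := by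
    intro x hx
    have e1 : DifferentiableAt ℝ P x := by
      apply DifferentiableAt.fun_sum
      intro k _
      exact (hd 1 k x hx).mul (hd 0 k x hx)
    have e2 : DifferentiableAt ℝ Q x := by
      apply DifferentiableAt.fun_sum
      intro k _
      exact (hd 0 k x hx).pow 2
    have e3 : lam = fun x => P x * (Q x)⁻¹ := by
      ext y
      simp only [hlam]
      rw [div_eq_mul_inv]
    rw [e3]
    exact e1.fun_mul (e2.fun_inv (hQ0 x hx))
  have hrel : ∀ x ∈ B, ∀ k, fderiv ℝ (v 1) x (bv k) = lam x * fderiv ℝ (v 0) x (bv k) := by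
    intro x hx k
    simp only [hlam]
    rw [div_mul_eq_mul_div, eq_div_iff (hQ0 x hx)]
    simp only [hP, hQ]
    rw [Finset.mul_sum, Finset.sum_mul]
    apply Finset.sum_congr rfl
    intro i _
    have := hpar x (hB hx).1 i k
    linear_combination (fderiv ℝ (v 0) x (bv i)) * this
  have hlam0 : ∀ x ∈ B, fderiv ℝ lam x = 0 := by
    intro x hx
    have hL : ∀ i k, fderiv ℝ (fun y => fderiv ℝ (v 1) y (bv k)) x (bv i)
        = fderiv ℝ lam x (bv i) * fderiv ℝ (v 0) x (bv k)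
          + lam x * fderiv ℝ (fun y => fderiv ℝ (v 0) y (bv k)) x (bv i) := by
      intro i k
      have h1 : (fun y => fderiv ℝ (v 1) y (bv k)) =ᶠ[𝓝 x]
          fun y => lam y * fderiv ℝ (v 0) y (bv k) := by
        filter_upwards [isOpen_ball.mem_nhds hx] with y hy
        exact hrel y hy k
      rw [h1.fderiv_eq]
      have h2 := (hlamd x hx).hasFDerivAt.mul (hd 0 k x hx).hasFDerivAt
      have h3 : fderiv ℝ (fun y => lam y * fderiv ℝ (v 0) y (bv k)) x = _ := h2.fderiv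
      rw [h3]
      simp only [add_apply, smul_apply, smul_eq_mul]
      ring
    have hs : ∀ i k, fderiv ℝ lam x (bv i) * fderiv ℝ (v 0) x (bv k)
        = fderiv ℝ lam x (bv k) * fderiv ℝ (v 0) x (bv i) := by
      intro i k
      have h1 := snd_symm ((hva 1) x (hB hx).1) (bv k) (bv i)
      have h2 := snd_symm ((hva 0) x (hB hx).1) (bv k) (bv i)
      rw [hL i k, hL k i, h2] at h1
      linarith
    have hdiv : ∑ k, fderiv ℝ lam x (bv k) * fderiv ℝ (v 0) x (bv k) = 0 := by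
      have h1 := hvh 1 x (hB hx).1
      have h2 := hvh 0 x (hB hx).1
      unfold lap at h1 h2
      simp only [hL] at h1
      rw [Finset.sum_add_distrib, ← Finset.mul_sum, h2] at h1
      linarith
    have hi : ∀ i, fderiv ℝ lam x (bv i) = 0 := by
      intro i
      have h1 : fderiv ℝ lam x (bv i) * Q x = 0 := by
        have h2 : fderiv ℝ lam x (bv i) * Q x = fderiv ℝ (v 0) x (bv i) *
            ∑ k, fderiv ℝ lam x (bv k) * fderiv ℝ (v 0) x (bv k) := by
          simp only [hQ]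
          rw [Finset.mul_sum, Finset.mul_sum]
          apply Finset.sum_congr rfl
          intro k _
          linear_combination (fderiv ℝ (v 0) x (bv k)) * hs i k
        rw [h2, hdiv, mul_zero]
      exact (mul_eq_zero.1 h1).resolve_right (hQ0 x hx)
    ext y
    rw [vec_sum' y, map_sum]
    simp [hi]
  have hcst : ∀ x ∈ B, lam x = lam z := by
    intro x hx
    exact isOpen_ball.is_const_of_fderiv_eq_zero (convex_ball z r).isPreconnected
      (fun y hy => (hlamd y hy).differentiableWithinAt) (fun y hy => hlam0 y hy) hx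
      (mem_ball_self hr)
  refine ⟨B, isOpen_ball, ⟨z, mem_ball_self hr⟩, fun x hx => (hB hx).1, ![-lam z, 1], ?_, ?_⟩
  · intro h
    have := congrFun h 1
    simp at this
  · intro x hx
    have h1 : fderiv ℝ (v 1) x = lam z • fderiv ℝ (v 0) x := by
      ext y
      rw [vec_sum' y, map_sum, map_sum]
      apply Finset.sum_congr rfl
      intro k _
      rw [map_smul, map_smul, hrel x hx k, hcst x hx]
      simp
    simp [Fin.sum_univ_two, gradient, h1]

/-- **LOC** -/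
theorem loc : LOC_stm := by
  intro S Φ h0 hΦ hΨ hS v hva hvh hN
  set d : Fin 2 → E → Fin 3 → ℝ := fun i x k => fderiv ℝ (v i) x (bv k) with hd
  have hdan : ∀ i k, AnalyticOnNhd ℝ (fun x => d i x k) Φ.target := by
    intro i k x hx
    have h1 : AnalyticAt ℝ (fderiv ℝ (v i)) x := (hva i x hx).fderiv
    exact ((ContinuousLinearMap.apply ℝ ℝ (bv k)).analyticAt _).comp h1
  set w : E → E := fun x => !₂[d 0 x 1 * d 1 x 2 - d 0 x 2 * d 1 x 1,
    d 0 x 2 * d 1 x 0 - d 0 x 0 * d 1 x 2, d 0 x 0 * d 1 x 1 - d 0 x 1 * d 1 x 0] with hw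
  have hwan : ∀ k, AnalyticOnNhd ℝ (fun x => w x k) Φ.target := by
    intro k x hx
    fin_cases k
    · exact (((hdan 0 1 x hx).fun_mul (hdan 1 2 x hx)).fun_sub
        ((hdan 0 2 x hx).fun_mul (hdan 1 1 x hx)))
    · exact (((hdan 0 2 x hx).fun_mul (hdan 1 0 x hx)).fun_sub
        ((hdan 0 0 x hx).fun_mul (hdan 1 2 x hx)))
    · exact (((hdan 0 0 x hx).fun_mul (hdan 1 1 x hx)).fun_sub
        ((hdan 0 1 x hx).fun_mul (hdan 1 0 x hx)))
  have hwan' : AnalyticOnNhd ℝ w Φ.target := by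
    intro x hx
    have h1 : w = fun x => ∑ k, w x k • bv k := by
      ext x : 1
      exact vec_sum' (w x)
    rw [h1]
    apply Finset.analyticAt_fun_sum
    intro k _
    exact (hwan k x hx).fun_smul analyticAt_const
  have ht0 : Φ 0 ∈ Φ.target := Φ.map_source h0
  have ht0S : Φ 0 ∈ S := (hS 0 h0).2 (by simp)
  by_cases hA : ∃ x ∈ Φ.target ∩ S, w x ≠ 0
  · left
    obtain ⟨x₀, hx₀, hwx⟩ := hA
    refine ⟨x₀, hx₀, ?_⟩
    apply normal_analytic hΦ hΨ hS hx₀.1 hx₀.2 (hwan' x₀ hx₀.1) hwx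
    filter_upwards [Φ.open_target.mem_nhds hx₀.1] with x hx hxS
    set n : Fin 3 → ℝ := fun k => fderiv ℝ (fun y => Φ.symm y 2) x (bv k) with hn
    have hN' : ∀ i, n 0 * d i x 0 + n 1 * d i x 1 + n 2 * d i x 2 = 0 := by
      intro i
      have h1 := hN i x ⟨hx, hxS⟩
      rw [vec_sum' (gradient (v i) x), map_sum] at h1
      simp only [map_smul, smul_eq_mul, Fin.sum_univ_three] at h1
      have h2 : ∀ k, (gradient (v i) x) k = d i x k := by
        intro k
        have h3 := inner_grad (v i) x (bv k)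
        rw [EuclideanSpace.inner_single_right] at h3
        simpa using h3
      rw [h2, h2, h2] at h1
      linear_combination h1
    have e0 := hN' 0
    have e1 := hN' 1
    have w0 : w x 0 = d 0 x 1 * d 1 x 2 - d 0 x 2 * d 1 x 1 := rfl
    have w1 : w x 1 = d 0 x 2 * d 1 x 0 - d 0 x 0 * d 1 x 2 := rfl
    have w2 : w x 2 = d 0 x 0 * d 1 x 1 - d 0 x 1 * d 1 x 0 := rfl
    have f01 : n 0 * w x 1 = n 1 * w x 0 := by
      rw [w0, w1]; linear_combination (d 0 x 2) * e1 - (d 1 x 2) * e0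
    have f12 : n 1 * w x 2 = n 2 * w x 1 := by
      rw [w1, w2]; linear_combination (d 0 x 0) * e1 - (d 1 x 0) * e0
    have f20 : n 2 * w x 0 = n 0 * w x 2 := by
      rw [w0, w2]; linear_combination (d 0 x 1) * e1 - (d 1 x 1) * e0
    intro i k
    fin_cases i <;> fin_cases k
    · rfl
    · exact f01
    · exact f20.symm
    · exact f01.symm
    · rfl
    · exact f12
    · exact f20
    · exact f12.symm
    · rfl
  push Not at hA
  by_cases hB : ∀ᶠ x in 𝓝 (Φ 0), w x = 0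
  · right
    obtain ⟨V, hV1, hV2, hV3⟩ := _root_.mem_nhds_iff.1 (inter_mem (Φ.open_target.mem_nhds ht0) hB)
    obtain ⟨U, a1, a2, a3, a4⟩ := parallel_const (v := v) hV2 ⟨_, hV3⟩
      (fun i => (hva i).mono (fun x hx => (hV1 hx).1)) (fun i x hx => hvh i x (hV1 hx).1) (by
        intro x hx i k
        have h1 : w x = 0 := (hV1 hx).2
        have w0 : d 0 x 1 * d 1 x 2 - d 0 x 2 * d 1 x 1 = 0 := congrArg (fun z : E => z 0) h1
        have w1 : d 0 x 2 * d 1 x 0 - d 0 x 0 * d 1 x 2 = 0 := congrArg (fun z : E => z 1) h1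
        have w2 : d 0 x 0 * d 1 x 1 - d 0 x 1 * d 1 x 0 = 0 := congrArg (fun z : E => z 2) h1
        change d 0 x i * d 1 x k = d 0 x k * d 1 x i
        fin_cases i <;> fin_cases k <;> simp only [Fin.zero_eta, Fin.mk_one, Fin.reduceFinMk,
          Fin.isValue] <;> linarith)
    exact ⟨U, a1, a2, a3.trans (fun x hx => (hV1 hx).1), a4⟩
  · left
    obtain ⟨k, hk⟩ : ∃ k, ¬ ∀ᶠ x in 𝓝 (Φ 0), w x k = 0 := by
      by_contra hcon
      push Not at hcon
      apply hB
      filter_upwards [eventually_all.2 hcon] with x hx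
      ext k
      exact hx k
    apply vanishing_analytic hΦ hΨ hS ht0 ht0S (hwan k) _ hk
    intro x hx
    rw [hA x hx]
    rfl

end Pool.Agent.Run7.h982
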