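import Pool.Agent.Run7.h982.Lin

/-!
# Insulating cracks: change of variables
-/

set_option autoImplicit false

open MeasureTheory Set Filter Topology Metric
open scoped ContDiff ENNReal NNReal InnerProductSpace

namespace Pool.Agent.Run7.h982

/-- the pierced ball -/
def HB (R : ℝ) : Set E := ball 0 R ∩ {ζ : E | ζ 2 ≠ 0}

theorem HB_open (R : ℝ) : IsOpen (HB R) :=
  isOpen_ball.inter (isOpen_ne_fun (coord_cont 2) continuous_const)

/-- local test functions -/
structure LTest (R : ℝ) (φ : E → ℝ) : Prop where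
  smooth : ContDiffOn ℝ 1 φ (HB R)
  supp : ∃ K, IsCompact K ∧ K ⊆ ball (0 : E) R ∧ ∀ ζ ∉ K, φ ζ = 0
  mem : MemLp φ 2 (volume.restrict (HB R))
  memG : MemLp (gradient φ) 2 (volume.restrict (HB R))

/-- local solutions -/
structure LSol (R : ℝ) (a : E → E →L[ℝ] E) (v : E → ℝ) : Prop where
  smooth : ContDiffOn ℝ ∞ v (HB R)
  mem : MemLp v 2 (volume.restrict (HB R))
  memG : MemLp (gradient v) 2 (volume.restrict (HB R))
  weak : ∀ φ, LTest R φ → ∫ ζ in HB R, ⟪a ζ (gradient v ζ), gradient φ ζ⟫_ℝ = 0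

theorem grad_comp {Θ : E → E} {u : E → ℝ} {ζ : E} {M : E →L[ℝ] E} (hΘ : HasFDerivAt Θ M ζ)
    (hu : DifferentiableAt ℝ u (Θ ζ)) :
    gradient (fun ζ => u (Θ ζ)) ζ = ContinuousLinearMap.adjoint M (gradient u (Θ ζ)) := by
  have h1 : HasFDerivAt (fun ζ => u (Θ ζ)) ((fderiv ℝ u (Θ ζ)).comp M) ζ :=
    hu.hasFDerivAt.comp ζ hΘ
  apply ext_inner_right ℝ
  intro y
  rw [inner_grad, h1.fderiv, ContinuousLinearMap.adjoint_inner_left, inner_grad]
  rfl

section

variable {Θ : OpenPartialHomeomorph E E} (h1 : ContDiffOn ℝ ∞ Θ Θ.source)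
  (h2 : ContDiffOn ℝ ∞ Θ.symm Θ.target) {R : ℝ} (hb : closedBall (0 : E) R ⊆ Θ.source)

include h1 h2 hb

theorem chart_bounds : ∃ c Λ : ℝ, 0 < c ∧ 0 < Λ ∧ ∀ ζ ∈ closedBall (0 : E) R,
    c ≤ |(fderiv ℝ Θ ζ).det| ∧ |(fderiv ℝ Θ ζ).det| ≤ Λ ∧ ‖fderiv ℝ Θ ζ‖ ≤ Λ ∧
      ‖(fderiv ℝ Θ ζ).inverse‖ ≤ Λ := by
  have c1 : ContinuousOn (fderiv ℝ Θ) (closedBall (0 : E) R) :=
    (h1.continuousOn_fderiv_of_isOpen Θ.open_source (by simp)).mono hb
  have c2 : ContinuousOn (fun ζ => |(fderiv ℝ Θ ζ).det|) (closedBall (0 : E) R) :=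
    (ContinuousLinearMap.continuous_det.comp_continuousOn c1).abs
  have c3 : ContinuousOn (fun ζ => fderiv ℝ Θ.symm (Θ ζ)) (closedBall (0 : E) R) :=
    (h2.continuousOn_fderiv_of_isOpen Θ.open_target (by simp)).comp (Θ.continuousOn.mono hb)
      (fun ζ hζ => Θ.map_source (hb hζ))
  have hK := isCompact_closedBall (0 : E) R
  obtain ⟨A, hA⟩ := hK.exists_bound_of_continuousOn c1
  obtain ⟨B, hB⟩ := hK.exists_bound_of_continuousOn c2
  obtain ⟨D, hD⟩ := hK.exists_bound_of_continuousOn c3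
  have hpos : ∀ ζ ∈ closedBall (0 : E) R, 0 < |(fderiv ℝ Θ ζ).det| := fun ζ hζ =>
    abs_pos.2 (det_ne_zero (chart_inv h1 h2 (hb hζ)).1)
  have hmin : ∃ c : ℝ, 0 < c ∧ ∀ ζ ∈ closedBall (0 : E) R, c ≤ |(fderiv ℝ Θ ζ).det| := by
    rcases (closedBall (0 : E) R).eq_empty_or_nonempty with he | hne
    · exact ⟨1, one_pos, fun ζ hζ => by rw [he] at hζ; exact absurd hζ (notMem_empty _)⟩
    · obtain ⟨z, hz, hzm⟩ := hK.exists_isMinOn hne c2
      exact ⟨_, hpos z hz, fun ζ hζ => hzm hζ⟩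
  obtain ⟨c, hc0, hc⟩ := hmin
  refine ⟨c, max 1 (max A (max B D)), hc0, lt_max_of_lt_left one_pos, fun ζ hζ =>
    ⟨hc ζ hζ, ?_, ?_, ?_⟩⟩
  · have := hB ζ hζ
    rw [Real.norm_eq_abs, abs_abs] at this
    exact this.trans ((le_max_left _ _).trans ((le_max_right _ _).trans (le_max_right _ _)))
  · exact (hA ζ hζ).trans ((le_max_left _ _).trans (le_max_right _ _))
  · rw [(chart_inv h1 h2 (hb hζ)).2]
    exact (hD ζ hζ).trans ((le_max_right _ _).trans ((le_max_right _ _).trans (le_max_right _ _)))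

theorem chart_deriv {A : Set E} (hA : A ⊆ ball (0 : E) R) : ∀ ζ ∈ A,
    HasFDerivWithinAt Θ (fderiv ℝ Θ ζ) A ζ := fun ζ hζ =>
  ((h1.contDiffAt (Θ.open_source.mem_nhds (hb (ball_subset_closedBall (hA hζ))))).differentiableAt
    (by simp)).hasFDerivAt.hasFDerivWithinAt

theorem pull_int {A : Set E} (hAm : MeasurableSet A) (hA : A ⊆ ball (0 : E) R)
    {g : E → ℝ} (hg : IntegrableOn g (Θ '' A))
    (hgm : AEStronglyMeasurable (fun ζ => g (Θ ζ)) (volume.restrict A)) :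
    IntegrableOn (fun ζ => g (Θ ζ)) A := by
  obtain ⟨c, Λ, hc, hΛ, hb'⟩ := chart_bounds h1 h2 hb
  have hinj : InjOn Θ A := Θ.injOn.mono (hA.trans (ball_subset_closedBall.trans hb))
  have h3 := (integrableOn_image_iff_integrableOn_abs_det_fderiv_smul volume hAm
    (chart_deriv h1 h2 hb hA) hinj g).1 hg
  have h4 := h3.norm.const_mul (1 / c)
  refine h4.mono' hgm ?_
  filter_upwards [ae_restrict_mem hAm] with ζ hζ
  have h5 := (hb' ζ (ball_subset_closedBall (hA hζ))).1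
  have e6 : ‖|(fderiv ℝ Θ ζ).det| • g (Θ ζ)‖ = |(fderiv ℝ Θ ζ).det| * ‖g (Θ ζ)‖ := by
    rw [norm_smul, norm_abs_eq_norm, Real.norm_eq_abs]
  rw [e6]
  calc ‖g (Θ ζ)‖ = 1 / c * (c * ‖g (Θ ζ)‖) := by field_simp
    _ ≤ 1 / c * (|(fderiv ℝ Θ ζ).det| * ‖g (Θ ζ)‖) := by
      apply mul_le_mul_of_nonneg_left _ (by positivity)
      exact mul_le_mul_of_nonneg_right h5 (norm_nonneg _)

theorem push_int {A : Set E} (hAm : MeasurableSet A) (hA : A ⊆ ball (0 : E) R)
    {g : E → ℝ} (hg : IntegrableOn (fun ζ => g (Θ ζ)) A) :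
    IntegrableOn g (Θ '' A) := by
  obtain ⟨c, Λ, hc, hΛ, hb'⟩ := chart_bounds h1 h2 hb
  have hinj : InjOn Θ A := Θ.injOn.mono (hA.trans (ball_subset_closedBall.trans hb))
  rw [integrableOn_image_iff_integrableOn_abs_det_fderiv_smul volume hAm
    (chart_deriv h1 h2 hb hA) hinj g]
  have c1 : ContinuousOn (fun ζ => |(fderiv ℝ Θ ζ).det|) A :=
    (ContinuousLinearMap.continuous_det.comp_continuousOn
      ((h1.continuousOn_fderiv_of_isOpen Θ.open_source (by simp)).mono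
        (hA.trans (ball_subset_closedBall.trans hb)))).abs
  apply Integrable.bdd_mul (c := Λ) hg (c1.aestronglyMeasurable hAm)
  filter_upwards [ae_restrict_mem hAm] with ζ hζ
  rw [Real.norm_eq_abs, abs_abs]
  exact (hb' ζ (ball_subset_closedBall (hA hζ))).2.1

theorem pull_memLp {A : Set E} (hAo : IsOpen A) (hA : A ⊆ ball (0 : E) R) {F : Type}
    [NormedAddCommGroup F] {f : E → F} (hc : ContinuousOn (fun ζ => f (Θ ζ)) A)
    (hcf : ContinuousOn f (Θ '' A))
    (hf : MemLp f 2 (volume.restrict (Θ '' A))) :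
    MemLp (fun ζ => f (Θ ζ)) 2 (volume.restrict A) := by
  have hAm := hAo.measurableSet
  have hm : AEStronglyMeasurable (fun ζ => f (Θ ζ)) (volume.restrict A) :=
    hc.aestronglyMeasurable hAm
  rw [memLp_two_iff_integrable_sq_norm hm]
  exact pull_int h1 h2 hb hAm hA (g := fun x => ‖f x‖ ^ 2)
    ((memLp_two_iff_integrable_sq_norm hf.1).1 hf) (hm.norm.pow 2)

theorem push_memLp {A : Set E} (hAo : IsOpen A) (hA : A ⊆ ball (0 : E) R) {F : Type}
    [NormedAddCommGroup F] {f : E → F} (hc : ContinuousOn f (Θ '' A))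
    (hf : MemLp (fun ζ => f (Θ ζ)) 2 (volume.restrict A)) :
    MemLp f 2 (volume.restrict (Θ '' A)) := by
  have hAm := hAo.measurableSet
  have hAo' : IsOpen (Θ '' A) := Θ.isOpen_image_of_subset_source hAo
    (hA.trans (ball_subset_closedBall.trans hb))
  rw [memLp_two_iff_integrable_sq_norm (hc.aestronglyMeasurable hAo'.measurableSet)]
  exact push_int h1 h2 hb hAm hA (g := fun x => ‖f x‖ ^ 2)
    ((memLp_two_iff_integrable_sq_norm hf.1).1 hf)

/-- **Change of variables for weak solutions.** -/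
theorem cv {Ω S : Set E} {u : E → ℝ} (hΩ : IsOpen Ω) (hS : IsCompact S) (hu : Sol Ω S u)
    (hSS : ∀ ζ ∈ Θ.source, Θ ζ ∈ S ↔ ζ 2 = 0) (hT : Θ '' ball (0 : E) R ⊆ Ω) :
    LSol R (fun ζ => cof (fderiv ℝ Θ ζ)) (fun ζ => u (Θ ζ)) := by
  have hbs : ball (0 : E) R ⊆ Θ.source := ball_subset_closedBall.trans hb
  have oS : IsOpen (Ω \ S) := hΩ.sdiff hS.isClosed
  have oH : IsOpen (HB R) := HB_open R
  have hHb : HB R ⊆ ball (0 : E) R := inter_subset_left
  set U := Θ '' ball (0 : E) R with hU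
  set US := Θ '' HB R with hUS
  have oU : IsOpen U := Θ.isOpen_image_of_subset_source isOpen_ball hbs
  have oUS : IsOpen US := Θ.isOpen_image_of_subset_source oH (hHb.trans hbs)
  have hUSe : US = U \ S := by
    ext x
    constructor
    · rintro ⟨ζ, hζ, rfl⟩
      exact ⟨⟨ζ, hζ.1, rfl⟩, fun h => hζ.2 ((hSS ζ (hbs hζ.1)).1 h)⟩
    · rintro ⟨⟨ζ, hζ, rfl⟩, hx⟩
      exact ⟨ζ, ⟨hζ, fun h => hx ((hSS ζ (hbs hζ)).2 h)⟩, rfl⟩
  have hUSs : US ⊆ Ω \ S := by
    rw [hUSe]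
    exact fun x hx => ⟨hT hx.1, hx.2⟩
  have hcu : ContDiffOn ℝ ∞ u (Ω \ S) :=
    AnalyticOnNhd.contDiffOn (n := ∞) hu.an oS.uniqueDiffOn
  have hcu1 : ContDiffOn ℝ 1 u (Ω \ S) := hcu.of_le (by simp)
  have hmap : ∀ ζ ∈ HB R, Θ ζ ∈ Ω \ S := fun ζ hζ => hUSs ⟨ζ, hζ, rfl⟩
  have hΘc : ContinuousOn Θ (HB R) := Θ.continuousOn.mono (hHb.trans hbs)
  have hd : ∀ ζ ∈ ball (0 : E) R, HasFDerivAt Θ (fderiv ℝ Θ ζ) ζ := fun ζ hζ =>
    ((h1.contDiffAt (Θ.open_source.mem_nhds (hbs hζ))).differentiableAt (by simp)).hasFDerivAt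
  have hgv : ∀ ζ ∈ HB R, gradient (fun ζ => u (Θ ζ)) ζ =
      ContinuousLinearMap.adjoint (fderiv ℝ Θ ζ) (gradient u (Θ ζ)) := fun ζ hζ =>
    grad_comp (hd ζ hζ.1) ((hcu1.contDiffAt (oS.mem_nhds (hmap ζ hζ))).differentiableAt
      one_ne_zero)
  have hgc : ContinuousOn (gradient u) (Ω \ S) := grad_contOn oS hcu1
  obtain ⟨c, Λ, hc0, hΛ0, hbd⟩ := chart_bounds h1 h2 hb
  have hvs : ContDiffOn ℝ ∞ (fun ζ => u (Θ ζ)) (HB R) :=
    hcu.comp (h1.mono (hHb.trans hbs)) (fun ζ hζ => hmap ζ hζ)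
  have mu : MemLp (fun ζ => u (Θ ζ)) 2 (volume.restrict (HB R)) :=
    pull_memLp h1 h2 hb oH hHb (hvs.continuousOn) (hcu.continuousOn.mono hUSs)
      (hu.mem.mono_measure (Measure.restrict_mono hUSs le_rfl))
  have mgu : MemLp (fun ζ => gradient u (Θ ζ)) 2 (volume.restrict (HB R)) :=
    pull_memLp h1 h2 hb oH hHb (hgc.comp hΘc hmap) (hgc.mono hUSs)
      (hu.memG.mono_measure (Measure.restrict_mono hUSs le_rfl))
  refine ⟨hvs, mu, ?_, ?_⟩
  · have hm : AEStronglyMeasurable (gradient (fun ζ => u (Θ ζ))) (volume.restrict (HB R)) :=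
      (grad_contOn oH (hvs.of_le (by simp))).aestronglyMeasurable oH.measurableSet
    apply MemLp.of_le_mul (c := Λ) mgu hm
    filter_upwards [ae_restrict_mem oH.measurableSet] with ζ hζ
    rw [hgv ζ hζ]
    refine (ContinuousLinearMap.le_opNorm _ _).trans ?_
    apply mul_le_mul_of_nonneg_right _ (norm_nonneg _)
    rw [LinearIsometryEquiv.norm_map]
    exact (hbd ζ (ball_subset_closedBall hζ.1)).2.2.1
  · intro φ hφ
    obtain ⟨K, hK, hKb, hK0⟩ := hφ.supp
    set Φ : E → ℝ := U.indicator (fun x => φ (Θ.symm x)) with hΦ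
    have hΘK : IsCompact (Θ '' K) := hK.image_of_continuousOn
      (Θ.continuousOn.mono (hKb.trans hbs))
    have hΦ0 : ∀ x ∉ Θ '' K, Φ x = 0 := by
      intro x hx
      by_cases hxU : x ∈ U
      · rw [hΦ, indicator_of_mem hxU]
        apply hK0
        intro h
        obtain ⟨ζ, hζ, rfl⟩ := hxU
        rw [Θ.left_inv (hbs hζ)] at h
        exact hx ⟨ζ, h, rfl⟩
      · rw [hΦ, indicator_of_notMem hxU]
    have hnear : ∀ ζ ∈ ball (0 : E) R, Φ =ᶠ[𝓝 (Θ ζ)] fun x => φ (Θ.symm x) := by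
      intro ζ hζ
      filter_upwards [oU.mem_nhds ⟨ζ, hζ, rfl⟩] with x hx
      rw [hΦ, indicator_of_mem hx]
    have hΦs : ContDiffOn ℝ 1 Φ Sᶜ := by
      intro x hx
      apply ContDiffAt.contDiffWithinAt
      by_cases hxU : x ∈ U
      · obtain ⟨ζ, hζ, rfl⟩ := hxU
        have hζH : ζ ∈ HB R := ⟨hζ, fun h => hx ((hSS ζ (hbs hζ)).2 h)⟩
        apply ContDiffAt.congr_of_eventuallyEq _ (hnear ζ hζ)
        have e1 : ContDiffAt ℝ 1 Θ.symm (Θ ζ) :=
          (h2.contDiffAt (Θ.open_target.mem_nhds (Θ.map_source (hbs hζ)))).of_le (by simp)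
        have e2 : ContDiffAt ℝ 1 φ (Θ.symm (Θ ζ)) := by
          rw [Θ.left_inv (hbs hζ)]
          exact hφ.smooth.contDiffAt (oH.mem_nhds hζH)
        exact e2.comp (Θ ζ) e1
      · have : Φ =ᶠ[𝓝 x] fun _ => 0 := by
          have h3 : x ∉ Θ '' K := fun h => hxU (image_mono hKb h)
          filter_upwards [hΘK.isClosed.isOpen_compl.mem_nhds h3] with y hy
          exact hΦ0 y hy
        exact contDiffAt_const.congr_of_eventuallyEq this
    have hgΦ : ∀ ζ ∈ HB R, gradient Φ (Θ ζ) =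
        ContinuousLinearMap.adjoint (fderiv ℝ Θ ζ).inverse (gradient φ ζ) := by
      intro ζ hζ
      rw [(hnear ζ hζ.1).gradient_eq, (chart_inv h1 h2 (hbs hζ.1)).2]
      have e1 : HasFDerivAt Θ.symm (fderiv ℝ Θ.symm (Θ ζ)) (Θ ζ) :=
        ((h2.contDiffAt (Θ.open_target.mem_nhds (Θ.map_source (hbs hζ.1)))).differentiableAt
          (by simp)).hasFDerivAt
      have e2 : DifferentiableAt ℝ φ (Θ.symm (Θ ζ)) := by
        rw [Θ.left_inv (hbs hζ.1)]
        exact (hφ.smooth.contDiffAt (oH.mem_nhds hζ)).differentiableAt one_ne_zero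
      rw [grad_comp e1 e2, Θ.left_inv (hbs hζ.1)]
    have hgφc : ContinuousOn (gradient φ) (HB R) := grad_contOn oH hφ.smooth
    have hgΦc : ContinuousOn (gradient Φ) Sᶜ := grad_contOn hS.isClosed.isOpen_compl hΦs
    have hUSc : US ⊆ Sᶜ := fun x hx => (hUSs hx).2
    have hΦout : ∀ x ∈ Ω \ S, x ∉ US → Φ x = 0 ∧ gradient Φ x = 0 := by
      intro x hx hxU
      have h3 : x ∉ Θ '' K := by
        intro h
        apply hxU
        rw [hUSe]
        exact ⟨image_mono hKb h, hx.2⟩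
      have : Φ =ᶠ[𝓝 x] fun _ => 0 := by
        filter_upwards [hΘK.isClosed.isOpen_compl.mem_nhds h3] with y hy
        exact hΦ0 y hy
      exact ⟨hΦ0 x h3, by rw [this.gradient_eq]; exact grad_of_fderiv_zero (by simp)⟩
    have mΦ : MemLp Φ 2 (volume.restrict US) := by
      apply push_memLp h1 h2 hb oH hHb (hΦs.continuousOn.mono hUSc)
      apply hφ.mem.ae_eq
      filter_upwards [ae_restrict_mem oH.measurableSet] with ζ hζ
      rw [(hnear ζ hζ.1).eq_of_nhds, Θ.left_inv (hbs hζ.1)]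
    have mgΦ : MemLp (gradient Φ) 2 (volume.restrict US) := by
      apply push_memLp h1 h2 hb oH hHb (hgΦc.mono hUSc)
      have hm : AEStronglyMeasurable (fun ζ => gradient Φ (Θ ζ)) (volume.restrict (HB R)) :=
        (hgΦc.comp hΘc (fun ζ hζ => hUSc ⟨ζ, hζ, rfl⟩)).aestronglyMeasurable oH.measurableSet
      apply MemLp.of_le_mul (c := Λ) hφ.memG hm
      filter_upwards [ae_restrict_mem oH.measurableSet] with ζ hζ
      rw [hgΦ ζ hζ]
      refine (ContinuousLinearMap.le_opNorm _ _).trans ?_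
      apply mul_le_mul_of_nonneg_right _ (norm_nonneg _)
      rw [LinearIsometryEquiv.norm_map]
      exact (hbd ζ (ball_subset_closedBall hζ.1)).2.2.2
    have ext2 : ∀ {F : Type} [NormedAddCommGroup F] (f : E → F),
        MemLp f 2 (volume.restrict US) → (∀ x ∈ Ω \ S, x ∉ US → f x = 0) →
        MemLp f 2 (volume.restrict (Ω \ S)) := by
      intro F _ f hf hf0
      have e1 : MemLp (US.indicator f) 2 (volume.restrict (Ω \ S)) := by
        rw [memLp_indicator_iff_restrict oUS.measurableSet,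
          Measure.restrict_restrict oUS.measurableSet, inter_eq_left.2 hUSs]
        exact hf
      apply e1.ae_eq
      filter_upwards [ae_restrict_mem oS.measurableSet] with x hx
      by_cases hxU : x ∈ US
      · rw [indicator_of_mem hxU]
      · rw [indicator_of_notMem hxU, hf0 x hx hxU]
    have hG : GTest Ω S Φ := by
      refine ⟨hΦs, ⟨Θ '' K, hΘK, (image_mono hKb).trans hT, hΦ0⟩, ?_, ?_⟩
      · exact ext2 Φ mΦ (fun x hx hxU => (hΦout x hx hxU).1)
      · exact ext2 _ mgΦ (fun x hx hxU => (hΦout x hx hxU).2)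
    have e0 := hu.weak Φ hG
    have e1 : ∫ x in Ω \ S, ⟪gradient u x, gradient Φ x⟫_ℝ =
        ∫ x in US, ⟪gradient u x, gradient Φ x⟫_ℝ := by
      rw [← integral_indicator oS.measurableSet, ← integral_indicator oUS.measurableSet]
      congr 1
      funext x
      by_cases hx : x ∈ Ω \ S
      · rw [indicator_of_mem hx]
        by_cases hxU : x ∈ US
        · rw [indicator_of_mem hxU]
        · rw [indicator_of_notMem hxU, (hΦout x hx hxU).2]; simp
      · rw [indicator_of_notMem hx, indicator_of_notMem (fun h => hx (hUSs h))]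
    rw [e1, integral_image_eq_integral_abs_det_fderiv_smul volume oH.measurableSet
      (chart_deriv h1 h2 hb hHb) (Θ.injOn.mono (hHb.trans hbs))] at e0
    rw [← e0]
    apply setIntegral_congr_fun oH.measurableSet
    intro ζ hζ
    simp only
    have e3 : gradient u (Θ ζ) = ContinuousLinearMap.adjoint (fderiv ℝ Θ ζ).inverse
        (gradient (fun ζ => u (Θ ζ)) ζ) := by
      rw [hgv ζ hζ]
      have hinv := (chart_inv h1 h2 (hbs hζ.1)).1
      have : ContinuousLinearMap.adjoint (fderiv ℝ Θ ζ).inverse ∘L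
          ContinuousLinearMap.adjoint (fderiv ℝ Θ ζ) = ContinuousLinearMap.id ℝ E := by
        rw [← ContinuousLinearMap.adjoint_comp, hinv.self_comp_inverse]
        exact ContinuousLinearMap.adjoint_id
      have h3 := congrArg (fun L : E →L[ℝ] E => L (gradient u (Θ ζ))) this
      simpa using h3.symm
    rw [cof_inner, hgΦ ζ hζ, ← e3, smul_eq_mul]

end

end Pool.Agent.Run7.h982
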