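import Pool.Agent.Run7.h982.Pot

/-!
# Insulating cracks: local structure of cracks
-/

set_option autoImplicit false

open MeasureTheory Set Filter Topology Metric
open scoped ContDiff ENNReal NNReal InnerProductSpace

namespace Pool.Agent.Run7.h982

theorem coord_cont (i : Fin 3) : Continuous (fun ζ : E => ζ i) := by fun_prop

theorem coord_smooth {n : WithTop ℕ∞} (i : Fin 3) : ContDiff ℝ n (fun ζ : E => ζ i) :=
  (EuclideanSpace.proj (𝕜 := ℝ) i).contDiff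

theorem half_convex (r : ℝ) (z : E) : Convex ℝ (ball z r ∩ {ζ : E | 0 < ζ 2}) :=
  (convex_ball z r).inter (convex_halfSpace_gt (f := fun ζ : E => ζ 2)
    (EuclideanSpace.proj (𝕜 := ℝ) (2 : Fin 3)).toLinearMap.isLinear 0)

theorem half_convex' (r : ℝ) (z : E) : Convex ℝ (ball z r ∩ {ζ : E | ζ 2 < 0}) :=
  (convex_ball z r).inter (convex_halfSpace_lt (f := fun ζ : E => ζ 2)
    (EuclideanSpace.proj (𝕜 := ℝ) (2 : Fin 3)).toLinearMap.isLinear 0)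

theorem isOpen_pos : IsOpen {ζ : E | 0 < ζ 2} := isOpen_lt continuous_const (coord_cont 2)
theorem isOpen_neg : IsOpen {ζ : E | ζ 2 < 0} := isOpen_lt (coord_cont 2) continuous_const

theorem move_in {r : ℝ} {z ζ : E} (hζ : ζ ∈ ball z r) (c : ℝ) :
    ∀ᶠ s in 𝓝 (0 : ℝ), ζ + s • (c • bv 2) ∈ ball z r := by
  have h : Tendsto (fun s : ℝ => ζ + s • (c • bv 2)) (𝓝 0) (𝓝 ζ) := by
    have : Continuous (fun s : ℝ => ζ + s • (c • bv 2)) := by fun_prop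
    simpa using this.tendsto 0
  exact h.eventually (isOpen_ball.mem_nhds hζ)

theorem mem_closure_half {r : ℝ} {z ζ : E} (hζ : ζ ∈ ball z r) (h0 : ζ 2 = 0) :
    ζ ∈ closure (ball z r ∩ {ζ : E | 0 < ζ 2}) ∧ ζ ∈ closure (ball z r ∩ {ζ : E | ζ 2 < 0}) := by
  constructor
  · have h : Tendsto (fun s : ℝ => ζ + s • ((1 : ℝ) • bv 2)) (𝓝[>] 0) (𝓝 ζ) := by
      have : Continuous (fun s : ℝ => ζ + s • ((1 : ℝ) • bv 2)) := by fun_prop
      have h2 := this.tendsto 0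
      simp only [zero_smul, add_zero] at h2
      exact h2.mono_left nhdsWithin_le_nhds
    apply mem_closure_of_tendsto h
    filter_upwards [(move_in hζ 1).filter_mono nhdsWithin_le_nhds, self_mem_nhdsWithin] with s h1 h2
    refine ⟨h1, ?_⟩
    simp [h0]
    exact h2
  · have h : Tendsto (fun s : ℝ => ζ + s • ((-1 : ℝ) • bv 2)) (𝓝[>] 0) (𝓝 ζ) := by
      have : Continuous (fun s : ℝ => ζ + s • ((-1 : ℝ) • bv 2)) := by fun_prop
      have h2 := this.tendsto 0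
      simp only [zero_smul, add_zero] at h2
      exact h2.mono_left nhdsWithin_le_nhds
    apply mem_closure_of_tendsto h
    filter_upwards [(move_in hζ (-1)).filter_mono nhdsWithin_le_nhds, self_mem_nhdsWithin]
      with s h1 h2
    refine ⟨h1, ?_⟩
    simp [h0]
    exact h2

theorem half_nonempty {r : ℝ} (hr : 0 < r) {z : E} (h0 : z 2 = 0) :
    (ball z r ∩ {ζ : E | 0 < ζ 2}).Nonempty ∧ (ball z r ∩ {ζ : E | ζ 2 < 0}).Nonempty := by
  obtain ⟨h1, h2⟩ := mem_closure_half (mem_ball_self hr) h0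
  exact ⟨closure_nonempty_iff.1 ⟨z, h1⟩, closure_nonempty_iff.1 ⟨z, h2⟩⟩

/-- a small ball in the source of a chart, whose image lies in a given neighbourhood -/
theorem chart_ball {Φ : OpenPartialHomeomorph E E} {ζ₀ : E} (h0 : ζ₀ ∈ Φ.source) {O : Set E}
    (hO : O ∈ 𝓝 (Φ ζ₀)) : ∃ r, 0 < r ∧ ball ζ₀ r ⊆ Φ.source ∧ Φ '' (ball ζ₀ r) ⊆ O := by
  have h1 : Φ.source ∩ Φ ⁻¹' O ∈ 𝓝 ζ₀ :=
    inter_mem (Φ.open_source.mem_nhds h0) ((Φ.continuousAt h0).preimage_mem_nhds hO)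
  obtain ⟨r, hr, h2⟩ := Metric.mem_nhds_iff.1 h1
  refine ⟨r, hr, fun x hx => (h2 hx).1, ?_⟩
  rintro _ ⟨x, hx, rfl⟩
  exact (h2 hx).2

theorem image_closure_sub {Φ : OpenPartialHomeomorph E E} {A : Set E} {ζ : E}
    (hζ : ζ ∈ Φ.source) (h : ζ ∈ closure A) : Φ ζ ∈ closure (Φ '' A) := by
  rw [mem_closure_iff_clusterPt] at h ⊢
  have := h.map (Φ.continuousAt hζ) tendsto_map
  rwa [Filter.map_principal] at this

/-- The local structure near interior points, in a given chart. -/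
theorem chart_local {S : Set E} {Φ : OpenPartialHomeomorph E E}
    {z : E} {r : ℝ} (hr : 0 < r) (hz : z 2 = 0) (hb : ball z r ⊆ Φ.source)
    (hS : ∀ ζ ∈ ball z r, Φ ζ ∈ S ↔ ζ 2 = 0) :
    IsOpen (Φ '' ball z r) ∧ IsOpen (Φ '' (ball z r ∩ {ζ : E | 0 < ζ 2})) ∧
      IsOpen (Φ '' (ball z r ∩ {ζ : E | ζ 2 < 0})) ∧
      Disjoint (Φ '' (ball z r ∩ {ζ : E | 0 < ζ 2})) (Φ '' (ball z r ∩ {ζ : E | ζ 2 < 0})) ∧
      IsConnected (Φ '' (ball z r ∩ {ζ : E | 0 < ζ 2})) ∧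
      IsConnected (Φ '' (ball z r ∩ {ζ : E | ζ 2 < 0})) ∧
      Φ '' ball z r \ S = Φ '' (ball z r ∩ {ζ : E | 0 < ζ 2}) ∪
        Φ '' (ball z r ∩ {ζ : E | ζ 2 < 0}) ∧
      (Φ '' ball z r) ∩ S ⊆ closure (Φ '' (ball z r ∩ {ζ : E | 0 < ζ 2})) ∧
      (Φ '' ball z r) ∩ S ⊆ closure (Φ '' (ball z r ∩ {ζ : E | ζ 2 < 0})) := by
  have o1 : IsOpen (Φ '' ball z r) := Φ.isOpen_image_of_subset_source isOpen_ball hb
  have o2 : IsOpen (Φ '' (ball z r ∩ {ζ : E | 0 < ζ 2})) :=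
    Φ.isOpen_image_of_subset_source (isOpen_ball.inter isOpen_pos) (inter_subset_left.trans hb)
  have o3 : IsOpen (Φ '' (ball z r ∩ {ζ : E | ζ 2 < 0})) :=
    Φ.isOpen_image_of_subset_source (isOpen_ball.inter isOpen_neg) (inter_subset_left.trans hb)
  have hinj : InjOn Φ (ball z r) := Φ.injOn.mono hb
  obtain ⟨n1, n2⟩ := half_nonempty hr hz
  refine ⟨o1, o2, o3, ?_, ?_, ?_, ?_, ?_, ?_⟩
  · rw [Set.disjoint_left]
    rintro _ ⟨x, hx, rfl⟩ ⟨y, hy, hxy⟩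
    have := hinj hy.1 hx.1 hxy
    subst this
    have h1 : 0 < y 2 := hx.2
    have h2 : y 2 < 0 := hy.2
    linarith
  · exact ⟨n1.image _, (half_convex r z).isPreconnected.image _
      (Φ.continuousOn.mono (inter_subset_left.trans hb))⟩
  · exact ⟨n2.image _, (half_convex' r z).isPreconnected.image _
      (Φ.continuousOn.mono (inter_subset_left.trans hb))⟩
  · ext x
    constructor
    · rintro ⟨⟨ζ, hζ, rfl⟩, hx⟩
      rw [hS ζ hζ] at hx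
      rcases lt_or_gt_of_ne hx with h | h
      · exact Or.inr ⟨ζ, ⟨hζ, h⟩, rfl⟩
      · exact Or.inl ⟨ζ, ⟨hζ, h⟩, rfl⟩
    · rintro (⟨ζ, ⟨hζ, h⟩, rfl⟩ | ⟨ζ, ⟨hζ, h⟩, rfl⟩)
      · exact ⟨⟨ζ, hζ, rfl⟩, by rw [hS ζ hζ]; exact ne_of_gt h⟩
      · exact ⟨⟨ζ, hζ, rfl⟩, by rw [hS ζ hζ]; exact ne_of_lt h⟩
  · rintro _ ⟨⟨ζ, hζ, rfl⟩, hx⟩
    rw [hS ζ hζ] at hx
    exact image_closure_sub (hb hζ) (mem_closure_half hζ hx).1
  · rintro _ ⟨⟨ζ, hζ, rfl⟩, hx⟩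
    rw [hS ζ hζ] at hx
    exact image_closure_sub (hb hζ) (mem_closure_half hζ hx).2

/-- The local structure near interior points. -/
theorem intPt_local {n : WithTop ℕ∞} {S : Set E} {p : E} (h : IntPt n S p) {O : Set E}
    (hO : O ∈ 𝓝 p) : ∃ U P Q : Set E, IsOpen U ∧ p ∈ U ∧ U ⊆ O ∧ IsOpen P ∧ IsOpen Q ∧
      Disjoint P Q ∧ IsConnected P ∧ IsConnected Q ∧ U \ S = P ∪ Q ∧
      U ∩ S ⊆ closure P ∧ U ∩ S ⊆ closure Q := by
  obtain ⟨Φ, h0, h1, -, -, hS⟩ := h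
  subst h1
  obtain ⟨r, hr, hb, hbO⟩ := chart_ball h0 hO
  obtain ⟨a1, a2, a3, a4, a5, a6, a7, a8, a9⟩ := chart_local hr (by simp) hb
    (fun ζ hζ => hS ζ (hb hζ))
  exact ⟨_, _, _, a1, ⟨0, mem_ball_self hr, rfl⟩, hbO, a2, a3, a4, a5, a6, a7, a8, a9⟩

/-- The local structure near boundary points. -/
theorem bdPt_local {n : WithTop ℕ∞} {S : Set E} {p : E} (h : BdPt n S p) {O : Set E}
    (hO : O ∈ 𝓝 p) : ∃ U : Set E, IsOpen U ∧ p ∈ U ∧ U ⊆ O ∧ IsConnected (U \ S) := by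
  obtain ⟨Φ, g, L, h0, h1, -, -, hL, hg0, hS⟩ := h
  subst h1
  obtain ⟨r, hr, hb, hbO⟩ := chart_ball h0 hO
  refine ⟨Φ '' ball 0 r, Φ.isOpen_image_of_subset_source isOpen_ball hb,
    ⟨0, mem_ball_self hr, rfl⟩, hbO, ?_⟩
  set A : Set E := ball 0 r ∩ {ζ : E | 0 < ζ 2} with hA
  set B : Set E := ball 0 r ∩ {ζ : E | ζ 2 < 0} with hB
  set D : Set E := {ζ : E | ζ ∈ ball (0 : E) r ∧ ζ 2 = 0 ∧ ζ 0 < g (ζ 1)} with hD
  have e1 : Φ '' ball 0 r \ S = Φ '' ((A ∪ D) ∪ (B ∪ D)) := by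
    ext x
    constructor
    · rintro ⟨⟨ζ, hζ, rfl⟩, hx⟩
      rw [hS ζ (hb hζ)] at hx
      refine ⟨ζ, ?_, rfl⟩
      rcases lt_trichotomy (ζ 2) 0 with h | h | h
      · exact Or.inr (Or.inl ⟨hζ, h⟩)
      · refine Or.inl (Or.inr ⟨hζ, h, ?_⟩)
        by_contra h3
        exact hx ⟨h, not_lt.1 h3⟩
      · exact Or.inl (Or.inl ⟨hζ, h⟩)
    · rintro ⟨ζ, hζ, rfl⟩
      have hζb : ζ ∈ ball (0 : E) r := by
        rcases hζ with (h | h) | (h | h)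
        · exact h.1
        · exact h.1
        · exact h.1
        · exact h.1
      refine ⟨⟨ζ, hζb, rfl⟩, ?_⟩
      rw [hS ζ (hb hζb)]
      rintro ⟨h3, h4⟩
      rcases hζ with (h | h) | (h | h)
      · exact absurd h3 (ne_of_gt h.2)
      · exact absurd h.2.2 (not_lt.2 h4)
      · exact absurd h3 (ne_of_lt h.2)
      · exact absurd h.2.2 (not_lt.2 h4)
  rw [e1]
  have hDn : (-(r / 2)) • bv 0 ∈ D := by
    refine ⟨?_, ?_, ?_⟩
    · rw [mem_ball_zero_iff, norm_smul]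
      simp [abs_of_pos hr]
      linarith
    · simp
    · simp [hg0]
      linarith
  have c1 : IsPreconnected (A ∪ D) := by
    apply (half_convex r 0).isPreconnected.subset_closure subset_union_left
    apply union_subset subset_closure
    rintro ζ ⟨h1, h2, -⟩
    exact (mem_closure_half h1 h2).1
  have c2 : IsPreconnected (B ∪ D) := by
    apply (half_convex' r 0).isPreconnected.subset_closure subset_union_left
    apply union_subset subset_closure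
    rintro ζ ⟨h1, h2, -⟩
    exact (mem_closure_half h1 h2).2
  have c3 : IsPreconnected ((A ∪ D) ∪ (B ∪ D)) := c1.union _ (Or.inr hDn) (Or.inr hDn) c2
  have hsub : (A ∪ D) ∪ (B ∪ D) ⊆ Φ.source := by
    rintro ζ ((h | h) | (h | h))
    · exact hb h.1
    · exact hb h.1
    · exact hb h.1
    · exact hb h.1
  exact ⟨⟨_, ⟨_, Or.inl (Or.inr hDn), rfl⟩⟩, c3.image _ (Φ.continuousOn.mono hsub)⟩

/-- Restricting and recentring a chart. -/
theorem rechart {n : WithTop ℕ∞} {S : Set E} {Φ : OpenPartialHomeomorph E E}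
    (h1 : ContDiffOn ℝ n Φ Φ.source) (h2 : ContDiffOn ℝ n Φ.symm Φ.target) {V : Set E}
    (hV : IsOpen V) (hVs : V ⊆ Φ.source) {ζ₀ : E} (h0 : ζ₀ ∈ V) (hζ : ζ₀ 2 = 0)
    (hS : ∀ ζ ∈ V, Φ ζ ∈ S ↔ ζ 2 = 0) {O : Set E} (hO : IsOpen O) (hm : Φ ζ₀ ∈ O) :
    ∃ Φ' : OpenPartialHomeomorph E E, 0 ∈ Φ'.source ∧ Φ' 0 = Φ ζ₀ ∧
      ContDiffOn ℝ n Φ' Φ'.source ∧ ContDiffOn ℝ n Φ'.symm Φ'.target ∧
      (∀ ζ ∈ Φ'.source, Φ' ζ ∈ S ↔ ζ 2 = 0) ∧ Φ'.target ⊆ O := by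
  have hVO : IsOpen (V ∩ Φ ⁻¹' O) := by
    have := Φ.continuousOn.mono hVs
    exact this.isOpen_inter_preimage hV hO
  set Φ₁ := Φ.restrOpen (V ∩ Φ ⁻¹' O) hVO with hΦ₁
  set T := (Homeomorph.addRight ζ₀).toOpenPartialHomeomorph with hT
  have s1 : Φ₁.source = V ∩ Φ ⁻¹' O := by
    rw [hΦ₁, OpenPartialHomeomorph.restrOpen_source]
    exact inter_eq_right.2 (inter_subset_left.trans hVs)
  have s2 : (T.trans Φ₁).source = {ζ | ζ + ζ₀ ∈ V ∩ Φ ⁻¹' O} := by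
    rw [OpenPartialHomeomorph.trans_source, s1]
    simp [hT]
    rfl
  have a1 : ∀ ζ, (T.trans Φ₁) ζ = Φ (ζ + ζ₀) := fun ζ => rfl
  have a2 : ∀ x, (T.trans Φ₁).symm x = Φ.symm x - ζ₀ := fun x => by
    rw [sub_eq_add_neg]; rfl
  have t1 : (T.trans Φ₁).target ⊆ Φ.target ∩ O := by
    intro x hx
    have hy := (T.trans Φ₁).map_target hx
    rw [s2, a2] at hy
    have hx2 := (T.trans Φ₁).right_inv hx
    rw [a2, a1] at hx2
    simp only [sub_add_cancel] at hx2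
    have hy' : Φ.symm x - ζ₀ + ζ₀ ∈ V ∩ Φ ⁻¹' O := hy
    rw [sub_add_cancel] at hy'
    rw [← hx2]
    exact ⟨Φ.map_source (hVs hy'.1), hy'.2⟩
  refine ⟨T.trans Φ₁, ?_, ?_, ?_, ?_, ?_, ?_⟩
  · rw [s2]
    simp only [mem_ofPred_eq, zero_add]
    exact ⟨h0, hm⟩
  · rw [a1, zero_add]
  · have : ContDiffOn ℝ n (fun ζ => Φ (ζ + ζ₀)) (T.trans Φ₁).source := by
      apply h1.comp (contDiff_id.add contDiff_const).contDiffOn
      intro ζ hζ
      rw [s2] at hζ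
      exact hVs hζ.1
    exact this
  · have : ContDiffOn ℝ n (fun x => Φ.symm x - ζ₀) (T.trans Φ₁).target := by
      apply ContDiffOn.sub _ contDiffOn_const
      exact h2.mono (fun x hx => (t1 hx).1)
    refine this.congr (fun x _ => a2 x)
  · intro ζ hζ
    rw [s2] at hζ
    rw [a1, hS _ hζ.1]
    simp [*]
  · exact fun x hx => (t1 hx).2

theorem intPt_iff_of {n : WithTop ℕ∞} {S : Set E} {Φ : OpenPartialHomeomorph E E}
    (h1 : ContDiffOn ℝ n Φ Φ.source) (h2 : ContDiffOn ℝ n Φ.symm Φ.target) {V : Set E}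
    (hV : IsOpen V) (hVs : V ⊆ Φ.source) {ζ₀ : E} (h0 : ζ₀ ∈ V) (hζ : ζ₀ 2 = 0)
    (hS : ∀ ζ ∈ V, Φ ζ ∈ S ↔ ζ 2 = 0) : IntPt n S (Φ ζ₀) := by
  obtain ⟨Φ', a1, a2, a3, a4, a5, -⟩ := rechart h1 h2 hV hVs h0 hζ hS isOpen_univ (mem_univ _)
  exact ⟨Φ', a1, a2, a3, a4, a5⟩

/-- interior points are dense -/
theorem exists_intPt {n : WithTop ℕ∞} {S : Set E} {p : E} (h : IntPt n S p ∨ BdPt n S p)
    {O : Set E} (hO : IsOpen O) (hp : p ∈ O) : ∃ q ∈ S ∩ O, IntPt n S q := by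
  rcases h with h | h
  · refine ⟨p, ⟨?_, hp⟩, h⟩
    obtain ⟨Φ, h0, h1, -, -, hS⟩ := h
    rw [← h1, hS 0 h0]; simp
  · obtain ⟨Φ, g, L, h0, h1, h2, h3, hL, hg0, hS⟩ := h
    subst h1
    obtain ⟨r, hr, hb, hbO⟩ := chart_ball h0 (hO.mem_nhds hp)
    have hm : (r / 2) • bv 0 ∈ ball (0 : E) r := by
      rw [mem_ball_zero_iff, norm_smul]
      simp [abs_of_pos hr]
      linarith
    have hc : Continuous (fun ζ : E => g (ζ 1)) := hL.continuous.comp (coord_cont 1)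
    have hV : IsOpen (ball (0 : E) r ∩ {ζ : E | g (ζ 1) < ζ 0}) :=
      isOpen_ball.inter (isOpen_lt hc (coord_cont 0))
    have hmV : (r / 2) • bv 0 ∈ ball (0 : E) r ∩ {ζ : E | g (ζ 1) < ζ 0} := by
      refine ⟨hm, ?_⟩
      simp [hg0]
      linarith
    have hS' : ∀ ζ ∈ ball (0 : E) r ∩ {ζ : E | g (ζ 1) < ζ 0}, Φ ζ ∈ S ↔ ζ 2 = 0 := by
      intro ζ hζ
      rw [hS ζ (hb hζ.1)]
      constructor
      · exact fun h => h.1
      · exact fun h => ⟨h, le_of_lt hζ.2⟩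
    refine ⟨Φ ((r / 2) • bv 0), ⟨?_, hbO ⟨_, hm, rfl⟩⟩, intPt_iff_of h2 h3 hV
      (inter_subset_left.trans hb) hmV (by simp) hS'⟩
    rw [hS' _ hmV]
    simp

theorem plane_null : volume {ζ : E | ζ 2 = 0} = 0 := by
  have h := Measure.addHaar_submodule (volume : Measure E)
    (LinearMap.ker (EuclideanSpace.proj (𝕜 := ℝ) (2 : Fin 3)).toLinearMap) (by
      intro h
      have : (bv 2) ∈ LinearMap.ker (EuclideanSpace.proj (𝕜 := ℝ) (2 : Fin 3)).toLinearMap := by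
        rw [h]; trivial
      rw [LinearMap.mem_ker] at this
      simp at this)
  refine measure_mono_null ?_ h
  intro ζ hζ
  simpa using hζ

theorem chart_null {S : Set E} {Φ : OpenPartialHomeomorph E E} {n : WithTop ℕ∞} (hn : n ≠ 0)
    (h1 : ContDiffOn ℝ n Φ Φ.source) (hS : ∀ ζ ∈ Φ.source, Φ ζ ∈ S → ζ 2 = 0) :
    volume (S ∩ Φ.target) = 0 := by
  have h2 : volume (Φ '' ({ζ : E | ζ 2 = 0} ∩ Φ.source)) = 0 := by
    apply addHaar_image_eq_zero_of_differentiableOn_of_addHaar_eq_zero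
    · exact (h1.differentiableOn hn).mono inter_subset_right
    · exact measure_mono_null inter_subset_left plane_null
  refine measure_mono_null ?_ h2
  rintro x ⟨hx, hxt⟩
  refine ⟨Φ.symm x, ⟨?_, Φ.map_target hxt⟩, Φ.right_inv hxt⟩
  apply hS _ (Φ.map_target hxt)
  rwa [Φ.right_inv hxt]

theorem IsCrack.null {Ω S : Set E} (h : IsCrack Ω S) : volume S = 0 := by
  apply h.compact.measure_zero_of_nhdsWithin
  intro p hp
  rcases h.pts p hp with ⟨Φ, h0, h1, h2, h3, hS⟩ | ⟨Φ, g, L, h0, h1, h2, h3, hL, hg0, hS⟩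
  · refine ⟨S ∩ Φ.target, ?_, chart_null (n := ∞) (by simp) h2
      (fun ζ hζ hx => (hS ζ hζ).1 hx)⟩
    refine inter_mem self_mem_nhdsWithin (mem_nhdsWithin_of_mem_nhds ?_)
    rw [← h1]
    exact Φ.open_target.mem_nhds (Φ.map_source h0)
  · refine ⟨S ∩ Φ.target, ?_, chart_null (n := ∞) (by simp) h2
      (fun ζ hζ hx => ((hS ζ hζ).1 hx).1)⟩
    refine inter_mem self_mem_nhdsWithin (mem_nhdsWithin_of_mem_nhds ?_)
    rw [← h1]
    exact Φ.open_target.mem_nhds (Φ.map_source h0)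

end Pool.Agent.Run7.h982
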