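import Pool.Agent.Run7.h982.Chart

/-!
# Insulating cracks: the complement of a crack is connected
-/

set_option autoImplicit false

open MeasureTheory Set Filter Topology Metric
open scoped ContDiff ENNReal NNReal InnerProductSpace

namespace Pool.Agent.Run7.h982

theorem IsCrack.empty_interior {Ω S : Set E} (h : IsCrack Ω S) {W : Set E} (hW : IsOpen W)
    (hne : W.Nonempty) : (W \ S).Nonempty := by
  by_contra h1
  rw [not_nonempty_iff_eq_empty, sdiff_eq_empty] at h1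
  have h2 : volume W = 0 := measure_mono_null h1 h.null
  exact (hW.measure_pos volume hne).ne' h2

theorem IsCrack.preconn_diff {Ω S : Set E} (hΩ : IsOpen Ω) (hc : IsConnected Ω)
    (h : IsCrack Ω S) : IsPreconnected (Ω \ S) := by
  rw [isPreconnected_iff_subset_of_disjoint]
  intro u v hu hv huv hd
  set P := (Ω \ S) ∩ u with hP
  set Q := (Ω \ S) ∩ v with hQ
  have oO : IsOpen (Ω \ S) := hΩ.sdiff h.compact.isClosed
  have oP : IsOpen P := oO.inter hu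
  have oQ : IsOpen Q := oO.inter hv
  have hPQ : Disjoint P Q := by
    rw [Set.disjoint_left]
    rintro x ⟨h1, h2⟩ ⟨-, h3⟩
    have : x ∈ (Ω \ S) ∩ (u ∩ v) := ⟨h1, h2, h3⟩
    rw [hd] at this
    exact this
  have hcov : ∀ x ∈ Ω \ S, x ∈ P ∨ x ∈ Q := by
    intro x hx
    rcases huv hx with h1 | h1
    · exact Or.inl ⟨hx, h1⟩
    · exact Or.inr ⟨hx, h1⟩
  have hcc : ∀ A : Set E, IsPreconnected A → A ⊆ Ω \ S → A ⊆ P ∨ A ⊆ Q := by
    intro A hA hAs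
    have := isPreconnected_iff_subset_of_disjoint.1 hA P Q oP oQ (fun x hx => hcov x (hAs hx)) (by
      rw [Set.disjoint_iff_inter_eq_empty.1 hPQ, inter_empty])
    exact this
  set O₁ : Set E := ⋃₀ {U | IsOpen U ∧ U ⊆ Ω ∧ U \ S ⊆ P} with hO₁
  set O₂ : Set E := ⋃₀ {U | IsOpen U ∧ U ⊆ Ω ∧ U \ S ⊆ Q} with hO₂
  set O₃ : Set E := ⋃₀ {U | IsOpen U ∧ U ⊆ Ω ∧ ∃ A B, U \ S = A ∪ B ∧ A ⊆ P ∧ B ⊆ Q ∧
    U ∩ S ⊆ closure A ∧ U ∩ S ⊆ closure B} with hO₃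
  have o1 : IsOpen O₁ := isOpen_sUnion (fun U hU => hU.1)
  have o2 : IsOpen O₂ := isOpen_sUnion (fun U hU => hU.1)
  have o3 : IsOpen O₃ := isOpen_sUnion (fun U hU => hU.1)
  have hS3 : S ⊆ O₁ ∪ (O₂ ∪ O₃) := by
    intro p hp
    rcases h.pts p hp with h1 | h1
    · obtain ⟨U, A, B, a1, a2, a3, a4, a5, a6, a7, a8, a9, a10, a11⟩ :=
        intPt_local h1 (hΩ.mem_nhds (h.sub hp))
      have hA : A ⊆ Ω \ S := by
        intro x hx
        have : x ∈ U \ S := by rw [a9]; exact Or.inl hx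
        exact ⟨a3 this.1, this.2⟩
      have hB : B ⊆ Ω \ S := by
        intro x hx
        have : x ∈ U \ S := by rw [a9]; exact Or.inr hx
        exact ⟨a3 this.1, this.2⟩
      rcases hcc A a7.isPreconnected hA with hA' | hA' <;>
        rcases hcc B a8.isPreconnected hB with hB' | hB'
      · exact Or.inl ⟨U, ⟨a1, a3, by rw [a9]; exact union_subset hA' hB'⟩, a2⟩
      · exact Or.inr (Or.inr ⟨U, ⟨a1, a3, A, B, a9, hA', hB', a10, a11⟩, a2⟩)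
      · exact Or.inr (Or.inr ⟨U, ⟨a1, a3, B, A, by rw [a9, union_comm], hB', hA', a11, a10⟩, a2⟩)
      · exact Or.inr (Or.inl ⟨U, ⟨a1, a3, by rw [a9]; exact union_subset hA' hB'⟩, a2⟩)
    · obtain ⟨U, a1, a2, a3, a4⟩ := bdPt_local h1 (hΩ.mem_nhds (h.sub hp))
      rcases hcc (U \ S) a4.isPreconnected (fun x hx => ⟨a3 hx.1, hx.2⟩) with h2 | h2
      · exact Or.inl ⟨U, ⟨a1, a3, h2⟩, a2⟩
      · exact Or.inr (Or.inl ⟨U, ⟨a1, a3, h2⟩, a2⟩)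
  have d12 : ∀ x, x ∈ O₁ → x ∈ O₂ → False := by
    rintro x ⟨U, ⟨hU1, hU2, hU3⟩, hxU⟩ ⟨V, ⟨hV1, hV2, hV3⟩, hxV⟩
    obtain ⟨y, hy1, hy2⟩ := h.empty_interior (hU1.inter hV1) ⟨x, hxU, hxV⟩
    exact Set.disjoint_left.1 hPQ (hU3 ⟨hy1.1, hy2⟩) (hV3 ⟨hy1.2, hy2⟩)
  have d13 : ∀ x ∈ S, x ∈ O₁ → x ∈ O₃ → False := by
    rintro x hxS ⟨U, ⟨hU1, hU2, hU3⟩, hxU⟩ ⟨V, ⟨hV1, hV2, A, B, hAB, hA, hB, hcA, hcB⟩, hxV⟩
    obtain ⟨y, hy1, hy2⟩ := mem_closure_iff.1 (hcB ⟨hxV, hxS⟩) (U ∩ V) (hU1.inter hV1) ⟨hxU, hxV⟩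
    have hyS : y ∈ V \ S := by rw [hAB]; exact Or.inr hy2
    exact Set.disjoint_left.1 hPQ (hU3 ⟨hy1.1, hyS.2⟩) (hB hy2)
  have d23 : ∀ x ∈ S, x ∈ O₂ → x ∈ O₃ → False := by
    rintro x hxS ⟨U, ⟨hU1, hU2, hU3⟩, hxU⟩ ⟨V, ⟨hV1, hV2, A, B, hAB, hA, hB, hcA, hcB⟩, hxV⟩
    obtain ⟨y, hy1, hy2⟩ := mem_closure_iff.1 (hcA ⟨hxV, hxS⟩) (U ∩ V) (hU1.inter hV1) ⟨hxU, hxV⟩
    have hyS : y ∈ V \ S := by rw [hAB]; exact Or.inl hy2
    exact Set.disjoint_left.1 hPQ (hA hy2) (hU3 ⟨hy1.1, hyS.2⟩)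
  have hfin : ∀ (P' Q' O' : Set E), IsOpen P' → IsOpen Q' → IsOpen O' → Disjoint P' Q' →
      (∀ x ∈ Ω \ S, x ∈ P' ∨ x ∈ Q') → (∀ x ∈ O', x ∉ S → x ∈ P') → S ⊆ O' →
      Ω \ S ⊆ P' ∨ Ω \ S ⊆ Q' := by
    intro P' Q' O' hP' hQ' hO' hd' hcov' hO'P hSO'
    have := isPreconnected_iff_subset_of_disjoint.1 hc.isPreconnected (P' ∪ O') (Q' \ S)
      (hP'.union hO') (hQ'.sdiff h.compact.isClosed) (by
        intro x hx
        by_cases hxS : x ∈ S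
        · exact Or.inl (Or.inr (hSO' hxS))
        · rcases hcov' x ⟨hx, hxS⟩ with h1 | h1
          · exact Or.inl (Or.inl h1)
          · exact Or.inr ⟨h1, hxS⟩) (by
        rw [eq_empty_iff_forall_notMem]
        rintro x ⟨hx, h1 | h1, h2, h3⟩
        · exact Set.disjoint_left.1 hd' h1 h2
        · exact Set.disjoint_left.1 hd' (hO'P x h1 h3) h2)
    rcases this with h1 | h1
    · left
      intro x hx
      rcases h1 hx.1 with h2 | h2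
      · exact h2
      · exact hO'P x h2 hx.2
    · right
      intro x hx
      exact (h1 hx.1).1
  have hO1P : ∀ x ∈ O₁, x ∉ S → x ∈ P := by
    rintro x ⟨U, ⟨hU1, hU2, hU3⟩, hxU⟩ hx
    exact hU3 ⟨hxU, hx⟩
  have hO2Q : ∀ x ∈ O₂, x ∉ S → x ∈ Q := by
    rintro x ⟨U, ⟨hU1, hU2, hU3⟩, hxU⟩ hx
    exact hU3 ⟨hxU, hx⟩
  rcases isPreconnected_iff_subset_of_disjoint.1 h.conn.isPreconnected O₁ (O₂ ∪ O₃) o1
    (o2.union o3) hS3 (by
      rw [eq_empty_iff_forall_notMem]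
      rintro x ⟨hx, h1, h2 | h2⟩
      · exact d12 x h1 h2
      · exact d13 x hx h1 h2) with h1 | h1
  · rcases hfin P Q O₁ oP oQ o1 hPQ hcov hO1P h1 with h2 | h2
    · exact Or.inl (fun x hx => (h2 hx).2)
    · exact Or.inr (fun x hx => (h2 hx).2)
  · rcases isPreconnected_iff_subset_of_disjoint.1 h.conn.isPreconnected O₂ O₃ o2 o3 h1 (by
      rw [eq_empty_iff_forall_notMem]
      rintro x ⟨hx, h1, h2⟩
      exact d23 x hx h1 h2) with h2 | h2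
    · rcases hfin Q P O₂ oQ oP o2 hPQ.symm (fun x hx => (hcov x hx).symm) hO2Q h2 with h3 | h3
      · exact Or.inr (fun x hx => (h3 hx).2)
      · exact Or.inl (fun x hx => (h3 hx).2)
    · exfalso
      obtain ⟨p, hpS, hp⟩ := h.bd
      obtain ⟨U, a1, a2, a3, a4⟩ := bdPt_local hp (hΩ.mem_nhds (h.sub hpS))
      obtain ⟨V, ⟨hV1, hV2, A, B, hAB, hA, hB, hcA, hcB⟩, hxV⟩ := h2 hpS
      have hx1 := hcA ⟨hxV, hpS⟩
      have hx2 := hcB ⟨hxV, hpS⟩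
      rcases hcc (U \ S) a4.isPreconnected (fun x hx => ⟨a3 hx.1, hx.2⟩) with h2 | h2
      · obtain ⟨y, hy1, hy2⟩ := mem_closure_iff.1 hx2 U a1 a2
        have hyS : y ∈ V \ S := by rw [hAB]; exact Or.inr hy2
        exact Set.disjoint_left.1 hPQ (h2 ⟨hy1, hyS.2⟩) (hB hy2)
      · obtain ⟨y, hy1, hy2⟩ := mem_closure_iff.1 hx1 U a1 a2
        have hyS : y ∈ V \ S := by rw [hAB]; exact Or.inl hy2
        exact Set.disjoint_left.1 hPQ (hA hy2) (h2 ⟨hy1, hyS.2⟩)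

end Pool.Agent.Run7.h982
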