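import Pool.Agent.Run7.h982.W4

/-!
# Insulating cracks: slicing three-space
-/

set_option autoImplicit false

open MeasureTheory Set Filter Topology Metric
open scoped ContDiff ENNReal NNReal InnerProductSpace

namespace Pool.Agent.Run7.h982

/-- the plane -/
abbrev P2 := EuclideanSpace ℝ (Fin 2)

/-- vertical slicing -/
noncomputable def J (q : P2 × ℝ) : E := !₂[q.1 0, q.1 1, q.2]

/-- horizontal projection -/
noncomputable def Pr (x : E) : P2 := !₂[x 0, x 1]

theorem J_0 (q : P2 × ℝ) : J q 0 = q.1 0 := rfl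
theorem J_1 (q : P2 × ℝ) : J q 1 = q.1 1 := rfl
theorem J_2 (q : P2 × ℝ) : J q 2 = q.2 := rfl

theorem Pr_J (q : P2 × ℝ) : Pr (J q) = q.1 := by
  ext i
  fin_cases i <;> rfl

theorem J_Pr (x : E) : J (Pr x, x 2) = x := by
  ext i
  fin_cases i <;> rfl

theorem J_mp : MeasurePreserving J (volume.prod volume) volume := by
  have h1 : MeasurePreserving (Prod.swap : P2 × ℝ → ℝ × P2) (volume.prod volume)
      (volume.prod volume) := Measure.measurePreserving_swap
  have h2 : MeasurePreserving (Prod.map id WithLp.ofLp : ℝ × P2 → ℝ × (Fin 2 → ℝ))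
      (volume.prod volume) (volume.prod volume) :=
    (MeasurePreserving.id _).prod (PiLp.volume_preserving_ofLp _)
  have h3 := (volume_preserving_piFinSuccAbove (fun _ : Fin 3 => ℝ) 2).symm
  have h4 := PiLp.volume_preserving_toLp (Fin 3)
  have h5 := h4.comp (h3.comp (h2.comp h1))
  have h6 : J = (@WithLp.toLp 2 (Fin 3 → ℝ)) ∘
      (⇑(MeasurableEquiv.piFinSuccAbove (fun _ : Fin 3 => ℝ) 2).symm ∘
        Prod.map id WithLp.ofLp ∘ Prod.swap) := by
    funext q
    ext i
    fin_cases i
    · rfl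
    · rfl
    · rfl
  rw [h6]
  exact h5

theorem J_cont : Continuous J := by
  unfold J
  fun_prop

theorem Pr_cont : Continuous Pr := by
  unfold Pr
  fun_prop

theorem J_dist (q q' : P2 × ℝ) : ‖J q - J q'‖ ^ 2 = ‖q.1 - q'.1‖ ^ 2 + (q.2 - q'.2) ^ 2 := by
  rw [EuclideanSpace.norm_sq_eq, EuclideanSpace.norm_sq_eq, Fin.sum_univ_three, Fin.sum_univ_two]
  simp [J]

theorem Pr_lip : LipschitzWith 1 Pr := by
  apply LipschitzWith.of_dist_le_mul
  intro x y
  rw [NNReal.coe_one, one_mul, dist_eq_norm, dist_eq_norm]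
  have h := J_dist (Pr x, x 2) (Pr y, y 2)
  rw [J_Pr, J_Pr] at h
  apply le_of_sq_le_sq _ (norm_nonneg _)
  rw [h]
  nlinarith [sq_nonneg (x 2 - y 2)]

theorem J_lip {g : P2 → ℝ} {L : ℝ≥0} (hg : LipschitzWith L g) :
    LipschitzWith (1 + L) (fun y => J (y, g y)) := by
  apply LipschitzWith.of_dist_le_mul
  intro y z
  have h := J_dist (y, g y) (z, g z)
  simp only at h
  have h1 := hg.dist_le_mul y z
  rw [Real.dist_eq, dist_eq_norm] at h1
  rw [dist_eq_norm, dist_eq_norm]
  apply le_of_sq_le_sq _ (by positivity)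
  rw [h]
  have h2 : (g y - g z) ^ 2 ≤ (L * ‖y - z‖) ^ 2 := by
    rw [← sq_abs]
    gcongr
  push_cast
  nlinarith [norm_nonneg (y - z), L.coe_nonneg, mul_nonneg L.coe_nonneg (norm_nonneg (y - z)),
    mul_nonneg (norm_nonneg (y - z)) (mul_nonneg L.coe_nonneg (norm_nonneg (y - z)))]

/-- the thin neighbourhood of a graph -/
theorem strip_int {g : P2 → ℝ} (hg : Continuous g) {φ : E → ℝ} (hφ : Continuous φ)
    (hc : HasCompactSupport φ) {c : ℝ} (hc0 : 0 ≤ c) {ε : ℝ} (hε : 0 < ε) :
    ∀ᶠ s : ℝ in 𝓝[>] 0, ∫⁻ x in {x : E | |x 2 - g (Pr x)| ≤ c * s}, ‖φ x‖ₑ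
      ≤ ENNReal.ofReal (2 * c * s) * ((∫⁻ y, ‖φ (J (y, g y))‖ₑ) + ENNReal.ofReal ε) := by
  set D : Set P2 := Pr '' tsupport φ with hD
  have hDc : IsCompact D := hc.image Pr_cont
  have hDm : MeasurableSet D := hDc.isClosed.measurableSet
  have hDv : volume D < ⊤ := hDc.measure_lt_top
  set V : ℝ := (volume D).toReal with hV
  have hV0 : 0 ≤ V := ENNReal.toReal_nonneg
  set ε' : ℝ := ε / (V + 1) with hε'
  have hε'0 : 0 < ε' := by positivity
  have huc := hc.uniformContinuous_of_continuous hφ
  rw [Metric.uniformContinuous_iff] at huc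
  obtain ⟨δ, hδ, hu⟩ := huc ε' hε'0
  have hs : ∀ᶠ s : ℝ in 𝓝[>] 0, c * s < δ := by
    have h1 : Tendsto (fun s : ℝ => c * s) (𝓝[>] 0) (𝓝 (c * 0)) :=
      ((continuous_const.mul continuous_id).tendsto 0).mono_left nhdsWithin_le_nhds
    rw [mul_zero] at h1
    exact h1.eventually (gt_mem_nhds hδ)
  filter_upwards [hs, self_mem_nhdsWithin] with s hs1 hs2
  have hs0 : (0 : ℝ) < s := hs2
  set A : Set E := {x : E | |x 2 - g (Pr x)| ≤ c * s} with hA
  have hAm : MeasurableSet A := by
    apply IsClosed.measurableSet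
    exact isClosed_le (((coord_cont 2).sub (hg.comp Pr_cont)).abs) continuous_const
  set H : P2 → ℝ≥0∞ := D.indicator (fun y => ‖φ (J (y, g y))‖ₑ + ENNReal.ofReal ε') with hH
  have hgr : Continuous (fun y : P2 => φ (J (y, g y))) :=
    hφ.comp (J_cont.comp (continuous_id.prodMk hg))
  have hHm : Measurable H := (hgr.enorm.measurable.add_const _).indicator hDm
  have hm1 : Measurable (A.indicator (fun x => ‖φ x‖ₑ)) := hφ.enorm.measurable.indicator hAm
  have hm2 : Measurable (fun q : P2 × ℝ => A.indicator (fun x => ‖φ x‖ₑ) (J q)) :=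
    hm1.comp J_cont.measurable
  rw [← lintegral_indicator hAm, ← J_mp.lintegral_comp hm1, lintegral_prod _ hm2.aemeasurable]
  have hle : ∀ y, ∫⁻ t, A.indicator (fun x => ‖φ x‖ₑ) (J (y, t))
      ≤ H y * ENNReal.ofReal (2 * c * s) := by
    intro y
    have h1 : ∀ t, A.indicator (fun x => ‖φ x‖ₑ) (J (y, t))
        ≤ (Icc (g y - c * s) (g y + c * s)).indicator (fun _ => H y) t := by
      intro t
      by_cases h2 : J (y, t) ∈ A
      · have h3 : |t - g y| ≤ c * s := by
          have : |J (y, t) 2 - g (Pr (J (y, t)))| ≤ c * s := h2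
          rwa [J_2, Pr_J] at this
        have h4 : t ∈ Icc (g y - c * s) (g y + c * s) := by
          rw [abs_le] at h3
          constructor <;> linarith
        rw [indicator_of_mem h2, indicator_of_mem h4]
        by_cases h5 : y ∈ D
        · simp only [hH]
          rw [indicator_of_mem h5]
          have h6 : dist (J (y, t)) (J (y, g y)) < δ := by
            have h7 := J_dist (y, t) (y, g y)
            simp only [sub_self, norm_zero] at h7
            rw [dist_eq_norm]
            have h8 : ‖J (y, t) - J (y, g y)‖ = |t - g y| := by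
              rw [← abs_of_nonneg (norm_nonneg (J (y, t) - J (y, g y)))]
              apply (sq_eq_sq_iff_abs_eq_abs _ _).1
              rw [h7]; ring
            rw [h8]
            exact h3.trans_lt hs1
          have h9 := hu h6
          rw [Real.dist_eq] at h9
          have h10 : ‖φ (J (y, t))‖ ≤ ‖φ (J (y, g y))‖ + ε' := by
            have := norm_sub_norm_le (φ (J (y, t))) (φ (J (y, g y)))
            rw [Real.norm_eq_abs (φ (J (y, t)) - φ (J (y, g y)))] at this
            linarith
          rw [← ofReal_norm, ← ofReal_norm, ← ENNReal.ofReal_add (norm_nonneg _) hε'0.le]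
          exact ENNReal.ofReal_le_ofReal h10
        · have h6 : J (y, t) ∉ tsupport φ := by
            intro h7
            apply h5
            exact ⟨_, h7, Pr_J _⟩
          rw [image_eq_zero_of_notMem_tsupport h6]
          simp
      · rw [indicator_of_notMem h2]
        exact zero_le
    refine (lintegral_mono h1).trans ?_
    rw [lintegral_indicator measurableSet_Icc, setLIntegral_const, Real.volume_Icc]
    apply le_of_eq
    congr 2
    ring
  refine (lintegral_mono hle).trans ?_
  rw [lintegral_mul_const _ hHm, mul_comm]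
  apply mul_le_mul_right
  rw [hH, lintegral_indicator hDm, lintegral_add_left hgr.enorm.measurable]
  apply add_le_add
  · exact setLIntegral_le_lintegral _ _
  · rw [setLIntegral_const]
    rw [← ENNReal.ofReal_toReal hDv.ne, ← ENNReal.ofReal_mul hε'0.le]
    apply ENNReal.ofReal_le_ofReal
    rw [hε', div_mul_eq_mul_div, div_le_iff₀ (by positivity)]
    nlinarith

end Pool.Agent.Run7.h982
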