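import Pool.Agent.Run7.h982.D1

/-!
# Insulating cracks: the divergence inequality above a Lipschitz graph
-/

set_option autoImplicit false

open MeasureTheory Set Filter Topology Metric
open scoped ContDiff ENNReal NNReal InnerProductSpace

namespace Pool.Agent.Run7.h982

theorem diff_quot {U : Set E} {φ : E → ℝ} (hφ : ContDiff ℝ 1 φ) (hc : HasCompactSupport φ)
    (w : E) : Tendsto (fun s : ℝ => ∫ x in U, s⁻¹ * (φ (x + s • w) - φ x)) (𝓝[>] 0)
      (𝓝 (∫ x in U, fderiv ℝ φ x w)) := by
  obtain ⟨C, hC⟩ := ContDiff.lipschitzWith_of_hasCompactSupport hc hφ (by simp)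
  set δ : ℝ := 1 with hδ
  set K' : Set E := cthickening 1 (tsupport φ) with hK'
  have hK'c : IsCompact K' := hc.cthickening
  have hs : ∀ᶠ s : ℝ in 𝓝[>] 0, ‖s • w‖ ≤ 1 := by
    have h1 : Tendsto (fun s : ℝ => ‖s • w‖) (𝓝[>] 0) (𝓝 ‖(0 : ℝ) • w‖) := by
      have : Continuous (fun s : ℝ => ‖s • w‖) := by fun_prop
      exact (this.tendsto 0).mono_left nhdsWithin_le_nhds
    rw [zero_smul, norm_zero] at h1
    exact h1.eventually (ge_mem_nhds one_pos)
  apply tendsto_integral_filter_of_dominated_convergence (K'.indicator (fun _ => C * ‖w‖))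
  · filter_upwards with s
    apply Continuous.aestronglyMeasurable
    have := hφ.continuous
    fun_prop
  · filter_upwards [hs, self_mem_nhdsWithin] with s h1 h2
    have hs0 : (0 : ℝ) < s := h2
    filter_upwards with x
    by_cases hx : x ∈ K'
    · rw [indicator_of_mem hx, norm_mul, norm_inv, Real.norm_of_nonneg hs0.le]
      have h3 := hC.dist_le_mul (x + s • w) x
      rw [dist_eq_norm, dist_eq_norm, add_sub_cancel_left, norm_smul,
        Real.norm_of_nonneg hs0.le] at h3
      rw [inv_mul_le_iff₀ hs0]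
      linarith
    · rw [indicator_of_notMem hx]
      have h3 : φ x = 0 := by
        apply image_eq_zero_of_notMem_tsupport
        intro h
        exact hx (self_subset_cthickening _ h)
      have h4 : φ (x + s • w) = 0 := by
        apply image_eq_zero_of_notMem_tsupport
        intro h
        apply hx
        apply mem_cthickening_of_dist_le x (x + s • w) _ _ h
        rw [dist_eq_norm, sub_add_cancel_left, norm_neg]
        exact h1
      rw [h3, h4]
      simp
  · apply Integrable.integrableOn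
    rw [integrable_indicator_iff hK'c.measurableSet]
    exact integrableOn_const hK'c.measure_lt_top.ne
  · filter_upwards with x
    have h1 : HasDerivAt (fun s : ℝ => φ (x + s • w)) (fderiv ℝ φ x w) 0 := by
      have h2 : HasDerivAt (fun s : ℝ => x + s • w) w 0 := by
        simpa using ((hasDerivAt_id (0 : ℝ)).smul_const w).const_add x
      have h3 : HasFDerivAt φ (fderiv ℝ φ x) (x + (0 : ℝ) • w) := by
        simpa using (hφ.differentiable (by simp) x).hasFDerivAt
      exact HasFDerivAt.comp_hasDerivAt (f := fun s : ℝ => x + s • w) (0 : ℝ) h3 h2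
    rw [hasDerivAt_iff_tendsto_slope_zero] at h1
    have h4 := h1.mono_left (nhdsWithin_mono 0 (show Ioi (0 : ℝ) ⊆ {0}ᶜ from
      fun s hs => ne_of_gt hs))
    simpa using h4

theorem shift_le {g : P2 → ℝ} {L : ℝ≥0} (hg : LipschitzWith L g) {φ : E → ℝ}
    (hφ : Continuous φ) (hc : HasCompactSupport φ) (w : E) {s : ℝ} (hs : 0 < s) :
    ‖∫ x in {x : E | g (Pr x) < x 2}, (φ (x + s • w) - φ x)‖ₑ
      ≤ ∫⁻ x in {x : E | |x 2 - g (Pr x)| ≤ ((L + 1) * ‖w‖) * s}, ‖φ x‖ₑ := by
  set U : Set E := {x : E | g (Pr x) < x 2} with hU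
  have hUo : IsOpen U := isOpen_lt (hg.continuous.comp Pr_cont) (coord_cont 2)
  set A : Set E := {x : E | |x 2 - g (Pr x)| ≤ ((L + 1) * ‖w‖) * s} with hA
  have hAm : MeasurableSet A := by
    apply IsClosed.measurableSet
    exact isClosed_le (((coord_cont 2).sub (hg.continuous.comp Pr_cont)).abs) continuous_const
  have hφi : Integrable φ := hφ.integrable_of_hasCompactSupport hc
  have hφi2 : Integrable (fun x => φ (x + s • w)) := hφi.comp_add_right (s • w)
  rw [integral_sub hφi2.integrableOn hφi.integrableOn]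
  have h1 : ∫ x in U, φ (x + s • w) = ∫ x, U.indicator (fun _ => (1 : ℝ)) (x - s • w) * φ x := by
    rw [← integral_indicator hUo.measurableSet,
      ← integral_add_right_eq_self (fun x => U.indicator (fun _ => (1 : ℝ)) (x - s • w) * φ x)
        (s • w)]
    congr 1
    ext x
    rw [add_sub_cancel_right]
    by_cases hx : x ∈ U <;> simp [hx]
  have h2 : ∫ x in U, φ x = ∫ x, U.indicator (fun _ => (1 : ℝ)) x * φ x := by
    rw [← integral_indicator hUo.measurableSet]
    congr 1
    ext x
    by_cases hx : x ∈ U <;> simp [hx]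
  have hind : ∀ x : E, ‖U.indicator (fun _ => (1 : ℝ)) x‖ ≤ 1 := by
    intro x
    by_cases hx : x ∈ U <;> simp [hx]
  have hm : Measurable (U.indicator (fun _ : E => (1 : ℝ))) :=
    measurable_const.indicator hUo.measurableSet
  have i1 : Integrable (fun x => U.indicator (fun _ => (1 : ℝ)) (x - s • w) * φ x) :=
    hφi.bdd_mul (c := 1) (f := fun x => U.indicator (fun _ => (1 : ℝ)) (x - s • w))
      (hm.comp (by fun_prop)).aestronglyMeasurable (ae_of_all _ (fun x => hind _))
  have i2 : Integrable (fun x => U.indicator (fun _ => (1 : ℝ)) x * φ x) :=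
    hφi.bdd_mul (c := 1) (f := fun x => U.indicator (fun _ => (1 : ℝ)) x)
      hm.aestronglyMeasurable (ae_of_all _ (fun x => hind _))
  rw [h1, h2, ← integral_sub i1 i2]
  refine (enorm_integral_le_lintegral_enorm _).trans ?_
  rw [← lintegral_indicator hAm]
  apply lintegral_mono
  intro x
  beta_reduce
  have hPr : |g (Pr (x - s • w)) - g (Pr x)| ≤ L * (s * ‖w‖) := by
    have a1 := (hg.comp Pr_lip).dist_le_mul (x - s • w) x
    rw [Real.dist_eq, dist_eq_norm, sub_sub_cancel_left, norm_neg, norm_smul,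
      Real.norm_of_nonneg hs.le, mul_one] at a1
    exact a1
  have hw2 : |w 2| ≤ ‖w‖ := by
    have := EuclideanSpace.norm_sq_eq w
    rw [Fin.sum_univ_three] at this
    apply abs_le_of_sq_le_sq _ (norm_nonneg _)
    rw [this]
    simp only [Real.norm_eq_abs, sq_abs]
    nlinarith [sq_nonneg (w 0), sq_nonneg (w 1)]
  have hsw : |s * w 2| ≤ s * ‖w‖ := by
    rw [abs_mul, abs_of_pos hs]
    exact mul_le_mul_of_nonneg_left hw2 hs.le
  have hx2 : (x - s • w) 2 = x 2 - s * w 2 := by simp
  rw [abs_le] at hPr hsw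
  by_cases hxA : x ∈ A
  · rw [indicator_of_mem hxA, ← sub_mul, enorm_mul]
    have : ‖U.indicator (fun _ => (1 : ℝ)) (x - s • w) - U.indicator (fun _ => (1 : ℝ)) x‖ₑ
        ≤ 1 := by
      by_cases a : x - s • w ∈ U <;> by_cases b : x ∈ U <;> simp [a, b]
    calc _ ≤ 1 * ‖φ x‖ₑ := mul_le_mul_left this _
      _ = _ := one_mul _
  · rw [indicator_of_notMem hxA]
    have hxA' : ((L + 1) * ‖w‖) * s < |x 2 - g (Pr x)| := by
      by_contra hcon
      exact hxA (not_lt.1 hcon)
    have key : (x - s • w ∈ U ↔ x ∈ U) := by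
      simp only [hU, mem_ofPred_eq, hx2]
      rcases lt_abs.1 hxA' with h | h
      · constructor
        · intro _; nlinarith [norm_nonneg w, L.coe_nonneg]
        · intro _; nlinarith [norm_nonneg w, L.coe_nonneg]
      · constructor
        · intro h3; nlinarith [norm_nonneg w, L.coe_nonneg]
        · intro h3
          have : 0 ≤ ((L + 1) * ‖w‖) * s := by positivity
          linarith
    have : U.indicator (fun _ => (1 : ℝ)) (x - s • w) = U.indicator (fun _ => (1 : ℝ)) x := by
      by_cases b : x ∈ U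
      · rw [indicator_of_mem b, indicator_of_mem (key.2 b)]
      · rw [indicator_of_notMem b, indicator_of_notMem (fun h => b (key.1 h))]
    rw [this, sub_self, enorm_zero]

/-- the divergence inequality above a graph -/
theorem graph_ineq {g : P2 → ℝ} {L : ℝ≥0} (hg : LipschitzWith L g) {φ : E → ℝ}
    (hφ : ContDiff ℝ 1 φ) (hc : HasCompactSupport φ) (w : E) :
    ‖∫ x in {x : E | g (Pr x) < x 2}, fderiv ℝ φ x w‖ₑ
      ≤ ENNReal.ofReal (2 * ((L + 1) * ‖w‖)) * ∫⁻ y, ‖φ (J (y, g y))‖ₑ := by
  set c : ℝ := (L + 1) * ‖w‖ with hc'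
  have hc0 : 0 ≤ c := by positivity
  set I := ∫⁻ y, ‖φ (J (y, g y))‖ₑ with hI
  have hlim := (diff_quot (U := {x : E | g (Pr x) < x 2}) hφ hc w).enorm
  have hmain : ∀ ε : ℝ, 0 < ε → ‖∫ x in {x : E | g (Pr x) < x 2}, fderiv ℝ φ x w‖ₑ
      ≤ ENNReal.ofReal (2 * c) * (I + ENNReal.ofReal ε) := by
    intro ε hε
    apply le_of_tendsto hlim
    filter_upwards [strip_int hg.continuous hφ.continuous hc hc0 hε, self_mem_nhdsWithin]
      with s h1 h2
    have hs0 : (0 : ℝ) < s := h2
    rw [integral_const_mul, enorm_mul]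
    have h3 := (shift_le hg hφ.continuous hc w hs0).trans h1
    have h4 : ‖s⁻¹‖ₑ = ENNReal.ofReal s⁻¹ := by
      rw [← ofReal_norm, Real.norm_of_nonneg (by positivity)]
    rw [h4]
    refine (mul_le_mul_right h3 _).trans ?_
    rw [← mul_assoc, ← ENNReal.ofReal_mul (by positivity)]
    have h5 : s⁻¹ * (2 * c * s) = 2 * c := by field_simp
    rw [h5]
  apply ENNReal.le_of_forall_pos_le_add
  intro δ hδ hfin
  have h1 := hmain (δ / (2 * c + 1)) (by positivity)
  rw [mul_add, ← ENNReal.ofReal_mul (by positivity)] at h1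
  refine h1.trans (add_le_add le_rfl ?_)
  rw [← ENNReal.ofReal_coe_nnreal]
  apply ENNReal.ofReal_le_ofReal
  rw [mul_div_assoc', div_le_iff₀ (by positivity)]
  nlinarith [δ.coe_nonneg]

end Pool.Agent.Run7.h982
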