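import Pool.Agent.Run7.h982.D2

/-!
# Insulating cracks: the surface measure of a Lipschitz boundary
-/

set_option autoImplicit false

open MeasureTheory Set Filter Topology Metric
open scoped ContDiff ENNReal NNReal InnerProductSpace

namespace Pool.Agent.Run7.h982

theorem h2_haar : (Measure.hausdorffMeasure 2 : Measure P2).IsAddHaarMeasure := by
  have : (Measure.hausdorffMeasure ((2 : ℕ) : ℝ) : Measure P2).IsAddHaarMeasure := inferInstance
  simpa using this

theorem h2_scale : ∃ c₀ : ℝ≥0, (volume : Measure P2)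
    = c₀ • (Measure.hausdorffMeasure 2 : Measure P2) := by
  have := h2_haar
  exact ⟨_, Measure.isAddLeftInvariant_eq_smul (volume : Measure P2) (Measure.hausdorffMeasure 2)⟩

section

variable {Ω : Set E} {p : E} {e : E ≃ₗᵢ[ℝ] E} {g : P2 → ℝ} {L : ℝ≥0} {r : ℝ}

theorem front_1 (hΩ : IsOpen Ω) (hg : LipschitzWith L g)
    (h : ∀ x ∈ ball p r, x ∈ Ω ↔ g (Pr (e x)) < e x 2) {x : E} (hx : x ∈ ball p r)
    (hf : x ∈ frontier Ω) : g (Pr (e x)) = e x 2 := by
  have h1 : x ∉ Ω := by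
    rw [hΩ.frontier_eq] at hf
    exact hf.2
  have h2 : ¬ g (Pr (e x)) < e x 2 := fun h3 => h1 ((h x hx).2 h3)
  by_contra hne
  have h3 : e x 2 < g (Pr (e x)) := lt_of_le_of_ne (not_lt.1 h2) (fun h => hne h.symm)
  have h4 : x ∈ closure Ω := frontier_subset_closure hf
  have hc : Continuous (fun x : E => g (Pr (e x))) :=
    hg.continuous.comp (Pr_cont.comp e.continuous)
  have hc2 : Continuous (fun x : E => e x 2) := (coord_cont 2).comp e.continuous
  have h5 : {y : E | e y 2 < g (Pr (e y))} ∩ ball p r ∈ 𝓝 x :=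
    inter_mem ((isOpen_lt hc2 hc).mem_nhds h3) (isOpen_ball.mem_nhds hx)
  obtain ⟨y, hy1, hy2⟩ := mem_closure_iff_nhds.1 h4 _ h5
  have h6 := (h y hy1.2).1 hy2
  have h7 : e y 2 < g (Pr (e y)) := hy1.1
  linarith

theorem front_2 (h : ∀ x ∈ ball p r, x ∈ Ω ↔ g (Pr (e x)) < e x 2)
    {y : P2} (hy : e.symm (J (y, g y)) ∈ ball p r) : e.symm (J (y, g y)) ∈ frontier Ω := by
  set x := e.symm (J (y, g y)) with hx
  have hex : e x = J (y, g y) := by simp [hx]
  have h1 : x ∉ Ω := by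
    rw [h x hy, hex, Pr_J, J_2]
    simp
  refine ⟨?_, fun h2 => h1 (interior_subset h2)⟩
  have h2 : Tendsto (fun s : ℝ => e.symm (J (y, g y + s))) (𝓝[>] 0) (𝓝 x) := by
    have hcont : Continuous (fun s : ℝ => e.symm (J (y, g y + s))) :=
      e.symm.continuous.comp (J_cont.comp (continuous_const.prodMk (by fun_prop)))
    have h3 := hcont.tendsto 0
    rw [add_zero] at h3
    exact h3.mono_left nhdsWithin_le_nhds
  apply mem_closure_of_tendsto h2
  filter_upwards [h2.eventually (isOpen_ball.mem_nhds hy), self_mem_nhdsWithin] with s h3 h4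
  have hs : (0 : ℝ) < s := h4
  rw [h _ h3]
  simp only [LinearIsometryEquiv.apply_symm_apply]
  rw [Pr_J, J_2]
  linarith

theorem T_lip (hg : LipschitzWith L g) : LipschitzWith (1 + L) (fun y => e.symm (J (y, g y))) := by
  have := e.symm.lipschitz.comp (J_lip hg)
  rwa [one_mul] at this

theorem PrT (y : P2) : Pr (e (e.symm (J (y, g y)))) = y := by
  rw [LinearIsometryEquiv.apply_symm_apply, Pr_J]

theorem TPr (hΩ : IsOpen Ω) (hg : LipschitzWith L g)
    (h : ∀ x ∈ ball p r, x ∈ Ω ↔ g (Pr (e x)) < e x 2) {x : E} (hx : x ∈ ball p r)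
    (hf : x ∈ frontier Ω) : e.symm (J (Pr (e x), g (Pr (e x)))) = x := by
  rw [front_1 hΩ hg h hx hf, J_Pr, LinearIsometryEquiv.symm_apply_apply]

theorem front_fin (hΩ : IsOpen Ω) (hg : LipschitzWith L g)
    (h : ∀ x ∈ ball p r, x ∈ Ω ↔ g (Pr (e x)) < e x 2) :
    (Measure.hausdorffMeasure 2 : Measure E) (frontier Ω ∩ ball p r) < ⊤ := by
  have := h2_haar
  set D : Set P2 := closedBall (Pr (e p)) r with hD
  have h1 : frontier Ω ∩ ball p r ⊆ (fun y => e.symm (J (y, g y))) '' D := by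
    rintro x ⟨hx1, hx2⟩
    refine ⟨Pr (e x), ?_, TPr hΩ hg h hx2 hx1⟩
    rw [mem_closedBall]
    have h2 := (Pr_lip.comp e.lipschitz).dist_le_mul x p
    simp only [mul_one, NNReal.coe_one, one_mul, Function.comp_apply] at h2
    exact h2.trans (mem_ball.1 hx2).le
  refine (measure_mono h1).trans_lt ?_
  refine ((T_lip hg).hausdorffMeasure_image_le (by norm_num) D).trans_lt ?_
  apply ENNReal.mul_lt_top
  · exact ENNReal.rpow_lt_top_of_nonneg (by norm_num) ENNReal.coe_ne_top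
  · exact (isCompact_closedBall _ _).measure_lt_top

theorem area_le (hΩ : IsOpen Ω) (hg : LipschitzWith L g)
    (h : ∀ x ∈ ball p r, x ∈ Ω ↔ g (Pr (e x)) < e x 2) {c₀ : ℝ≥0}
    (hc₀ : (volume : Measure P2) = c₀ • (Measure.hausdorffMeasure 2 : Measure P2))
    {φ : E → ℝ} (hφ : Continuous φ) (h0 : ∀ x ∉ ball p r, φ x = 0) :
    ∫⁻ y : P2, ‖φ (e.symm (J (y, g y)))‖ₑ
      ≤ c₀ * ∫⁻ x in frontier Ω, ‖φ x‖ₑ ∂(Measure.hausdorffMeasure 2) := by
  set T : P2 → E := fun y => e.symm (J (y, g y)) with hT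
  have hTc : Continuous T := (T_lip hg).continuous
  set A : Set E := frontier Ω ∩ ball p r with hA
  have hAm : MeasurableSet A := isClosed_frontier.measurableSet.inter isOpen_ball.measurableSet
  have hSm : MeasurableSet (T ⁻¹' A) := hTc.measurable hAm
  have hπm : Measurable (fun x : E => Pr (e x)) := (Pr_cont.comp e.continuous).measurable
  have hfm : Measurable (fun y => ‖φ (T y)‖ₑ) := (hφ.comp hTc).enorm.measurable
  have h1 : ∫⁻ y : P2, ‖φ (T y)‖ₑ = ∫⁻ y in T ⁻¹' A, ‖φ (T y)‖ₑ := by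
    rw [← lintegral_indicator hSm]
    congr 1
    ext y
    by_cases hy : y ∈ T ⁻¹' A
    · rw [indicator_of_mem hy]
    · rw [indicator_of_notMem hy]
      have : T y ∉ ball p r := fun hb => hy ⟨front_2 h hb, hb⟩
      rw [h0 _ this, enorm_zero]
  have h2 : (volume : Measure P2).restrict (T ⁻¹' A)
      ≤ c₀ • Measure.map (fun x : E => Pr (e x))
        ((Measure.hausdorffMeasure 2 : Measure E).restrict A) := by
    rw [Measure.le_iff]
    intro B hB
    rw [Measure.restrict_apply hB, hc₀, Measure.smul_apply, Measure.smul_apply,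
      Measure.map_apply hπm hB, Measure.restrict_apply (hπm hB)]
    have h3 : B ∩ T ⁻¹' A ⊆ (fun x : E => Pr (e x)) '' ((fun x : E => Pr (e x)) ⁻¹' B ∩ A) := by
      rintro y ⟨hy1, hy2⟩
      refine ⟨T y, ⟨?_, hy2⟩, PrT y⟩
      change Pr (e (T y)) ∈ B
      rw [hT, PrT y]
      exact hy1
    have h4 := (Pr_lip.comp e.lipschitz).hausdorffMeasure_image_le (d := 2) (by norm_num)
      ((fun x : E => Pr (e x)) ⁻¹' B ∩ A)
    simp only [mul_one, ENNReal.coe_one, ENNReal.one_rpow, one_mul] at h4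
    have h5 := (measure_mono h3).trans h4
    rw [ENNReal.smul_def, ENNReal.smul_def, smul_eq_mul, smul_eq_mul]
    exact mul_le_mul_right h5 _
  rw [h1]
  refine (lintegral_mono' h2 le_rfl).trans ?_
  rw [lintegral_smul_measure, lintegral_map hfm hπm, ENNReal.smul_def, smul_eq_mul]
  apply mul_le_mul_right
  have h3 : ∫⁻ x in A, ‖φ (T (Pr (e x)))‖ₑ ∂(Measure.hausdorffMeasure 2)
      = ∫⁻ x in A, ‖φ x‖ₑ ∂(Measure.hausdorffMeasure 2) := by
    apply setLIntegral_congr_fun hAm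
    intro x hx
    simp only [hT]
    rw [TPr hΩ hg h hx.2 hx.1]
  rw [h3]
  exact lintegral_mono_set inter_subset_left

end

end Pool.Agent.Run7.h982
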