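import Mathlib

/-!
# Insulating cracks in a Lipschitz domain of three-space: definitions
-/

set_option autoImplicit false

open MeasureTheory Set Filter Topology Metric
open scoped ContDiff ENNReal NNReal InnerProductSpace

namespace Pool.Agent.Run7.h982

/-- Euclidean three-space. -/
abbrev E := EuclideanSpace ℝ (Fin 3)

/-- `φ` is a test function with compact support in `U`. -/
def IsTest (U : Set E) (φ : E → ℝ) : Prop :=
  ContDiff ℝ ∞ φ ∧ HasCompactSupport φ ∧ tsupport φ ⊆ U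

/-- `u` belongs to `H¹(O)` and `G` is its weak gradient. -/
structure IsH1 (O : Set E) (u : E → ℝ) (G : E → E) : Prop where
  mem : MemLp u 2 (volume.restrict O)
  memG : MemLp G 2 (volume.restrict O)
  weak : ∀ φ : E → ℝ, IsTest O φ → ∀ e : E,
    ∫ x in O, u x * fderiv ℝ φ x e = - ∫ x in O, ⟪G x, e⟫_ℝ * φ x

/-- Surface measure on the boundary of `Ω` (two-dimensional Hausdorff measure; the factor turns
the normalisation `diam ^ 2` of Mathlib into the area). -/
noncomputable def surf (Ω : Set E) : Measure E :=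
  ENNReal.ofReal (Real.pi / 4) • (Measure.hausdorffMeasure 2 : Measure E).restrict (frontier Ω)

/-- `Ω` has Lipschitz boundary: near each boundary point it is, in suitable rectangular
coordinates, the region above the graph of a Lipschitz function. -/
def LipBoundary (Ω : Set E) : Prop :=
  ∀ p ∈ frontier Ω, ∃ (e : E ≃ₗᵢ[ℝ] E) (g : EuclideanSpace ℝ (Fin 2) → ℝ) (L : ℝ≥0) (r : ℝ),
    0 < r ∧ LipschitzWith L g ∧
      ∀ x ∈ ball p r, x ∈ Ω ↔ g !₂[e x 0, e x 1] < e x 2

/-- A bounded connected open set with Lipschitz boundary. -/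
structure IsDomain3 (Ω : Set E) : Prop where
  isOpen : IsOpen Ω
  conn : IsConnected Ω
  bdd : Bornology.IsBounded Ω
  lip : LipBoundary Ω

/-- `f ∈ L²(∂Ω)` is the trace on `∂Ω` of the function `u`, which is `H¹` near `∂Ω` with gradient
`G`: outside some compact subset `K` of `Ω`, `u` is the limit in `H¹` of smooth functions on `ℝ³`
whose restrictions to the boundary converge to `f` in `L²(∂Ω)`. -/
def HasTrace (Ω : Set E) (u : E → ℝ) (G : E → E) (f : E → ℝ) : Prop :=
  MemLp f 2 (surf Ω) ∧ ∃ K : Set E, IsCompact K ∧ K ⊆ Ω ∧ ∃ Φ : ℕ → E → ℝ,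
    (∀ n, ContDiff ℝ ∞ (Φ n)) ∧
    Tendsto (fun n => eLpNorm (fun x => u x - Φ n x) 2 (volume.restrict (Ω \ K))) atTop (𝓝 0) ∧
    Tendsto (fun n => eLpNorm (fun x => G x - gradient (Φ n) x) 2 (volume.restrict (Ω \ K)))
      atTop (𝓝 0) ∧
    Tendsto (fun n => eLpNorm (fun x => f x - Φ n x) 2 (surf Ω)) atTop (𝓝 0)

/-- A current profile: `ψ ∈ L²(∂Ω)` with mean zero. -/
structure IsProfile (Ω : Set E) (ψ : E → ℝ) : Prop where
  mem : MemLp ψ 2 (surf Ω)
  mean : ∫ x, ψ x ∂(surf Ω) = 0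

/-- `u` (with weak gradient `G`) is the potential for the crack `S` and the current profile `ψ`,
normalised to have mean zero on the boundary, and `f` is its boundary measurement. -/
structure IsPotential (Ω S : Set E) (ψ : E → ℝ) (u : E → ℝ) (G : E → E) (f : E → ℝ) : Prop where
  h1 : IsH1 (Ω \ S) u G
  trace : HasTrace Ω u G f
  weak : ∀ (φ : E → ℝ) (H : E → E) (g : E → ℝ), IsH1 (Ω \ S) φ H → HasTrace Ω φ H g →
    ∫ x in Ω \ S, ⟪G x, H x⟫_ℝ = ∫ x, ψ x * g x ∂(surf Ω)
  norm : ∫ x, f x ∂(surf Ω) = 0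

/-- `p` is an interior point of the surface `S`: in suitable coordinates of class `C^n` of
three-space near `p`, the set `S` is the plane `ζ₂ = 0`. -/
def IntPt (n : WithTop ℕ∞) (S : Set E) (p : E) : Prop :=
  ∃ Φ : OpenPartialHomeomorph E E, 0 ∈ Φ.source ∧ Φ 0 = p ∧
    ContDiffOn ℝ n Φ Φ.source ∧ ContDiffOn ℝ n Φ.symm Φ.target ∧
    ∀ ζ ∈ Φ.source, Φ ζ ∈ S ↔ ζ 2 = 0

/-- `p` is a boundary point of the surface `S`: in suitable coordinates of class `C^n` of
three-space near `p`, the set `S` is the part `h ζ₁ ≤ ζ₀` of the plane `ζ₂ = 0`, `h` being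
Lipschitz with `h 0 = 0` (`h = 0` for a surface with `C^n` boundary). -/
def BdPt (n : WithTop ℕ∞) (S : Set E) (p : E) : Prop :=
  ∃ (Φ : OpenPartialHomeomorph E E) (h : ℝ → ℝ) (L : ℝ≥0), 0 ∈ Φ.source ∧ Φ 0 = p ∧
    ContDiffOn ℝ n Φ Φ.source ∧ ContDiffOn ℝ n Φ.symm Φ.target ∧ LipschitzWith L h ∧ h 0 = 0 ∧
    ∀ ζ ∈ Φ.source, Φ ζ ∈ S ↔ (ζ 2 = 0 ∧ h (ζ 1) ≤ ζ 0)

/-- A smooth crack in `Ω`: a compact connected smooth surface in `Ω` with nonempty boundary
(of any genus, orientable or not, with any number of boundary curves, which may be Lipschitz). -/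
structure IsCrack (Ω S : Set E) : Prop where
  compact : IsCompact S
  sub : S ⊆ Ω
  conn : IsConnected S
  pts : ∀ p ∈ S, IntPt ∞ S p ∨ BdPt ∞ S p
  bd : ∃ p ∈ S, BdPt ∞ S p

/-- The set of points near which the surface is real analytic. -/
def analyticLocus (S : Set E) : Set E := {p ∈ S | IntPt ω S p}

end Pool.Agent.Run7.h982
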