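import Pool.Agent.Run7.h982.Defs

/-!
# Insulating cracks: definitions for the theorem on two explicit profiles
-/

set_option autoImplicit false

open MeasureTheory Set Filter Topology Metric
open scoped ContDiff ENNReal NNReal InnerProductSpace

namespace Pool.Agent.Run7.h982

/-- The two cracks have the same boundary measurement for the profile `ψ`: there are potentials
for both with the same trace `f` on the boundary. -/
def SameData (Ω : Set E) (ψ : E → ℝ) (S S' : Set E) : Prop :=
  ∃ (u : E → ℝ) (G : E → E) (u' : E → ℝ) (G' : E → E) (f : E → ℝ),
    IsPotential Ω S ψ u G f ∧ IsPotential Ω S' ψ u' G' f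

/-- `ψ` is the normal derivative of `h` on the boundary of `Ω` (weak form, by Green's formula). -/
def IsFlux (Ω : Set E) (h ψ : E → ℝ) : Prop :=
  ∀ F : E → ℝ, ContDiff ℝ ∞ F →
    ∫ x in Ω, ⟪gradient h x, gradient F x⟫_ℝ = ∫ x, ψ x * F x ∂(surf Ω)

/-- The part of the crack `S` which is reached from `S \ S'` by analytic continuation in `S`: the
union of the connected components of the analytic part of `S` which meet `S \ S'`. -/
def reach (S S' : Set E) : Set E :=
  {p | ∃ q ∈ S \ S', q ∈ connectedComponentIn (analyticLocus S) p}

/-- `S` is a crack of mixed type relative to `S'`: it is not contained in `S'`, the points near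
which `S` is real analytic are dense in `S \ S'`, but `S` is not real analytic at all its interior
points, and the part of `S ∩ S'` which is not reached from `S \ S'` by analytic continuation in
`S` has positive area. -/
structure Mixed (S S' : Set E) : Prop where
  ne : (S \ S').Nonempty
  dense : S \ S' ⊆ closure (analyticLocus S)
  not_analytic : ¬ ∀ p ∈ S, IntPt ω S p ∨ BdPt ∞ S p
  area : 0 < (Measure.hausdorffMeasure 2 : Measure E) ((S ∩ S') \ reach S S')

end Pool.Agent.Run7.h982
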