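import Pool.Agent.Run7.h982.Remv

/-!
# Insulating cracks: equal measurements give equal potentials
-/

set_option autoImplicit false

open MeasureTheory Set Filter Topology Metric
open scoped ContDiff ENNReal NNReal InnerProductSpace

namespace Pool.Agent.Run7.h982

theorem Sol.cinf {Ω S : Set E} {v : E → ℝ} (hΩ : IsOpen Ω) (hS : IsCompact S) (h : Sol Ω S v) :
    ContDiffOn ℝ ∞ v (Ω \ S) :=
  AnalyticOnNhd.contDiffOn (n := ∞) h.an (hΩ.sdiff hS.isClosed).uniqueDiffOn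

/-- one sided test functions -/
theorem gtest_side {Ω S' U P Q : Set E} (hU : IsOpen U) (hUΩ : U ⊆ Ω) (hP : IsOpen P)
    (hQ : IsOpen Q) (hPQ : Disjoint P Q) (hUS : U \ S' = P ∪ Q) (hS' : IsClosed S')
    (hΩ : IsOpen Ω)
    {φ : E → ℝ} (hφ : IsTest U φ) :
    GTest Ω S' (P.indicator φ) ∧ ∀ x ∈ S'ᶜ, gradient (P.indicator φ) x =
      P.indicator (gradient φ) x := by
  have hφ1 : ContDiff ℝ 1 φ := hφ.1.of_le (by simp)
  have loc : ∀ x ∈ S'ᶜ, (x ∈ P ∧ P.indicator φ =ᶠ[𝓝 x] φ) ∨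
      (x ∉ P ∧ P.indicator φ =ᶠ[𝓝 x] fun _ => 0) := by
    intro x hx
    by_cases h1 : x ∈ U
    · have h2 : x ∈ P ∪ Q := by rw [← hUS]; exact ⟨h1, hx⟩
      rcases h2 with h2 | h2
      · left
        refine ⟨h2, ?_⟩
        filter_upwards [hP.mem_nhds h2] with y hy
        rw [indicator_of_mem hy]
      · right
        refine ⟨fun h => Set.disjoint_left.1 hPQ h h2, ?_⟩
        filter_upwards [hQ.mem_nhds h2] with y hy
        rw [indicator_of_notMem (fun h => Set.disjoint_left.1 hPQ h hy)]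
    · right
      refine ⟨fun h => h1 ?_, ?_⟩
      · have : x ∈ U \ S' := by rw [hUS]; exact Or.inl h
        exact this.1
      · have h3 : x ∉ tsupport φ := fun h => h1 (hφ.2.2 h)
        filter_upwards [(isClosed_tsupport φ).isOpen_compl.mem_nhds h3] with y hy
        by_cases hyP : y ∈ P
        · rw [indicator_of_mem hyP, image_eq_zero_of_notMem_tsupport hy]
        · rw [indicator_of_notMem hyP]
  have hgrad : ∀ x ∈ S'ᶜ, gradient (P.indicator φ) x = P.indicator (gradient φ) x := by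
    intro x hx
    rcases loc x hx with ⟨h1, h2⟩ | ⟨h1, h2⟩
    · rw [h2.gradient_eq, indicator_of_mem h1]
    · rw [h2.gradient_eq, indicator_of_notMem h1]
      exact grad_of_fderiv_zero (by simp)
  refine ⟨⟨?_, ⟨tsupport φ, hφ.2.1, hφ.2.2.trans hUΩ, ?_⟩, ?_, ?_⟩, hgrad⟩
  · intro x hx
    rcases loc x hx with ⟨h1, h2⟩ | ⟨h1, h2⟩
    · exact (hφ1.contDiffAt.congr_of_eventuallyEq h2).contDiffWithinAt
    · exact (contDiffAt_const.congr_of_eventuallyEq h2).contDiffWithinAt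
  · intro x hx
    by_cases hxP : x ∈ P
    · rw [indicator_of_mem hxP, image_eq_zero_of_notMem_tsupport hx]
    · rw [indicator_of_notMem hxP]
  · exact ((hφ1.continuous.memLp_of_hasCompactSupport hφ.2.1).restrict _).indicator
      hP.measurableSet
  · have h1 : MemLp (P.indicator (gradient φ)) 2 (volume.restrict (Ω \ S')) :=
      ((grad_memLp hφ1 hφ.2.1 2 volume).restrict _).indicator hP.measurableSet
    apply h1.ae_eq
    filter_upwards [ae_restrict_mem (hΩ.sdiff hS').measurableSet] with x hx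
    rw [hgrad x hx.2]

theorem setInt_congr_null {A B : Set E} (hA : MeasurableSet A) (hB : MeasurableSet B)
    {F : E → ℝ} {N : Set E} (hN : volume N = 0)
    (h : ∀ x ∉ N, (x ∈ A → x ∉ B → F x = 0) ∧ (x ∈ B → x ∉ A → F x = 0)) :
    ∫ x in A, F x = ∫ x in B, F x := by
  rw [← integral_indicator hA, ← integral_indicator hB]
  apply integral_congr_ae
  have h0 : ∀ᵐ x : E, x ∉ N := by
    rw [ae_iff]
    simpa using hN
  filter_upwards [h0] with x hx
  obtain ⟨h1, h2⟩ := h x hx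
  by_cases hxA : x ∈ A <;> by_cases hxB : x ∈ B
  · rw [indicator_of_mem hxA, indicator_of_mem hxB]
  · rw [indicator_of_mem hxA, indicator_of_notMem hxB, h1 hxA hxB]
  · rw [indicator_of_notMem hxA, indicator_of_mem hxB, h2 hxB hxA]
  · rw [indicator_of_notMem hxA, indicator_of_notMem hxB]

theorem agree_open {Ω S S' : Set E} (hΩ : IsOpen Ω) (hS : IsCompact S) (hS' : IsCompact S')
    {v v' : E → ℝ} (hv : AnalyticOnNhd ℝ v (Ω \ S)) (hv' : AnalyticOnNhd ℝ v' (Ω \ S')) :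
    IsOpen {x | x ∈ Ω \ (S ∪ S') ∧ v =ᶠ[𝓝 x] v'} ∧
      IsOpen {x | x ∈ Ω \ (S ∪ S') ∧ ¬ v =ᶠ[𝓝 x] v'} := by
  have oX : IsOpen (Ω \ (S ∪ S')) := hΩ.sdiff (hS.union hS').isClosed
  constructor
  · rw [isOpen_iff_mem_nhds]
    rintro x ⟨hx1, hx2⟩
    filter_upwards [oX.mem_nhds hx1, hx2.eventuallyEq_nhds] with y hy1 hy2
    exact ⟨hy1, hy2⟩
  · rw [isOpen_iff_mem_nhds]
    rintro x ⟨hx1, hx2⟩
    obtain ⟨r, hr, hrX⟩ := Metric.isOpen_iff.1 oX x hx1
    filter_upwards [ball_mem_nhds x hr] with y hy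
    refine ⟨hrX hy, fun hy2 => hx2 ?_⟩
    have h1 : AnalyticOnNhd ℝ v (ball x r) := hv.mono (fun z hz =>
      ⟨(hrX hz).1, fun h => (hrX hz).2 (Or.inl h)⟩)
    have h2 : AnalyticOnNhd ℝ v' (ball x r) := hv'.mono (fun z hz =>
      ⟨(hrX hz).1, fun h => (hrX hz).2 (Or.inr h)⟩)
    have h3 := h1.eqOn_of_preconnected_of_eventuallyEq h2 (convex_ball x r).isPreconnected hy hy2
    filter_upwards [ball_mem_nhds x hr] with z hz
    exact h3 hz

theorem profile_zero {Ω S : Set E} (hΩ : IsDomain3 Ω) (hfin : surf Ω univ < ⊤)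
    (hS : IsCompact S) {a : Fin 2 → ℝ} {ψ : Fin 2 → E → ℝ} {G : Fin 2 → E → E}
    {u : Fin 2 → E → ℝ} {f : Fin 2 → E → ℝ} (hψ : ∀ i, MemLp (ψ i) 2 (surf Ω))
    (h : ∀ i, IsPotential Ω S (ψ i) (u i) (G i) (f i))
    (hz : ∀ x ∈ Ω \ S, ∑ i, a i • G i x = 0) :
    ∀ᵐ x ∂(surf Ω), ∑ i, a i * ψ i x = 0 := by
  have : IsFiniteMeasure (surf Ω) := ⟨hfin⟩
  have hint : ∀ i, Integrable (ψ i) (surf Ω) := fun i => (hψ i).integrable (by norm_num)
  apply ae_eq_zero_of_integral_contDiff_smul_eq_zero (μ := surf Ω)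
    (f := fun x => ∑ i, a i * ψ i x)
  · exact (integrable_finsetSum _ (fun i _ => (hint i).const_mul (a i))).locallyIntegrable
  · intro g hg hgc
    have hgt : IsTest univ g := ⟨hg, hgc, subset_univ _⟩
    have hg2 : MemLp g 2 (surf Ω) := hg.continuous.memLp_of_hasCompactSupport hgc
    have e1 : ∀ x, g x • ∑ i, a i * ψ i x = ∑ i, a i * (ψ i x * g x) := by
      intro x
      rw [smul_eq_mul, Finset.mul_sum]
      exact Finset.sum_congr rfl (fun i _ => by ring)
    simp_rw [e1]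
    rw [integral_finsetSum _ (fun i _ => (int_mul (hψ i) hg2).const_mul (a i))]
    simp_rw [integral_const_mul]
    have e2 : ∀ i, ∫ x, ψ i x * g x ∂(surf Ω) = ∫ x in Ω \ S, ⟪G i x, gradient g x⟫_ℝ :=
      fun i => ((h i).weak g (gradient g) g (hgt.isH1 (hΩ.isOpen.sdiff hS.isClosed))
        (trace_of_smooth hΩ.bdd hfin hg)).symm
    simp_rw [e2]
    have e3 : ∀ i, Integrable (fun x => ⟪G i x, gradient g x⟫_ℝ) (volume.restrict (Ω \ S)) :=
      fun i => int_inner (h i).h1.memG ((grad_memLp (hg.of_le (by simp)) hgc 2 volume).restrict _)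
    have e4 : ∑ i, a i * ∫ x in Ω \ S, ⟪G i x, gradient g x⟫_ℝ =
        ∫ x in Ω \ S, ∑ i, a i * ⟪G i x, gradient g x⟫_ℝ := by
      rw [integral_finsetSum _ (fun i _ => (e3 i).const_mul (a i))]
      simp_rw [integral_const_mul]
    rw [e4]
    apply setIntegral_eq_zero_of_forall_eq_zero
    intro x hx
    have := hz x hx
    calc ∑ i, a i * ⟪G i x, gradient g x⟫_ℝ = ⟪∑ i, a i • G i x, gradient g x⟫_ℝ := by
          rw [sum_inner]
          exact Finset.sum_congr rfl (fun i _ => by rw [real_inner_smul_left])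
      _ = 0 := by rw [this]; simp

end Pool.Agent.Run7.h982
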