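import Pool.Agent.Run7.h982.Encl

/-!
# Insulating cracks: no enclosed regions
-/

set_option autoImplicit false

open MeasureTheory Set Filter Topology Metric
open scoped ContDiff ENNReal NNReal InnerProductSpace

namespace Pool.Agent.Run7.h982

/-- the flow of `∇ v` through the region of disagreement has no sources off `S` -/
theorem claim_one {Ω S S' : Set E} (hΩ : IsDomain3 Ω)
    (hS : IsCrack Ω S) (hS' : IsCrack Ω S')
    {v v' : E → ℝ} (hv : Sol Ω S v) (hv' : Sol Ω S' v')
    {φ : E → ℝ} (hφ : IsTest (Ω \ S) φ) :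
    ∫ x in {x | x ∈ Ω \ (S ∪ S') ∧ ¬ v =ᶠ[𝓝 x] v'}, ⟪gradient v x, gradient φ x⟫_ℝ = 0 := by
  set A : Set E := {x | x ∈ Ω \ (S ∪ S') ∧ v =ᶠ[𝓝 x] v'} with hA
  set B : Set E := {x | x ∈ Ω \ (S ∪ S') ∧ ¬ v =ᶠ[𝓝 x] v'} with hB
  obtain ⟨oA, oB⟩ : IsOpen A ∧ IsOpen B :=
    agree_open hΩ.isOpen hS.compact hS'.compact hv.an hv'.an
  have oS : IsOpen (Ω \ S) := hΩ.isOpen.sdiff hS.compact.isClosed
  have hBS : B ⊆ Ω \ S := fun x hx => ⟨hx.1.1, fun h => hx.1.2 (Or.inl h)⟩
  have hAB : Disjoint A B := Set.disjoint_left.2 (fun x hx hx' => hx'.2 hx.2)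
  have hX : ∀ x ∈ Ω \ (S ∪ S'), x ∈ A ∨ x ∈ B := by
    intro x hx
    by_cases h : v =ᶠ[𝓝 x] v'
    · exact Or.inl ⟨hx, h⟩
    · exact Or.inr ⟨hx, h⟩
  have hcc : ∀ C : Set E, IsPreconnected C → C ⊆ Ω \ (S ∪ S') → C ⊆ A ∨ C ⊆ B := by
    intro C hC hCX
    exact isPreconnected_iff_subset_of_disjoint.1 hC A B oA oB (fun x hx => hX x (hCX hx)) (by
      rw [Set.disjoint_iff_inter_eq_empty.1 hAB, inter_empty])
  have zg : ∀ {φ : E → ℝ} {U : Set E}, IsTest U φ → ∀ x ∉ U, gradient φ x = 0 :=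
    fun hφ x hx => grad_zero_of (fun h => hx (hφ.2.2 h))
  -- U \ S' in A
  have caseA : ∀ U, U \ S' ⊆ A → ∀ φ, IsTest U φ →
      ∫ x in B, ⟪gradient v x, gradient φ x⟫_ℝ = 0 := by
    intro U hU φ hφ
    apply setIntegral_eq_zero_of_forall_eq_zero
    intro x hx
    have : x ∉ U := fun h => Set.disjoint_left.1 hAB (hU ⟨h, fun h => hx.1.2 (Or.inr h)⟩) hx
    rw [zg hφ x this]; simp
  have caseB : ∀ U, U ⊆ Ω \ S → U \ S' ⊆ B → ∀ φ, IsTest U φ →
      ∫ x in B, ⟪gradient v x, gradient φ x⟫_ℝ = 0 := by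
    intro U hUS hU φ hφ
    rw [← hv.weak φ (hφ.mono (hUS.trans sdiff_subset)).gtest]
    apply setInt_congr_null oB.measurableSet oS.measurableSet hS'.null
    intro x hx
    refine ⟨fun h1 h2 => absurd (hBS h1) h2, fun h1 h2 => ?_⟩
    have : x ∉ U := fun h => h2 (hU ⟨h, hx⟩)
    rw [zg hφ x this]; simp
  have caseM : ∀ U P Q : Set E, IsOpen U → U ⊆ Ω \ S → IsOpen P → IsOpen Q → Disjoint P Q →
      U \ S' = P ∪ Q → P ⊆ A → Q ⊆ B → ∀ φ, IsTest U φ →
      ∫ x in B, ⟪gradient v x, gradient φ x⟫_ℝ = 0 := by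
    intro U P Q oU hUS oP oQ hPQ hUPQ hPA hQB φ hφ
    obtain ⟨g1, g2⟩ := gtest_side oU (hUS.trans sdiff_subset) oP oQ hPQ hUPQ
      hS'.compact.isClosed hΩ.isOpen hφ
    have e0 := hv'.weak _ g1
    have hPS' : P ⊆ S'ᶜ := fun x hx => by
      have : x ∈ U \ S' := by rw [hUPQ]; exact Or.inl hx
      exact this.2
    have hPU : P ⊆ U := fun x hx => by
      have : x ∈ U \ S' := by rw [hUPQ]; exact Or.inl hx
      exact this.1
    have hQU : Q ⊆ U := fun x hx => by
      have : x ∈ U \ S' := by rw [hUPQ]; exact Or.inr hx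
      exact this.1
    have hQS' : Q ⊆ S'ᶜ := fun x hx => by
      have : x ∈ U \ S' := by rw [hUPQ]; exact Or.inr hx
      exact this.2
    have e1 : ∫ x in P, ⟪gradient v x, gradient φ x⟫_ℝ = 0 := by
      rw [← e0]
      have e2 : ∫ x in P, ⟪gradient v x, gradient φ x⟫_ℝ =
          ∫ x in P, ⟪gradient v' x, gradient (P.indicator φ) x⟫_ℝ := by
        apply setIntegral_congr_fun oP.measurableSet
        intro x hx
        simp only
        rw [g2 x (hPS' hx), indicator_of_mem hx, (hPA hx).2.gradient_eq]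
      rw [e2]
      apply setInt_congr_null oP.measurableSet
        (hΩ.isOpen.sdiff hS'.compact.isClosed).measurableSet (N := ∅) measure_empty
      intro x _
      refine ⟨fun h1 h2 => absurd ⟨(hUS (hPU h1)).1, hPS' h1⟩ h2, fun h1 h2 => ?_⟩
      rw [g2 x h1.2, indicator_of_notMem h2]; simp
    have e3 : ∫ x in P ∪ Q, ⟪gradient v x, gradient φ x⟫_ℝ = 0 := by
      rw [← hv.weak φ (hφ.mono (hUS.trans sdiff_subset)).gtest]
      apply setInt_congr_null (oP.union oQ).measurableSet oS.measurableSet hS'.null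
      intro x hx
      refine ⟨fun h1 h2 => absurd (hUS ?_) h2, fun h1 h2 => ?_⟩
      · rcases h1 with h | h
        · exact hPU h
        · exact hQU h
      · have : x ∉ U := fun h => h2 (by rw [← hUPQ]; exact ⟨h, hx⟩)
        rw [zg hφ x this]; simp
    have hi : Integrable (fun x => ⟪gradient v x, gradient φ x⟫_ℝ) (volume.restrict (Ω \ S)) :=
      int_inner hv.memG ((grad_memLp (hφ.1.of_le (by simp)) hφ.2.1 2 volume).restrict _)
    have e4 := setIntegral_union (μ := volume) (f := fun x => ⟪gradient v x, gradient φ x⟫_ℝ)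
      hPQ oQ.measurableSet
      (IntegrableOn.mono_set (t := Ω \ S) hi (hPU.trans hUS))
      (IntegrableOn.mono_set (t := Ω \ S) hi (hQU.trans hUS))
    rw [e3, e1, zero_add] at e4
    rw [e4]
    symm
    apply setInt_congr_null oQ.measurableSet oB.measurableSet (N := ∅) measure_empty
    intro x _
    refine ⟨fun h1 h2 => absurd (hQB h1) h2, fun h1 h2 => ?_⟩
    have : x ∉ U := by
      intro h
      have h3 : x ∈ U \ S' := ⟨h, fun h => h1.1.2 (Or.inr h)⟩
      rw [hUPQ] at h3
      rcases h3 with h3 | h3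
      · exact Set.disjoint_left.1 hAB (hPA h3) h1
      · exact h2 h3
    rw [zg hφ x this]; simp
  have hnull : IsTest univ φ := hφ.mono (subset_univ _)
  refine localise (K := tsupport φ) hφ.2.1
    (P := fun φ => ∫ x in B, ⟪gradient v x, gradient φ x⟫_ℝ = 0) ?_ ?_ ?_ φ hnull Subset.rfl
  · intro φ₁ φ₂ h1 h2 p1 p2
    have m1 := hv.memG.mono_measure (Measure.restrict_mono hBS le_rfl)
    have i1 : Integrable (fun x => ⟪gradient v x, gradient φ₁ x⟫_ℝ) (volume.restrict B) :=
      int_inner m1 ((grad_memLp (h1.1.of_le (by simp)) h1.2.1 2 volume).restrict _)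
    have i2 : Integrable (fun x => ⟪gradient v x, gradient φ₂ x⟫_ℝ) (volume.restrict B) :=
      int_inner m1 ((grad_memLp (h2.1.of_le (by simp)) h2.2.1 2 volume).restrict _)
    have hg : ∀ x, gradient (fun x => φ₁ x + φ₂ x) x = gradient φ₁ x + gradient φ₂ x := by
      intro x
      have d1 := ((h1.1.differentiable (by simp)) x).hasFDerivAt
      have d2 := ((h2.1.differentiable (by simp)) x).hasFDerivAt
      unfold gradient
      rw [(d1.fun_add d2).fderiv, map_add]
    simp_rw [hg, inner_add_right]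
    rw [integral_add i1 i2, p1, p2, add_zero]
  · intro p hp
    have hpS : p ∈ Ω \ S := hφ.2.2 hp
    by_cases hpS' : p ∈ S'
    · rcases hS'.pts p hpS' with h | h
      · obtain ⟨U, P, Q, a1, a2, a3, a4, a5, a6, a7, a8, a9, a10, a11⟩ :=
          intPt_local h (oS.mem_nhds hpS)
        have hP : P ⊆ Ω \ (S ∪ S') := by
          intro x hx
          have h1 : x ∈ U \ S' := by rw [a9]; exact Or.inl hx
          have h2 := a3 h1.1
          exact ⟨h2.1, fun h => h.elim h2.2 h1.2⟩
        have hQ : Q ⊆ Ω \ (S ∪ S') := by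
          intro x hx
          have h1 : x ∈ U \ S' := by rw [a9]; exact Or.inr hx
          have h2 := a3 h1.1
          exact ⟨h2.1, fun h => h.elim h2.2 h1.2⟩
        refine ⟨U, a1, a2, ?_⟩
        rcases hcc P a7.isPreconnected hP with h1 | h1 <;>
          rcases hcc Q a8.isPreconnected hQ with h2 | h2
        · exact caseA U (by rw [a9]; exact union_subset h1 h2)
        · exact caseM U P Q a1 a3 a4 a5 a6 a9 h1 h2
        · exact caseM U Q P a1 a3 a5 a4 a6.symm (by rw [a9, union_comm]) h2 h1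
        · exact caseB U a3 (by rw [a9]; exact union_subset h1 h2)
      · obtain ⟨U, a1, a2, a3, a4⟩ := bdPt_local h (oS.mem_nhds hpS)
        refine ⟨U, a1, a2, ?_⟩
        rcases hcc (U \ S') a4.isPreconnected (fun x hx =>
          ⟨(a3 hx.1).1, fun h => h.elim (a3 hx.1).2 hx.2⟩) with h1 | h1
        · exact caseA U h1
        · exact caseB U a3 h1
    · rcases hX p ⟨hpS.1, fun h => h.elim hpS.2 hpS'⟩ with h | h
      · exact ⟨A, oA, h, caseA A sdiff_subset⟩
      · exact ⟨B, oB, h, caseB B hBS sdiff_subset⟩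
  · have : ∀ x : E, gradient (fun _ : E => (0 : ℝ)) x = 0 :=
      fun x => grad_of_fderiv_zero (by simp)
    simp [this]

/-- the flow vanishes on the region of disagreement -/
theorem claim_two (hINT : INT_stm) (hE : EDGE_stm) {Ω S S' : Set E} (hΩ : IsDomain3 Ω)
    (hS : IsCrack Ω S) (hS' : IsCrack Ω S')
    {v v' : E → ℝ} (hv : Sol Ω S v) (hv' : Sol Ω S' v')
    (hnear : ∃ N, IsOpen N ∧ frontier Ω ⊆ N ∧ ∀ x ∈ N ∩ Ω, x ∉ S ∧ x ∉ S' ∧ v x = v' x)
    {x₀ : E} (hx₀ : x₀ ∈ Ω \ (S ∪ S')) (hne : ¬ v =ᶠ[𝓝 x₀] v') : gradient v x₀ = 0 := by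
  set B : Set E := {x | x ∈ Ω \ (S ∪ S') ∧ ¬ v =ᶠ[𝓝 x] v'} with hB
  have oB : IsOpen B := (agree_open hΩ.isOpen hS.compact hS'.compact hv.an hv'.an).2
  have oS : IsOpen (Ω \ S) := hΩ.isOpen.sdiff hS.compact.isClosed
  have hBS : B ⊆ Ω \ S := fun x hx => ⟨hx.1.1, fun h => hx.1.2 (Or.inl h)⟩
  have hxB : x₀ ∈ B := ⟨hx₀, hne⟩
  obtain ⟨N, hN1, hN2, hN3⟩ := hnear
  have hBN : B ⊆ closure Ω \ N := by
    intro x hx
    refine ⟨subset_closure hx.1.1, fun hxN => hx.2 ?_⟩
    filter_upwards [(hN1.inter hΩ.isOpen).mem_nhds ⟨hxN, hx.1.1⟩] with y hy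
    exact (hN3 y hy).2.2
  have hKc : IsCompact (closure Ω \ N) :=
    (Metric.isCompact_of_isClosed_isBounded isClosed_closure hΩ.bdd.closure).diff hN1
  have hKΩ : closure Ω \ N ⊆ Ω := by
    intro x hx
    by_contra h
    apply hx.2
    apply hN2
    rw [hΩ.isOpen.frontier_eq]
    exact ⟨hx.1, h⟩
  obtain ⟨χ, c1, c2, c3, c4, W₀, c5, c6, c7⟩ := cutoff hKc hΩ.isOpen hKΩ
  by_contra hg
  -- a ball on which the gradient is large
  set q : E → ℝ := fun x => ‖gradient v x‖ ^ 2 / (1 + v x ^ 2) with hq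
  have hvc : ContinuousOn v (Ω \ S) := (hv.c1 hΩ.isOpen hS.compact).continuousOn
  have hgc : ContinuousOn (gradient v) (Ω \ S) := grad_contOn oS (hv.c1 hΩ.isOpen hS.compact)
  have hqc : ContinuousOn q (Ω \ S) := by
    apply ContinuousOn.div
    · exact hgc.norm.pow 2
    · exact continuousOn_const.add (hvc.pow 2)
    · intro x _
      positivity
  have hq0 : 0 < q x₀ := by
    have : 0 < ‖gradient v x₀‖ := norm_pos_iff.2 hg
    positivity
  have hqn : ∀ᶠ x in 𝓝 x₀, q x₀ / 2 < q x :=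
    (hqc.continuousAt (oS.mem_nhds (hBS hxB))).eventually (lt_mem_nhds (half_lt_self hq0))
  obtain ⟨r, hr, hrB⟩ := Metric.mem_nhds_iff.1 (inter_mem (oB.mem_nhds hxB) hqn)
  set D := closedBall x₀ (r / 2) with hD
  have hDB : ∀ x ∈ D, x ∈ B ∧ q x₀ / 2 < q x := fun x hx =>
    hrB (closedBall_subset_ball (by linarith) hx)
  have hDS : S ⊆ Dᶜ := fun x hx hxD => (hBS (hDB x hxD).1).2 hx
  have hvol : 0 < (volume D).toReal := by
    apply ENNReal.toReal_pos
    · exact (measure_closedBall_pos volume x₀ (by linarith)).ne'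
    · exact measure_closedBall_lt_top.ne
  set ε : ℝ := (q x₀ / 2) * (volume D).toReal / Real.pi with hε
  have hε0 : 0 < ε := by positivity
  obtain ⟨κ, d1, d2, d3, d4, ⟨W, d5, d6, d7⟩, d8⟩ :=
    rem_all hINT hE hΩ.isOpen hS hv Dᶜ isClosed_closedBall.isOpen_compl hDS ε hε0
  -- the test function
  set φ : E → ℝ := fun x => (1 - κ x) * Real.arctan (v x) * χ x with hφ
  have hsupp : tsupport φ ⊆ tsupport χ ∩ Wᶜ := by
    apply closure_minimal _ ((isClosed_tsupport χ).inter d5.isClosed_compl)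
    intro x hx
    refine ⟨subset_tsupport χ (fun h => hx (by simp [hφ, h])), fun h => hx ?_⟩
    simp [hφ, d7 x h]
  have hsupp2 : tsupport φ ⊆ Ω \ S := by
    intro x hx
    have := hsupp hx
    exact ⟨c3 this.1, fun h => this.2 (d6 h)⟩
  have hsm : ContDiff ℝ ∞ φ := by
    rw [contDiff_iff_contDiffAt]
    intro x
    by_cases hx : x ∈ Ω \ S
    · have h1 : ContDiffAt ℝ ∞ v x := (hv.cinf hΩ.isOpen hS.compact).contDiffAt (oS.mem_nhds hx)
      exact ((contDiffAt_const.sub d1.contDiffAt).mul (h1.arctan)).mul c1.contDiffAt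
    · have hx2 : x ∉ tsupport φ := fun h => hx (hsupp2 h)
      have : φ =ᶠ[𝓝 x] fun _ => 0 := by
        filter_upwards [(isClosed_tsupport φ).isOpen_compl.mem_nhds hx2] with y hy
        exact image_eq_zero_of_notMem_tsupport hy
      exact contDiffAt_const.congr_of_eventuallyEq this
  have htest : IsTest (Ω \ S) φ := by
    refine ⟨hsm, ?_, hsupp2⟩
    exact HasCompactSupport.of_support_subset_isCompact c2
      ((subset_tsupport φ).trans (hsupp.trans inter_subset_left))
  have hone := claim_one hΩ hS hS' hv hv' htest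
  rw [← hB] at hone
  have hgradφ : ∀ x ∈ B, ⟪gradient v x, gradient φ x⟫_ℝ =
      (1 - κ x) * q x - Real.arctan (v x) * ⟪gradient v x, gradient κ x⟫_ℝ := by
    intro x hx
    have h1 : HasFDerivAt v (fderiv ℝ v x) x :=
      (((hv.c1 hΩ.isOpen hS.compact).contDiffAt
        (oS.mem_nhds (hBS hx))).differentiableAt one_ne_zero).hasFDerivAt
    have h2 : HasFDerivAt κ (fderiv ℝ κ x) x := (d1.differentiable (by simp) x).hasFDerivAt
    have h3 : φ =ᶠ[𝓝 x] fun x => (1 - κ x) * Real.arctan (v x) := by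
      filter_upwards [c5.mem_nhds (c6 (hBN hx))] with y hy
      simp [hφ, c7 y hy]
    have h4 : HasFDerivAt (fun x => (1 - κ x) * Real.arctan (v x)) _ x :=
      ((hasFDerivAt_const (1 : ℝ) x).fun_sub h2).fun_mul h1.arctan
    rw [inner_grad', h3.fderiv_eq, h4.fderiv]
    have e5 : ((1 - κ x) • (1 / (1 + v x ^ 2)) • fderiv ℝ v x +
        Real.arctan (v x) • (0 - fderiv ℝ κ x) : E →L[ℝ] ℝ) (gradient v x) =
        (1 - κ x) * (1 / (1 + v x ^ 2) * fderiv ℝ v x (gradient v x)) +
          Real.arctan (v x) * (0 - fderiv ℝ κ x (gradient v x)) := rfl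
    rw [e5, ← inner_grad, ← inner_grad', real_inner_self_eq_norm_sq]
    simp only [hq]
    field_simp
    ring
  have hI : ∫ x in B, ((1 - κ x) * q x - Real.arctan (v x) * ⟪gradient v x, gradient κ x⟫_ℝ)
      = 0 := by
    rw [← hone]
    apply setIntegral_congr_fun oB.measurableSet
    intro x hx
    exact (hgradφ x hx).symm
  have mB : volume.restrict B ≤ volume.restrict (Ω \ S) := Measure.restrict_mono hBS le_rfl
  have mgB : MemLp (gradient v) 2 (volume.restrict B) := hv.memG.mono_measure mB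
  have i1 : Integrable (fun x => ⟪gradient v x, gradient κ x⟫_ℝ) (volume.restrict B) :=
    int_inner mgB ((grad_memLp (d1.of_le (by simp)) d2 2 volume).restrict _)
  have hvcB : AEStronglyMeasurable v (volume.restrict B) :=
    (hvc.mono hBS).aestronglyMeasurable oB.measurableSet
  have i2 : Integrable (fun x => Real.arctan (v x) * ⟪gradient v x, gradient κ x⟫_ℝ)
      (volume.restrict B) := by
    apply i1.bdd_mul (c := Real.pi / 2)
    · exact Real.continuous_arctan.comp_aestronglyMeasurable hvcB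
    · refine Eventually.of_forall (fun x => ?_)
      rw [Real.norm_eq_abs, abs_le]
      exact ⟨(Real.neg_pi_div_two_lt_arctan _).le, (Real.arctan_lt_pi_div_two _).le⟩
  have i3 : Integrable q (volume.restrict B) := by
    have hsq : Integrable (fun x => ‖gradient v x‖ ^ 2) (volume.restrict B) := by
      simpa using mgB.integrable_norm_rpow (by norm_num) (by norm_num)
    apply hsq.mono' ((hqc.mono hBS).aestronglyMeasurable oB.measurableSet)
    refine Eventually.of_forall (fun x => ?_)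
    rw [Real.norm_eq_abs, abs_of_nonneg (by positivity)]
    apply div_le_self (by positivity)
    nlinarith [sq_nonneg (v x)]
  have i4 : Integrable (fun x => (1 - κ x) * q x) (volume.restrict B) := by
    apply i3.bdd_mul (c := 1)
    · exact (continuous_const.sub d1.continuous).aestronglyMeasurable
    · refine Eventually.of_forall (fun x => ?_)
      obtain ⟨k1, k2⟩ := d4 x
      rw [Real.norm_eq_abs, abs_le]
      constructor <;> linarith
  rw [integral_sub i4 i2, sub_eq_zero] at hI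
  -- lower bound
  have low : (q x₀ / 2) * (volume D).toReal ≤ ∫ x in B, (1 - κ x) * q x := by
    have hDsub : D ⊆ B := fun x hx => (hDB x hx).1
    calc (q x₀ / 2) * (volume D).toReal = ∫ x in D, q x₀ / 2 := by
          rw [setIntegral_const, smul_eq_mul, mul_comm]; rfl
      _ ≤ ∫ x in D, (1 - κ x) * q x := by
          apply setIntegral_mono_on
          · exact integrableOn_const (measure_closedBall_lt_top.ne)
          · exact IntegrableOn.mono_set (t := B) i4 hDsub
          · exact isClosed_closedBall.measurableSet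
          · intro x hx
            have : κ x = 0 := image_eq_zero_of_notMem_tsupport (fun h => d3 h hx)
            rw [this]
            linarith [(hDB x hx).2]
      _ ≤ ∫ x in B, (1 - κ x) * q x := by
          apply setIntegral_mono_set i4
          · refine Eventually.of_forall (fun x => ?_)
            have := (d4 x).2
            have h2 : 0 ≤ q x := by positivity
            exact mul_nonneg (by linarith) h2
          · exact hDsub.eventuallyLE
  have up : ∫ x in B, Real.arctan (v x) * ⟪gradient v x, gradient κ x⟫_ℝ ≤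
      Real.pi / 2 * ε := by
    calc ∫ x in B, Real.arctan (v x) * ⟪gradient v x, gradient κ x⟫_ℝ
        ≤ ∫ x in B, Real.pi / 2 * |⟪gradient v x, gradient κ x⟫_ℝ| := by
          apply integral_mono i2 (i1.abs.const_mul _)
          intro x
          simp only
          refine (le_abs_self _).trans ?_
          rw [abs_mul]
          apply mul_le_mul_of_nonneg_right _ (abs_nonneg _)
          rw [abs_le]
          exact ⟨(Real.neg_pi_div_two_lt_arctan _).le, (Real.arctan_lt_pi_div_two _).le⟩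
      _ = Real.pi / 2 * ∫ x in B, |⟪gradient v x, gradient κ x⟫_ℝ| := integral_const_mul _ _
      _ ≤ Real.pi / 2 * ∫ x in Ω \ S, |⟪gradient v x, gradient κ x⟫_ℝ| := by
          apply mul_le_mul_of_nonneg_left _ (by positivity)
          apply setIntegral_mono_set
          · exact (int_inner hv.memG
              ((grad_memLp (d1.of_le (by simp)) d2 2 volume).restrict _)).abs
          · exact Eventually.of_forall (fun x => abs_nonneg _)
          · exact hBS.eventuallyLE
      _ ≤ Real.pi / 2 * ε := by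
          apply mul_le_mul_of_nonneg_left d8.le (by positivity)
  rw [hI] at low
  have hfin : (q x₀ / 2) * (volume D).toReal ≤ Real.pi / 2 * ε := low.trans up
  have : Real.pi / 2 * ε = (q x₀ / 2) * (volume D).toReal / 2 := by
    rw [hε]; field_simp
  have hpos : 0 < (q x₀ / 2) * (volume D).toReal := by positivity
  linarith

/-- **Equal measurements give equal potentials.** -/
theorem same_potential (hW : W_stm) (hDI : DI_stm) (hINT : INT_stm) (hE : EDGE_stm)
    {Ω S S' : Set E} (hΩ : IsDomain3 Ω) (hS : IsCrack Ω S) (hS' : IsCrack Ω S')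
    {ψ v v' f : E → ℝ} (hψ : MemLp ψ 2 (surf Ω)) (hψ0 : ¬ (∀ᵐ x ∂(surf Ω), ψ x = 0))
    (hv : Sol Ω S v) (hv' : Sol Ω S' v')
    (h : IsPotential Ω S ψ v (gradient v) f) (h' : IsPotential Ω S' ψ v' (gradient v') f) :
    ∀ x ∈ Ω \ (S ∪ S'), v x = v' x := by
  obtain ⟨hfin, -⟩ := hDI Ω hΩ
  have hnear : ∃ N, IsOpen N ∧ frontier Ω ⊆ N ∧ ∀ x ∈ N ∩ Ω, x ∉ S ∧ x ∉ S' ∧ v x = v' x := by
    refine ⟨⋃₀ {U | IsOpen U ∧ ∀ x ∈ U ∩ Ω, x ∉ S ∧ x ∉ S' ∧ v x = v' x},
      isOpen_sUnion (fun U hU => hU.1), ?_, ?_⟩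
    · intro p hp
      obtain ⟨U, h1, h2, h3⟩ := near_local hW hDI hΩ hS.compact hS.sub hS'.compact hS'.sub
        hv hv' h h' hp
      exact ⟨U, ⟨h1, h3⟩, h2⟩
    · rintro x ⟨⟨U, ⟨h1, h2⟩, h3⟩, h4⟩
      exact h2 x ⟨h3, h4⟩
  intro x₀ hx₀
  by_contra hne
  have hne' : ¬ v =ᶠ[𝓝 x₀] v' := fun h => hne h.self_of_nhds
  have oS : IsOpen (Ω \ S) := hΩ.isOpen.sdiff hS.compact.isClosed
  have oB : IsOpen {x | x ∈ Ω \ (S ∪ S') ∧ ¬ v =ᶠ[𝓝 x] v'} :=
    (agree_open hΩ.isOpen hS.compact hS'.compact hv.an hv'.an).2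
  have hz : ∀ x ∈ {x | x ∈ Ω \ (S ∪ S') ∧ ¬ v =ᶠ[𝓝 x] v'}, gradient v x = 0 :=
    fun x hx => claim_two hINT hE hΩ hS hS' hv hv' hnear hx.1 hx.2
  have hfd : EqOn (fderiv ℝ v) 0 (Ω \ S) := by
    apply hv.an.fderiv.eqOn_zero_of_preconnected_of_eventuallyEq_zero
      (hS.preconn_diff hΩ.isOpen hΩ.conn) (z₀ := x₀) ⟨hx₀.1, fun h => hx₀.2 (Or.inl h)⟩
    filter_upwards [oB.mem_nhds ⟨hx₀, hne'⟩] with y hy
    have := hz y hy
    have h2 : ‖fderiv ℝ v y‖ = 0 := by rw [← norm_grad, this, norm_zero]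
    simpa using h2
  apply hψ0
  have := profile_zero hΩ hfin hS.compact (a := fun _ => 1) (ψ := fun _ => ψ)
    (G := fun _ => gradient v) (u := fun _ => v) (f := fun _ => f) (fun _ => hψ) (fun _ => h)
    (fun x hx => by
      have : gradient v x = 0 := grad_of_fderiv_zero (hfd hx)
      simp [this])
  filter_upwards [this] with x hx
  simp at hx
  linarith

end Pool.Agent.Run7.h982
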