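import Pool.Agent.Run7.h982.Neu

/-!
# Insulating cracks: two arbitrary profiles
-/

set_option autoImplicit false

open MeasureTheory Set Filter Topology Metric
open scoped ContDiff ENNReal NNReal InnerProductSpace

namespace Pool.Agent.Run7.h982

theorem indep_ne {Ω : Set E} {ψ : Fin 2 → E → ℝ}
    (hind : ∀ a : Fin 2 → ℝ, (∀ᵐ x ∂(surf Ω), ∑ i, a i * ψ i x = 0) → a = 0) (i : Fin 2) :
    ¬ (∀ᵐ x ∂(surf Ω), ψ i x = 0) := by
  intro h
  have := hind (Pi.single i 1) (by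
    filter_upwards [h] with x hx
    rw [Finset.sum_eq_single i]
    · simp [hx]
    · intro j _ hj
      simp [hj]
    · simp)
  have h2 := congrFun this i
  simp at h2

/-- **Two arbitrary independent profiles.** -/
theorem main_S (hW : W_stm) (hDI : DI_stm) (hINT : INT_stm) (hE : EDGE_stm) (hLOC : LOC_stm)
    {Ω S S' : Set E} (hΩ : IsDomain3 Ω) (hS : IsCrack Ω S) (hS' : IsCrack Ω S')
    {ψ : Fin 2 → E → ℝ} (hψ : ∀ i, IsProfile Ω (ψ i))
    (hind : ∀ a : Fin 2 → ℝ, (∀ᵐ x ∂(surf Ω), ∑ i, a i * ψ i x = 0) → a = 0)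
    (hpot : ∀ i, ∃ (u : E → ℝ) (G : E → E) (u' : E → ℝ) (G' : E → E) (f : E → ℝ),
      IsPotential Ω S (ψ i) u G f ∧ IsPotential Ω S' (ψ i) u' G' f) :
    S \ S' ⊆ closure (analyticLocus S) := by
  obtain ⟨hfin, -⟩ := hDI Ω hΩ
  have hex : ∀ i, ∃ (v v' f : E → ℝ), Sol Ω S v ∧ Sol Ω S' v' ∧
      IsPotential Ω S (ψ i) v (gradient v) f ∧ IsPotential Ω S' (ψ i) v' (gradient v') f := by
    intro i
    obtain ⟨u, G, u', G', f, h1, h2⟩ := hpot i
    obtain ⟨v, a1, a2⟩ := h1.sol hW hΩ.isOpen hS.compact hS.sub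
    obtain ⟨v', b1, b2⟩ := h2.sol hW hΩ.isOpen hS'.compact hS'.sub
    exact ⟨v, v', f, a1, b1, a2, b2⟩
  choose v v' f hv hv' hp hp' using hex
  have heq : ∀ i, ∀ x ∈ Ω \ (S ∪ S'), v i x = v' i x := fun i =>
    same_potential hW hDI hINT hE hΩ hS hS' (hψ i).mem (indep_ne hind i) (hv i) (hv' i)
      (hp i) (hp' i)
  rintro x ⟨hxS, hxS'⟩
  by_contra hcl
  set O : Set E := (Ω \ S') \ closure (analyticLocus S) with hO
  have oO : IsOpen O := (hΩ.isOpen.sdiff hS'.compact.isClosed).sdiff isClosed_closure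
  have hxO : x ∈ O := ⟨⟨hS.sub hxS, hxS'⟩, hcl⟩
  obtain ⟨q, ⟨hqS, hqO⟩, Φ₀, k0, k1, k2, k3, k4⟩ := exists_intPt (hS.pts x hxS) oO hxO
  obtain ⟨Φ, m0, m1, m2, m3, m4, m5⟩ := rechart k2 k3 Φ₀.open_source Subset.rfl k0 (by simp) k4 oO
    (by rw [k1]; exact hqO)
  have hTΩ : Φ.target ⊆ Ω := fun z hz => (m5 hz).1.1
  have hTS' : Φ.target ⊆ Ω \ S' := fun z hz => (m5 hz).1
  have hneu : ∀ i, ∀ x ∈ Φ.target ∩ S,
      fderiv ℝ (fun y => Φ.symm y 2) x (gradient (v' i) x) = 0 := by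
    intro i y hy
    apply neumann_pt hΩ.isOpen hS.compact (hv i) m3 m4 hTΩ
      (((hv' i).c1 hΩ.isOpen hS'.compact).mono hTS') _ hy.1 hy.2
    intro z hz
    exact heq i z ⟨hTΩ hz.1, fun h => h.elim hz.2 (hTS' hz.1).2⟩
  rcases hLOC S Φ m0 m2 m3 m4 v' (fun i => (hv' i).an.mono hTS')
    (fun i x hx => (hv' i).harm x (hTS' hx)) hneu with ⟨z, hz, hza⟩ | ⟨V, hV1, hV2, hV3, a, ha, hV4⟩
  · exact (m5 hz.1).2 (subset_closure ⟨hz.2, hza⟩)
  · apply ha
    apply hind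
    apply profile_zero hΩ hfin hS'.compact (fun i => (hψ i).mem) hp'
    -- identity theorem
    obtain ⟨z₀, hz₀⟩ := hV2
    have han : AnalyticOnNhd ℝ (fun x => ∑ i, a i • fderiv ℝ (v' i) x) (Ω \ S') := by
      have h0 := (hv' 0).an.fderiv
      have h1 := (hv' 1).an.fderiv
      intro x hx
      have h2 := (analyticAt_const (v := a 0)).fun_smul (h0 x hx)
      have h3 := (analyticAt_const (v := a 1)).fun_smul (h1 x hx)
      simpa [Fin.sum_univ_two] using h2.fun_add h3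
    have hz := han.eqOn_zero_of_preconnected_of_eventuallyEq_zero
      (hS'.preconn_diff hΩ.isOpen hΩ.conn) (hTS' (hV3 hz₀)) (by
        filter_upwards [hV1.mem_nhds hz₀] with y hy
        have h5 := hV4 y hy
        have h6 : (InnerProductSpace.toDual ℝ E) (∑ i, a i • gradient (v' i) y) = 0 := by
          rw [h5]; simp
        rw [map_sum] at h6
        simp only [map_smul] at h6
        simpa [gradient] using h6)
    intro x hx
    have h7 := hz hx
    have h8 : (InnerProductSpace.toDual ℝ E).symm (∑ i, a i • fderiv ℝ (v' i) x) = 0 := by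
      simp only at h7
      rw [h7]; simp
    rw [map_sum] at h8
    simp only [map_smul] at h8
    exact h8

/-- nowhere analytic cracks -/
theorem main_nowhere (hW : W_stm) (hDI : DI_stm) (hINT : INT_stm) (hE : EDGE_stm)
    (hLOC : LOC_stm)
    {Ω S S' : Set E} (hΩ : IsDomain3 Ω) (hS : IsCrack Ω S) (hS' : IsCrack Ω S')
    (hna : analyticLocus S = ∅) (hna' : analyticLocus S' = ∅)
    {ψ : Fin 2 → E → ℝ} (hψ : ∀ i, IsProfile Ω (ψ i))
    (hind : ∀ a : Fin 2 → ℝ, (∀ᵐ x ∂(surf Ω), ∑ i, a i * ψ i x = 0) → a = 0)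
    (hpot : ∀ i, ∃ (u : E → ℝ) (G : E → E) (u' : E → ℝ) (G' : E → E) (f : E → ℝ),
      IsPotential Ω S (ψ i) u G f ∧ IsPotential Ω S' (ψ i) u' G' f) : S = S' := by
  apply Subset.antisymm
  · intro x hx
    by_contra h
    have := main_S hW hDI hINT hE hLOC hΩ hS hS' hψ hind hpot ⟨hx, h⟩
    rw [hna] at this
    simp at this
  · intro x hx
    by_contra h
    have := main_S hW hDI hINT hE hLOC hΩ hS' hS hψ hind (fun i => by
      obtain ⟨u, G, u', G', f, h1, h2⟩ := hpot i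
      exact ⟨u', G', u, G, f, h2, h1⟩) ⟨hx, h⟩
    rw [hna'] at this
    simp at this

end Pool.Agent.Run7.h982
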