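import Pool.Agent.Run7.h982.CV

/-!
# Insulating cracks: flows tangent to the crack
-/

set_option autoImplicit false

open MeasureTheory Set Filter Topology Metric
open scoped ContDiff ENNReal NNReal InnerProductSpace

namespace Pool.Agent.Run7.h982

/-- the moved point -/
noncomputable def psi (η : E → ℝ) (w ζ : E) : E := ζ + η ζ • w

theorem psi_contDiff {η : E → ℝ} (hη : ContDiff ℝ ∞ η) (w : E) : ContDiff ℝ ∞ (psi η w) :=
  contDiff_id.add (hη.smul contDiff_const)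

theorem psi_deriv {η : E → ℝ} (hη : ContDiff ℝ ∞ η) (w ζ : E) :
    HasFDerivAt (psi η w)
      (ContinuousLinearMap.id ℝ E + (fderiv ℝ η ζ).smulRight w) ζ := by
  have h1 : HasFDerivAt η (fderiv ℝ η ζ) ζ := (hη.differentiable (by simp) ζ).hasFDerivAt
  exact (hasFDerivAt_id ζ).add (h1.smul_const w)

theorem psi_flow {η : E → ℝ} (hη : ContDiff ℝ ∞ η) {C : ℝ} (hC : ∀ ζ, ‖fderiv ℝ η ζ‖ ≤ C)
    {w : E} (hw : C * ‖w‖ ≤ 1 / 2) :
    ∃ T : E ≃ₜ E, (∀ ζ, T ζ = psi η w ζ) ∧ ContDiff ℝ ∞ T.symm := by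
  have hC0 : 0 ≤ C := (norm_nonneg _).trans (hC 0)
  have happ : ApproximatesLinearOn (psi η w) ((ContinuousLinearEquiv.refl ℝ E : E ≃L[ℝ] E) :
      E →L[ℝ] E) univ (1 / 2) := by
    intro x _ y _
    have hlip : LipschitzWith C.toNNReal η := by
      apply lipschitzWith_of_nnnorm_fderiv_le (𝕜 := ℝ) (hη.differentiable (by simp))
      intro z
      rw [← NNReal.coe_le_coe, coe_nnnorm, Real.coe_toNNReal _ hC0]
      exact hC z
    have h1 := hlip.dist_le_mul x y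
    rw [Real.coe_toNNReal _ hC0, Real.dist_eq, dist_eq_norm] at h1
    have e1 : psi η w x - psi η w y - (x - y) = (η x - η y) • w := by
      simp only [psi]; module
    have e2 : ((ContinuousLinearEquiv.refl ℝ E : E ≃L[ℝ] E) : E →L[ℝ] E) (x - y) = x - y := rfl
    rw [e2, e1, norm_smul, Real.norm_eq_abs]
    calc |η x - η y| * ‖w‖ ≤ (C * ‖x - y‖) * ‖w‖ :=
          mul_le_mul_of_nonneg_right h1 (norm_nonneg _)
      _ = (C * ‖w‖) * ‖x - y‖ := by ring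
      _ ≤ (1 / 2) * ‖x - y‖ := mul_le_mul_of_nonneg_right hw (norm_nonneg _)
      _ = ((1 / 2 : ℝ≥0) : ℝ) * ‖x - y‖ := by norm_num
  have hcond : Subsingleton E ∨ (1 / 2 : ℝ≥0) <
      ‖((ContinuousLinearEquiv.refl ℝ E).symm : E →L[ℝ] E)‖₊⁻¹ := by
    right
    have : ‖((ContinuousLinearEquiv.refl ℝ E).symm : E →L[ℝ] E)‖₊ = 1 := by
      have : ((ContinuousLinearEquiv.refl ℝ E).symm : E →L[ℝ] E) =
        ContinuousLinearMap.id ℝ E := rfl
      rw [this, ← NNReal.coe_inj, coe_nnnorm, ContinuousLinearMap.norm_id, NNReal.coe_one]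
    rw [this, inv_one]
    norm_num
  set T := happ.toHomeomorph (psi η w) hcond with hT
  have hTv : ∀ ζ, T ζ = psi η w ζ := fun ζ => rfl
  refine ⟨T, hTv, ?_⟩
  -- invertibility of the derivative
  have hinv : ∀ ζ, ∃ e : E ≃L[ℝ] E, (e : E →L[ℝ] E) =
      ContinuousLinearMap.id ℝ E + (fderiv ℝ η ζ).smulRight w := by
    intro ζ
    have hn : ‖-((fderiv ℝ η ζ).smulRight w)‖ < 1 := by
      rw [norm_neg, ContinuousLinearMap.norm_smulRight_apply]
      have := mul_le_mul_of_nonneg_right (hC ζ) (norm_nonneg w)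
      linarith
    refine ⟨ContinuousLinearEquiv.ofUnit (Units.oneSub _ hn), ?_⟩
    have : ((ContinuousLinearEquiv.ofUnit (Units.oneSub _ hn) : E ≃L[ℝ] E) : E →L[ℝ] E) =
      1 - (-((fderiv ℝ η ζ).smulRight w)) := rfl
    rw [this, sub_neg_eq_add]
    rfl
  choose e he using hinv
  apply T.contDiff_symm (f₀' := e)
  · intro ζ
    rw [he]
    exact psi_deriv hη w ζ
  · exact psi_contDiff hη w

/-- The chart followed by the flow. -/
theorem flow_chart {S : Set E} {Φ : OpenPartialHomeomorph E E}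
    (h1 : ContDiffOn ℝ ∞ Φ Φ.source) (h2 : ContDiffOn ℝ ∞ Φ.symm Φ.target)
    (hSS : ∀ ζ ∈ Φ.source, Φ ζ ∈ S ↔ ζ 2 = 0) {R : ℝ}
    (hb : closedBall (0 : E) (2 * R) ⊆ Φ.source) {η : E → ℝ} (hη : ContDiff ℝ ∞ η) {C : ℝ}
    (hC : ∀ ζ, ‖fderiv ℝ η ζ‖ ≤ C) (hη1 : ∀ ζ, |η ζ| ≤ 1) {w : E} (hw : C * ‖w‖ ≤ 1 / 2)
    (hwR : ‖w‖ ≤ R) (hw2 : w 2 = 0) :
    ∃ Θ : OpenPartialHomeomorph E E, (∀ ζ, Θ ζ = Φ (psi η w ζ)) ∧
      ContDiffOn ℝ ∞ Θ Θ.source ∧ ContDiffOn ℝ ∞ Θ.symm Θ.target ∧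
      closedBall (0 : E) R ⊆ Θ.source ∧ (∀ ζ ∈ Θ.source, Θ ζ ∈ S ↔ ζ 2 = 0) ∧
      Θ.target ⊆ Φ.target := by
  obtain ⟨T, hT, hTs⟩ := psi_flow hη hC hw
  have hsrc : (T.toOpenPartialHomeomorph.trans Φ).source = {ζ | psi η w ζ ∈ Φ.source} := by
    rw [OpenPartialHomeomorph.trans_source]
    ext ζ
    simp [hT]
  have htgt : (T.toOpenPartialHomeomorph.trans Φ).target ⊆ Φ.target := by
    rw [OpenPartialHomeomorph.trans_target]
    exact inter_subset_left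
  have hsym : ∀ x, (T.toOpenPartialHomeomorph.trans Φ).symm x = T.symm (Φ.symm x) := fun x => rfl
  have hval : ∀ ζ, (T.toOpenPartialHomeomorph.trans Φ) ζ = Φ (psi η w ζ) := by
    intro ζ
    rw [← hT]; rfl
  refine ⟨T.toOpenPartialHomeomorph.trans Φ, hval, ?_, ?_, ?_, ?_, htgt⟩
  · have : ContDiffOn ℝ ∞ (fun ζ => Φ (psi η w ζ))
        (T.toOpenPartialHomeomorph.trans Φ).source := by
      apply h1.comp (psi_contDiff hη w).contDiffOn
      intro ζ hζ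
      rw [hsrc] at hζ
      exact hζ
    exact this.congr (fun ζ _ => hval ζ)
  · have : ContDiffOn ℝ ∞ (fun x => T.symm (Φ.symm x))
        (T.toOpenPartialHomeomorph.trans Φ).target :=
      hTs.comp_contDiffOn (h2.mono htgt)
    exact this.congr (fun x _ => hsym x)
  · intro ζ hζ
    rw [hsrc]
    apply hb
    rw [mem_closedBall_zero_iff] at hζ ⊢
    calc ‖psi η w ζ‖ ≤ ‖ζ‖ + ‖η ζ • w‖ := norm_add_le _ _
      _ ≤ R + 1 * R := by
          apply add_le_add hζ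
          rw [norm_smul]
          exact mul_le_mul (hη1 ζ) hwR (norm_nonneg _) zero_le_one
      _ = 2 * R := by ring
  · intro ζ hζ
    rw [hsrc] at hζ
    rw [hval, hSS _ hζ]
    simp [psi, hw2]

/-- The derivative of the moved chart. -/
noncomputable def mder (Φ : E → E) (η : E → ℝ) (w ζ : E) : E →L[ℝ] E :=
  (fderiv ℝ Φ (psi η w ζ)) ∘L (ContinuousLinearMap.id ℝ E + (fderiv ℝ η ζ).smulRight w)

theorem mder_eq {Φ : OpenPartialHomeomorph E E}
    (h1 : ContDiffOn ℝ ∞ Φ Φ.source) {η : E → ℝ} (hη : ContDiff ℝ ∞ η) {w ζ : E}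
    (hζ : psi η w ζ ∈ Φ.source) :
    fderiv ℝ (fun ζ => Φ (psi η w ζ)) ζ = mder Φ η w ζ := by
  have d1 : HasFDerivAt Φ (fderiv ℝ Φ (psi η w ζ)) (psi η w ζ) :=
    ((h1.contDiffAt (Φ.open_source.mem_nhds hζ)).differentiableAt (by simp)).hasFDerivAt
  exact (d1.comp ζ (psi_deriv hη w ζ)).fderiv

theorem mder_zero {Φ : E → E} {η : E → ℝ} {ζ : E} : mder Φ η 0 ζ = fderiv ℝ Φ ζ := by
  unfold mder psi
  simp

/-- the coefficients depend in a Lipschitz way on the flow -/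
theorem cof_lip {Φ : OpenPartialHomeomorph E E}
    (h1 : ContDiffOn ℝ ∞ Φ Φ.source) (h2 : ContDiffOn ℝ ∞ Φ.symm Φ.target) {R : ℝ}
    (hb : closedBall (0 : E) R ⊆ Φ.source) {η : E → ℝ} (hη : ContDiff ℝ ∞ η) :
    ∃ C w₀ : ℝ, 0 < C ∧ 0 < w₀ ∧ ∀ w : E, ‖w‖ ≤ w₀ → ∀ ζ ∈ closedBall (0 : E) R,
      ‖cof (mder Φ η w ζ) - cof (fderiv ℝ Φ ζ)‖ ≤ C * ‖w‖ := by
  refine (isCompact_closedBall (0 : E) R).induction_on
    (p := fun s => ∃ C w₀ : ℝ, 0 < C ∧ 0 < w₀ ∧ ∀ w : E, ‖w‖ ≤ w₀ → ∀ ζ ∈ s,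
      ‖cof (mder Φ η w ζ) - cof (fderiv ℝ Φ ζ)‖ ≤ C * ‖w‖) ?_ ?_ ?_ ?_
  · exact ⟨1, 1, one_pos, one_pos, fun w _ ζ hζ => absurd hζ (notMem_empty _)⟩
  · rintro s t hst ⟨C, w₀, hC, hw₀, h⟩
    exact ⟨C, w₀, hC, hw₀, fun w hw ζ hζ => h w hw ζ (hst hζ)⟩
  · rintro s t ⟨C, w₀, hC, hw₀, h⟩ ⟨C', w₀', hC', hw₀', h'⟩
    refine ⟨max C C', min w₀ w₀', lt_max_of_lt_left hC, lt_min hw₀ hw₀', fun w hw ζ hζ => ?_⟩
    rcases hζ with hζ | hζ
    · exact (h w (hw.trans (min_le_left _ _)) ζ hζ).trans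
        (mul_le_mul_of_nonneg_right (le_max_left _ _) (norm_nonneg _))
    · exact (h' w (hw.trans (min_le_right _ _)) ζ hζ).trans
        (mul_le_mul_of_nonneg_right (le_max_right _ _) (norm_nonneg _))
  · intro z hz
    have hzs : z ∈ Φ.source := hb hz
    -- the map is smooth near (0, z)
    have hpsi : ContDiff ℝ ∞ (fun p : E × E => psi η p.1 p.2) := by
      unfold psi
      exact contDiff_snd.add ((hη.comp contDiff_snd).smul contDiff_fst)
    have hp0 : psi η 0 z = z := by simp [psi]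
    have g1 : ContDiffAt ℝ 1 (fun p : E × E => fderiv ℝ Φ (psi η p.1 p.2)) (0, z) := by
      have h3 : ContDiffAt ℝ 1 (fderiv ℝ Φ) z :=
        (h1.contDiffAt (Φ.open_source.mem_nhds hzs)).fderiv_right (m := 1) (by
          norm_cast)
      have h4 : ContDiffAt ℝ 1 (fderiv ℝ Φ) (psi η (0, z).1 (0, z).2) := by
        rw [show psi η ((0 : E), z).1 ((0 : E), z).2 = z from hp0]
        exact h3
      exact h4.comp (0, z) (hpsi.of_le (by simp)).contDiffAt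
    have g2 : ContDiffAt ℝ 1 (fun p : E × E => ContinuousLinearMap.id ℝ E +
        (fderiv ℝ η p.2).smulRight p.1) (0, z) := by
      have h5 : ContDiff ℝ 1 (fun p : E × E => fderiv ℝ η p.2) :=
        (hη.fderiv_right (m := 1) (by norm_cast)).comp contDiff_snd
      exact (contDiff_const.add (h5.smulRight contDiff_fst)).contDiffAt
    have g3 : ContDiffAt ℝ 1 (fun p : E × E => mder Φ η p.1 p.2) (0, z) := g1.clm_comp g2
    have hz0 : mder Φ η ((0 : E), z).1 ((0 : E), z).2 = fderiv ℝ Φ z := mder_zero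
    have g4 : ContDiffAt ℝ 1 (fun p : E × E => cof (mder Φ η p.1 p.2)) (0, z) := by
      have h6 : ContDiffAt ℝ 1 cof (mder Φ η ((0 : E), z).1 ((0 : E), z).2) := by
        rw [hz0]
        exact contDiffAt_cof (chart_inv h1 h2 hzs).1
      exact h6.comp (0, z) g3
    obtain ⟨L, t, ht, hL⟩ := g4.exists_lipschitzOnWith
    obtain ⟨δ, hδ, hδt⟩ := Metric.mem_nhds_iff.1 ht
    refine ⟨ball z δ, mem_nhdsWithin_of_mem_nhds (ball_mem_nhds z hδ), L + 1, δ / 2,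
      by positivity, half_pos hδ, fun w hw ζ hζ => ?_⟩
    have m1 : ((w, ζ) : E × E) ∈ t := by
      apply hδt
      rw [mem_ball, Prod.dist_eq, max_lt_iff]
      refine ⟨?_, hζ⟩
      rw [dist_zero_right]
      exact lt_of_le_of_lt hw (half_lt_self hδ)
    have m2 : (((0 : E), ζ) : E × E) ∈ t := by
      apply hδt
      rw [mem_ball, Prod.dist_eq, max_lt_iff]
      refine ⟨?_, hζ⟩
      simpa using hδ
    have h7 := hL.dist_le_mul _ m1 _ m2
    rw [dist_eq_norm, Prod.dist_eq] at h7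
    simp only [dist_self, dist_zero_right] at h7
    rw [mder_zero, max_eq_left (norm_nonneg w)] at h7
    have : (L : ℝ) * ‖w‖ ≤ (L + 1) * ‖w‖ := by nlinarith [norm_nonneg w]
    exact h7.trans this

end Pool.Agent.Run7.h982
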