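import Pool.Agent.Run7.h982.Hess

/-!
# Insulating cracks: regularity of the flux
-/

set_option autoImplicit false

open MeasureTheory Set Filter Topology Metric
open scoped ContDiff ENNReal NNReal InnerProductSpace

namespace Pool.Agent.Run7.h982

theorem clm_memLp {B : E → E →L[ℝ] E} {R : ℝ} (hB : ContinuousOn B (closedBall (0 : E) R))
    {G : E → E} {A : Set E} (hA : MeasurableSet A) (hAb : A ⊆ ball (0 : E) R)
    (hG : MemLp G 2 (volume.restrict A)) :
    MemLp (fun ζ => B ζ (G ζ)) 2 (volume.restrict A) := by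
  obtain ⟨C, hC⟩ := (isCompact_closedBall (0 : E) R).exists_bound_of_continuousOn hB
  have hm : AEStronglyMeasurable B (volume.restrict A) :=
    (hB.mono (hAb.trans ball_subset_closedBall)).aestronglyMeasurable hA
  have hm2 : AEStronglyMeasurable (fun ζ => B ζ (G ζ)) (volume.restrict A) :=
    (ContinuousLinearMap.apply ℝ E).continuous₂.comp_aestronglyMeasurable₂ hG.1 hm
  apply MemLp.of_le_mul (c := C) hG hm2
  filter_upwards [ae_restrict_mem hA] with ζ hζ
  exact (ContinuousLinearMap.le_opNorm _ _).trans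
    (mul_le_mul_of_nonneg_right (hC ζ (ball_subset_closedBall (hAb hζ))) (norm_nonneg _))

theorem inner_bv (x : E) (i : Fin 3) : ⟪x, bv i⟫_ℝ = x i := by
  simp [bv, EuclideanSpace.inner_single_right]

theorem vec_sum (x : E) : x = ∑ i, x i • bv i := by
  ext j
  fin_cases j <;> simp [Fin.sum_univ_three, bv]

variable {Ω S : Set E} {u : E → ℝ} {Φ : OpenPartialHomeomorph E E} {R : ℝ}

/-- the flux -/
noncomputable def flux (Φ : E → E) (u : E → ℝ) (ζ : E) : E :=
  cof (fderiv ℝ Φ ζ) (gradient (fun ζ => u (Φ ζ)) ζ)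

theorem Loc.grad_smooth (h : Loc Ω S u Φ R) :
    ContDiffOn ℝ ∞ (gradient (fun ζ => u (Φ ζ))) (HB R) := by
  unfold gradient
  exact (InnerProductSpace.toDual ℝ E).symm.toContinuousLinearEquiv.contDiff.comp_contDiffOn
    (h.sol.smooth.fderiv_of_isOpen (HB_open R) (by simp))

theorem Loc.HB_sub (h : Loc Ω S u Φ R) : HB R ⊆ Φ.source := fun _ hζ =>
  h.hbR (ball_subset_closedBall hζ.1)

theorem Loc.flux_smooth (h : Loc Ω S u Φ R) : ContDiffOn ℝ ∞ (flux Φ u) (HB R) :=
  ((coef_cont h.h1 h.h2).mono h.HB_sub).clm_apply h.grad_smooth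

theorem Loc.flux_memLp (h : Loc Ω S u Φ R) : MemLp (flux Φ u) 2 (volume.restrict (HB R)) :=
  coef_memLp h.h1 h.h2 h.hbR (HB_open R).measurableSet inter_subset_left h.sol.memG

theorem LTest.of_test {R : ℝ} {φ : E → ℝ} (hφ : IsTest (HB R) φ) : LTest R φ :=
  ⟨(hφ.1.of_le (by simp)).contDiffOn,
    ⟨tsupport φ, hφ.2.1, fun _ hx => (hφ.2.2 hx).1,
      fun _ hx => image_eq_zero_of_notMem_tsupport hx⟩,
    (hφ.1.continuous.memLp_of_hasCompactSupport hφ.2.1).restrict _,
    (grad_memLp (hφ.1.of_le (by simp)) hφ.2.1 2 volume).restrict _⟩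

theorem Loc.flux_div (h : Loc Ω S u Φ R) :
    ∀ ζ ∈ HB R, ∑ i, (fderiv ℝ (flux Φ u) ζ (bv i)) i = 0 := by
  have oH := HB_open R
  set b := flux Φ u with hb
  have hbs : ContDiffOn ℝ 1 b (HB R) := h.flux_smooth.of_le (by simp)
  have hbi : ∀ i : Fin 3, ContDiffOn ℝ 1 (fun ζ => b ζ i) (HB R) := fun i =>
    (coord_smooth i).comp_contDiffOn hbs
  have hdi : ∀ i : Fin 3, ∀ ζ ∈ HB R, ∀ e : E, fderiv ℝ (fun ζ => b ζ i) ζ e =
      (fderiv ℝ b ζ e) i := by
    intro i ζ hζ e
    have d1 : HasFDerivAt b (fderiv ℝ b ζ) ζ :=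
      ((hbs.contDiffAt (oH.mem_nhds hζ)).differentiableAt one_ne_zero).hasFDerivAt
    have d2 : HasFDerivAt (fun ζ => b ζ i) ((EuclideanSpace.proj (𝕜 := ℝ) i).comp
        (fderiv ℝ b ζ)) ζ := (EuclideanSpace.proj (𝕜 := ℝ) i).hasFDerivAt.comp ζ d1
    rw [d2.fderiv]; rfl
  have hcont : ContinuousOn (fun ζ => ∑ i, (fderiv ℝ b ζ (bv i)) i) (HB R) := by
    apply continuousOn_finsetSum
    intro i _
    exact (coord_cont i).comp_continuousOn
      ((hbs.continuousOn_fderiv_of_isOpen oH le_rfl).clm_apply continuousOn_const)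
  have hae := oH.ae_eq_zero_of_integral_contDiff_smul_eq_zero (μ := volume)
    (f := fun ζ => ∑ i, (fderiv ℝ b ζ (bv i)) i) (hcont.locallyIntegrableOn oH.measurableSet)
    (by
      intro g hg hgc hgs
      have hgt : IsTest (HB R) g := ⟨hg, hgc, hgs⟩
      have h1 := h.sol.weak g (LTest.of_test hgt)
      have hg1 : ContDiff ℝ 1 g := hg.of_le (by simp)
      have h2 : ∀ ζ, ⟪cof (fderiv ℝ Φ ζ) (gradient (fun ζ => u (Φ ζ)) ζ), gradient g ζ⟫_ℝ =
          ∑ i, b ζ i * fderiv ℝ g ζ (bv i) := by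
        intro ζ
        rw [inner_grad']
        show fderiv ℝ g ζ (b ζ) = _
        conv_lhs => rw [vec_sum (b ζ)]
        rw [map_sum]
        simp only [map_smul, smul_eq_mul]
      simp_rw [h2] at h1
      have i1 : ∀ i : Fin 3, Integrable (fun ζ => b ζ i * fderiv ℝ g ζ (bv i))
          (volume.restrict (HB R)) := fun i =>
        (int_mul_of oH (hbi i).continuousOn (hgt.fderiv_apply (bv i)).1.continuous
          (hgt.fderiv_apply (bv i)).2.1 (hgt.fderiv_apply (bv i)).2.2).restrict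
      rw [integral_finsetSum _ (fun i _ => i1 i)] at h1
      have h3 : ∀ i : Fin 3, ∫ ζ in HB R, b ζ i * fderiv ℝ g ζ (bv i) =
          - ∫ ζ in HB R, (fderiv ℝ b ζ (bv i)) i * g ζ := by
        intro i
        rw [ibp oH (hbi i) hg1 hgc hgs]
        congr 1
        apply setIntegral_congr_fun oH.measurableSet
        intro ζ hζ
        simp only
        rw [hdi i ζ hζ]
      simp_rw [h3] at h1
      rw [Finset.sum_neg_distrib, neg_eq_zero] at h1
      have i2 : ∀ i : Fin 3, Integrable (fun ζ => (fderiv ℝ b ζ (bv i)) i * g ζ)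
          (volume.restrict (HB R)) := fun i =>
        (int_mul_of oH ((coord_cont i).comp_continuousOn
          ((hbs.continuousOn_fderiv_of_isOpen oH le_rfl).clm_apply continuousOn_const))
          hg.continuous hgc hgs).restrict
      rw [← integral_finsetSum _ (fun i _ => i2 i)] at h1
      have h4 : ∫ ζ, g ζ • ∑ i, (fderiv ℝ b ζ (bv i)) i =
          ∫ ζ in HB R, g ζ • ∑ i, (fderiv ℝ b ζ (bv i)) i := by
        symm
        apply setIntegral_eq_integral_of_forall_compl_eq_zero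
        intro ζ hζ
        rw [image_eq_zero_of_notMem_tsupport (fun h => hζ (hgs h)), zero_smul]
      rw [h4, ← h1]
      congr 1
      funext ζ
      rw [smul_eq_mul, Finset.mul_sum]
      exact Finset.sum_congr rfl (fun i _ => mul_comm _ _))
  have h5 : EqOn (fun ζ => ∑ i, (fderiv ℝ b ζ (bv i)) i) (fun _ => 0) (HB R) := by
    apply Measure.eqOn_open_of_ae_eq (μ := volume) _ oH hcont continuousOn_const
    rw [Filter.EventuallyEq, ae_restrict_iff' oH.measurableSet]
    exact hae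
  exact h5

theorem Loc.flux_tan (h : Loc Ω S u Φ R) {e : E} (he : e 2 = 0) :
    MemLp (fun ζ => fderiv ℝ (flux Φ u) ζ e) 2 (volume.restrict (HB (R / 2))) := by
  have hR := h.hR
  have oH := HB_open R
  have oH2 := HB_open (R / 2)
  have hHH : HB (R / 2) ⊆ HB R := fun ζ hζ =>
    ⟨ball_subset_ball (by linarith) hζ.1, hζ.2⟩
  set A : E → E →L[ℝ] E := fun ζ => cof (fderiv ℝ Φ ζ) with hA
  set g : E → E := gradient (fun ζ => u (Φ ζ)) with hg
  have hAs : ContDiffOn ℝ ∞ A Φ.source := coef_cont h.h1 h.h2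
  have hder : ∀ ζ ∈ HB R, fderiv ℝ (flux Φ u) ζ e =
      (fderiv ℝ A ζ e) (g ζ) + A ζ (fderiv ℝ g ζ e) := by
    intro ζ hζ
    have d1 : HasFDerivAt A (fderiv ℝ A ζ) ζ :=
      ((hAs.contDiffAt (Φ.open_source.mem_nhds (h.HB_sub hζ))).differentiableAt
        (by simp)).hasFDerivAt
    have d2 : HasFDerivAt g (fderiv ℝ g ζ) ζ :=
      ((h.grad_smooth.contDiffAt (oH.mem_nhds hζ)).differentiableAt (by simp)).hasFDerivAt
    have d3 := d1.clm_apply d2
    have : fderiv ℝ (flux Φ u) ζ = _ := d3.fderiv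
    rw [this]
    simp [add_comm]
  have hsub : closedBall (0 : E) R ⊆ Φ.source := h.hbR
  have hc1 : ContinuousOn (fun ζ => fderiv ℝ A ζ e) (closedBall (0 : E) R) :=
    ((hAs.continuousOn_fderiv_of_isOpen Φ.open_source (by simp)).mono hsub).clm_apply
      continuousOn_const
  have hmG : MemLp g 2 (volume.restrict (HB (R / 2))) :=
    h.sol.memG.mono_measure (Measure.restrict_mono hHH le_rfl)
  have m1 : MemLp (fun ζ => (fderiv ℝ A ζ e) (g ζ)) 2 (volume.restrict (HB (R / 2))) :=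
    clm_memLp hc1 oH2.measurableSet (hHH.trans inter_subset_left) hmG
  have m2 : MemLp (fun ζ => A ζ (fderiv ℝ g ζ e)) 2 (volume.restrict (HB (R / 2))) :=
    clm_memLp (hAs.continuousOn.mono hsub) oH2.measurableSet (hHH.trans inter_subset_left)
      (h.hess he)
  apply (m1.add m2).ae_eq
  filter_upwards [ae_restrict_mem oH2.measurableSet] with ζ hζ
  rw [hder ζ (hHH hζ)]; rfl

/-- the normal component of the flux is in `H¹` -/
theorem Loc.flux_nor (h : Loc Ω S u Φ R) :
    MemLp (gradient (fun ζ => flux Φ u ζ 2)) 2 (volume.restrict (HB (R / 2))) := by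
  have hR := h.hR
  have oH := HB_open R
  have oH2 := HB_open (R / 2)
  have hHH : HB (R / 2) ⊆ HB R := fun ζ hζ =>
    ⟨ball_subset_ball (by linarith) hζ.1, hζ.2⟩
  set b := flux Φ u with hb
  have hbs : ContDiffOn ℝ 1 b (HB R) := h.flux_smooth.of_le (by simp)
  have hdi : ∀ ζ ∈ HB R, ∀ e : E, fderiv ℝ (fun ζ => b ζ 2) ζ e =
      (fderiv ℝ b ζ e) 2 := by
    intro ζ hζ e
    have d1 : HasFDerivAt b (fderiv ℝ b ζ) ζ :=
      ((hbs.contDiffAt (oH.mem_nhds hζ)).differentiableAt one_ne_zero).hasFDerivAt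
    have d2 : HasFDerivAt (fun ζ => b ζ 2) ((EuclideanSpace.proj (𝕜 := ℝ) (2 : Fin 3)).comp
        (fderiv ℝ b ζ)) ζ := (EuclideanSpace.proj (𝕜 := ℝ) (2 : Fin 3)).hasFDerivAt.comp ζ d1
    rw [d2.fderiv]; rfl
  have t0 := h.flux_tan (e := bv 0) (by simp)
  have t1 := h.flux_tan (e := bv 1) (by simp)
  rw [← hb] at t0 t1
  have comp : ∀ {f : E → E} (i : Fin 3), MemLp f 2 (volume.restrict (HB (R / 2))) →
      MemLp (fun ζ => f ζ i) 2 (volume.restrict (HB (R / 2))) := by
    intro f i hf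
    apply MemLp.of_le hf
    · exact (coord_cont i).comp_aestronglyMeasurable hf.1
    · refine Eventually.of_forall (fun ζ => ?_)
      exact PiLp.norm_apply_le (f ζ) i
  have m : MemLp (fun ζ => ((fderiv ℝ b ζ (bv 0)) 2) • bv 0 + ((fderiv ℝ b ζ (bv 1)) 2) • bv 1 +
      (-((fderiv ℝ b ζ (bv 0)) 0) - (fderiv ℝ b ζ (bv 1)) 1) • bv 2) 2
      (volume.restrict (HB (R / 2))) := by
    have smulm : ∀ {f : E → ℝ} (c : E), MemLp f 2 (volume.restrict (HB (R / 2))) →
        MemLp (fun ζ => f ζ • c) 2 (volume.restrict (HB (R / 2))) := by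
      intro f c hf
      apply MemLp.of_le_mul (c := ‖c‖) hf
      · exact hf.1.smul_const c
      · refine Eventually.of_forall (fun ζ => ?_)
        rw [norm_smul, mul_comm]
    exact ((smulm _ (comp 2 t0)).add (smulm _ (comp 2 t1))).add
      (smulm _ ((comp 0 t0).neg.sub (comp 1 t1)))
  apply m.ae_eq
  filter_upwards [ae_restrict_mem oH2.measurableSet] with ζ hζ
  have hdiv := h.flux_div ζ (hHH hζ)
  rw [Fin.sum_univ_three] at hdiv
  have e2 : (fderiv ℝ b ζ (bv 2)) 2 = -((fderiv ℝ b ζ (bv 0)) 0) - (fderiv ℝ b ζ (bv 1)) 1 := by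
    linarith
  rw [← e2, vec_sum (gradient (fun ζ => b ζ 2) ζ), Fin.sum_univ_three]
  have hcoord : ∀ i : Fin 3, (gradient (fun ζ => b ζ 2) ζ) i = (fderiv ℝ b ζ (bv i)) 2 := by
    intro i
    rw [← hdi ζ (hHH hζ), ← inner_grad, inner_bv]
  rw [hcoord, hcoord, hcoord]

end Pool.Agent.Run7.h982
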