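import Pool.Agent.Run7.h982.Flow

/-!
# Insulating cracks: tangential regularity of the gradient
-/

set_option autoImplicit false

open MeasureTheory Set Filter Topology Metric
open scoped ContDiff ENNReal NNReal InnerProductSpace

namespace Pool.Agent.Run7.h982

/-- the local situation -/
structure Loc (Ω S : Set E) (u : E → ℝ) (Φ : OpenPartialHomeomorph E E) (R : ℝ) : Prop where
  hΩ : IsOpen Ω
  hS : IsCompact S
  hu : Sol Ω S u
  h1 : ContDiffOn ℝ ∞ Φ Φ.source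
  h2 : ContDiffOn ℝ ∞ Φ.symm Φ.target
  hSS : ∀ ζ ∈ Φ.source, Φ ζ ∈ S ↔ ζ 2 = 0
  hR : 0 < R
  hb : closedBall (0 : E) (2 * R) ⊆ Φ.source
  hT : Φ.target ⊆ Ω

theorem Loc.hbR {Ω S : Set E} {u : E → ℝ} {Φ : OpenPartialHomeomorph E E} {R : ℝ}
    (h : Loc Ω S u Φ R) : closedBall (0 : E) R ⊆ Φ.source :=
  (closedBall_subset_closedBall (by linarith [h.hR])).trans h.hb

theorem Loc.sol {Ω S : Set E} {u : E → ℝ} {Φ : OpenPartialHomeomorph E E} {R : ℝ}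
    (h : Loc Ω S u Φ R) : LSol R (fun ζ => cof (fderiv ℝ Φ ζ)) (fun ζ => u (Φ ζ)) := by
  apply cv h.h1 h.h2 h.hbR h.hΩ h.hS h.hu h.hSS
  rintro _ ⟨ζ, hζ, rfl⟩
  exact h.hT (Φ.map_source (h.hbR (ball_subset_closedBall hζ)))

theorem coef_cont {Θ : OpenPartialHomeomorph E E} (h1 : ContDiffOn ℝ ∞ Θ Θ.source)
    (h2 : ContDiffOn ℝ ∞ Θ.symm Θ.target) :
    ContDiffOn ℝ ∞ (fun ζ => cof (fderiv ℝ Θ ζ)) Θ.source := by
  intro ζ hζ
  apply ContDiffAt.contDiffWithinAt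
  have e1 : ContDiffAt ℝ ∞ (fderiv ℝ Θ) ζ :=
    (h1.contDiffAt (Θ.open_source.mem_nhds hζ)).fderiv_right (m := ∞) (by simp)
  exact (contDiffAt_cof (chart_inv h1 h2 hζ).1).comp ζ e1

theorem coef_bound {Θ : OpenPartialHomeomorph E E} (h1 : ContDiffOn ℝ ∞ Θ Θ.source)
    (h2 : ContDiffOn ℝ ∞ Θ.symm Θ.target) {R : ℝ} (hb : closedBall (0 : E) R ⊆ Θ.source) :
    ∃ A : ℝ, 0 < A ∧ ∀ ζ ∈ closedBall (0 : E) R, ‖cof (fderiv ℝ Θ ζ)‖ ≤ A := by
  obtain ⟨A, hA⟩ := (isCompact_closedBall (0 : E) R).exists_bound_of_continuousOn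
    ((coef_cont h1 h2).continuousOn.mono hb)
  exact ⟨max A 1, lt_max_of_lt_right one_pos, fun ζ hζ => (hA ζ hζ).trans (le_max_left _ _)⟩

theorem coef_memLp {Θ : OpenPartialHomeomorph E E} (h1 : ContDiffOn ℝ ∞ Θ Θ.source)
    (h2 : ContDiffOn ℝ ∞ Θ.symm Θ.target) {R : ℝ} (hb : closedBall (0 : E) R ⊆ Θ.source)
    {G : E → E} {A : Set E} (hA : MeasurableSet A) (hAb : A ⊆ ball (0 : E) R)
    (hG : MemLp G 2 (volume.restrict A)) :
    MemLp (fun ζ => cof (fderiv ℝ Θ ζ) (G ζ)) 2 (volume.restrict A) := by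
  obtain ⟨B, hB0, hB⟩ := coef_bound h1 h2 hb
  have hAs : A ⊆ Θ.source := hAb.trans (ball_subset_closedBall.trans hb)
  have hm : AEStronglyMeasurable (fun ζ => cof (fderiv ℝ Θ ζ)) (volume.restrict A) :=
    ((coef_cont h1 h2).continuousOn.mono hAs).aestronglyMeasurable hA
  have hm2 : AEStronglyMeasurable (fun ζ => cof (fderiv ℝ Θ ζ) (G ζ)) (volume.restrict A) :=
    (ContinuousLinearMap.apply ℝ E).continuous₂.comp_aestronglyMeasurable₂ hG.1 hm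
  apply MemLp.of_le_mul (c := B) hG hm2
  filter_upwards [ae_restrict_mem hA] with ζ hζ
  exact (ContinuousLinearMap.le_opNorm _ _).trans
    (mul_le_mul_of_nonneg_right (hB ζ (ball_subset_closedBall (hAb hζ))) (norm_nonneg _))

theorem l2_sq {μ : Measure E} {F : Type} [NormedAddCommGroup F] {f : E → F}
    (hf : MemLp f 2 μ) : ∫ x, ‖f x‖ ^ 2 ∂μ = (eLpNorm f 2 μ).toReal ^ 2 := by
  rw [hf.eLpNorm_eq_integral_rpow_norm (by norm_num) (by norm_num)]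
  have h0 : 0 ≤ ∫ x, ‖f x‖ ^ 2 ∂μ := integral_nonneg (fun x => by positivity)
  have h1 : ∫ x, ‖f x‖ ^ (2 : ℝ≥0∞).toReal ∂μ = ∫ x, ‖f x‖ ^ 2 ∂μ := by
    congr 1
    funext x
    simp
  rw [h1, ENNReal.toReal_ofReal (by positivity), ENNReal.toReal_ofNat, ← one_div,
    ← Real.sqrt_eq_rpow, Real.sq_sqrt h0]

theorem Loc.energy {Ω S : Set E} {u : E → ℝ} {Φ : OpenPartialHomeomorph E E} {R : ℝ}
    (h : Loc Ω S u Φ R) {η : E → ℝ} (hη : ContDiff ℝ ∞ η) (hηc : HasCompactSupport η)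
    (hηs : tsupport η ⊆ ball (0 : E) R) (hη1 : ∀ ζ, |η ζ| ≤ 1) :
    ∃ C w₀ : ℝ, 0 < C ∧ 0 < w₀ ∧ ∀ w : E, w 2 = 0 → ‖w‖ ≤ w₀ →
      MemLp (fun ζ => gradient (fun ζ => u (Φ (psi η w ζ))) ζ - gradient (fun ζ => u (Φ ζ)) ζ) 2
        (volume.restrict (HB R)) ∧
      (eLpNorm (fun ζ => gradient (fun ζ => u (Φ (psi η w ζ))) ζ -
        gradient (fun ζ => u (Φ ζ)) ζ) 2 (volume.restrict (HB R))).toReal ≤ C * ‖w‖ := by
  have hR := h.hR
  obtain ⟨C₁, w₁, hC₁, hw₁, hlip⟩ := cof_lip h.h1 h.h2 h.hbR hη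
  obtain ⟨c, Λ, hc, hΛ, hbd⟩ := chart_bounds h.h1 h.h2 h.hbR
  obtain ⟨Cη, hCη⟩ : ∃ Cη : ℝ, ∀ ζ, ‖fderiv ℝ η ζ‖ ≤ Cη :=
    (hη.continuous_fderiv (by simp)).bounded_above_of_compact_support
      (hηc.fderiv (𝕜 := ℝ))
  have hCη0 : 0 ≤ Cη := (norm_nonneg _).trans (hCη 0)
  set c₁ : ℝ := c / Λ ^ 2 with hc₁
  have hc₁0 : 0 < c₁ := by positivity
  set v : E → ℝ := fun ζ => u (Φ ζ) with hv
  set μ := volume.restrict (HB R) with hμ
  have hsol := h.sol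
  set nv : ℝ := (eLpNorm (gradient v) 2 μ).toReal with hnv
  have hnv0 : 0 ≤ nv := ENNReal.toReal_nonneg
  refine ⟨2 * C₁ / c₁ * nv + 1, min (min w₁ R) (min (1 / (2 * (Cη + 1))) (c₁ / (2 * C₁))),
    by positivity, by positivity, fun w hw2 hw => ?_⟩
  have hww₁ : ‖w‖ ≤ w₁ := hw.trans ((min_le_left _ _).trans (min_le_left _ _))
  have hwR : ‖w‖ ≤ R := hw.trans ((min_le_left _ _).trans (min_le_right _ _))
  have hwη : Cη * ‖w‖ ≤ 1 / 2 := by
    have h3 : ‖w‖ ≤ 1 / (2 * (Cη + 1)) :=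
      hw.trans ((min_le_right _ _).trans (min_le_left _ _))
    rw [le_div_iff₀ (by positivity)] at h3
    nlinarith [norm_nonneg w]
  have hwc : C₁ * ‖w‖ ≤ c₁ / 2 := by
    have h3 : ‖w‖ ≤ c₁ / (2 * C₁) :=
      hw.trans ((min_le_right _ _).trans (min_le_right _ _))
    rw [le_div_iff₀ (by positivity)] at h3
    linarith
  obtain ⟨Θ, k0, k1, k2, k3, k4, k5⟩ :=
    flow_chart h.h1 h.h2 h.hSS h.hb hη hCη hη1 hwη hwR hw2
  have hΘf : (Θ : E → E) = fun ζ => Φ (psi η w ζ) := funext k0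
  have hsolw : LSol R (fun ζ => cof (fderiv ℝ Θ ζ)) (fun ζ => u (Θ ζ)) := by
    apply cv k1 k2 k3 h.hΩ h.hS h.hu k4
    rintro _ ⟨ζ, hζ, rfl⟩
    exact h.hT (k5 (Θ.map_source (k3 (ball_subset_closedBall hζ))))
  set vw : E → ℝ := fun ζ => u (Φ (psi η w ζ)) with hvw
  have hvwΘ : (fun ζ => u (Θ ζ)) = vw := by
    rw [hΘf]
  rw [hvwΘ] at hsolw
  have oH := HB_open R
  -- the coefficient of the moved chart
  have hmd : ∀ ζ ∈ HB R, cof (fderiv ℝ Θ ζ) = cof (mder Φ η w ζ) := by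
    intro ζ hζ
    rw [hΘf, mder_eq h.h1 hη]
    apply h.hb
    rw [mem_closedBall_zero_iff]
    have hζR : ‖ζ‖ < R := by simpa using hζ.1
    calc ‖psi η w ζ‖ ≤ ‖ζ‖ + ‖η ζ • w‖ := norm_add_le _ _
      _ ≤ R + 1 * R := by
          apply add_le_add hζR.le
          rw [norm_smul]
          exact mul_le_mul (hη1 ζ) hwR (norm_nonneg _) zero_le_one
      _ = 2 * R := by ring
  set D : E → ℝ := fun ζ => vw ζ - v ζ with hD
  have hgD : ∀ ζ ∈ HB R, gradient D ζ = gradient vw ζ - gradient v ζ := by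
    intro ζ hζ
    have d1 : DifferentiableAt ℝ vw ζ :=
      (hsolw.smooth.contDiffAt (oH.mem_nhds hζ)).differentiableAt (by simp)
    have d2 : DifferentiableAt ℝ v ζ :=
      (hsol.smooth.contDiffAt (oH.mem_nhds hζ)).differentiableAt (by simp)
    unfold gradient
    rw [hD, fderiv_fun_sub d1 d2, map_sub]
  set X : E → E := fun ζ => gradient vw ζ - gradient v ζ with hX
  have mX : MemLp X 2 μ := hsolw.memG.sub hsol.memG
  have hLT : LTest R D := by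
    refine ⟨(hsolw.smooth.sub hsol.smooth).of_le (by simp), ⟨tsupport η, hηc, hηs, ?_⟩,
      hsolw.mem.sub hsol.mem, ?_⟩
    · intro ζ hζ
      have : psi η w ζ = ζ := by
        simp [psi, image_eq_zero_of_notMem_tsupport hζ]
      simp only [hD, hvw, hv, this, sub_self]
    · apply mX.ae_eq
      filter_upwards [ae_restrict_mem oH.measurableSet] with ζ hζ
      rw [hgD ζ hζ]
  have w1 := hsolw.weak D hLT
  have w2 := hsol.weak D hLT
  have i1 : Integrable (fun ζ => ⟪cof (fderiv ℝ Θ ζ) (gradient vw ζ), gradient D ζ⟫_ℝ) μ :=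
    int_inner (coef_memLp k1 k2 k3 oH.measurableSet inter_subset_left hsolw.memG) hLT.memG
  have i2 : Integrable (fun ζ => ⟪cof (fderiv ℝ Φ ζ) (gradient v ζ), gradient D ζ⟫_ℝ) μ :=
    int_inner (coef_memLp h.h1 h.h2 h.hbR oH.measurableSet inter_subset_left hsol.memG)
      hLT.memG
  have i3 : Integrable (fun ζ => C₁ * ‖w‖ * (‖gradient v ζ‖ * ‖X ζ‖)) μ :=
    (int_mul hsol.memG.norm mX.norm).const_mul _
  have i4 : Integrable (fun ζ => ‖X ζ‖ ^ 2) μ :=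
    (memLp_two_iff_integrable_sq_norm mX.1).1 mX
  -- the pointwise inequality
  have hpt : ∀ ζ ∈ HB R, c₁ / 2 * ‖X ζ‖ ^ 2 ≤
      (⟪cof (fderiv ℝ Θ ζ) (gradient vw ζ), gradient D ζ⟫_ℝ -
        ⟪cof (fderiv ℝ Φ ζ) (gradient v ζ), gradient D ζ⟫_ℝ) +
        C₁ * ‖w‖ * (‖gradient v ζ‖ * ‖X ζ‖) := by
    intro ζ hζ
    have hζc := ball_subset_closedBall hζ.1
    rw [hgD ζ hζ, hmd ζ hζ]
    have hvx : gradient vw ζ = gradient v ζ + X ζ := by simp [hX]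
    have hdl : ‖cof (mder Φ η w ζ) - cof (fderiv ℝ Φ ζ)‖ ≤ C₁ * ‖w‖ := hlip w hww₁ ζ hζc
    set P := cof (mder Φ η w ζ) with hP
    set Q := cof (fderiv ℝ Φ ζ) with hQ
    have hco : c₁ * ‖X ζ‖ ^ 2 ≤ ⟪Q (X ζ), X ζ⟫_ℝ :=
      cof_coercive (chart_inv h.h1 h.h2 (h.hbR hζc)).1 (hbd ζ hζc).1 hc (hbd ζ hζc).2.2.1 hΛ _
    have hb1 : |⟪(P - Q) (X ζ), X ζ⟫_ℝ| ≤ c₁ / 2 * ‖X ζ‖ ^ 2 := by
      calc |⟪(P - Q) (X ζ), X ζ⟫_ℝ| ≤ ‖(P - Q) (X ζ)‖ * ‖X ζ‖ := abs_real_inner_le_norm _ _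
        _ ≤ (C₁ * ‖w‖ * ‖X ζ‖) * ‖X ζ‖ := by
            apply mul_le_mul_of_nonneg_right _ (norm_nonneg _)
            exact ((P - Q).le_opNorm _).trans (mul_le_mul_of_nonneg_right hdl (norm_nonneg _))
        _ = (C₁ * ‖w‖) * ‖X ζ‖ ^ 2 := by ring
        _ ≤ c₁ / 2 * ‖X ζ‖ ^ 2 := mul_le_mul_of_nonneg_right hwc (by positivity)
    have hb2 : |⟪(P - Q) (gradient v ζ), X ζ⟫_ℝ| ≤ C₁ * ‖w‖ * (‖gradient v ζ‖ * ‖X ζ‖) := by
      calc |⟪(P - Q) (gradient v ζ), X ζ⟫_ℝ| ≤ ‖(P - Q) (gradient v ζ)‖ * ‖X ζ‖ :=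
            abs_real_inner_le_norm _ _
        _ ≤ (C₁ * ‖w‖ * ‖gradient v ζ‖) * ‖X ζ‖ := by
            apply mul_le_mul_of_nonneg_right _ (norm_nonneg _)
            exact ((P - Q).le_opNorm _).trans (mul_le_mul_of_nonneg_right hdl (norm_nonneg _))
        _ = _ := by ring
    have hX' : gradient vw ζ - gradient v ζ = X ζ := rfl
    rw [hX', hvx]
    have e1 : ⟪P (gradient v ζ + X ζ), X ζ⟫_ℝ - ⟪Q (gradient v ζ), X ζ⟫_ℝ =
        ⟪Q (X ζ), X ζ⟫_ℝ + ⟪(P - Q) (X ζ), X ζ⟫_ℝ + ⟪(P - Q) (gradient v ζ), X ζ⟫_ℝ := by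
      have e2 : ∀ y, (P - Q) y = P y - Q y := fun y => rfl
      rw [map_add, e2, e2]
      simp only [inner_add_left, inner_sub_left]
      ring
    rw [e1]
    have := abs_le.1 hb1
    have := abs_le.1 hb2
    linarith
  have hineq : c₁ / 2 * ∫ ζ, ‖X ζ‖ ^ 2 ∂μ ≤
      C₁ * ‖w‖ * ∫ ζ, ‖gradient v ζ‖ * ‖X ζ‖ ∂μ := by
    rw [← integral_const_mul, ← integral_const_mul]
    have h5 : ∫ ζ, c₁ / 2 * ‖X ζ‖ ^ 2 ∂μ ≤
        ∫ ζ, ((⟪cof (fderiv ℝ Θ ζ) (gradient vw ζ), gradient D ζ⟫_ℝ -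
        ⟪cof (fderiv ℝ Φ ζ) (gradient v ζ), gradient D ζ⟫_ℝ) +
        C₁ * ‖w‖ * (‖gradient v ζ‖ * ‖X ζ‖)) ∂μ := by
      apply integral_mono_ae (i4.const_mul _) ((i1.sub i2).add i3)
      filter_upwards [ae_restrict_mem oH.measurableSet] with ζ hζ
      exact hpt ζ hζ
    have i12 : Integrable (fun ζ => ⟪cof (fderiv ℝ Θ ζ) (gradient vw ζ), gradient D ζ⟫_ℝ -
        ⟪cof (fderiv ℝ Φ ζ) (gradient v ζ), gradient D ζ⟫_ℝ) μ := i1.sub i2
    rw [integral_add i12 i3, integral_sub i1 i2, w1, w2, sub_zero, zero_add] at h5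
    exact h5
  rw [l2_sq mX] at hineq
  set nX : ℝ := (eLpNorm X 2 μ).toReal with hnX
  have hnX0 : 0 ≤ nX := ENNReal.toReal_nonneg
  have hcs : ∫ ζ, ‖gradient v ζ‖ * ‖X ζ‖ ∂μ ≤ nv * nX := by
    have := int_abs_mul_le hsol.memG.norm mX.norm
    rw [eLpNorm_norm, eLpNorm_norm] at this
    refine le_trans (le_of_eq ?_) this
    congr 1
    funext ζ
    rw [abs_of_nonneg (by positivity)]
  refine ⟨mX, ?_⟩
  have hfin : c₁ / 2 * nX ^ 2 ≤ C₁ * ‖w‖ * (nv * nX) :=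
    hineq.trans (mul_le_mul_of_nonneg_left hcs (by positivity))
  have hgoal : nX ≤ 2 * C₁ / c₁ * nv * ‖w‖ := by
    rcases hnX0.eq_or_lt with h6 | h6
    · rw [← h6]; positivity
    · have h7 : c₁ / 2 * nX ≤ C₁ * ‖w‖ * nv := by
        have : (c₁ / 2 * nX) * nX ≤ (C₁ * ‖w‖ * nv) * nX := by nlinarith
        exact le_of_mul_le_mul_right this h6
      have h8 : 2 * C₁ / c₁ * nv * ‖w‖ = (2 / c₁) * (C₁ * ‖w‖ * nv) := by field_simp
      have h9 : nX = (2 / c₁) * (c₁ / 2 * nX) := by field_simp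
      rw [h8]
      calc nX = (2 / c₁) * (c₁ / 2 * nX) := h9
        _ ≤ (2 / c₁) * (C₁ * ‖w‖ * nv) := mul_le_mul_of_nonneg_left h7 (by positivity)
  calc nX ≤ 2 * C₁ / c₁ * nv * ‖w‖ := hgoal
    _ ≤ (2 * C₁ / c₁ * nv + 1) * ‖w‖ := by nlinarith [norm_nonneg w]

/-- tangential derivatives of the gradient are square integrable -/
theorem Loc.hess {Ω S : Set E} {u : E → ℝ} {Φ : OpenPartialHomeomorph E E} {R : ℝ}
    (h : Loc Ω S u Φ R) {e : E} (he : e 2 = 0) :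
    MemLp (fun ζ => fderiv ℝ (gradient (fun ζ => u (Φ ζ))) ζ e) 2
      (volume.restrict (HB (R / 2))) := by
  have hR := h.hR
  set v : E → ℝ := fun ζ => u (Φ ζ) with hv
  have oH := HB_open R
  have oH2 := HB_open (R / 2)
  have hHH : HB (R / 2) ⊆ HB R := fun ζ hζ =>
    ⟨ball_subset_ball (by linarith) hζ.1, hζ.2⟩
  have hsol := h.sol
  have hgs : ContDiffOn ℝ 1 (gradient v) (HB R) := by
    unfold gradient
    exact (InnerProductSpace.toDual ℝ E).symm.toContinuousLinearEquiv.contDiff.comp_contDiffOn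
      (hsol.smooth.fderiv_of_isOpen oH (by norm_cast))
  have hdm : AEStronglyMeasurable (fun ζ => fderiv ℝ (gradient v) ζ e)
      (volume.restrict (HB (R / 2))) :=
    (((hgs.continuousOn_fderiv_of_isOpen oH le_rfl).clm_apply continuousOn_const).mono
      hHH).aestronglyMeasurable oH2.measurableSet
  obtain ⟨η, c1, c2, c3, c4, W, c5, c6, c7⟩ := cutoff (isCompact_closedBall (0 : E) (R / 2))
    (isOpen_ball (x := (0 : E)) (ε := R)) (closedBall_subset_ball (by linarith))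
  obtain ⟨C, w₀, hC, hw₀, hen⟩ := h.energy c1 c2 c3 (fun ζ => by
    rw [abs_le]; constructor <;> linarith [(c4 ζ).1, (c4 ζ).2])
  -- the sequence of steps
  set s : ℕ → ℝ := fun n => w₀ / ((‖e‖ + 1) * (n + 1)) with hs
  have hs0 : ∀ n, 0 < s n := fun n => by positivity
  have hsw : ∀ n, ‖s n • e‖ ≤ w₀ := by
    intro n
    rw [norm_smul, Real.norm_eq_abs, abs_of_pos (hs0 n), hs]
    simp only
    rw [div_mul_eq_mul_div, div_le_iff₀ (by positivity)]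
    have : ‖e‖ ≤ (‖e‖ + 1) * ((n : ℝ) + 1) := by
      have := norm_nonneg e
      have h5 : (0 : ℝ) ≤ n := Nat.cast_nonneg n
      nlinarith
    exact mul_le_mul_of_nonneg_left this hw₀.le
  have hst : Tendsto s atTop (𝓝 0) := by
    have h3 : Tendsto (fun n : ℕ => ((n : ℝ) + 1)⁻¹) atTop (𝓝 0) := by
      simpa using tendsto_one_div_add_atTop_nhds_zero_nat (𝕜 := ℝ)
    have h4 := h3.const_mul (w₀ / (‖e‖ + 1))
    rw [mul_zero] at h4
    refine h4.congr (fun n => ?_)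
    simp only [hs]
    field_simp
  have hsinv : Tendsto (fun n => ‖(s n)⁻¹‖) atTop atTop := by
    have h3 : Tendsto s atTop (𝓝[>] 0) :=
      tendsto_nhdsWithin_iff.2 ⟨hst, Eventually.of_forall hs0⟩
    have h4 := tendsto_inv_nhdsGT_zero.comp h3
    exact tendsto_norm_atTop_atTop.comp h4
  set f : ℕ → E → E := fun n ζ => (s n)⁻¹ •
    (gradient (fun ζ => u (Φ (psi η (s n • e) ζ))) ζ - gradient v ζ) with hf
  have hmem : ∀ n, MemLp (f n) 2 (volume.restrict (HB R)) := fun n =>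
    (hen (s n • e) (by simp [he]) (hsw n)).1.const_smul ((s n)⁻¹)
  have hbound : ∀ n, eLpNorm (f n) 2 (volume.restrict (HB (R / 2))) ≤
      ENNReal.ofReal (C * ‖e‖) := by
    intro n
    refine (eLpNorm_mono_measure _ (Measure.restrict_mono hHH le_rfl)).trans ?_
    obtain ⟨m1, m2⟩ := hen (s n • e) (by simp [he]) (hsw n)
    have e1 : eLpNorm (f n) 2 (volume.restrict (HB R)) = ‖(s n)⁻¹‖ₑ *
        eLpNorm (fun ζ => gradient (fun ζ => u (Φ (psi η (s n • e) ζ))) ζ - gradient v ζ) 2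
          (volume.restrict (HB R)) := by
      rw [← eLpNorm_const_smul]
      rfl
    rw [e1]
    have e2 : eLpNorm (fun ζ => gradient (fun ζ => u (Φ (psi η (s n • e) ζ))) ζ -
        gradient v ζ) 2 (volume.restrict (HB R)) ≤ ENNReal.ofReal (C * ‖s n • e‖) :=
      (ENNReal.le_ofReal_iff_toReal_le m1.2.ne (by positivity)).2 m2
    refine (mul_le_mul_right e2 _).trans ?_
    rw [← ofReal_norm, ← ENNReal.ofReal_mul (norm_nonneg _)]
    apply ENNReal.ofReal_le_ofReal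
    rw [norm_smul, norm_inv]
    have : ‖s n‖ ≠ 0 := norm_ne_zero_iff.2 (hs0 n).ne'
    have e3 : ‖s n‖⁻¹ * (C * (‖s n‖ * ‖e‖)) = C * ‖e‖ := by field_simp
    rw [e3]
  have hlim : ∀ᵐ ζ ∂(volume.restrict (HB (R / 2))),
      Tendsto (fun n => f n ζ) atTop (𝓝 (fderiv ℝ (gradient v) ζ e)) := by
    filter_upwards [ae_restrict_mem oH2.measurableSet] with ζ hζ
    have hdiff : HasFDerivAt (gradient v) (fderiv ℝ (gradient v) ζ) ζ :=
      ((hgs.contDiffAt (oH.mem_nhds (hHH hζ))).differentiableAt one_ne_zero).hasFDerivAt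
    have h3 := hdiff.lim e hsinv
    simp only [inv_inv] at h3
    refine h3.congr' ?_
    have hWζ : W ∈ 𝓝 ζ := c5.mem_nhds (c6 (ball_subset_closedBall hζ.1))
    have hev : ∀ᶠ n in atTop, ζ + s n • e ∈ HB R := by
      have h4 : Tendsto (fun n => ζ + s n • e) atTop (𝓝 ζ) := by
        have := (hst.smul_const e).const_add ζ
        simpa using this
      exact h4.eventually (oH.mem_nhds (hHH hζ))
    filter_upwards [hev] with n hn
    simp only [hf]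
    congr 2
    have h5 : (fun ζ => u (Φ (psi η (s n • e) ζ))) =ᶠ[𝓝 ζ] fun z => v (z + s n • e) := by
      filter_upwards [hWζ] with z hz
      simp [psi, c7 z hz, hv]
    rw [h5.gradient_eq]
    unfold gradient
    rw [fderiv_comp_add_right]
  have hfinal := Lp.eLpNorm_lim_le_liminf_eLpNorm (p := 2)
    (fun n => ((hmem n).mono_measure (Measure.restrict_mono hHH le_rfl)).1) _ hlim
  refine ⟨hdm, lt_of_le_of_lt hfinal ?_⟩
  refine lt_of_le_of_lt ?_ (ENNReal.ofReal_lt_top (r := C * ‖e‖))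
  refine liminf_le_of_frequently_le' ?_
  exact Frequently.of_forall hbound

end Pool.Agent.Run7.h982
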