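import Pool.Agent.Run7.h982.Defs

/-!
# Insulating cracks: exact statements of the independent parts
-/

set_option autoImplicit false

open MeasureTheory Set Filter Topology Metric
open scoped ContDiff ENNReal NNReal InnerProductSpace

namespace Pool.Agent.Run7.h982

/-- The `i`-th basis vector. -/
noncomputable abbrev bv (i : Fin 3) : E := EuclideanSpace.single i (1 : ℝ)

/-- The Laplacian in coordinates. -/
noncomputable def lap (v : E → ℝ) (x : E) : ℝ :=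
  ∑ i : Fin 3, fderiv ℝ (fun y => fderiv ℝ v y (bv i)) x (bv i)

/-- Functions continuously differentiable off `S`, vanishing off a compact subset of `Ω`, with
square integrable gradient. -/
structure GTest (Ω S : Set E) (φ : E → ℝ) : Prop where
  smooth : ContDiffOn ℝ 1 φ Sᶜ
  supp : ∃ K, IsCompact K ∧ K ⊆ Ω ∧ ∀ x ∉ K, φ x = 0
  mem : MemLp φ 2 (volume.restrict (Ω \ S))
  memG : MemLp (gradient φ) 2 (volume.restrict (Ω \ S))

/-- Analytic weak solutions in `Ω \ S` with Neumann condition on both sides of `S`. -/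
structure Sol (Ω S : Set E) (u : E → ℝ) : Prop where
  an : AnalyticOnNhd ℝ u (Ω \ S)
  harm : ∀ x ∈ Ω \ S, lap u x = 0
  mem : MemLp u 2 (volume.restrict (Ω \ S))
  memG : MemLp (gradient u) 2 (volume.restrict (Ω \ S))
  weak : ∀ φ, GTest Ω S φ → ∫ x in Ω \ S, ⟪gradient u x, gradient φ x⟫_ℝ = 0

/-- **W** (Weyl's lemma and analyticity of harmonic functions). -/
def W_stm : Prop :=
  ∀ (O : Set E) (u : E → ℝ) (G : E → E), IsOpen O → IsH1 O u G →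
    (∀ φ, IsTest O φ → ∫ x in O, ⟪G x, gradient φ x⟫_ℝ = 0) →
    ∃ v : E → ℝ, AnalyticOnNhd ℝ v O ∧ (∀ x ∈ O, lap v x = 0) ∧
      (∀ᵐ x ∂(volume.restrict O), u x = v x) ∧ (∀ᵐ x ∂(volume.restrict O), G x = gradient v x)

/-- **DI** (the boundary of a Lipschitz domain has finite area, and the divergence inequality). -/
def DI_stm : Prop :=
  ∀ Ω : Set E, IsDomain3 Ω → surf Ω univ < ⊤ ∧ ∃ C : ℝ, 0 ≤ C ∧ ∀ F : E → ℝ, ContDiff ℝ ∞ F →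
    ∀ e : E, |∫ x in Ω, fderiv ℝ F x e| ≤ C * ‖e‖ * ∫ x, |F x| ∂(surf Ω)

/-- **RZ** (the normal derivative of a harmonic function, as a function on the boundary). -/
def RZ_stm : Prop :=
  ∀ Ω : Set E, IsDomain3 Ω → ∀ h : E → ℝ, ContDiff ℝ ∞ h → (∀ x, lap h x = 0) →
    ∃ ψ : E → ℝ, IsProfile Ω ψ ∧ ∀ F : E → ℝ, ContDiff ℝ ∞ F →
      ∫ x in Ω, ⟪gradient h x, gradient F x⟫_ℝ = ∫ x, ψ x * F x ∂(surf Ω)

/-- The compact set `K` is negligible for the flow of `∇ u`. -/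
def Rem (Ω S : Set E) (u : E → ℝ) (K : Set E) : Prop :=
  ∀ O : Set E, IsOpen O → K ⊆ O → ∀ ε : ℝ, 0 < ε → ∃ κ : E → ℝ,
    ContDiff ℝ ∞ κ ∧ HasCompactSupport κ ∧ tsupport κ ⊆ O ∧ (∀ x, 0 ≤ κ x ∧ κ x ≤ 1) ∧
    (∃ W, IsOpen W ∧ K ⊆ W ∧ ∀ x ∈ W, κ x = 1) ∧
    ∫ x in Ω \ S, |⟪gradient u x, gradient κ x⟫_ℝ| < ε

/-- **INT** (regularity near interior points of the crack). -/
def INT_stm : Prop :=
  ∀ (Ω S : Set E) (u : E → ℝ), IsOpen Ω → IsCompact S → S ⊆ Ω → Sol Ω S u →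
    ∀ p ∈ S, IntPt ∞ S p → ∃ V, IsOpen V ∧ p ∈ V ∧ ∀ K, K ⊆ S ∩ V → IsCompact K → Rem Ω S u K

/-- **EDGE** (Lipschitz curves are negligible for every square integrable function). -/
def EDGE_stm : Prop :=
  ∀ (γ : ℝ → E) (C : ℝ≥0), LipschitzOnWith C γ (Icc 0 1) → ∀ K, K ⊆ γ '' Icc 0 1 →
    IsCompact K → ∀ g : E → ℝ, MemLp g 2 volume → ∀ O : Set E, IsOpen O → K ⊆ O →
    ∀ ε : ℝ, 0 < ε → ∃ κ : E → ℝ,
      ContDiff ℝ ∞ κ ∧ HasCompactSupport κ ∧ tsupport κ ⊆ O ∧ (∀ x, 0 ≤ κ x ∧ κ x ≤ 1) ∧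
      (∃ W, IsOpen W ∧ K ⊆ W ∧ ∀ x ∈ W, κ x = 1) ∧
      ∫ x, |g x| * ‖gradient κ x‖ < ε

/-- `u` has no jump across `S` near `p`. -/
def JumpFree (S : Set E) (u : E → ℝ) (p : E) : Prop :=
  ∃ U, IsOpen U ∧ p ∈ U ∧ ∀ φ, IsTest U φ → ∀ e : E,
    ∫ x in Sᶜ, u x * fderiv ℝ φ x e = - ∫ x in Sᶜ, fderiv ℝ u x e * φ x

/-- **J** (propagation of the absence of a jump along an analytic surface). -/
def J_stm : Prop :=
  ∀ (Ω S : Set E) (u : E → ℝ), IsOpen Ω → IsCompact S → S ⊆ Ω → Sol Ω S u →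
    ∀ p ∈ S, IntPt ω S p → p ∈ closure {q ∈ S | JumpFree S u q} → JumpFree S u p

/-- **NEM** (analyticity of superposition operators). -/
def NEM_stm : Prop :=
  ∀ (X V W : Type) [TopologicalSpace X] [CompactSpace X] [NormedAddCommGroup V]
    [NormedSpace ℝ V] [CompleteSpace V] [NormedAddCommGroup W] [NormedSpace ℝ W]
    [CompleteSpace W] (f : V → W) (g₀ : C(X, V)) (N : C(X, V) → C(X, W)),
    (∀ x, AnalyticAt ℝ f (g₀ x)) → (∀ᶠ g in 𝓝 g₀, ∀ x, N g x = f (g x)) → AnalyticAt ℝ N g₀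

/-- **ODE** (solutions of analytic total differential equations are analytic). -/
def ODE_stm : Prop :=
  ∀ (V : Type) [NormedAddCommGroup V] [NormedSpace ℝ V] [FiniteDimensional ℝ V]
    (F : V × ℝ → V →L[ℝ] ℝ) (f : V → ℝ) (x₀ : V), AnalyticAt ℝ F (x₀, f x₀) →
    (∀ᶠ x in 𝓝 x₀, HasFDerivAt f (F (x, f x)) x) → AnalyticAt ℝ f x₀

/-- **LOC** (a smooth surface tangent to two harmonic gradients is somewhere analytic). -/
def LOC_stm : Prop :=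
  ∀ (S : Set E) (Φ : OpenPartialHomeomorph E E), 0 ∈ Φ.source →
    ContDiffOn ℝ ∞ Φ Φ.source → ContDiffOn ℝ ∞ Φ.symm Φ.target →
    (∀ ζ ∈ Φ.source, Φ ζ ∈ S ↔ ζ 2 = 0) → ∀ v : Fin 2 → E → ℝ,
    (∀ i, AnalyticOnNhd ℝ (v i) Φ.target) → (∀ i, ∀ x ∈ Φ.target, lap (v i) x = 0) →
    (∀ i, ∀ x ∈ Φ.target ∩ S, fderiv ℝ (fun y => Φ.symm y 2) x (gradient (v i) x) = 0) →
    (∃ x ∈ Φ.target ∩ S, IntPt ω S x) ∨
      ∃ V, IsOpen V ∧ V.Nonempty ∧ V ⊆ Φ.target ∧ ∃ a : Fin 2 → ℝ, a ≠ 0 ∧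
        ∀ x ∈ V, ∑ i, a i • gradient (v i) x = 0

end Pool.Agent.Run7.h982
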