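import Pool.Agent.Run7.h982.Nem

/-!
# Insulating cracks: analytic dependence of solutions of coercive equations
-/

set_option autoImplicit false

open MeasureTheory Set Filter Topology Metric
open scoped ContDiff ENNReal NNReal InnerProductSpace

namespace Pool.Agent.Run7.h982

theorem coercive_unit {V : Type*} [NormedAddCommGroup V] [InnerProductSpace ℝ V]
    [CompleteSpace V] (T : V →L[ℝ] V) {c : ℝ} (hc : 0 < c)
    (h : ∀ z, c * ‖z‖ ^ 2 ≤ ⟪T z, z⟫_ℝ) : T.IsInvertible := by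
  set B : V →L[ℝ] V →L[ℝ] ℝ := (innerSL ℝ (E := V)).comp T with hB
  have hco : IsCoercive B := by
    refine ⟨c, hc, fun u => ?_⟩
    have := h u
    simp only [hB, ContinuousLinearMap.comp_apply, innerSL_apply_apply]
    nlinarith
  have h1 : T = (hco.continuousLinearEquivOfBilin : V →L[ℝ] V) := by
    ext1 v
    apply hco.unique_continuousLinearEquivOfBilin
    intro w
    rfl
  rw [h1]
  exact ⟨hco.continuousLinearEquivOfBilin, rfl⟩

theorem solve_analytic {H : Type*} [NormedAddCommGroup H] [InnerProductSpace ℝ H]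
    [CompleteSpace H] (V : Submodule ℝ H) (hV : IsClosed (V : Set H)) (A : ℝ → H →L[ℝ] H)
    {s₀ : ℝ} (hA : ContDiffAt ℝ ω A s₀) {c : ℝ} (hc : 0 < c)
    (hco : ∀ z ∈ V, c * ‖z‖ ^ 2 ≤ ⟪A s₀ z, z⟫_ℝ) (G : ℝ → H) (G₀ : H)
    (hG : ∀ᶠ s in 𝓝 s₀, G s - G₀ ∈ V ∧ ∀ φ ∈ V, ⟪A s (G s), φ⟫_ℝ = 0) :
    AnalyticAt ℝ G s₀ := by
  have : CompleteSpace V := hV.completeSpace_coe
  set P : H →L[ℝ] V := V.orthogonalProjectionOnto with hP
  set T : ℝ → V →L[ℝ] V := fun s => P ∘L (A s) ∘L V.subtypeL with hT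
  have hTc : ContDiffAt ℝ ω T s₀ := contDiffAt_const.clm_comp (hA.clm_comp contDiffAt_const)
  have hPi : ∀ (x : H) (z : V), ⟪P x, z⟫_ℝ = ⟪x, (z : H)⟫_ℝ := by
    intro x z
    exact Submodule.inner_orthogonalProjectionOnto_eq_of_mem_right z x
  have hT0 : (T s₀).IsInvertible := by
    apply coercive_unit (T s₀) hc
    intro z
    have h1 := hco z z.2
    have h2 : ⟪T s₀ z, z⟫_ℝ = ⟪A s₀ (z : H), (z : H)⟫_ℝ := hPi (A s₀ (z : H)) z
    rw [h2]
    exact h1
  have hTu : ∀ᶠ s in 𝓝 s₀, (T s).IsInvertible := by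
    have h1 : {L : V →L[ℝ] V | L.IsInvertible} ∈ 𝓝 (T s₀) := by
      apply ContinuousLinearEquiv.isOpen.mem_nhds
      exact hT0
    exact hTc.continuousAt h1
  have hinv : ContDiffAt ℝ ω (fun s => (T s).inverse) s₀ := by
    have h1 : ContDiffAt ℝ ω (fun L : V →L[ℝ] V => L.inverse) (T s₀) :=
      hTu.self_of_nhds.contDiffAt_map_inverse
    exact h1.comp s₀ hTc
  have hrhs : ContDiffAt ℝ ω (fun s => P (A s G₀)) s₀ :=
    P.contDiff.contDiffAt.comp s₀ (hA.clm_apply contDiffAt_const)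
  have hmain : ContDiffAt ℝ ω (fun s => G₀ - V.subtypeL (((T s).inverse) (P (A s G₀)))) s₀ :=
    contDiffAt_const.sub (V.subtypeL.contDiff.contDiffAt.comp s₀ (hinv.clm_apply hrhs))
  apply hmain.analyticAt.congr
  filter_upwards [hG, hTu] with s hs hu
  obtain ⟨h1, h2⟩ := hs
  set Z : V := ⟨G s - G₀, h1⟩ with hZ
  have h3 : T s Z = - P (A s G₀) := by
    apply ext_inner_right ℝ
    intro z
    have h4 : ⟪T s Z, z⟫_ℝ = ⟪A s (G s - G₀), (z : H)⟫_ℝ := hPi _ z
    rw [h4, inner_neg_left, hPi, map_sub, inner_sub_left, h2 z z.2]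
    ring
  have h5 : ((T s).inverse) (T s Z) = Z := by
    have h6 := hu.inverse_comp_self
    have h7 := congrArg (fun L : V →L[ℝ] V => L Z) h6
    exact h7
  rw [h3, map_neg] at h5
  have h8 : (V.subtypeL (((T s).inverse) (P (A s G₀))) : H) = - (G s - G₀) := by
    have : ((T s).inverse) (P (A s G₀)) = - Z := by rw [← h5, neg_neg]
    rw [this]
    simp [hZ]
  rw [h8]
  abel

end Pool.Agent.Run7.h982
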