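import Pool.Agent.Run7.h982.J1
import Pool.Agent.Run7.h982.Hess

/-!
# Insulating cracks: multiplication operators
-/

set_option autoImplicit false

open MeasureTheory Set Filter Topology Metric
open scoped ContDiff ENNReal NNReal InnerProductSpace

namespace Pool.Agent.Run7.h982

/-- extension by zero of a matrix function on a closed set -/
noncomputable def extM {K : Set E} (a : C(K, E →L[ℝ] E)) (ζ : E) : E →L[ℝ] E :=
  open Classical in if h : ζ ∈ K then a ⟨ζ, h⟩ else 0

theorem extM_of {K : Set E} (a : C(K, E →L[ℝ] E)) {ζ : E} (h : ζ ∈ K) :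
    extM a ζ = a ⟨ζ, h⟩ := by
  unfold extM
  rw [dif_pos h]

theorem extM_meas {K : Set E} (hK : IsClosed K) (a : C(K, E →L[ℝ] E)) (μ : Measure E) :
    AEStronglyMeasurable (extM a) μ := by
  have h1 : ContinuousOn (extM a) K := by
    rw [continuousOn_iff_continuous_domRestrict]
    have : K.domRestrict (extM a) = a := by
      ext1 x
      rw [domRestrict_apply]
      exact extM_of a x.2
    rw [this]
    exact a.continuous
  have h2 : extM a = K.indicator (extM a) := by
    ext1 x
    by_cases hx : x ∈ K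
    · rw [indicator_of_mem hx]
    · rw [indicator_of_notMem hx]
      unfold extM
      rw [dif_neg hx]
  rw [h2, aestronglyMeasurable_indicator_iff hK.measurableSet]
  exact h1.aestronglyMeasurable hK.measurableSet

theorem extM_bound {K : Set E} [CompactSpace K] (a : C(K, E →L[ℝ] E)) (ζ : E) :
    ‖extM a ζ‖ ≤ ‖a‖ := by
  unfold extM
  split_ifs with h
  · exact a.norm_coe_le_norm _
  · rw [norm_zero]; exact norm_nonneg a

theorem extM_memLp {K : Set E} [CompactSpace K] (hK : IsClosed K) (a : C(K, E →L[ℝ] E))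
    {μ : Measure E} {f : E → E} (hf : MemLp f 2 μ) : MemLp (fun ζ => extM a ζ (f ζ)) 2 μ := by
  have hm : AEStronglyMeasurable (fun ζ => extM a ζ (f ζ)) μ :=
    (ContinuousLinearMap.apply ℝ E).continuous₂.comp_aestronglyMeasurable₂ hf.1 (extM_meas hK a μ)
  apply MemLp.of_le_mul (c := ‖a‖) hf hm
  filter_upwards with ζ
  exact (ContinuousLinearMap.le_opNorm _ _).trans
    (mul_le_mul_of_nonneg_right (extM_bound a ζ) (norm_nonneg _))

/-- multiplication operator -/
noncomputable def mulOp {K : Set E} [CompactSpace K] (hK : IsClosed K) (μ : Measure E)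
    (a : C(K, E →L[ℝ] E)) : Lp E 2 μ →L[ℝ] Lp E 2 μ :=
  LinearMap.mkContinuous
    { toFun := fun f => (extM_memLp hK a (Lp.memLp f)).toLp
      map_add' := by
        intro f g
        apply Lp.ext
        filter_upwards [(extM_memLp hK a (Lp.memLp (f + g))).coeFn_toLp,
          (extM_memLp hK a (Lp.memLp f)).coeFn_toLp, (extM_memLp hK a (Lp.memLp g)).coeFn_toLp,
          Lp.coeFn_add f g, Lp.coeFn_add (extM_memLp hK a (Lp.memLp f)).toLp
            (extM_memLp hK a (Lp.memLp g)).toLp] with x h1 h2 h3 h4 h5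
        rw [h1, h5, Pi.add_apply, h2, h3, h4, Pi.add_apply, map_add]
      map_smul' := by
        intro c f
        apply Lp.ext
        filter_upwards [(extM_memLp hK a (Lp.memLp (c • f))).coeFn_toLp,
          (extM_memLp hK a (Lp.memLp f)).coeFn_toLp, Lp.coeFn_smul c f,
          Lp.coeFn_smul c (extM_memLp hK a (Lp.memLp f)).toLp] with x h1 h2 h3 h4
        rw [h1, RingHom.id_apply, h4, Pi.smul_apply, h2, h3, Pi.smul_apply, map_smul] }
    ‖a‖ (by
      intro f
      apply Lp.norm_le_mul_norm_of_ae_le_mul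
      filter_upwards [(extM_memLp hK a (Lp.memLp f)).coeFn_toLp] with x h1
      simp only [LinearMap.coe_mk, AddHom.coe_mk]
      rw [h1]
      exact (ContinuousLinearMap.le_opNorm _ _).trans
        (mul_le_mul_of_nonneg_right (extM_bound a x) (norm_nonneg _)))

theorem mulOp_coe {K : Set E} [CompactSpace K] (hK : IsClosed K) (μ : Measure E)
    (a : C(K, E →L[ℝ] E)) (f : Lp E 2 μ) :
    (mulOp hK μ a f : E → E) =ᵐ[μ] fun ζ => extM a ζ (f ζ) :=
  (extM_memLp hK a (Lp.memLp f)).coeFn_toLp

/-- multiplication operators depend linearly on the coefficient -/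
theorem mulOp_lin {K : Set E} [CompactSpace K] (hK : IsClosed K) (μ : Measure E) :
    IsBoundedLinearMap ℝ (mulOp hK μ : C(K, E →L[ℝ] E) → (Lp E 2 μ →L[ℝ] Lp E 2 μ)) where
  map_add := by
    intro a b
    ext1 f
    apply Lp.ext
    filter_upwards [mulOp_coe hK μ (a + b) f, mulOp_coe hK μ a f, mulOp_coe hK μ b f,
      Lp.coeFn_add (mulOp hK μ a f) (mulOp hK μ b f)] with x h1 h2 h3 h4
    have h5 : (mulOp hK μ a + mulOp hK μ b) f = mulOp hK μ a f + mulOp hK μ b f := rfl
    rw [h5, h1, h4, Pi.add_apply, h2, h3]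
    unfold extM
    split_ifs with h
    · rfl
    · simp
  map_smul := by
    intro c a
    ext1 f
    apply Lp.ext
    filter_upwards [mulOp_coe hK μ (c • a) f, mulOp_coe hK μ a f,
      Lp.coeFn_smul c (mulOp hK μ a f)] with x h1 h2 h3
    have h5 : (c • mulOp hK μ a) f = c • mulOp hK μ a f := rfl
    rw [h5, h1, h3, Pi.smul_apply, h2]
    unfold extM
    split_ifs with h
    · rfl
    · simp
  bound := by
    refine ⟨1, one_pos, ?_⟩
    intro a
    rw [one_mul]
    exact LinearMap.mkContinuous_norm_le _ (norm_nonneg a) _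

theorem mulOp_an {K : Set E} [CompactSpace K] (hK : IsClosed K) (μ : Measure E)
    {a : ℝ → C(K, E →L[ℝ] E)} {s₀ : ℝ} (h : ContDiffAt ℝ ω a s₀) :
    ContDiffAt ℝ ω (fun s => mulOp hK μ (a s)) s₀ := by
  have h1 : ContDiffAt ℝ ω (mulOp hK μ : C(K, E →L[ℝ] E) → (Lp E 2 μ →L[ℝ] Lp E 2 μ)) (a s₀) :=
    (mulOp_lin hK μ).contDiff.contDiffAt
  exact h1.comp s₀ h

end Pool.Agent.Run7.h982
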