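import Pool.Agent.Run7.h982.J2

/-!
# Insulating cracks: the coefficients of the moved equation are analytic in the parameter
-/

set_option autoImplicit false

open MeasureTheory Set Filter Topology Metric
open scoped ContDiff ENNReal NNReal InnerProductSpace

namespace Pool.Agent.Run7.h982

theorem flow_inv {η : E → ℝ} {C : ℝ} (hC : ∀ ζ, ‖fderiv ℝ η ζ‖ ≤ C) {w : E}
    (hw : C * ‖w‖ ≤ 1 / 2) (ζ : E) :
    (ContinuousLinearMap.id ℝ E + (fderiv ℝ η ζ).smulRight w).IsInvertible := by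
  have hn : ‖-((fderiv ℝ η ζ).smulRight w)‖ < 1 := by
    rw [norm_neg, ContinuousLinearMap.norm_smulRight_apply]
    have := mul_le_mul_of_nonneg_right (hC ζ) (norm_nonneg w)
    linarith
  refine ⟨ContinuousLinearEquiv.ofUnit (Units.oneSub _ hn), ?_⟩
  have : ((ContinuousLinearEquiv.ofUnit (Units.oneSub _ hn) : E ≃L[ℝ] E) : E →L[ℝ] E) =
    1 - (-((fderiv ℝ η ζ).smulRight w)) := rfl
  rw [this, sub_neg_eq_add]
  rfl

/-- the coefficient as a function of the point and the derivative of the flow -/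
noncomputable def cf (Φ : E → E) (q : E × (E →L[ℝ] E)) : E →L[ℝ] E :=
  cof ((fderiv ℝ Φ q.1) ∘L q.2)

theorem cf_an {Φ : OpenPartialHomeomorph E E} (h1 : ContDiffOn ℝ ω Φ Φ.source)
    (h2 : ContDiffOn ℝ ω Φ.symm Φ.target) {z : E} (hz : z ∈ Φ.source) {N : E →L[ℝ] E}
    (hN : N.IsInvertible) : AnalyticAt ℝ (cf Φ) (z, N) := by
  have e1 : AnalyticAt ℝ Φ z := (h1.contDiffAt (Φ.open_source.mem_nhds hz)).analyticAt
  have e2 : ContDiffAt ℝ ω (fderiv ℝ Φ) z := e1.fderiv.contDiffAt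
  have e3 : ContDiffAt ℝ ω (fun q : E × (E →L[ℝ] E) => fderiv ℝ Φ q.1) (z, N) :=
    ContDiffAt.comp (f := fun q : E × (E →L[ℝ] E) => q.1) (z, N) e2 contDiffAt_fst
  have e4 : ContDiffAt ℝ ω (fun q : E × (E →L[ℝ] E) => (fderiv ℝ Φ q.1) ∘L q.2) (z, N) :=
    e3.clm_comp contDiffAt_snd
  have hinv : ((fderiv ℝ Φ z) ∘L N).IsInvertible := by
    have := (chart_inv (h1.of_le le_top) (h2.of_le le_top) hz).1
    exact this.comp hN
  have e5 : ContDiffAt ℝ ω cof ((fderiv ℝ Φ z) ∘L N) := contDiffAt_cof hinv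
  have e6 : ContDiffAt ℝ ω (cf Φ) (z, N) :=
    ContDiffAt.comp (f := fun q : E × (E →L[ℝ] E) => (fderiv ℝ Φ q.1) ∘L q.2) (z, N) e5 e4
  exact e6.analyticAt

/-- superposition with an analytic function, near a function with values in the analytic set -/
theorem sup_an {X V W : Type} [TopologicalSpace X] [CompactSpace X] [NormedAddCommGroup V]
    [NormedSpace ℝ V] [CompleteSpace V] [NormedAddCommGroup W] [NormedSpace ℝ W]
    [CompleteSpace W] (f : V → W) : ∃ N : C(X, V) → C(X, W),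
      ∀ g₀ : C(X, V), (∀ x, AnalyticAt ℝ f (g₀ x)) →
        AnalyticAt ℝ N g₀ ∧ ∀ x, N g₀ x = f (g₀ x) := by
  classical
  refine ⟨fun g => if h : Continuous (fun x => f (g x)) then ⟨_, h⟩ else 0, ?_⟩
  intro g₀ hg₀
  have hev : ∀ᶠ g in 𝓝 g₀, ∀ x : X, (if h : Continuous (fun x => f (g x)) then
      (⟨_, h⟩ : C(X, W)) else 0) x = f (g x) := by
    have hK : IsCompact (range g₀) := isCompact_range g₀.continuous
    have hsub : range g₀ ⊆ {q | AnalyticAt ℝ f q} := by
      rintro _ ⟨x, rfl⟩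
      exact hg₀ x
    obtain ⟨δ, hδ, hth⟩ := hK.exists_thickening_subset_open (isOpen_analyticAt ℝ f) hsub
    have h2 : ∀ᶠ g in 𝓝 g₀, g ∈ ball g₀ δ := ball_mem_nhds _ hδ
    filter_upwards [h2] with g hg x
    have hc : Continuous (fun x => f (g x)) := by
      rw [continuous_iff_continuousAt]
      intro y
      have h3 : AnalyticAt ℝ f (g y) := by
        apply hth
        rw [mem_thickening_iff]
        refine ⟨g₀ y, ⟨y, rfl⟩, ?_⟩
        exact (g.dist_apply_le_dist y).trans_lt hg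
      exact h3.continuousAt.comp g.continuous.continuousAt
    rw [dif_pos hc]
    rfl
  exact ⟨nem X V W f g₀ _ hg₀ hev, hev.self_of_nhds⟩

theorem affine_an {F : Type*} [NormedAddCommGroup F] [NormedSpace ℝ F] (x y : F) (s : ℝ) :
    AnalyticAt ℝ (fun s : ℝ => x + s • y) s :=
  analyticAt_const.fun_add (analyticAt_id.fun_smul analyticAt_const)

theorem coef_an {Φ : OpenPartialHomeomorph E E} (h1 : ContDiffOn ℝ ω Φ Φ.source)
    (h2 : ContDiffOn ℝ ω Φ.symm Φ.target) {R : ℝ} [CompactSpace (closedBall (0 : E) R)]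
    (hb : closedBall (0 : E) (2 * R) ⊆ Φ.source) {η : E → ℝ} (hη : ContDiff ℝ ∞ η) {C : ℝ}
    (hC : ∀ ζ, ‖fderiv ℝ η ζ‖ ≤ C) (hη1 : ∀ ζ, |η ζ| ≤ 1) {w : E} :
    ∃ a : ℝ → C(closedBall (0 : E) R, E →L[ℝ] E), ∀ s : ℝ, C * ‖s • w‖ ≤ 1 / 2 → ‖s • w‖ ≤ R →
      ContDiffAt ℝ ω a s ∧ ∀ ζ : closedBall (0 : E) R, a s ζ = cof (mder Φ η (s • w) ζ) := by
  obtain ⟨N, hN⟩ := sup_an (X := closedBall (0 : E) R) (cf Φ)
  have hfd : Continuous (fderiv ℝ η) := hη.continuous_fderiv (by simp)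
  set g : ℝ → C(closedBall (0 : E) R, E × (E →L[ℝ] E)) := fun s =>
    ⟨fun ζ => (psi η (s • w) ζ, ContinuousLinearMap.id ℝ E + (fderiv ℝ η ζ).smulRight (s • w)), by
      apply Continuous.prodMk
      · exact (psi_contDiff hη (s • w)).continuous.comp continuous_subtype_val
      · apply Continuous.add continuous_const
        have h3 : Continuous (fun ζ : closedBall (0 : E) R => fderiv ℝ η ζ) :=
          hfd.comp continuous_subtype_val
        exact (ContinuousLinearMap.smulRightL ℝ E E).continuous₂.comp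
          (h3.prodMk continuous_const)⟩ with hg
  have hgan : ∀ s, AnalyticAt ℝ g s := by
    intro s
    have h3 : g = fun s => g 0 + s • (g 1 - g 0) := by
      funext s
      ext ζ : 1
      simp only [hg, ContinuousMap.add_apply, ContinuousMap.smul_apply, ContinuousMap.sub_apply,
        ContinuousMap.coe_mk, zero_smul, one_smul]
      ext1
      · simp only [psi, Prod.fst_add, Prod.smul_fst, Prod.fst_sub, smul_zero, add_zero]
        rw [add_sub_cancel_left, smul_comm]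
      · simp only [Prod.snd_add, Prod.smul_snd, Prod.snd_sub]
        ext1 y
        simp only [add_apply, smul_apply, sub_apply, ContinuousLinearMap.smulRight_apply,
          ContinuousLinearMap.id_apply, smul_zero, add_zero, add_sub_cancel_left]
        rw [smul_comm]
    rw [h3]
    exact affine_an (g 0) (g 1 - g 0) s
  refine ⟨fun s => N (g s), ?_⟩
  intro s hs1 hs2
  have hpt : ∀ ζ : closedBall (0 : E) R, AnalyticAt ℝ (cf Φ) (g s ζ) := by
    intro ζ
    apply cf_an h1 h2 _ (flow_inv hC hs1 ζ)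
    apply hb
    rw [mem_closedBall_zero_iff]
    have hζR : ‖(ζ : E)‖ ≤ R := mem_closedBall_zero_iff.1 ζ.2
    calc ‖psi η (s • w) ζ‖ ≤ ‖(ζ : E)‖ + ‖η ζ • (s • w)‖ := norm_add_le _ _
      _ ≤ R + 1 * R := by
          apply add_le_add hζR
          rw [norm_smul]
          exact mul_le_mul (hη1 ζ) hs2 (norm_nonneg _) zero_le_one
      _ = 2 * R := by ring
  obtain ⟨h3, h4⟩ := hN (g s) hpt
  refine ⟨?_, fun ζ => ?_⟩
  · exact (AnalyticAt.comp (f := g) h3 (hgan s)).contDiffAt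
  · rw [h4]
    rfl

end Pool.Agent.Run7.h982
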