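import Pool.Agent.Run7.h982.J3

/-!
# Insulating cracks: the moved solutions depend analytically on the parameter
-/

set_option autoImplicit false

open MeasureTheory Set Filter Topology Metric
open scoped ContDiff ENNReal NNReal InnerProductSpace

namespace Pool.Agent.Run7.h982

/-- cutoffs for flows -/
structure Cut (R : ℝ) (η : E → ℝ) (C : ℝ) : Prop where
  sm : ContDiff ℝ ∞ η
  cs : HasCompactSupport η
  su : tsupport η ⊆ ball (0 : E) R
  le : ∀ ζ, |η ζ| ≤ 1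
  bd : ∀ ζ, ‖fderiv ℝ η ζ‖ ≤ C

variable {Ω S : Set E} {u : E → ℝ} {Φ : OpenPartialHomeomorph E E} {R : ℝ}

theorem Loc.moved (h : Loc Ω S u Φ R) {η : E → ℝ} {C : ℝ} (hη : Cut R η C) {w : E}
    (hw : C * ‖w‖ ≤ 1 / 2) (hwR : ‖w‖ ≤ R) (hw2 : w 2 = 0) :
    LSol R (fun ζ => cof (mder Φ η w ζ)) (fun ζ => u (Φ (psi η w ζ))) ∧
    (∃ c : ℝ, 0 < c ∧ ∀ ζ ∈ HB R, ∀ x : E, c * ‖x‖ ^ 2 ≤ ⟪cof (mder Φ η w ζ) x, x⟫_ℝ) ∧
    LTest R (fun ζ => u (Φ (psi η w ζ)) - u (Φ ζ)) ∧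
    ∀ ζ ∈ HB R, gradient (fun ζ => u (Φ (psi η w ζ)) - u (Φ ζ)) ζ =
      gradient (fun ζ => u (Φ (psi η w ζ))) ζ - gradient (fun ζ => u (Φ ζ)) ζ := by
  obtain ⟨Θ, k0, k1, k2, k3, k4, k5⟩ :=
    flow_chart h.h1 h.h2 h.hSS h.hb hη.sm hη.bd hη.le hw hwR hw2
  have hΘf : (Θ : E → E) = fun ζ => Φ (psi η w ζ) := funext k0
  have oH := HB_open R
  have hsolw : LSol R (fun ζ => cof (fderiv ℝ Θ ζ)) (fun ζ => u (Θ ζ)) := by
    apply cv k1 k2 k3 h.hΩ h.hS h.hu k4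
    rintro _ ⟨ζ, hζ, rfl⟩
    exact h.hT (k5 (Θ.map_source (k3 (ball_subset_closedBall hζ))))
  have hvwΘ : (fun ζ => u (Θ ζ)) = fun ζ => u (Φ (psi η w ζ)) := by
    rw [hΘf]
  rw [hvwΘ] at hsolw
  have hmd : ∀ ζ ∈ HB R, fderiv ℝ Θ ζ = mder Φ η w ζ := by
    intro ζ hζ
    rw [hΘf, mder_eq h.h1 hη.sm]
    apply h.hb
    rw [mem_closedBall_zero_iff]
    have hζR : ‖ζ‖ < R := by simpa using hζ.1
    calc ‖psi η w ζ‖ ≤ ‖ζ‖ + ‖η ζ • w‖ := norm_add_le _ _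
      _ ≤ R + 1 * R := by
          apply add_le_add hζR.le
          rw [norm_smul]
          exact mul_le_mul (hη.le ζ) hwR (norm_nonneg _) zero_le_one
      _ = 2 * R := by ring
  have hsol := h.sol
  have hgD : ∀ ζ ∈ HB R, gradient (fun ζ => u (Φ (psi η w ζ)) - u (Φ ζ)) ζ =
      gradient (fun ζ => u (Φ (psi η w ζ))) ζ - gradient (fun ζ => u (Φ ζ)) ζ := by
    intro ζ hζ
    have d1 : DifferentiableAt ℝ (fun ζ => u (Φ (psi η w ζ))) ζ :=
      (hsolw.smooth.contDiffAt (oH.mem_nhds hζ)).differentiableAt (by simp)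
    have d2 : DifferentiableAt ℝ (fun ζ => u (Φ ζ)) ζ :=
      (hsol.smooth.contDiffAt (oH.mem_nhds hζ)).differentiableAt (by simp)
    unfold gradient
    rw [fderiv_fun_sub d1 d2, map_sub]
  refine ⟨⟨hsolw.smooth, hsolw.mem, hsolw.memG, fun φ hφ => ?_⟩, ?_, ?_, hgD⟩
  · rw [← hsolw.weak φ hφ]
    apply setIntegral_congr_fun oH.measurableSet
    intro ζ hζ
    simp only
    rw [hmd ζ hζ]
  · obtain ⟨c, Λ, hc, hΛ, hbd⟩ := chart_bounds k1 k2 k3
    refine ⟨c / Λ ^ 2, by positivity, fun ζ hζ x => ?_⟩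
    have hζc := ball_subset_closedBall hζ.1
    rw [← hmd ζ hζ]
    exact cof_coercive (chart_inv k1 k2 (k3 hζc)).1 (hbd ζ hζc).1 hc (hbd ζ hζc).2.2.1 hΛ _
  · refine ⟨(hsolw.smooth.sub hsol.smooth).of_le (by simp), ⟨tsupport η, hη.cs, hη.su, ?_⟩,
      hsolw.mem.sub hsol.mem, ?_⟩
    · intro ζ hζ
      have : psi η w ζ = ζ := by
        simp [psi, image_eq_zero_of_notMem_tsupport hζ]
      simp only [this, sub_self]
    · apply (hsolw.memG.sub hsol.memG).ae_eq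
      filter_upwards [ae_restrict_mem oH.measurableSet] with ζ hζ
      rw [hgD ζ hζ, Pi.sub_apply]

/-- the gradient of the moved solution as an element of the Hilbert space -/
noncomputable def Gf (Φ : E → E) (u : E → ℝ) (η : E → ℝ) (R : ℝ) (w : E) (s : ℝ) :
    Lp E 2 (volume.restrict (HB R)) :=
  open Classical in if h : MemLp (gradient (fun ζ => u (Φ (psi η (s • w) ζ)))) 2
    (volume.restrict (HB R)) then h.toLp else 0

theorem Gf_coe {Φ : E → E} {u : E → ℝ} {η : E → ℝ} {R : ℝ} {w : E} {s : ℝ}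
    (h : MemLp (gradient (fun ζ => u (Φ (psi η (s • w) ζ)))) 2 (volume.restrict (HB R))) :
    (Gf Φ u η R w s : E → E) =ᵐ[volume.restrict (HB R)]
      gradient (fun ζ => u (Φ (psi η (s • w) ζ))) := by
  unfold Gf
  rw [dif_pos h]
  exact h.coeFn_toLp

/-- gradients of test functions -/
noncomputable def VT (R : ℝ) : Submodule ℝ (Lp E 2 (volume.restrict (HB R))) :=
  (Submodule.span ℝ {f : Lp E 2 (volume.restrict (HB R)) | ∃ φ, LTest R φ ∧
    (f : E → E) =ᵐ[volume.restrict (HB R)] gradient φ}).topologicalClosure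

theorem Loc.flow_an (h : Loc Ω S u Φ R) (ha1 : ContDiffOn ℝ ω Φ Φ.source)
    (ha2 : ContDiffOn ℝ ω Φ.symm Φ.target) {η : E → ℝ} {C : ℝ} (hη : Cut R η C) {w : E}
    (hw2 : w 2 = 0) {s₀ : ℝ} (hs : C * ‖s₀ • w‖ < 1 / 2) (hsR : ‖s₀ • w‖ < R) :
    AnalyticAt ℝ (Gf Φ u η R w) s₀ := by
  have hcK : CompactSpace (closedBall (0 : E) R) :=
    isCompact_iff_compactSpace.1 (isCompact_closedBall (0 : E) R)
  have hK : IsClosed (closedBall (0 : E) R) := isClosed_closedBall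
  have oH := HB_open R
  set μ := volume.restrict (HB R) with hμ
  obtain ⟨a, ha⟩ := coef_an ha1 ha2 h.hb hη.sm hη.bd hη.le (w := w)
  have hHK : ∀ ζ ∈ HB R, ζ ∈ closedBall (0 : E) R := fun ζ hζ => ball_subset_closedBall hζ.1
  -- the coefficient
  have hext : ∀ s : ℝ, C * ‖s • w‖ ≤ 1 / 2 → ‖s • w‖ ≤ R → ∀ f : Lp E 2 μ,
      (mulOp hK μ (a s) f : E → E) =ᵐ[μ] fun ζ => cof (mder Φ η (s • w) ζ) (f ζ) := by
    intro s h1 h2 f
    filter_upwards [mulOp_coe hK μ (a s) f, ae_restrict_mem oH.measurableSet] with ζ h3 h4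
    rw [h3, extM_of (a s) (hHK ζ h4), (ha s h1 h2).2]
  have hopen : ∀ᶠ s : ℝ in 𝓝 s₀, C * ‖s • w‖ < 1 / 2 ∧ ‖s • w‖ < R := by
    have c1 : Continuous (fun s : ℝ => C * ‖s • w‖) := by fun_prop
    have c2 : Continuous (fun s : ℝ => ‖s • w‖) := by fun_prop
    exact (c1.continuousAt.eventually (gt_mem_nhds hs)).and
      (c2.continuousAt.eventually (gt_mem_nhds hsR))
  obtain ⟨-, ⟨c, hc, hco⟩, -, -⟩ := h.moved hη hs.le hsR.le (by simp [hw2])
  apply solve_analytic (VT R) (Submodule.isClosed_topologicalClosure _)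
    (fun s => mulOp hK μ (a s)) (mulOp_an hK μ (ha s₀ hs.le hsR.le).1) hc ?_
    (Gf Φ u η R w) (Gf Φ u η R w 0) ?_
  · intro z _
    have e1 : ‖z‖ ^ 2 = ∫ ζ, ⟪z ζ, z ζ⟫_ℝ ∂μ := by
      rw [← real_inner_self_eq_norm_sq, L2.inner_def]
    rw [L2.inner_def, e1, ← integral_const_mul]
    apply integral_mono_ae
    · exact (int_inner (Lp.memLp z) (Lp.memLp z)).const_mul c
    · exact int_inner (Lp.memLp _) (Lp.memLp z)
    · filter_upwards [hext s₀ hs.le hsR.le z, ae_restrict_mem oH.measurableSet] with ζ h3 h4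
      rw [h3, real_inner_self_eq_norm_sq]
      exact hco ζ h4 (z ζ)
  · filter_upwards [hopen] with s hs'
    obtain ⟨hs1, hs2⟩ := hs'
    obtain ⟨m1, -, m3, m4⟩ := h.moved hη hs1.le hs2.le (by simp [hw2])
    have hC0 : 0 ≤ C := (norm_nonneg _).trans (hη.bd 0)
    have hz1 : C * ‖(0 : ℝ) • w‖ ≤ 1 / 2 := by simp
    have hz2 : ‖(0 : ℝ) • w‖ ≤ R := by simp [h.hR.le]
    obtain ⟨z1, -, -, -⟩ := h.moved hη hz1 hz2 (by simp)
    have hpsi0 : (fun ζ => u (Φ (psi η ((0 : ℝ) • w) ζ))) = fun ζ => u (Φ ζ) := by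
      funext ζ
      simp [psi]
    constructor
    · apply Submodule.le_topologicalClosure
      apply Submodule.subset_span
      refine ⟨_, m3, ?_⟩
      filter_upwards [Lp.coeFn_sub (Gf Φ u η R w s) (Gf Φ u η R w 0), Gf_coe m1.memG,
        Gf_coe z1.memG, ae_restrict_mem oH.measurableSet] with ζ h3 h4 h5 h6
      rw [h3, Pi.sub_apply, h4, h5, m4 ζ h6, hpsi0]
    · set ℓ : Lp E 2 μ →L[ℝ] ℝ := innerSL ℝ (mulOp hK μ (a s) (Gf Φ u η R w s)) with hℓ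
      have hsub : VT R ≤ LinearMap.ker (ℓ : Lp E 2 μ →ₗ[ℝ] ℝ) := by
        apply Submodule.topologicalClosure_minimal
        · rw [Submodule.span_le]
          rintro f ⟨φ, hφ, hf⟩
          rw [SetLike.mem_coe, LinearMap.mem_ker]
          show ⟪mulOp hK μ (a s) (Gf Φ u η R w s), f⟫_ℝ = 0
          rw [L2.inner_def, ← m1.weak φ hφ]
          apply integral_congr_ae
          filter_upwards [hext s hs1.le hs2.le (Gf Φ u η R w s), hf, Gf_coe m1.memG]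
            with ζ h3 h4 h5
          rw [h3, h4, h5]
        · exact ℓ.isClosed_ker
      intro φ hφ
      exact hsub hφ

end Pool.Agent.Run7.h982
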