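import Pool.Agent.Run7.h982.Encl2

/-!
# Insulating cracks: the Neumann condition at points where the potential is smooth on one side
-/

set_option autoImplicit false

open MeasureTheory Set Filter Topology Metric
open scoped ContDiff ENNReal NNReal InnerProductSpace

namespace Pool.Agent.Run7.h982

theorem isTest_mul {U : Set E} (hU : IsOpen U) {g : E → ℝ} (hg : ContDiffOn ℝ ∞ g U)
    {χ : E → ℝ} (hχ : IsTest U χ) : IsTest U (fun x => χ x * g x) := by
  have hs : tsupport (fun x => χ x * g x) ⊆ tsupport χ := by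
    apply closure_mono
    intro x hx h
    apply hx
    simp [h]
  refine ⟨?_, hχ.2.1.mul_right, hs.trans hχ.2.2⟩
  rw [contDiff_iff_contDiffAt]
  intro x
  by_cases hx : x ∈ U
  · exact hχ.1.contDiffAt.mul (hg.contDiffAt (hU.mem_nhds hx))
  · have hx2 : x ∉ tsupport (fun x => χ x * g x) := fun h => hx (hχ.2.2 (hs h))
    have : (fun x => χ x * g x) =ᶠ[𝓝 x] fun _ => 0 := by
      filter_upwards [(isClosed_tsupport _).isOpen_compl.mem_nhds hx2] with y hy
      exact image_eq_zero_of_notMem_tsupport (f := fun x => χ x * g x) hy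
    exact contDiffAt_const.congr_of_eventuallyEq this

theorem glue_deriv_nonpos {s : ℝ} (hs : s ≤ 0) : deriv expNegInvGlue s = 0 := by
  apply IsLocalMin.deriv_eq_zero
  refine Eventually.of_forall (fun t => ?_)
  rw [expNegInvGlue.zero_of_nonpos hs]
  exact expNegInvGlue.nonneg t

theorem glue_deriv_pos {s : ℝ} (hs : 0 < s) : 0 < deriv expNegInvGlue s := by
  have h1 : expNegInvGlue =ᶠ[𝓝 s] fun t => Real.exp (-t⁻¹) := by
    filter_upwards [lt_mem_nhds hs] with t ht
    simp [expNegInvGlue, not_le.2 ht]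
  rw [h1.deriv_eq]
  have h2 : HasDerivAt (fun t : ℝ => Real.exp (-t⁻¹)) (Real.exp (-s⁻¹) * (-(-(s ^ 2)⁻¹))) s :=
    (hasDerivAt_inv hs.ne').fun_neg.exp
  rw [h2.deriv, neg_neg]
  have := Real.exp_pos (-s⁻¹)
  positivity

theorem glue_deriv_nonneg (s : ℝ) : 0 ≤ deriv expNegInvGlue s := by
  rcases le_or_gt s 0 with h | h
  · exact (glue_deriv_nonpos h).ge
  · exact (glue_deriv_pos h).le

/-- **The Neumann condition holds pointwise.** -/
theorem neumann_pt {Ω S : Set E} {v : E → ℝ} (hΩ : IsOpen Ω) (hS : IsCompact S)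
    (hv : Sol Ω S v) {Φ : OpenPartialHomeomorph E E}
    (h2 : ContDiffOn ℝ ∞ Φ.symm Φ.target) (hSS : ∀ ζ ∈ Φ.source, Φ ζ ∈ S ↔ ζ 2 = 0)
    (hT : Φ.target ⊆ Ω) {w : E → ℝ} (hw : ContDiffOn ℝ 1 w Φ.target)
    (hvw : ∀ x ∈ Φ.target \ S, v x = w x) {y : E} (hy : y ∈ Φ.target) (hyS : y ∈ S) :
    fderiv ℝ (fun z => Φ.symm z 2) y (gradient w y) = 0 := by
  by_contra hc
  set t : E → ℝ := fun z => Φ.symm z 2 with ht
  have htc : ContDiffOn ℝ ∞ t Φ.target := (coord_smooth 2).comp_contDiffOn h2
  have htc1 : ContDiffOn ℝ 1 t Φ.target := htc.of_le (by simp)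
  set F : E → ℝ := fun x => fderiv ℝ t x (gradient w x) + 2 * ⟪x - y, gradient w x⟫_ℝ with hF
  have hwg : ContinuousOn (gradient w) Φ.target := grad_contOn Φ.open_target hw
  have hFc : ContinuousOn F Φ.target := by
    apply ContinuousOn.add
    · exact (htc1.continuousOn_fderiv_of_isOpen Φ.open_target le_rfl).clm_apply hwg
    · exact continuousOn_const.mul ((continuousOn_id.sub continuousOn_const).inner hwg)
  have hFy : F y = fderiv ℝ t y (gradient w y) := by simp [hF]
  set c : ℝ := F y with hcdef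
  have hc0 : c ≠ 0 := by rw [hFy]; exact hc
  -- local picture
  set ζ := Φ.symm y with hζ
  have hζs : ζ ∈ Φ.source := Φ.map_target hy
  have hζy : Φ ζ = y := Φ.right_inv hy
  have hζ2 : ζ 2 = 0 := (hSS ζ hζs).1 (by rw [hζy]; exact hyS)
  obtain ⟨ρ, hρ, hρb⟩ := Metric.isOpen_iff.1 Φ.open_source ζ hζs
  obtain ⟨a1, a2, a3, a4, a5, a6, a7, a8, a9⟩ := chart_local hρ hζ2 hρb
    (fun ξ hξ => hSS ξ (hρb hξ))
  set U := Φ '' ball ζ ρ with hU
  set P := Φ '' (ball ζ ρ ∩ {ζ : E | 0 < ζ 2}) with hP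
  set Q := Φ '' (ball ζ ρ ∩ {ζ : E | ζ 2 < 0}) with hQ
  have hyU : y ∈ U := ⟨ζ, mem_ball_self hρ, hζy⟩
  have hUT : U ⊆ Φ.target := by
    rintro _ ⟨ξ, hξ, rfl⟩
    exact Φ.map_source (hρb hξ)
  have hPU : P ⊆ U := image_mono inter_subset_left
  have hPt : ∀ x ∈ P, 0 < t x := by
    rintro _ ⟨ξ, hξ, rfl⟩
    simp only [ht, Φ.left_inv (hρb hξ.1)]
    exact hξ.2
  have hPS : ∀ x ∈ P, x ∉ S := by
    intro x hx
    have : x ∈ U \ S := by rw [a7]; exact Or.inl hx
    exact this.2
  -- radius
  have hnb : ∀ᶠ x in 𝓝 y, x ∈ U ∧ |F x - c| < |c| / 2 := by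
    have := (hFc.continuousAt (Φ.open_target.mem_nhds hy)).eventually
      (Metric.ball_mem_nhds (F y) (half_pos (abs_pos.2 hc0)))
    filter_upwards [a1.mem_nhds hyU, this] with x hxU hx
    exact ⟨hxU, by simpa [Real.dist_eq] using hx⟩
  obtain ⟨R', hR', hRb⟩ := Metric.eventually_nhds_iff_ball.1 hnb
  set R := R' / 2 with hR
  have hR0 : 0 < R := by positivity
  have hRc : ∀ x ∈ closedBall y R, x ∈ U ∧ |F x - c| < |c| / 2 := fun x hx =>
    hRb x (closedBall_subset_ball (by rw [hR]; linarith) hx)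
  have hsign : ∀ x ∈ closedBall y R, 0 < c * F x := by
    intro x hx
    have h3 := (hRc x hx).2
    rw [abs_lt] at h3
    rcases lt_or_gt_of_ne hc0 with h | h
    · rw [abs_of_neg h] at h3
      exact mul_pos_of_neg_of_neg h (by linarith)
    · rw [abs_of_pos h] at h3
      exact mul_pos h (by linarith)
  set s : E → ℝ := fun x => R ^ 2 - t x - ‖x - y‖ ^ 2 with hs
  set g : E → ℝ := fun x => expNegInvGlue (s x) with hg
  have hsc : ContDiffOn ℝ ∞ s Φ.target := by
    apply ContDiffOn.sub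
    · exact contDiffOn_const.sub htc
    · exact ((contDiff_id.sub contDiff_const).norm_sq ℝ).contDiffOn
  have hgc : ContDiffOn ℝ ∞ g Φ.target := expNegInvGlue.contDiff.comp_contDiffOn hsc
  obtain ⟨χ, c1, c2, c3, c4, W₀, c5, c6, c7⟩ := cutoff (isCompact_closedBall y R) a1
    (fun x hx => (hRc x hx).1)
  have hφt : IsTest U (fun x => χ x * g x) :=
    isTest_mul a1 (hgc.mono hUT) ⟨c1, c2, c3⟩
  have hPχ : ∀ x ∈ P, χ x * g x = g x := by
    intro x hx
    by_cases h3 : x ∈ closedBall y R
    · rw [c7 x (c6 h3), one_mul]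
    · have h4 : g x = 0 := by
        apply expNegInvGlue.zero_of_nonpos
        have h5 := hPt x hx
        rw [mem_closedBall, not_le, dist_eq_norm] at h3
        simp only [hs]
        nlinarith
      rw [h4, mul_zero]
  obtain ⟨g1, g2⟩ := gtest_side a1 (hUT.trans hT) a2 a3 a4 a7 hS.isClosed hΩ hφt
  have e0 := hv.weak _ g1
  -- the integrand on P
  have hval : ∀ x ∈ P, ⟪gradient v x, gradient (P.indicator fun x => χ x * g x) x⟫_ℝ =
      - (deriv expNegInvGlue (s x) * F x) := by
    intro x hx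
    have hxT : x ∈ Φ.target := hUT (hPU hx)
    have e1 : v =ᶠ[𝓝 x] w := by
      filter_upwards [a2.mem_nhds hx] with z hz
      exact hvw z ⟨hUT (hPU hz), hPS z hz⟩
    have e2 : (fun x => χ x * g x) =ᶠ[𝓝 x] g := by
      filter_upwards [a2.mem_nhds hx] with z hz
      exact hPχ z hz
    rw [g2 x (hPS x hx), indicator_of_mem hx, e1.gradient_eq, e2.gradient_eq, inner_grad']
    have d1 : HasFDerivAt t (fderiv ℝ t x) x :=
      ((htc1.contDiffAt (Φ.open_target.mem_nhds hxT)).differentiableAt one_ne_zero).hasFDerivAt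
    have d2 : HasFDerivAt (fun x => ‖x - y‖ ^ 2) (2 • (innerSL ℝ (x - y)).comp
        (ContinuousLinearMap.id ℝ E)) x := ((hasFDerivAt_id x).sub_const y).norm_sq
    have d3 : HasFDerivAt s (0 - fderiv ℝ t x - 2 • (innerSL ℝ (x - y)).comp
        (ContinuousLinearMap.id ℝ E)) x :=
      ((hasFDerivAt_const (R ^ 2) x).fun_sub d1).fun_sub d2
    have d4 : HasDerivAt expNegInvGlue (deriv expNegInvGlue (s x)) (s x) :=
      ((expNegInvGlue.contDiff (n := 1)).differentiable one_ne_zero _).hasDerivAt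
    have d5 : HasFDerivAt g (deriv expNegInvGlue (s x) • (0 - fderiv ℝ t x -
        2 • (innerSL ℝ (x - y)).comp (ContinuousLinearMap.id ℝ E))) x :=
      d4.comp_hasFDerivAt x d3
    rw [d5.fderiv]
    have e5 : (deriv expNegInvGlue (s x) • (0 - fderiv ℝ t x -
        2 • (innerSL ℝ (x - y)).comp (ContinuousLinearMap.id ℝ E)) : E →L[ℝ] ℝ) (gradient w x) =
        deriv expNegInvGlue (s x) * (0 - fderiv ℝ t x (gradient w x) -
          2 • ⟪x - y, gradient w x⟫_ℝ) := rfl
    rw [e5]
    simp only [hF, nsmul_eq_mul]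
    push_cast
    ring
  have hPm : P ⊆ Ω \ S := fun x hx => ⟨hT (hUT (hPU hx)), hPS x hx⟩
  have e6 : ∫ x in P, - (deriv expNegInvGlue (s x) * F x) = 0 := by
    rw [← e0]
    have e7 : ∫ x in P, - (deriv expNegInvGlue (s x) * F x) =
        ∫ x in P, ⟪gradient v x, gradient (P.indicator fun x => χ x * g x) x⟫_ℝ := by
      apply setIntegral_congr_fun a2.measurableSet
      intro x hx
      exact (hval x hx).symm
    rw [e7]
    apply setInt_congr_null a2.measurableSet (hΩ.sdiff hS.isClosed).measurableSet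
      (N := ∅) measure_empty
    intro x _
    refine ⟨fun h1 h2 => absurd (hPm h1) h2, fun h1 h2 => ?_⟩
    rw [g2 x h1.2, indicator_of_notMem h2]; simp
  have hcontP : ContinuousOn (fun x => deriv expNegInvGlue (s x) * F x) P := by
    apply ContinuousOn.mul
    · exact ((expNegInvGlue.contDiff (n := 1)).continuous_deriv le_rfl).comp_continuousOn
        (hsc.continuousOn.mono (hPU.trans hUT))
    · exact hFc.mono (hPU.trans hUT)
  have hnonneg : ∀ x ∈ P, 0 ≤ c * (deriv expNegInvGlue (s x) * F x) := by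
    intro x hx
    by_cases h3 : x ∈ closedBall y R
    · have := hsign x h3
      have h4 := glue_deriv_nonneg (s x)
      calc 0 ≤ deriv expNegInvGlue (s x) * (c * F x) := mul_nonneg h4 this.le
        _ = _ := by ring
    · have h4 : deriv expNegInvGlue (s x) = 0 := by
        apply glue_deriv_nonpos
        have h5 := hPt x hx
        rw [mem_closedBall, not_le, dist_eq_norm] at h3
        simp only [hs]
        nlinarith
      rw [h4]; simp
  have hintP : IntegrableOn (fun x => c * (deriv expNegInvGlue (s x) * F x)) P := by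
    have h3 : IntegrableOn (fun x => ⟪gradient v x,
        gradient (P.indicator fun x => χ x * g x) x⟫_ℝ) P :=
      IntegrableOn.mono_set (t := Ω \ S) (int_inner hv.memG g1.memG) hPm
    have h4 : IntegrableOn (fun x => - (deriv expNegInvGlue (s x) * F x)) P :=
      h3.congr_fun (fun x hx => hval x hx) a2.measurableSet
    have h5 := h4.neg.const_mul c
    refine h5.congr (Eventually.of_forall fun x => ?_)
    simp
  have hz : ∫ x in P, c * (deriv expNegInvGlue (s x) * F x) = 0 := by
    rw [integral_const_mul]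
    rw [integral_neg, neg_eq_zero] at e6
    rw [e6, mul_zero]
  rw [setIntegral_eq_zero_iff_of_nonneg_ae _ hintP] at hz
  · have h3 : EqOn (fun x => c * (deriv expNegInvGlue (s x) * F x)) 0 P := by
      apply Measure.eqOn_open_of_ae_eq (μ := volume) _ a2 (continuousOn_const.mul hcontP)
        continuousOn_const
      exact hz
    -- a point of P near y
    have h4 : y ∈ closure P := a8 ⟨hyU, hyS⟩
    have hs0 : s y = R ^ 2 := by
      simp only [hs, ht]
      rw [← hζ, hζ2]; simp
    have h5 : ∀ᶠ x in 𝓝 y, 0 < s x := by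
      have := (hsc.continuousOn.continuousAt (Φ.open_target.mem_nhds hy)).eventually
        (lt_mem_nhds (show 0 < s y by rw [hs0]; positivity))
      exact this
    have h6 : ∀ᶠ x in 𝓝 y, x ∈ closedBall y R := closedBall_mem_nhds y hR0
    obtain ⟨x, ⟨hx1, hx2⟩, hx3⟩ := ((h5.and h6).and_frequently
      (mem_closure_iff_frequently.1 h4)).exists
    have h7 := h3 hx3
    simp only [Pi.zero_apply] at h7
    have h8 := hsign x hx2
    have h9 := glue_deriv_pos hx1
    have : c * (deriv expNegInvGlue (s x) * F x) = deriv expNegInvGlue (s x) * (c * F x) := by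
      ring
    rw [this] at h7
    exact (mul_pos h9 h8).ne' h7
  · exact (ae_restrict_mem a2.measurableSet).mono (fun x hx => hnonneg x hx)

end Pool.Agent.Run7.h982
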