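import Pool.Agent.Run7.h982.Flux

/-!
# Insulating cracks: cutoffs near a flat crack
-/

set_option autoImplicit false

open MeasureTheory Set Filter Topology Metric
open scoped ContDiff ENNReal NNReal InnerProductSpace

namespace Pool.Agent.Run7.h982

/-- odd and even step functions -/
noncomputable def stQ (τ : ℝ) : ℝ :=
  Real.smoothTransition (τ - 1) - Real.smoothTransition (-τ - 1)
noncomputable def stP (τ : ℝ) : ℝ :=
  Real.smoothTransition (τ - 1) + Real.smoothTransition (-τ - 1)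

theorem st_smooth {n : ℕ∞} : ContDiff ℝ n Real.smoothTransition := Real.smoothTransition.contDiff

theorem stQ_smooth : ContDiff ℝ ∞ stQ :=
  (st_smooth.comp (contDiff_id.sub contDiff_const)).sub
    (st_smooth.comp (contDiff_id.neg.sub contDiff_const))

theorem stP_smooth : ContDiff ℝ ∞ stP :=
  (st_smooth.comp (contDiff_id.sub contDiff_const)).add
    (st_smooth.comp (contDiff_id.neg.sub contDiff_const))

theorem st_hasDeriv (τ : ℝ) :
    HasDerivAt Real.smoothTransition (deriv Real.smoothTransition τ) τ :=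
  (((st_smooth (n := 1)).differentiable (by simp)) τ).hasDerivAt

theorem st_deriv_nonneg (τ : ℝ) : 0 ≤ deriv Real.smoothTransition τ :=
  Real.smoothTransition.monotone.deriv_nonneg

theorem stQ_deriv (τ : ℝ) : deriv stQ τ = deriv Real.smoothTransition (τ - 1) +
    deriv Real.smoothTransition (-τ - 1) := by
  have k1 : HasDerivAt (fun τ : ℝ => τ - 1) 1 τ := (hasDerivAt_id' τ).sub_const 1
  have k2 : HasDerivAt (fun τ : ℝ => -τ - 1) (-1) τ := (hasDerivAt_id' τ).fun_neg.sub_const 1
  have h1 : HasDerivAt (fun τ : ℝ => Real.smoothTransition (τ - 1))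
      (deriv Real.smoothTransition (τ - 1) * 1) τ :=
    HasDerivAt.comp (h₂ := Real.smoothTransition) (h := fun τ : ℝ => τ - 1) τ
      (st_hasDeriv (τ - 1)) k1
  have h2 : HasDerivAt (fun τ : ℝ => Real.smoothTransition (-τ - 1))
      (deriv Real.smoothTransition (-τ - 1) * (-1)) τ :=
    HasDerivAt.comp (h₂ := Real.smoothTransition) (h := fun τ : ℝ => -τ - 1) τ
      (st_hasDeriv (-τ - 1)) k2
  have h3 : HasDerivAt stQ _ τ := h1.fun_sub h2
  rw [h3.deriv]; ring

theorem stP_deriv (τ : ℝ) : deriv stP τ = deriv Real.smoothTransition (τ - 1) -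
    deriv Real.smoothTransition (-τ - 1) := by
  have k1 : HasDerivAt (fun τ : ℝ => τ - 1) 1 τ := (hasDerivAt_id' τ).sub_const 1
  have k2 : HasDerivAt (fun τ : ℝ => -τ - 1) (-1) τ := (hasDerivAt_id' τ).fun_neg.sub_const 1
  have h1 : HasDerivAt (fun τ : ℝ => Real.smoothTransition (τ - 1))
      (deriv Real.smoothTransition (τ - 1) * 1) τ :=
    HasDerivAt.comp (h₂ := Real.smoothTransition) (h := fun τ : ℝ => τ - 1) τ
      (st_hasDeriv (τ - 1)) k1
  have h2 : HasDerivAt (fun τ : ℝ => Real.smoothTransition (-τ - 1))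
      (deriv Real.smoothTransition (-τ - 1) * (-1)) τ :=
    HasDerivAt.comp (h₂ := Real.smoothTransition) (h := fun τ : ℝ => -τ - 1) τ
      (st_hasDeriv (-τ - 1)) k2
  have h3 : HasDerivAt stP _ τ := h1.fun_add h2
  rw [h3.deriv]; ring

theorem stQ_deriv_nonneg (τ : ℝ) : 0 ≤ deriv stQ τ := by
  rw [stQ_deriv]
  exact add_nonneg (st_deriv_nonneg _) (st_deriv_nonneg _)

theorem stP_deriv_le (τ : ℝ) : |deriv stP τ| ≤ deriv stQ τ := by
  rw [stQ_deriv, stP_deriv, abs_le]
  have h1 := st_deriv_nonneg (τ - 1)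
  have h2 := st_deriv_nonneg (-τ - 1)
  constructor <;> linarith

theorem stP_near {τ : ℝ} (h : |τ| ≤ 1) : stP τ = 0 := by
  rw [abs_le] at h
  simp only [stP]
  rw [Real.smoothTransition.zero_of_nonpos (by linarith),
    Real.smoothTransition.zero_of_nonpos (by linarith), add_zero]

theorem stP_far {τ : ℝ} (h : 2 ≤ |τ|) : stP τ = 1 := by
  simp only [stP]
  rcases le_abs.1 h with h | h
  · rw [Real.smoothTransition.one_of_one_le (by linarith),
      Real.smoothTransition.zero_of_nonpos (by linarith), add_zero]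
  · rw [Real.smoothTransition.zero_of_nonpos (by linarith),
      Real.smoothTransition.one_of_one_le (by linarith), zero_add]

theorem stQ_far {τ : ℝ} (h : 2 ≤ |τ|) : stQ τ = if 0 < τ then 1 else -1 := by
  simp only [stQ]
  rcases le_abs.1 h with h | h
  · rw [Real.smoothTransition.one_of_one_le (by linarith),
      Real.smoothTransition.zero_of_nonpos (by linarith), sub_zero, if_pos (by linarith)]
  · rw [Real.smoothTransition.zero_of_nonpos (by linarith),
      Real.smoothTransition.one_of_one_le (by linarith), zero_sub, if_neg (by linarith)]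

theorem stP_mem (τ : ℝ) : 0 ≤ stP τ ∧ stP τ ≤ 1 := by
  constructor
  · exact add_nonneg (Real.smoothTransition.nonneg _) (Real.smoothTransition.nonneg _)
  · rcases le_or_gt 0 τ with h | h
    · simp only [stP]
      rw [Real.smoothTransition.zero_of_nonpos (x := -τ - 1) (by linarith), add_zero]
      exact Real.smoothTransition.le_one _
    · simp only [stP]
      rw [Real.smoothTransition.zero_of_nonpos (x := τ - 1) (by linarith), zero_add]
      exact Real.smoothTransition.le_one _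

theorem stQ_abs (τ : ℝ) : |stQ τ| ≤ 1 := by
  rw [abs_le]
  have h1 := Real.smoothTransition.nonneg (τ - 1)
  have h2 := Real.smoothTransition.le_one (τ - 1)
  have h3 := Real.smoothTransition.nonneg (-τ - 1)
  have h4 := Real.smoothTransition.le_one (-τ - 1)
  simp only [stQ]
  constructor <;> linarith

theorem arctan_le_self {y : ℝ} (hy : 0 ≤ y) : Real.arctan y ≤ y := by
  have := Real.le_tan (Real.arctan_nonneg.2 hy) (Real.arctan_lt_pi_div_two y)
  rwa [Real.tan_arctan] at this

theorem arctan_est {δ : ℝ} (hδ : 0 < δ) (x : ℝ) :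
    Real.pi / 2 * |x| ≤ x * Real.arctan (x / δ) + δ := by
  have key : ∀ y : ℝ, 0 < y → Real.pi / 2 * y ≤ y * Real.arctan (y / δ) + δ := by
    intro y hy
    have h1 : Real.arctan (y / δ)⁻¹ = Real.pi / 2 - Real.arctan (y / δ) :=
      Real.arctan_inv_of_pos (by positivity)
    have h2 := arctan_le_self (y := (y / δ)⁻¹) (by positivity)
    rw [h1, inv_div] at h2
    have h3 : y * (Real.pi / 2 - Real.arctan (y / δ)) ≤ y * (δ / y) :=
      mul_le_mul_of_nonneg_left h2 hy.le
    have h4 : y * (δ / y) = δ := by field_simp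
    rw [h4] at h3
    linarith
  rcases lt_trichotomy x 0 with h | h | h
  · have := key (-x) (by linarith)
    rw [abs_of_neg h]
    rw [neg_div, Real.arctan_neg] at this
    linarith
  · subst h; simp; exact hδ.le
  · rw [abs_of_pos h]; exact key x h

/-- the sign of the third coordinate -/
noncomputable def sg (ζ : E) : ℝ := if 0 < ζ 2 then 1 else -1

theorem sg_abs (ζ : E) : |sg ζ| = 1 := by
  unfold sg; split_ifs <;> simp

theorem sg_loc {ζ : E} (h : ζ 2 ≠ 0) : sg =ᶠ[𝓝 ζ] fun _ => sg ζ := by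
  rcases lt_or_gt_of_ne h with h | h
  · filter_upwards [isOpen_neg.mem_nhds (show ζ ∈ {ζ : E | ζ 2 < 0} from h)] with z hz
    have h1 : ¬ 0 < ζ 2 := not_lt.2 h.le
    have h2 : ¬ 0 < z 2 := not_lt.2 (le_of_lt hz)
    simp [sg, h1, h2]
  · filter_upwards [isOpen_pos.mem_nhds (show ζ ∈ {ζ : E | 0 < ζ 2} from h)] with z hz
    have h2 : 0 < z 2 := hz
    simp [sg, h, h2]

theorem third_deriv (f : ℝ → ℝ) (hf : ContDiff ℝ ∞ f) (ε : ℝ) (ζ : E) :
    HasFDerivAt (fun ζ : E => f (ζ 2 / ε))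
      ((deriv f (ζ 2 / ε) / ε) • (EuclideanSpace.proj (𝕜 := ℝ) (2 : Fin 3))) ζ := by
  have h1 : HasFDerivAt (fun ζ : E => ζ 2 / ε)
      (ε⁻¹ • (EuclideanSpace.proj (𝕜 := ℝ) (2 : Fin 3))) ζ := by
    have := ((EuclideanSpace.proj (𝕜 := ℝ) (2 : Fin 3)).hasFDerivAt (x := ζ)).const_smul ε⁻¹
    refine this.congr_of_eventuallyEq (Eventually.of_forall (fun z => ?_))
    simp [div_eq_inv_mul]
  have h2 : HasDerivAt f (deriv f (ζ 2 / ε)) (ζ 2 / ε) :=
    (hf.differentiable (by simp) _).hasDerivAt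
  have h3 := h2.comp_hasFDerivAt ζ h1
  rw [smul_smul, ← div_eq_mul_inv] at h3
  exact h3

section

variable {r : ℝ} {b : E → E} (hbs : ContDiffOn ℝ 1 b (HB r))
  (hb2 : MemLp b 2 (volume.restrict (HB r)))
  (hN : MemLp (gradient (fun ζ => b ζ 2)) 2 (volume.restrict (HB r)))
  (hw : ∀ φ, LTest r φ → ∫ ζ in HB r, ⟪b ζ, gradient φ ζ⟫_ℝ = 0)
  {k : E → ℝ} (hk : IsTest (ball (0 : E) r) k) (hk0 : ∀ ζ, 0 ≤ k ζ)

include hbs hb2 hN hw hk hk0

theorem strip_one {δ : ℝ} (hδ : 0 < δ) :
    Tendsto (fun ε : ℝ => ∫ ζ in HB r, k ζ * (b ζ 2 * Real.arctan (b ζ 2 / δ)) *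
      (deriv stQ (ζ 2 / ε) / ε)) (𝓝[>] 0) (𝓝 0) := by
  have oH := HB_open r
  have hk1 : ContDiff ℝ 1 k := hk.1.of_le (by simp)
  have hNs : ContDiffOn ℝ 1 (fun ζ => b ζ 2) (HB r) := (coord_smooth 2).comp_contDiffOn hbs
  set a : E → ℝ := fun ζ => Real.arctan (b ζ 2 / δ) with ha
  set g : E → ℝ := fun ζ => k ζ * a ζ with hg
  have has : ContDiffOn ℝ 1 a (HB r) := (hNs.div_const δ).arctan
  have hgs : ContDiffOn ℝ 1 g (HB r) := hk1.contDiffOn.mul has
  have hab : ∀ ζ, |a ζ| ≤ 2 := by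
    intro ζ
    have h1 := Real.neg_pi_div_two_lt_arctan (b ζ 2 / δ)
    have h2 := Real.arctan_lt_pi_div_two (b ζ 2 / δ)
    have h3 := Real.pi_le_four
    rw [abs_le]
    constructor <;> simp only [ha] <;> linarith
  -- the gradient of g
  have hga : ∀ ζ ∈ HB r, gradient a ζ = (1 / (1 + (b ζ 2 / δ) ^ 2) / δ) •
      gradient (fun ζ => b ζ 2) ζ := by
    intro ζ hζ
    have d1 : HasFDerivAt (fun ζ => b ζ 2) (fderiv ℝ (fun ζ => b ζ 2) ζ) ζ :=
      ((hNs.contDiffAt (oH.mem_nhds hζ)).differentiableAt one_ne_zero).hasFDerivAt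
    have d2 : HasFDerivAt (fun ζ => b ζ 2 / δ) (δ⁻¹ • fderiv ℝ (fun ζ => b ζ 2) ζ) ζ := by
      have := d1.const_smul δ⁻¹
      refine this.congr_of_eventuallyEq (Eventually.of_forall (fun z => ?_))
      simp [div_eq_inv_mul]
    have d3 : HasFDerivAt a _ ζ := d2.arctan
    unfold gradient
    rw [d3.fderiv, smul_smul, map_smul, div_eq_mul_inv (1 / (1 + (b ζ 2 / δ) ^ 2))]
  have hgg : ∀ ζ ∈ HB r, gradient g ζ = a ζ • gradient k ζ + k ζ • gradient a ζ := by
    intro ζ hζ
    have d1 : HasFDerivAt a (fderiv ℝ a ζ) ζ :=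
      ((has.contDiffAt (oH.mem_nhds hζ)).differentiableAt one_ne_zero).hasFDerivAt
    have d2 : HasFDerivAt k (fderiv ℝ k ζ) ζ := (hk1.differentiable one_ne_zero ζ).hasFDerivAt
    have d3 : HasFDerivAt g _ ζ := d2.fun_mul d1
    unfold gradient
    rw [d3.fderiv, map_add, map_smul, map_smul, add_comm]
  obtain ⟨Ck, hCk⟩ := hk.1.continuous.bounded_above_of_compact_support hk.2.1
  have hCk0 : 0 ≤ Ck := (norm_nonneg _).trans (hCk 0)
  have mk : MemLp k 2 (volume.restrict (HB r)) :=
    (hk.1.continuous.memLp_of_hasCompactSupport hk.2.1).restrict _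
  have mgk : MemLp (gradient k) 2 (volume.restrict (HB r)) :=
    (grad_memLp hk1 hk.2.1 2 volume).restrict _
  have mgg : MemLp (gradient g) 2 (volume.restrict (HB r)) := by
    have m1 : MemLp (fun ζ => 2 * ‖gradient k ζ‖ + Ck * (1 / δ) *
        ‖gradient (fun ζ => b ζ 2) ζ‖) 2 (volume.restrict (HB r)) :=
      (mgk.norm.const_mul 2).add (hN.norm.const_mul _)
    apply MemLp.of_le m1 ((grad_contOn oH hgs).aestronglyMeasurable oH.measurableSet)
    filter_upwards [ae_restrict_mem oH.measurableSet] with ζ hζ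
    rw [hgg ζ hζ, hga ζ hζ]
    refine (norm_add_le _ _).trans ?_
    rw [Real.norm_of_nonneg (by positivity)]
    apply add_le_add
    · rw [norm_smul, Real.norm_eq_abs]
      exact mul_le_mul_of_nonneg_right (hab ζ) (norm_nonneg _)
    · rw [norm_smul, norm_smul, ← mul_assoc]
      apply mul_le_mul_of_nonneg_right _ (norm_nonneg _)
      apply mul_le_mul (hCk ζ) _ (norm_nonneg _) hCk0
      rw [Real.norm_of_nonneg (by positivity)]
      apply div_le_div_of_nonneg_right _ hδ.le
      rw [div_le_one (by positivity)]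
      nlinarith [sq_nonneg (b ζ 2 / δ)]
  have hkz : ∀ ζ ∉ tsupport k, k ζ = 0 := fun ζ h => image_eq_zero_of_notMem_tsupport h
  -- the identity
  have hid : ∀ ε : ℝ, 0 < ε → ∫ ζ in HB r, k ζ * (b ζ 2 * a ζ) * (deriv stQ (ζ 2 / ε) / ε) =
      ∫ ζ in HB r, (sg ζ - stQ (ζ 2 / ε)) * ⟪b ζ, gradient g ζ⟫_ℝ := by
    intro ε hε
    have hqs : ContDiff ℝ 1 (fun ζ : E => stQ (ζ 2 / ε)) :=
      (stQ_smooth.comp ((coord_smooth 2).div_const ε)).of_le (by simp)
    set φ : E → ℝ := fun ζ => g ζ * (sg ζ - stQ (ζ 2 / ε)) with hφ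
    have hsgs : ContDiffOn ℝ 1 (fun ζ : E => sg ζ - stQ (ζ 2 / ε)) (HB r) := by
      intro ζ hζ
      apply ContDiffAt.contDiffWithinAt
      have h1 : ContDiffAt ℝ 1 sg ζ := contDiffAt_const.congr_of_eventuallyEq (sg_loc hζ.2)
      exact h1.sub hqs.contDiffAt
    have hφs : ContDiffOn ℝ 1 φ (HB r) := hgs.mul hsgs
    have hφg : ∀ ζ ∈ HB r, gradient φ ζ = (sg ζ - stQ (ζ 2 / ε)) • gradient g ζ -
        (g ζ * (deriv stQ (ζ 2 / ε) / ε)) • bv 2 := by
      intro ζ hζ
      have d1 : HasFDerivAt g (fderiv ℝ g ζ) ζ :=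
        ((hgs.contDiffAt (oH.mem_nhds hζ)).differentiableAt one_ne_zero).hasFDerivAt
      have d2 : HasFDerivAt sg (0 : E →L[ℝ] ℝ) ζ :=
        (hasFDerivAt_const (sg ζ) ζ).congr_of_eventuallyEq (sg_loc hζ.2)
      have d3 := third_deriv stQ stQ_smooth ε ζ
      have d4 : HasFDerivAt φ _ ζ := d1.fun_mul (d2.fun_sub d3)
      apply ext_inner_right ℝ
      intro y
      rw [inner_grad, d4.fderiv, inner_sub_left, real_inner_smul_left, real_inner_smul_left,
        inner_grad, real_inner_comm, inner_bv]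
      simp
      ring
    have hφ0 : ∀ ζ ∉ tsupport k, φ ζ = 0 := fun ζ hζ => by simp [hφ, hg, hkz ζ hζ]
    have hsb : ∀ ζ, |sg ζ - stQ (ζ 2 / ε)| ≤ 2 := by
      intro ζ
      refine (abs_sub _ _).trans ?_
      rw [sg_abs]
      linarith [stQ_abs (ζ 2 / ε)]
    obtain ⟨M, hM⟩ : ∃ M : ℝ, ∀ ζ : E, ‖k ζ * (deriv stQ (ζ 2 / ε) / ε)‖ ≤ M := by
      have hc : Continuous (fun ζ : E => k ζ * (deriv stQ (ζ 2 / ε) / ε)) := by
        apply hk.1.continuous.mul
        apply Continuous.div_const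
        exact (stQ_smooth.continuous_deriv (by simp)).comp ((coord_cont 2).div_const ε)
      exact hc.bounded_above_of_compact_support hk.2.1.mul_right
    have hT : LTest r φ := by
      refine ⟨hφs, ⟨tsupport k, hk.2.1, hk.2.2, hφ0⟩, ?_, ?_⟩
      · apply MemLp.of_le_mul (c := 4) mk (hφs.continuousOn.aestronglyMeasurable
          oH.measurableSet)
        refine Eventually.of_forall (fun ζ => ?_)
        simp only [hφ, hg, norm_mul, Real.norm_eq_abs]
        have h1 := hab ζ
        have h2 := hsb ζ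
        have h3 := abs_nonneg (k ζ)
        calc |k ζ| * |a ζ| * |sg ζ - stQ (ζ 2 / ε)| ≤ |k ζ| * 2 * 2 := by gcongr
          _ = 4 * |k ζ| := by ring
      · have m1 : MemLp (fun ζ => 2 * ‖gradient g ζ‖ + (tsupport k).indicator
            (fun _ => M * 2) ζ) 2 (volume.restrict (HB r)) := by
          apply (mgg.norm.const_mul 2).add
          apply MemLp.restrict
          have hm := (isClosed_tsupport k).measurableSet
          rw [memLp_indicator_iff_restrict hm]
          have : IsFiniteMeasure (volume.restrict (tsupport k)) :=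
            ⟨by rw [Measure.restrict_apply_univ]; exact hk.2.1.isCompact.measure_lt_top⟩
          exact memLp_const _
        apply MemLp.of_le m1 ((grad_contOn oH hφs).aestronglyMeasurable oH.measurableSet)
        filter_upwards [ae_restrict_mem oH.measurableSet] with ζ hζ
        by_cases hζk : ζ ∈ tsupport k
        · rw [hφg ζ hζ, indicator_of_mem hζk]
          refine (norm_sub_le _ _).trans ?_
          have hM0 : 0 ≤ M := (norm_nonneg _).trans (hM 0)
          rw [Real.norm_of_nonneg (by positivity)]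
          apply add_le_add
          · rw [norm_smul, Real.norm_eq_abs]
            exact mul_le_mul_of_nonneg_right (hsb ζ) (norm_nonneg _)
          · rw [norm_smul]
            have e1 : g ζ * (deriv stQ (ζ 2 / ε) / ε) =
                (k ζ * (deriv stQ (ζ 2 / ε) / ε)) * a ζ := by simp only [hg]; ring
            rw [e1, norm_mul, Real.norm_eq_abs (a ζ)]
            simp only [bv, PiLp.norm_single, norm_one, mul_one]
            exact mul_le_mul (hM ζ) (hab ζ) (abs_nonneg _) hM0
        · have : φ =ᶠ[𝓝 ζ] fun _ => 0 := by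
            filter_upwards [(isClosed_tsupport k).isOpen_compl.mem_nhds hζk] with y hy
            exact hφ0 y hy
          rw [this.gradient_eq, grad_of_fderiv_zero (φ := fun _ : E => (0 : ℝ)) (by simp)]
          simp
    have h0 := hw φ hT
    have i1 : Integrable (fun ζ => (sg ζ - stQ (ζ 2 / ε)) * ⟪b ζ, gradient g ζ⟫_ℝ)
        (volume.restrict (HB r)) := by
      apply (int_inner hb2 mgg).bdd_mul (c := 2)
      · exact hsgs.continuousOn.aestronglyMeasurable oH.measurableSet
      · exact Eventually.of_forall (fun ζ => hsb ζ)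
    have e1 : ∀ ζ ∈ HB r, ⟪b ζ, gradient φ ζ⟫_ℝ = (sg ζ - stQ (ζ 2 / ε)) *
        ⟪b ζ, gradient g ζ⟫_ℝ - k ζ * (b ζ 2 * a ζ) * (deriv stQ (ζ 2 / ε) / ε) := by
      intro ζ hζ
      rw [hφg ζ hζ, inner_sub_right, real_inner_smul_right, real_inner_smul_right, inner_bv]
      simp only [hg]
      ring
    have i3 : Integrable (fun ζ => ⟪b ζ, gradient φ ζ⟫_ℝ) (volume.restrict (HB r)) :=
      int_inner hb2 hT.memG
    have i2 : Integrable (fun ζ => k ζ * (b ζ 2 * a ζ) * (deriv stQ (ζ 2 / ε) / ε))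
        (volume.restrict (HB r)) := by
      have := i1.sub i3
      apply this.congr
      filter_upwards [ae_restrict_mem oH.measurableSet] with ζ hζ
      simp only [Pi.sub_apply]
      rw [e1 ζ hζ]; ring
    rw [setIntegral_congr_fun oH.measurableSet e1, integral_sub i1 i2] at h0
    linarith
  -- dominated convergence
  have hlim : Tendsto (fun ε : ℝ => ∫ ζ in HB r, (sg ζ - stQ (ζ 2 / ε)) *
      ⟪b ζ, gradient g ζ⟫_ℝ) (𝓝[>] 0) (𝓝 (∫ ζ in HB r, (0 : ℝ))) := by
    apply tendsto_integral_filter_of_dominated_convergence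
      (fun ζ => 2 * |⟪b ζ, gradient g ζ⟫_ℝ|)
    · filter_upwards [self_mem_nhdsWithin] with ε hε
      apply AEStronglyMeasurable.mul _ (int_inner hb2 mgg).1
      have hqs : ContDiff ℝ 1 (fun ζ : E => stQ (ζ 2 / ε)) :=
        (stQ_smooth.comp ((coord_smooth 2).div_const ε)).of_le (by simp)
      have hsgs : ContinuousOn (fun ζ : E => sg ζ - stQ (ζ 2 / ε)) (HB r) := by
        intro ζ hζ
        apply ContinuousAt.continuousWithinAt
        have h1 : ContinuousAt sg ζ := continuousAt_const.congr (sg_loc hζ.2).symm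
        exact h1.sub hqs.continuous.continuousAt
      exact hsgs.aestronglyMeasurable oH.measurableSet
    · filter_upwards [self_mem_nhdsWithin] with ε hε
      refine Eventually.of_forall (fun ζ => ?_)
      rw [norm_mul, Real.norm_eq_abs, Real.norm_eq_abs]
      apply mul_le_mul_of_nonneg_right _ (abs_nonneg _)
      refine (abs_sub _ _).trans ?_
      rw [sg_abs]
      linarith [stQ_abs (ζ 2 / ε)]
    · exact (int_inner hb2 mgg).abs.const_mul 2
    · filter_upwards [ae_restrict_mem oH.measurableSet] with ζ hζ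
      apply tendsto_const_nhds.congr'
      have hz : ζ 2 ≠ 0 := hζ.2
      have : Ioo (0 : ℝ) (|ζ 2| / 2) ∈ 𝓝[>] (0 : ℝ) := Ioo_mem_nhdsGT (by positivity)
      filter_upwards [this] with ε hε
      have h2 : 2 ≤ |ζ 2 / ε| := by
        rw [abs_div, abs_of_pos hε.1, le_div_iff₀ hε.1]
        linarith [hε.2]
      rw [stQ_far h2]
      have h3 : (0 < ζ 2 / ε) ↔ 0 < ζ 2 := by
        constructor
        · intro h
          by_contra h4
          have : ζ 2 / ε ≤ 0 := div_nonpos_of_nonpos_of_nonneg (not_lt.1 h4) hε.1.le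
          linarith
        · intro h; exact div_pos h hε.1
      simp [sg, h3]
  rw [integral_zero] at hlim
  refine hlim.congr' ?_
  filter_upwards [self_mem_nhdsWithin] with ε hε
  exact (hid ε hε).symm

theorem strip_two :
    Tendsto (fun ε : ℝ => ∫ ζ in HB r, k ζ * |b ζ 2| * (deriv stQ (ζ 2 / ε) / ε))
      (𝓝[>] 0) (𝓝 0) := by
  have oH := HB_open r
  have hk1 : ContDiff ℝ 1 k := hk.1.of_le (by simp)
  have hNs : ContDiffOn ℝ 1 (fun ζ => b ζ 2) (HB r) := (coord_smooth 2).comp_contDiffOn hbs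
  -- the uniform bound
  set Ck : ℝ := ∫ ζ, |fderiv ℝ k ζ (bv 2)| with hCk
  have hCk0 : 0 ≤ Ck := integral_nonneg (fun _ => abs_nonneg _)
  have hρ : ∀ ε : ℝ, 0 < ε → Integrable (fun ζ : E => k ζ * (deriv stQ (ζ 2 / ε) / ε)) := by
    intro ε hε
    have hc : Continuous (fun ζ : E => k ζ * (deriv stQ (ζ 2 / ε) / ε)) := by
      apply hk.1.continuous.mul
      apply Continuous.div_const
      exact (stQ_smooth.continuous_deriv (by simp)).comp ((coord_cont 2).div_const ε)
    exact hc.integrable_of_hasCompactSupport hk.2.1.mul_right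
  have hbound : ∀ ε : ℝ, 0 < ε → ∫ ζ in HB r, k ζ * (deriv stQ (ζ 2 / ε) / ε) ≤ Ck := by
    intro ε hε
    have hqs : ContDiff ℝ 1 (fun ζ : E => stQ (ζ 2 / ε)) :=
      (stQ_smooth.comp ((coord_smooth 2).div_const ε)).of_le (by simp)
    have h1 := ibp isOpen_univ hqs.contDiffOn hk1 hk.2.1 (subset_univ _) (bv 2)
    simp only [Measure.restrict_univ] at h1
    have h2 : ∀ ζ : E, fderiv ℝ (fun ζ : E => stQ (ζ 2 / ε)) ζ (bv 2) * k ζ =
        k ζ * (deriv stQ (ζ 2 / ε) / ε) := by
      intro ζ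
      rw [(third_deriv stQ stQ_smooth ε ζ).fderiv]
      simp
      ring
    simp_rw [h2] at h1
    have h3 : ∫ ζ, k ζ * (deriv stQ (ζ 2 / ε) / ε) = - ∫ ζ : E, stQ (ζ 2 / ε) *
        fderiv ℝ k ζ (bv 2) := by rw [h1, neg_neg]
    calc ∫ ζ in HB r, k ζ * (deriv stQ (ζ 2 / ε) / ε)
        ≤ ∫ ζ, k ζ * (deriv stQ (ζ 2 / ε) / ε) := by
          apply setIntegral_le_integral (hρ ε hε)
          refine Eventually.of_forall (fun ζ => ?_)
          exact mul_nonneg (hk0 ζ) (div_nonneg (stQ_deriv_nonneg _) hε.le)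
      _ = - ∫ ζ : E, stQ (ζ 2 / ε) * fderiv ℝ k ζ (bv 2) := h3
      _ ≤ |∫ ζ : E, stQ (ζ 2 / ε) * fderiv ℝ k ζ (bv 2)| := neg_le_abs _
      _ ≤ ∫ ζ : E, |stQ (ζ 2 / ε) * fderiv ℝ k ζ (bv 2)| := abs_integral_le_integral_abs
      _ ≤ Ck := by
          apply integral_mono_of_nonneg (Eventually.of_forall (fun _ => abs_nonneg _))
          · have hcc : Continuous (fun ζ : E => fderiv ℝ k ζ (bv 2)) :=
              (hk1.continuous_fderiv one_ne_zero).clm_apply continuous_const
            exact (hcc.integrable_of_hasCompactSupport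
              (HasCompactSupport.fderiv_apply (𝕜 := ℝ) hk.2.1 (bv 2))).abs
          · refine Eventually.of_forall (fun ζ => ?_)
            simp only [abs_mul]
            exact mul_le_of_le_one_left (abs_nonneg _) (stQ_abs _)
  rw [Metric.tendsto_nhds]
  intro η hη
  set δ : ℝ := η / (2 * (Ck + 1)) with hδ
  have hδ0 : 0 < δ := by positivity
  have h1 := strip_one hbs hb2 hN hw hk hk0 hδ0
  have h2 : ∀ᶠ ε : ℝ in 𝓝[>] 0, |∫ ζ in HB r, k ζ * (b ζ 2 * Real.arctan (b ζ 2 / δ)) *
      (deriv stQ (ζ 2 / ε) / ε)| < η / 2 := by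
    have := (Metric.tendsto_nhds.1 h1) (η / 2) (half_pos hη)
    filter_upwards [this] with ε hε
    simpa [Real.dist_eq] using hε
  filter_upwards [h2, self_mem_nhdsWithin] with ε hε2 hε
  have hε0 : 0 < ε := hε
  rw [Real.dist_eq, sub_zero]
  have mb2 : MemLp (fun ζ => b ζ 2) 2 (volume.restrict (HB r)) :=
    MemLp.of_le hb2 ((coord_cont 2).comp_aestronglyMeasurable hb2.1)
      (Eventually.of_forall (fun ζ => PiLp.norm_apply_le (b ζ) 2))
  obtain ⟨M, hM⟩ : ∃ M : ℝ, ∀ ζ : E, ‖k ζ * (deriv stQ (ζ 2 / ε) / ε)‖ ≤ M := by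
    have hc : Continuous (fun ζ : E => k ζ * (deriv stQ (ζ 2 / ε) / ε)) := by
      apply hk.1.continuous.mul
      apply Continuous.div_const
      exact (stQ_smooth.continuous_deriv (by simp)).comp ((coord_cont 2).div_const ε)
    exact hc.bounded_above_of_compact_support hk.2.1.mul_right
  have hkm : MemLp (fun ζ : E => k ζ * (deriv stQ (ζ 2 / ε) / ε)) 2 (volume.restrict (HB r)) := by
    have hc : Continuous (fun ζ : E => k ζ * (deriv stQ (ζ 2 / ε) / ε)) := by
      apply hk.1.continuous.mul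
      apply Continuous.div_const
      exact (stQ_smooth.continuous_deriv (by simp)).comp ((coord_cont 2).div_const ε)
    exact (hc.memLp_of_hasCompactSupport hk.2.1.mul_right).restrict _
  have iA : Integrable (fun ζ => k ζ * |b ζ 2| * (deriv stQ (ζ 2 / ε) / ε))
      (volume.restrict (HB r)) := by
    have := int_mul hkm mb2.norm
    refine this.congr (Eventually.of_forall (fun ζ => ?_))
    simp only [Real.norm_eq_abs]
    ring
  have iB : Integrable (fun ζ => k ζ * (b ζ 2 * Real.arctan (b ζ 2 / δ)) *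
      (deriv stQ (ζ 2 / ε) / ε)) (volume.restrict (HB r)) := by
    have h5 := int_mul hkm mb2
    have h6 := h5.bdd_mul (c := Real.pi / 2) (f := fun ζ => Real.arctan (b ζ 2 / δ))
      ((Real.continuous_arctan.comp (continuous_id.div_const δ)).comp_aestronglyMeasurable
        mb2.1)
      (Eventually.of_forall (fun ζ => by
        rw [Real.norm_eq_abs, abs_le]
        exact ⟨(Real.neg_pi_div_two_lt_arctan _).le, (Real.arctan_lt_pi_div_two _).le⟩))
    refine h6.congr (Eventually.of_forall (fun ζ => ?_))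
    simp only
    ring
  have iC : Integrable (fun ζ => δ * (k ζ * (deriv stQ (ζ 2 / ε) / ε)))
      (volume.restrict (HB r)) := (hρ ε hε0).restrict.const_mul δ
  have hle : Real.pi / 2 * ∫ ζ in HB r, k ζ * |b ζ 2| * (deriv stQ (ζ 2 / ε) / ε) ≤
      (∫ ζ in HB r, k ζ * (b ζ 2 * Real.arctan (b ζ 2 / δ)) * (deriv stQ (ζ 2 / ε) / ε)) +
        δ * ∫ ζ in HB r, k ζ * (deriv stQ (ζ 2 / ε) / ε) := by
    rw [← integral_const_mul, ← integral_const_mul, ← integral_add iB iC]
    apply integral_mono (iA.const_mul _) (iB.add iC)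
    intro ζ
    simp only [Pi.add_apply]
    have h7 := arctan_est hδ0 (b ζ 2)
    have h8 : 0 ≤ k ζ * (deriv stQ (ζ 2 / ε) / ε) :=
      mul_nonneg (hk0 ζ) (div_nonneg (stQ_deriv_nonneg _) hε0.le)
    nlinarith
  have hnn : 0 ≤ ∫ ζ in HB r, k ζ * |b ζ 2| * (deriv stQ (ζ 2 / ε) / ε) := by
    apply integral_nonneg
    intro ζ
    exact mul_nonneg (mul_nonneg (hk0 ζ) (abs_nonneg _))
      (div_nonneg (stQ_deriv_nonneg _) hε0.le)
  rw [abs_of_nonneg hnn]
  have hpi := Real.pi_gt_three
  have h9 : δ * ∫ ζ in HB r, k ζ * (deriv stQ (ζ 2 / ε) / ε) ≤ η / 2 := by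
    calc δ * ∫ ζ in HB r, k ζ * (deriv stQ (ζ 2 / ε) / ε) ≤ δ * (Ck + 1) := by
          apply mul_le_mul_of_nonneg_left _ hδ0.le
          linarith [hbound ε hε0]
      _ = η / 2 := by rw [hδ]; field_simp
  have h10 := (abs_lt.1 hε2).2
  nlinarith

/-- **The cutoffs near a flat crack.** -/
theorem strip_three : Tendsto (fun ε : ℝ => ∫ ζ in HB r,
      |⟪b ζ, gradient (fun ζ => k ζ * (1 - stP (ζ 2 / ε))) ζ⟫_ℝ|) (𝓝[>] 0) (𝓝 0) := by
  have oH := HB_open r
  have hk1 : ContDiff ℝ 1 k := hk.1.of_le (by simp)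
  have mgk : MemLp (gradient k) 2 (volume.restrict (HB r)) :=
    (grad_memLp hk1 hk.2.1 2 volume).restrict _
  have mb2 : MemLp (fun ζ => b ζ 2) 2 (volume.restrict (HB r)) :=
    MemLp.of_le hb2 ((coord_cont 2).comp_aestronglyMeasurable hb2.1)
      (Eventually.of_forall (fun ζ => PiLp.norm_apply_le (b ζ) 2))
  have h1 : Tendsto (fun ε : ℝ => ∫ ζ in HB r, (1 - stP (ζ 2 / ε)) *
      |⟪b ζ, gradient k ζ⟫_ℝ|) (𝓝[>] 0) (𝓝 (∫ ζ in HB r, (0 : ℝ))) := by
    apply tendsto_integral_filter_of_dominated_convergence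
      (fun ζ => |⟪b ζ, gradient k ζ⟫_ℝ|)
    · filter_upwards [self_mem_nhdsWithin] with ε hε
      apply AEStronglyMeasurable.mul _ (int_inner hb2 mgk).abs.1
      have hqs : ContDiff ℝ 1 (fun ζ : E => stP (ζ 2 / ε)) :=
        (stP_smooth.comp ((coord_smooth 2).div_const ε)).of_le (by simp)
      exact (continuous_const.sub hqs.continuous).aestronglyMeasurable
    · filter_upwards [self_mem_nhdsWithin] with ε hε
      refine Eventually.of_forall (fun ζ => ?_)
      obtain ⟨p1, p2⟩ := stP_mem (ζ 2 / ε)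
      rw [norm_mul, Real.norm_eq_abs, Real.norm_eq_abs, abs_abs]
      apply mul_le_of_le_one_left (abs_nonneg _)
      rw [abs_le]; constructor <;> linarith
    · exact (int_inner hb2 mgk).abs
    · filter_upwards [ae_restrict_mem oH.measurableSet] with ζ hζ
      apply tendsto_const_nhds.congr'
      have hz : ζ 2 ≠ 0 := hζ.2
      have : Ioo (0 : ℝ) (|ζ 2| / 2) ∈ 𝓝[>] (0 : ℝ) := Ioo_mem_nhdsGT (by positivity)
      filter_upwards [this] with ε hε
      have h2 : 2 ≤ |ζ 2 / ε| := by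
        rw [abs_div, abs_of_pos hε.1, le_div_iff₀ hε.1]
        linarith [hε.2]
      rw [stP_far h2]; simp
  rw [integral_zero] at h1
  have h2 := h1.add (strip_two hbs hb2 hN hw hk hk0)
  rw [add_zero] at h2
  apply squeeze_zero' _ _ h2
  · exact Eventually.of_forall (fun ε => integral_nonneg (fun _ => abs_nonneg _))
  · filter_upwards [self_mem_nhdsWithin] with ε hε
    have hε0 : 0 < ε := hε
    have hkm : MemLp (fun ζ : E => k ζ * (deriv stQ (ζ 2 / ε) / ε)) 2
        (volume.restrict (HB r)) := by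
      have hc : Continuous (fun ζ : E => k ζ * (deriv stQ (ζ 2 / ε) / ε)) := by
        apply hk.1.continuous.mul
        apply Continuous.div_const
        exact (stQ_smooth.continuous_deriv (by simp)).comp ((coord_cont 2).div_const ε)
      exact (hc.memLp_of_hasCompactSupport hk.2.1.mul_right).restrict _
    have iA : Integrable (fun ζ => k ζ * |b ζ 2| * (deriv stQ (ζ 2 / ε) / ε))
        (volume.restrict (HB r)) := by
      have := int_mul hkm mb2.norm
      refine this.congr (Eventually.of_forall (fun ζ => ?_))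
      simp only [Real.norm_eq_abs]
      ring
    have iD : Integrable (fun ζ => (1 - stP (ζ 2 / ε)) * |⟪b ζ, gradient k ζ⟫_ℝ|)
        (volume.restrict (HB r)) := by
      apply (int_inner hb2 mgk).abs.bdd_mul (c := 1)
      · have hqs : ContDiff ℝ 1 (fun ζ : E => stP (ζ 2 / ε)) :=
          (stP_smooth.comp ((coord_smooth 2).div_const ε)).of_le (by simp)
        exact (continuous_const.sub hqs.continuous).aestronglyMeasurable
      · refine Eventually.of_forall (fun ζ => ?_)
        obtain ⟨p1, p2⟩ := stP_mem (ζ 2 / ε)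
        rw [Real.norm_eq_abs, abs_le]; constructor <;> linarith
    rw [← integral_add iD iA]
    apply integral_mono_of_nonneg (Eventually.of_forall (fun _ => abs_nonneg _)) (iD.add iA)
    refine Eventually.of_forall (fun ζ => ?_)
    simp only [Pi.add_apply]
    have d1 : HasFDerivAt k (fderiv ℝ k ζ) ζ := (hk1.differentiable one_ne_zero ζ).hasFDerivAt
    have d2 := third_deriv stP stP_smooth ε ζ
    have d3 := d1.fun_mul ((hasFDerivAt_const (1 : ℝ) ζ).fun_sub d2)
    have e1 : ⟪b ζ, gradient (fun ζ => k ζ * (1 - stP (ζ 2 / ε))) ζ⟫_ℝ =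
        (1 - stP (ζ 2 / ε)) * ⟪b ζ, gradient k ζ⟫_ℝ -
          k ζ * b ζ 2 * (deriv stP (ζ 2 / ε) / ε) := by
      rw [inner_grad', inner_grad', d3.fderiv]
      simp
      ring
    rw [e1]
    refine (abs_sub _ _).trans ?_
    obtain ⟨p1, p2⟩ := stP_mem (ζ 2 / ε)
    apply add_le_add
    · rw [abs_mul, abs_of_nonneg (by linarith)]
    · rw [abs_mul, abs_mul, abs_of_nonneg (hk0 ζ), abs_div, abs_of_pos hε0]
      apply mul_le_mul_of_nonneg_left _ (mul_nonneg (hk0 ζ) (abs_nonneg _))
      exact div_le_div_of_nonneg_right (stP_deriv_le _) hε0.le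

end

end Pool.Agent.Run7.h982
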