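import Pool.Agent.Run7.h982.J4
import Pool.Agent.Run7.h982.Strip
import Pool.Agent.Run7.h982.Neu

/-!
# Insulating cracks: cutoffs and jumps
-/

set_option autoImplicit false

open MeasureTheory Set Filter Topology Metric
open scoped ContDiff ENNReal NNReal InnerProductSpace

namespace Pool.Agent.Run7.h982

theorem isTest_cut {O U : Set E} (hU : IsOpen U) {φ : E → ℝ} (hφ : IsTest U φ)
    {c : E → ℝ} (hc : ContDiffOn ℝ ∞ c U)
    (hW : ∃ W, IsOpen W ∧ U \ O ⊆ W ∧ ∀ x ∈ W ∩ U, c x = 0) :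
    IsTest (O ∩ U) (fun x => φ x * c x) := by
  have h1 := isTest_mul hU hc hφ
  refine ⟨h1.1, h1.2.1, fun x hx => ?_⟩
  have hxU : x ∈ U := h1.2.2 hx
  refine ⟨?_, hxU⟩
  by_contra hxO
  obtain ⟨W, hWo, hUW, hW0⟩ := hW
  have h2 : W ∩ U ∈ 𝓝 x := (hWo.inter hU).mem_nhds ⟨hUW ⟨hxU, hxO⟩, hxU⟩
  have h3 : (fun x => φ x * c x) =ᶠ[𝓝 x] 0 := by
    filter_upwards [h2] with y hy
    rw [hW0 y hy, mul_zero]
    rfl
  exact (notMem_tsupport_iff_eventuallyEq.2 h3) hx

/-- integration by parts against cutoffs -/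
theorem cut_lim {O U : Set E} (hO : IsOpen O) (hU : IsOpen U) {u : E → ℝ}
    (hu : ContDiffOn ℝ 1 u O) {φ : E → ℝ} (hφ : IsTest U φ) {c : ℝ → E → ℝ}
    (hc : ∀ ε, 0 < ε → ContDiffOn ℝ ∞ (c ε) U)
    (hc0 : ∀ ε, 0 < ε → ∀ x ∈ U, 0 ≤ c ε x ∧ c ε x ≤ 1)
    (hcs : ∀ ε, 0 < ε → ∃ W, IsOpen W ∧ U \ O ⊆ W ∧ ∀ x ∈ W ∩ U, c ε x = 0)
    (hlim : ∀ x ∈ O ∩ U, Tendsto (fun ε => c ε x) (𝓝[>] 0) (𝓝 1)) (e : E)
    (i1 : IntegrableOn (fun x => u x * fderiv ℝ φ x e + fderiv ℝ u x e * φ x) O) :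
    Tendsto (fun ε => ∫ x in O, u x * φ x * fderiv ℝ (c ε) x e) (𝓝[>] 0)
      (𝓝 (-∫ x in O, (u x * fderiv ℝ φ x e + fderiv ℝ u x e * φ x))) := by
  set f : E → ℝ := fun x => u x * fderiv ℝ φ x e + fderiv ℝ u x e * φ x with hf
  have hf0 : ∀ x ∉ U, f x = 0 := by
    intro x hx
    have h1 : x ∉ tsupport φ := fun h => hx (hφ.2.2 h)
    simp only [hf]
    rw [fderiv_zero_of h1, image_eq_zero_of_notMem_tsupport h1]
    simp
  have oOU : IsOpen (O ∩ U) := hO.inter hU
  -- restriction to `O ∩ U`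
  have hres : ∀ g : E → ℝ, (∀ x ∉ U, g x = 0) → ∫ x in O, g x = ∫ x in O ∩ U, g x := by
    intro g hg
    rw [← integral_indicator hO.measurableSet, ← integral_indicator oOU.measurableSet]
    congr 1
    funext x
    by_cases hx : x ∈ U
    · by_cases hxO : x ∈ O
      · rw [indicator_of_mem hxO, indicator_of_mem (show x ∈ O ∩ U from ⟨hxO, hx⟩)]
      · rw [indicator_of_notMem hxO, indicator_of_notMem (fun h => hxO h.1)]
    · rw [indicator_of_notMem (show x ∉ O ∩ U from fun h => hx h.2)]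
      by_cases hxO : x ∈ O
      · rw [indicator_of_mem hxO, hg x hx]
      · rw [indicator_of_notMem hxO]
  -- the identity for each `ε`
  have hid : ∀ ε, 0 < ε → ∫ x in O ∩ U, u x * φ x * fderiv ℝ (c ε) x e =
      -∫ x in O ∩ U, f x * c ε x := by
    intro ε hε
    have ht := isTest_cut hU hφ (hc ε hε) (hcs ε hε)
    have h1 := ibp oOU (hu.mono inter_subset_left) (ht.1.of_le (by simp)) ht.2.1 ht.2.2 e
    have hcd : ∀ x ∈ U, HasFDerivAt (c ε) (fderiv ℝ (c ε) x) x := fun x hx =>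
      (((hc ε hε).contDiffAt (hU.mem_nhds hx)).differentiableAt (by simp)).hasFDerivAt
    have h2 : ∀ x ∈ O ∩ U, fderiv ℝ (fun x => φ x * c ε x) x e =
        φ x * fderiv ℝ (c ε) x e + c ε x * fderiv ℝ φ x e := by
      intro x hx
      have h3 : HasFDerivAt φ (fderiv ℝ φ x) x := (hφ.1.differentiable (by simp) x).hasFDerivAt
      rw [(h3.fun_mul (hcd x hx.2)).fderiv]
      simp
    have e1 : ∫ x in O ∩ U, u x * fderiv ℝ (fun x => φ x * c ε x) x e =
        ∫ x in O ∩ U, (u x * φ x * fderiv ℝ (c ε) x e + u x * (fderiv ℝ φ x e * c ε x)) := by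
      apply setIntegral_congr_fun oOU.measurableSet
      intro x hx
      simp only
      rw [h2 x hx]
      ring
    rw [e1] at h1
    have hsub : tsupport (fun x => φ x * c ε x) ⊆ O ∩ U := ht.2.2
    have hcf : ContinuousOn (fun x => fderiv ℝ (c ε) x e) U :=
      ((hc ε hε).continuousOn_fderiv_of_isOpen hU (by simp)).clm_apply continuousOn_const
    -- the two derivatives are test functions
    have t1 : IsTest (O ∩ U) (fun x => fderiv ℝ φ x e * c ε x) :=
      isTest_cut hU (hφ.fderiv_apply e) (hc ε hε) (hcs ε hε)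
    have hcfs : ContDiffOn ℝ ∞ (fun x => fderiv ℝ (c ε) x e) U :=
      ((hc ε hε).fderiv_of_isOpen hU (by simp)).clm_apply contDiffOn_const
    have t2 : IsTest (O ∩ U) (fun x => φ x * fderiv ℝ (c ε) x e) := by
      apply isTest_cut hU hφ hcfs
      obtain ⟨W, hWo, hUW, hW0⟩ := hcs ε hε
      refine ⟨W ∩ U, hWo.inter hU, fun x hx => ⟨hUW hx, hx.1⟩, fun x hx => ?_⟩
      have h3 : c ε =ᶠ[𝓝 x] fun _ => 0 := by
        filter_upwards [(hWo.inter hU).mem_nhds hx.1] with y hy
        exact hW0 y hy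
      rw [h3.fderiv_eq]
      simp
    have hcu : ContinuousOn u (O ∩ U) := hu.continuousOn.mono inter_subset_left
    have j1 : Integrable (fun x => u x * φ x * fderiv ℝ (c ε) x e)
        (volume.restrict (O ∩ U)) := by
      have := (int_mul_of oOU hcu t2.1.continuous t2.2.1 t2.2.2).restrict (s := O ∩ U)
      refine this.congr (Eventually.of_forall (fun x => ?_))
      simp only
      ring
    have j2 : Integrable (fun x => u x * (fderiv ℝ φ x e * c ε x))
        (volume.restrict (O ∩ U)) :=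
      (int_mul_of oOU hcu t1.1.continuous t1.2.1 t1.2.2).restrict
    have j3 : Integrable (fun x => fderiv ℝ u x e * (φ x * c ε x))
        (volume.restrict (O ∩ U)) := by
      have hcu' : ContinuousOn (fun x => fderiv ℝ u x e) (O ∩ U) :=
        ((hu.continuousOn_fderiv_of_isOpen hO le_rfl).clm_apply continuousOn_const).mono
          inter_subset_left
      exact (int_mul_of oOU hcu' ht.1.continuous ht.2.1 ht.2.2).restrict
    rw [integral_add j1 j2] at h1
    have h4 : ∫ x in O ∩ U, f x * c ε x = (∫ x in O ∩ U, u x * (fderiv ℝ φ x e * c ε x)) +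
        ∫ x in O ∩ U, fderiv ℝ u x e * (φ x * c ε x) := by
      rw [← integral_add j2 j3]
      congr 1
      funext x
      simp only [hf]
      ring
    rw [h4]
    linarith
  rw [hres f hf0]
  have hg : ∀ ε, ∫ x in O, u x * φ x * fderiv ℝ (c ε) x e =
      ∫ x in O ∩ U, u x * φ x * fderiv ℝ (c ε) x e := by
    intro ε
    apply hres
    intro x hx
    have h1 : x ∉ tsupport φ := fun h => hx (hφ.2.2 h)
    rw [image_eq_zero_of_notMem_tsupport h1]
    simp
  simp_rw [hg]
  have hT : Tendsto (fun ε => ∫ x in O ∩ U, f x * c ε x) (𝓝[>] 0) (𝓝 (∫ x in O ∩ U, f x)) := by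
    apply tendsto_integral_filter_of_dominated_convergence (fun x => |f x|)
    · filter_upwards [self_mem_nhdsWithin] with ε hε
      have hm : AEStronglyMeasurable f (volume.restrict (O ∩ U)) :=
        (i1.mono_set inter_subset_left).1
      exact hm.mul (((hc ε hε).continuousOn.mono inter_subset_right).aestronglyMeasurable
        oOU.measurableSet)
    · filter_upwards [self_mem_nhdsWithin] with ε hε
      filter_upwards [ae_restrict_mem oOU.measurableSet] with x hx
      rw [norm_mul, Real.norm_eq_abs, Real.norm_eq_abs, abs_of_nonneg (hc0 ε hε x hx.2).1]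
      exact mul_le_of_le_one_right (abs_nonneg _) (hc0 ε hε x hx.2).2
    · exact (i1.mono_set inter_subset_left).abs
    · filter_upwards [ae_restrict_mem oOU.measurableSet] with x hx
      simpa using (hlim x hx).const_mul (f x)
  refine hT.neg.congr' ?_
  filter_upwards [self_mem_nhdsWithin] with ε hε
  rw [hid ε hε]

end Pool.Agent.Run7.h982
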