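import Pool.Agent.Run7.h982.J5
import Pool.Agent.Run7.h982.IntP

/-!
# Insulating cracks: the jump in coordinates
-/

set_option autoImplicit false

open MeasureTheory Set Filter Topology Metric
open scoped ContDiff ENNReal NNReal InnerProductSpace

namespace Pool.Agent.Run7.h982

/-- cutoff near the plane -/
noncomputable def cz (ε : ℝ) (ζ : E) : ℝ := stP (ζ 2 / ε)

theorem cz_smooth (ε : ℝ) : ContDiff ℝ ∞ (cz ε) := by
  have : ContDiff ℝ ∞ (fun ζ : E => ζ 2 / ε) := (coord_smooth 2).div_const ε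
  exact stP_smooth.comp this

theorem cz_mem (ε : ℝ) (ζ : E) : 0 ≤ cz ε ζ ∧ cz ε ζ ≤ 1 := stP_mem _

theorem cz_near {ε : ℝ} (hε : 0 < ε) {ζ : E} (h : |ζ 2| ≤ ε) : cz ε ζ = 0 := by
  apply stP_near
  rw [abs_div, abs_of_pos hε, div_le_one hε]
  exact h

theorem cz_lim {ζ : E} (h : ζ 2 ≠ 0) : Tendsto (fun ε => cz ε ζ) (𝓝[>] 0) (𝓝 1) := by
  apply tendsto_const_nhds.congr'
  have h1 : ∀ᶠ ε : ℝ in 𝓝[>] 0, ε < |ζ 2| / 2 :=
    (gt_mem_nhds (by positivity : (0 : ℝ) < |ζ 2| / 2)).filter_mono nhdsWithin_le_nhds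
  filter_upwards [h1, self_mem_nhdsWithin] with ε h2 h3
  symm
  apply stP_far
  have h3' : 0 < ε := h3
  rw [abs_div, abs_of_pos h3', le_div_iff₀ h3']
  linarith

theorem cz_fderiv (ε : ℝ) (ζ e : E) :
    fderiv ℝ (cz ε) ζ e = deriv stP (ζ 2 / ε) / ε * e 2 := by
  have h := third_deriv stP stP_smooth ε ζ
  have h1 : HasFDerivAt (cz ε) _ ζ := h
  rw [h1.fderiv]
  simp

theorem cz_open {ε : ℝ} (_hε : 0 < ε) : IsOpen {ζ : E | |ζ 2| < ε} :=
  isOpen_lt (coord_cont 2).abs continuous_const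

/-- the jump functional -/
noncomputable def Jf (R : ℝ) (v ψ : E → ℝ) : ℝ :=
  ∫ ζ in HB R, (v ζ * fderiv ℝ ψ ζ (bv 2) + fderiv ℝ v ζ (bv 2) * ψ ζ)

theorem memLp_dir {O : Set E} {v : E → ℝ} (hv : MemLp (gradient v) 2 (volume.restrict O))
    (e : E) : MemLp (fun ζ => fderiv ℝ v ζ e) 2 (volume.restrict O) := by
  have h1 : (fun ζ => fderiv ℝ v ζ e) = fun ζ => ⟪gradient v ζ, e⟫_ℝ := by
    funext ζ
    rw [inner_grad]
  rw [h1]
  exact hv.inner_const e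

theorem IsTest.memLp {U : Set E} {φ : E → ℝ} (hφ : IsTest U φ) (O : Set E) :
    MemLp φ 2 (volume.restrict O) :=
  (hφ.1.continuous.memLp_of_hasCompactSupport hφ.2.1).restrict O

theorem jump_int {O U : Set E} {v : E → ℝ} (h0 : MemLp v 2 (volume.restrict O))
    (h1 : MemLp (gradient v) 2 (volume.restrict O)) {φ : E → ℝ} (hφ : IsTest U φ) (e : E) :
    IntegrableOn (fun x => v x * fderiv ℝ φ x e + fderiv ℝ v x e * φ x) O :=
  (int_mul h0 ((hφ.fderiv_apply e).memLp O)).add (int_mul (memLp_dir h1 e) (hφ.memLp O))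

theorem jump_tan {R : ℝ} {v : E → ℝ} (hs : ContDiffOn ℝ 1 v (HB R))
    (h0 : MemLp v 2 (volume.restrict (HB R)))
    (h1 : MemLp (gradient v) 2 (volume.restrict (HB R))) {ψ : E → ℝ}
    (hψ : IsTest (ball (0 : E) R) ψ) (e : E) :
    Tendsto (fun ε => ∫ ζ in HB R, v ζ * ψ ζ * (deriv stP (ζ 2 / ε) / ε * e 2)) (𝓝[>] 0)
      (𝓝 (-∫ ζ in HB R, (v ζ * fderiv ℝ ψ ζ e + fderiv ℝ v ζ e * ψ ζ))) := by
  have := cut_lim (HB_open R) isOpen_ball hs hψ (c := cz)
    (fun ε _ => (cz_smooth ε).contDiffOn) (fun ε _ x _ => cz_mem ε x) (fun ε hε => by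
      refine ⟨{ζ : E | |ζ 2| < ε}, cz_open hε, ?_, fun x hx => cz_near hε (le_of_lt hx.1)⟩
      intro x hx
      have h2 : x 2 = 0 := by
        by_contra h
        exact hx.2 ⟨hx.1, h⟩
      rw [mem_ofPred_eq, h2, abs_zero]
      exact hε) (fun x hx => cz_lim hx.1.2) e (jump_int h0 h1 hψ e)
  simp_rw [cz_fderiv] at this
  exact this

theorem jump_zero {R : ℝ} {v : E → ℝ} (hs : ContDiffOn ℝ 1 v (HB R))
    (h0 : MemLp v 2 (volume.restrict (HB R)))
    (h1 : MemLp (gradient v) 2 (volume.restrict (HB R))) {ψ : E → ℝ}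
    (hψ : IsTest (ball (0 : E) R) ψ) {e : E} (he : e 2 = 0) :
    ∫ ζ in HB R, (v ζ * fderiv ℝ ψ ζ e + fderiv ℝ v ζ e * ψ ζ) = 0 := by
  have h2 := jump_tan hs h0 h1 hψ e
  simp only [he, mul_zero, integral_zero] at h2
  have h3 := tendsto_nhds_unique h2 tendsto_const_nhds
  linarith

theorem jump_nor {R : ℝ} {v : E → ℝ} (hs : ContDiffOn ℝ 1 v (HB R))
    (h0 : MemLp v 2 (volume.restrict (HB R)))
    (h1 : MemLp (gradient v) 2 (volume.restrict (HB R))) {ψ : E → ℝ}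
    (hψ : IsTest (ball (0 : E) R) ψ) :
    Tendsto (fun ε => ∫ ζ in HB R, v ζ * ψ ζ * (deriv stP (ζ 2 / ε) / ε)) (𝓝[>] 0)
      (𝓝 (-Jf R v ψ)) := by
  have h2 := jump_tan hs h0 h1 hψ (bv 2)
  have h3 : (bv 2 : E) 2 = 1 := by simp [bv]
  simp only [h3, mul_one] at h2
  exact h2

variable {Ω S : Set E} {u : E → ℝ} {Φ : OpenPartialHomeomorph E E} {R : ℝ}

theorem Loc.image_eq (h : Loc Ω S u Φ R) :
    Φ '' HB R = (Φ '' ball (0 : E) R) \ S := by
  have hbs : ball (0 : E) R ⊆ Φ.source := ball_subset_closedBall.trans h.hbR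
  ext x
  constructor
  · rintro ⟨ζ, hζ, rfl⟩
    exact ⟨⟨ζ, hζ.1, rfl⟩, fun h' => hζ.2 ((h.hSS ζ (hbs hζ.1)).1 h')⟩
  · rintro ⟨⟨ζ, hζ, rfl⟩, hx⟩
    exact ⟨ζ, ⟨hζ, fun h' => hx ((h.hSS ζ (hbs hζ)).2 h')⟩, rfl⟩

/-- the jump in the original coordinates and in the straightened coordinates -/
theorem Loc.conv (h : Loc Ω S u Φ R) {φ : E → ℝ} (hφ : IsTest (Φ '' ball (0 : E) R) φ) (e : E)
    {ψ : E → ℝ} (hψ : IsTest (ball (0 : E) R) ψ)
    (hψφ : ∀ ζ ∈ ball (0 : E) R, ψ ζ = φ (Φ ζ) * fderiv ℝ (fun x => Φ.symm x 2) (Φ ζ) e *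
      |(fderiv ℝ Φ ζ).det|) :
    ∫ x in Sᶜ, (u x * fderiv ℝ φ x e + fderiv ℝ u x e * φ x) = Jf R (fun ζ => u (Φ ζ)) ψ := by
  have hbs : ball (0 : E) R ⊆ Φ.source := ball_subset_closedBall.trans h.hbR
  have oH := HB_open R
  have oU : IsOpen (Φ '' ball (0 : E) R) := Φ.isOpen_image_of_subset_source isOpen_ball hbs
  have oS : IsOpen (Ω \ S) := h.hΩ.sdiff h.hS.isClosed
  have oUS : IsOpen (Φ '' HB R) := Φ.isOpen_image_of_subset_source oH h.HB_sub
  have hUT : Φ '' ball (0 : E) R ⊆ Φ.target := by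
    rintro _ ⟨ζ, hζ, rfl⟩
    exact Φ.map_source (hbs hζ)
  have hUΩ : Φ '' ball (0 : E) R ⊆ Ω := hUT.trans h.hT
  have hu1 : ContDiffOn ℝ 1 u (Ω \ S) := c1_of h.hu
  -- reduction to `Ω \ S`
  have e1 : ∫ x in Sᶜ, (u x * fderiv ℝ φ x e + fderiv ℝ u x e * φ x) =
      ∫ x in Ω \ S, (u x * fderiv ℝ φ x e + fderiv ℝ u x e * φ x) := by
    rw [← integral_indicator h.hS.isClosed.isOpen_compl.measurableSet,
      ← integral_indicator oS.measurableSet]
    congr 1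
    funext x
    by_cases hx : x ∈ S
    · rw [indicator_of_notMem (show x ∉ Sᶜ from fun h' => h' hx),
        indicator_of_notMem (show x ∉ Ω \ S from fun h' => h'.2 hx)]
    · rw [indicator_of_mem (show x ∈ Sᶜ from hx)]
      by_cases hxΩ : x ∈ Ω
      · rw [indicator_of_mem (show x ∈ Ω \ S from ⟨hxΩ, hx⟩)]
      · rw [indicator_of_notMem (show x ∉ Ω \ S from fun h' => hxΩ h'.1)]
        have h1 : x ∉ tsupport φ := fun h' => hxΩ (hUΩ (hφ.2.2 h'))
        rw [fderiv_zero_of h1, image_eq_zero_of_notMem_tsupport h1]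
        simp
  rw [e1]
  set c : ℝ → E → ℝ := fun ε x => cz ε (Φ.symm x) with hc
  have hcsm : ∀ ε, ContDiffOn ℝ ∞ (c ε) Φ.target := fun ε =>
    (cz_smooth ε).comp_contDiffOn h.h2
  have hlim := cut_lim oS oU hu1 hφ (c := c) (fun ε _ => (hcsm ε).mono hUT)
    (fun ε _ x _ => cz_mem ε _) (fun ε hε => by
      refine ⟨Φ.target ∩ Φ.symm ⁻¹' {ζ : E | |ζ 2| < ε},
        Φ.symm.isOpen_inter_preimage (cz_open hε), ?_, fun x hx => ?_⟩
      · rintro x ⟨hx, hx2⟩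
        have hxT := hUT hx
        have hxS : x ∈ S := by
          by_contra h'
          exact hx2 ⟨hUΩ hx, h'⟩
        refine ⟨hxT, ?_⟩
        have h3 := (h.hSS _ (Φ.map_target hxT)).1 (by rwa [Φ.right_inv hxT])
        rw [mem_preimage, mem_ofPred_eq, h3, abs_zero]
        exact hε
      · exact cz_near hε (le_of_lt hx.1.2)) (fun x hx => by
      apply cz_lim
      intro h3
      have hxT := hUT hx.2
      apply hx.1.2
      have := (h.hSS _ (Φ.map_target hxT)).2 h3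
      rwa [Φ.right_inv hxT] at this) e (jump_int h.hu.mem h.hu.memG hφ e)
  have hnor := jump_nor (h.sol.smooth.of_le (by simp)) h.sol.mem h.sol.memG hψ
  have hEq : ∀ ε : ℝ, ∫ x in Ω \ S, u x * φ x * fderiv ℝ (c ε) x e =
      ∫ ζ in HB R, u (Φ ζ) * ψ ζ * (deriv stP (ζ 2 / ε) / ε) := by
    intro ε
    have e2 : ∫ x in Ω \ S, u x * φ x * fderiv ℝ (c ε) x e =
        ∫ x in Φ '' HB R, u x * φ x * fderiv ℝ (c ε) x e := by
      rw [← integral_indicator oS.measurableSet, ← integral_indicator oUS.measurableSet]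
      congr 1
      funext x
      by_cases hx : x ∈ Φ '' HB R
      · rw [indicator_of_mem hx]
        rw [h.image_eq] at hx
        rw [indicator_of_mem (show x ∈ Ω \ S from ⟨hUΩ hx.1, hx.2⟩)]
      · rw [indicator_of_notMem hx]
        by_cases hx2 : x ∈ Ω \ S
        · rw [indicator_of_mem hx2]
          have h1 : x ∉ tsupport φ := by
            intro h'
            apply hx
            rw [h.image_eq]
            exact ⟨hφ.2.2 h', hx2.2⟩
          rw [image_eq_zero_of_notMem_tsupport h1]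
          simp
        · rw [indicator_of_notMem hx2]
    rw [e2, integral_image_eq_integral_abs_det_fderiv_smul volume oH.measurableSet
      (chart_deriv h.h1 h.h2 h.hbR inter_subset_left) (Φ.injOn.mono h.HB_sub)]
    apply setIntegral_congr_fun oH.measurableSet
    intro ζ hζ
    have hζs := h.HB_sub hζ
    have hT := Φ.map_source hζs
    have d1 : HasFDerivAt Φ.symm (fderiv ℝ Φ.symm (Φ ζ)) (Φ ζ) :=
      ((h.h2.contDiffAt (Φ.open_target.mem_nhds hT)).differentiableAt (by simp)).hasFDerivAt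
    have d2 : HasFDerivAt (fun x => Φ.symm x 2) ((EuclideanSpace.proj (𝕜 := ℝ) (2 : Fin 3)).comp
        (fderiv ℝ Φ.symm (Φ ζ))) (Φ ζ) :=
      (EuclideanSpace.proj (𝕜 := ℝ) (2 : Fin 3)).hasFDerivAt.comp (Φ ζ) d1
    have d3 : HasFDerivAt (c ε) ((fderiv ℝ (cz ε) (Φ.symm (Φ ζ))).comp
        (fderiv ℝ Φ.symm (Φ ζ))) (Φ ζ) :=
      (((cz_smooth ε).differentiable (by simp)) _).hasFDerivAt.comp (Φ ζ) d1
    have e3 : fderiv ℝ (c ε) (Φ ζ) e =
        deriv stP (ζ 2 / ε) / ε * fderiv ℝ (fun x => Φ.symm x 2) (Φ ζ) e := by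
      rw [d3.fderiv, d2.fderiv, ContinuousLinearMap.comp_apply, cz_fderiv, Φ.left_inv hζs]
      rfl
    simp only [smul_eq_mul]
    rw [e3, hψφ ζ hζ.1]
    ring
  simp_rw [hEq] at hlim
  have := tendsto_nhds_unique hlim hnor
  linarith
where
  c1_of {Ω S : Set E} {u : E → ℝ} (hu : Sol Ω S u) : ContDiffOn ℝ 1 u (Ω \ S) := by
    intro x hx
    exact (hu.an x hx).contDiffAt.contDiffWithinAt

end Pool.Agent.Run7.h982
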