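import Pool.Agent.Run7.h982.J6

/-!
# Insulating cracks: propagation of the absence of a jump in coordinates
-/

set_option autoImplicit false

open MeasureTheory Set Filter Topology Metric
open scoped ContDiff ENNReal NNReal InnerProductSpace

namespace Pool.Agent.Run7.h982

/-- integrals over the pierced ball of functions vanishing off the ball -/
theorem int_HB {R : ℝ} {k : E → ℝ} (hk : ∀ ζ ∉ ball (0 : E) R, k ζ = 0) :
    ∫ ζ in HB R, k ζ = ∫ ζ, k ζ := by
  rw [← integral_indicator (HB_open R).measurableSet]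
  apply integral_congr_ae
  have h1 : ∀ᵐ ζ : E, ζ 2 ≠ 0 := by
    rw [ae_iff]
    have : {a : E | ¬ a 2 ≠ 0} = {ζ : E | ζ 2 = 0} := by ext; simp
    rw [this]
    exact plane_null
  filter_upwards [h1] with ζ hζ
  by_cases hb : ζ ∈ ball (0 : E) R
  · rw [indicator_of_mem (show ζ ∈ HB R from ⟨hb, hζ⟩)]
  · rw [indicator_of_notMem (show ζ ∉ HB R from fun h => hb h.1), hk ζ hb]

/-- translates of test functions -/
theorem IsTest.shift {z : E} {ρ : ℝ} {φ : E → ℝ} (hφ : IsTest (ball z ρ) φ) (y : E) :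
    IsTest (ball (z + y) ρ) (fun ζ => φ (ζ - y)) := by
  have hc : HasCompactSupport (fun ζ => φ (ζ - y)) :=
    hφ.2.1.comp_homeomorph (Homeomorph.subRight y)
  refine ⟨hφ.1.comp (contDiff_id.sub contDiff_const), hc, ?_⟩
  intro x hx
  have h1 : x - y ∈ tsupport φ := by
    have h2 := tsupport_comp_subset_preimage φ (f := fun ζ : E => ζ - y) (by fun_prop)
    exact h2 hx
  have h2 := hφ.2.2 h1
  rw [mem_ball, dist_eq_norm] at h2 ⊢
  have : x - (z + y) = x - y - z := by abel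
  rw [this]
  exact h2

theorem shift_fderiv (φ : E → ℝ) (y ζ : E) :
    fderiv ℝ (fun ζ => φ (ζ - y)) ζ = fderiv ℝ φ (ζ - y) := by
  have := fderiv_comp_add_right (𝕜 := ℝ) (f := φ) (x := ζ) (-y)
  simpa [sub_eq_add_neg] using this

variable {Ω S : Set E} {u : E → ℝ} {Φ : OpenPartialHomeomorph E E} {R : ℝ}

theorem Loc.D_deriv (h : Loc Ω S u Φ R) {η : E → ℝ} {C : ℝ} (hη : Cut R η C)
    (hη1 : ∀ ζ ∈ ball (0 : E) (R / 2), η ζ = 1) {w : E} (hw2 : w 2 = 0) {ρ : ℝ} (hρ : 0 < ρ)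
    {φ : E → ℝ} (hφ : IsTest (ball (0 : E) ρ) φ) {s : ℝ}
    (hs : C * ‖s • w‖ < 1 / 2) (hsR : ρ + ‖s • w‖ < R / 2)
    (hF : MemLp (fun ζ => fderiv ℝ φ ζ (bv 2) • w - fderiv ℝ φ ζ w • bv 2) 2
      (volume.restrict (HB R))) :
    HasDerivAt (fun s : ℝ => Jf R (fun ζ => u (Φ ζ)) (fun ζ => φ (ζ - s • w)))
      ⟪Gf Φ u η R w s, hF.toLp⟫_ℝ s := by
  have oH := HB_open R
  have hR := h.hR
  set v : E → ℝ := fun ζ => u (Φ ζ) with hv
  have hsol := h.sol
  have hvs : ContDiffOn ℝ 1 v (HB R) := hsol.smooth.of_le (by simp)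
  have hfin : IsFiniteMeasure (volume.restrict (HB R)) := by
    refine ⟨?_⟩
    rw [Measure.restrict_apply_univ]
    exact (measure_mono inter_subset_left).trans_lt measure_ball_lt_top
  set φ₂ : E → ℝ := fun z => fderiv ℝ φ z (bv 2) with hφ₂
  have t2 : IsTest (ball (0 : E) ρ) φ₂ := hφ.fderiv_apply (bv 2)
  have tw : IsTest (ball (0 : E) ρ) (fun z => fderiv ℝ φ z w) := hφ.fderiv_apply w
  have t2w : IsTest (ball (0 : E) ρ) (fun z => fderiv ℝ φ₂ z w) := t2.fderiv_apply w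
  obtain ⟨M₁, hM₁⟩ := t2w.1.continuous.bounded_above_of_compact_support t2w.2.1
  obtain ⟨M₂, hM₂⟩ := tw.1.continuous.bounded_above_of_compact_support tw.2.1
  have mv2 : MemLp (fun ζ => fderiv ℝ v ζ (bv 2)) 2 (volume.restrict (HB R)) :=
    memLp_dir hsol.memG (bv 2)
  have iv : Integrable v (volume.restrict (HB R)) := hsol.mem.integrable (by norm_num)
  have iv2 : Integrable (fun ζ => fderiv ℝ v ζ (bv 2)) (volume.restrict (HB R)) :=
    mv2.integrable (by norm_num)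
  have cs : ∀ (f : E → ℝ), Continuous f → ∀ s : ℝ, Continuous (fun ζ => f (ζ - s • w)) :=
    fun f hf s => hf.comp (by fun_prop)
  -- differentiation under the integral sign
  have hder := (hasDerivAt_integral_of_dominated_loc_of_deriv_le
    (μ := volume.restrict (HB R)) (s := univ) (x₀ := s)
    (F := fun (s : ℝ) ζ => v ζ * φ₂ (ζ - s • w) + fderiv ℝ v ζ (bv 2) * φ (ζ - s • w))
    (F' := fun (s : ℝ) ζ => v ζ * (-fderiv ℝ φ₂ (ζ - s • w) w) +
      fderiv ℝ v ζ (bv 2) * (-fderiv ℝ φ (ζ - s • w) w))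
    (bound := fun ζ => M₁ * |v ζ| + M₂ * |fderiv ℝ v ζ (bv 2)|)
    univ_mem (Eventually.of_forall (fun s => ?_)) ?_ ?_ ?_ ?_ ?_).2
  rotate_left
  · exact (hsol.mem.1.mul (cs φ₂ t2.1.continuous s).aestronglyMeasurable).add
      (mv2.1.mul (cs φ hφ.1.continuous s).aestronglyMeasurable)
  · have b1 : MemLp (fun ζ => φ₂ (ζ - s • w)) 2 (volume.restrict (HB R)) :=
      (t2.shift (s • w)).memLp _
    have b2 : MemLp (fun ζ => φ (ζ - s • w)) 2 (volume.restrict (HB R)) :=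
      (hφ.shift (s • w)).memLp _
    exact (int_mul hsol.mem b1).add (int_mul mv2 b2)
  · exact (hsol.mem.1.mul (cs _ t2w.1.continuous s).neg.aestronglyMeasurable).add
      (mv2.1.mul (cs _ tw.1.continuous s).neg.aestronglyMeasurable)
  · refine Eventually.of_forall (fun ζ s _ => ?_)
    refine (norm_add_le _ _).trans ?_
    rw [norm_mul, norm_mul, norm_neg, norm_neg, Real.norm_eq_abs (v ζ),
      Real.norm_eq_abs (fderiv ℝ v ζ (bv 2)), mul_comm M₁, mul_comm M₂]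
    exact add_le_add (mul_le_mul_of_nonneg_left (hM₁ _) (abs_nonneg _))
      (mul_le_mul_of_nonneg_left (hM₂ _) (abs_nonneg _))
  · exact (iv.abs.const_mul M₁).add (iv2.abs.const_mul M₂)
  · refine Eventually.of_forall (fun ζ s _ => ?_)
    have hl : HasDerivAt (fun s : ℝ => ζ - s • w) (-w) s := by
      have := ((hasDerivAt_id s).smul_const w).const_sub ζ
      simpa using this
    have d1 : HasDerivAt (fun s : ℝ => φ₂ (ζ - s • w)) (-fderiv ℝ φ₂ (ζ - s • w) w) s := by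
      have := HasFDerivAt.comp_hasDerivAt (f := fun s : ℝ => ζ - s • w) s
        ((t2.1.differentiable (by simp) (ζ - s • w)).hasFDerivAt) hl
      rw [map_neg] at this
      exact this
    have d2 : HasDerivAt (fun s : ℝ => φ (ζ - s • w)) (-fderiv ℝ φ (ζ - s • w) w) s := by
      have := HasFDerivAt.comp_hasDerivAt (f := fun s : ℝ => ζ - s • w) s
        ((hφ.1.differentiable (by simp) (ζ - s • w)).hasFDerivAt) hl
      rw [map_neg] at this
      exact this
    exact (d1.const_mul _).fun_add (d2.const_mul _)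
  -- the function
  have hfun : (fun s : ℝ => Jf R v (fun ζ => φ (ζ - s • w))) = fun s : ℝ =>
      ∫ ζ in HB R, (v ζ * φ₂ (ζ - s • w) + fderiv ℝ v ζ (bv 2) * φ (ζ - s • w)) := by
    funext s
    unfold Jf
    simp_rw [shift_fderiv]
    rfl
  rw [hfun]
  suffices hEq : ⟪Gf Φ u η R w s, hF.toLp⟫_ℝ = ∫ ζ in HB R,
      (v ζ * (-fderiv ℝ φ₂ (ζ - s • w) w) +
      fderiv ℝ v ζ (bv 2) * (-fderiv ℝ φ (ζ - s • w) w)) by
    rw [hEq]
    exact hder
  -- tangential integration by parts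
  have hsw : ‖s • w‖ < R / 2 := by linarith
  have hsub : ball (0 + s • w) ρ ⊆ ball (0 : E) R := by
    apply ball_subset_ball'
    rw [dist_eq_norm, sub_zero, zero_add]
    linarith
  have hψ : IsTest (ball (0 : E) R) (fun ζ => φ₂ (ζ - s • w)) := (t2.shift (s • w)).mono hsub
  have htan := jump_zero hvs hsol.mem hsol.memG hψ hw2
  simp_rw [shift_fderiv] at htan
  have hψw : IsTest (ball (0 : E) R) (fun ζ => fderiv ℝ φ₂ (ζ - s • w) w) :=
    (t2w.shift (s • w)).mono hsub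
  have hψw' : IsTest (ball (0 : E) R) (fun ζ => fderiv ℝ φ (ζ - s • w) w) :=
    (tw.shift (s • w)).mono hsub
  have mvw : MemLp (fun ζ => fderiv ℝ v ζ w) 2 (volume.restrict (HB R)) :=
    memLp_dir hsol.memG w
  have k1 : Integrable (fun ζ => v ζ * fderiv ℝ φ₂ (ζ - s • w) w)
      (volume.restrict (HB R)) := int_mul hsol.mem (hψw.memLp _)
  have k2 : Integrable (fun ζ => fderiv ℝ v ζ w * φ₂ (ζ - s • w))
      (volume.restrict (HB R)) := int_mul mvw (hψ.memLp _)
  have k3 : Integrable (fun ζ => fderiv ℝ v ζ (bv 2) * fderiv ℝ φ (ζ - s • w) w)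
      (volume.restrict (HB R)) := int_mul mv2 (hψw'.memLp _)
  set k : E → ℝ := fun ζ => fderiv ℝ v ζ w * φ₂ (ζ - s • w) -
    fderiv ℝ v ζ (bv 2) * fderiv ℝ φ (ζ - s • w) w with hk
  have e1 : ∫ ζ in HB R, (v ζ * (-fderiv ℝ φ₂ (ζ - s • w) w) +
      fderiv ℝ v ζ (bv 2) * (-fderiv ℝ φ (ζ - s • w) w)) = ∫ ζ in HB R, k ζ := by
    rw [integral_add k1 k2] at htan
    have e2 : ∫ ζ in HB R, k ζ = (∫ ζ in HB R, fderiv ℝ v ζ w * φ₂ (ζ - s • w)) -
        ∫ ζ in HB R, fderiv ℝ v ζ (bv 2) * fderiv ℝ φ (ζ - s • w) w := integral_sub k2 k3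
    have e3 : ∫ ζ in HB R, (v ζ * (-fderiv ℝ φ₂ (ζ - s • w) w) +
      fderiv ℝ v ζ (bv 2) * (-fderiv ℝ φ (ζ - s • w) w)) =
        (∫ ζ in HB R, -(v ζ * fderiv ℝ φ₂ (ζ - s • w) w)) -
          ∫ ζ in HB R, fderiv ℝ v ζ (bv 2) * fderiv ℝ φ (ζ - s • w) w := by
      have k1n : Integrable (fun ζ => -(v ζ * fderiv ℝ φ₂ (ζ - s • w) w))
        (volume.restrict (HB R)) := k1.neg
      rw [← integral_sub k1n k3]
      congr 1
      funext ζ
      ring
    rw [e3, e2, integral_neg]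
    linarith
  rw [e1]
  -- translation
  have hk0 : ∀ ζ ∉ ball (0 : E) R, k ζ = 0 := by
    intro ζ hζ
    have a1 : ζ ∉ tsupport (fun ζ => φ₂ (ζ - s • w)) := fun h' => hζ (hψ.2.2 h')
    have a2 : ζ ∉ tsupport (fun ζ => fderiv ℝ φ (ζ - s • w) w) := fun h' => hζ (hψw'.2.2 h')
    have b1 := image_eq_zero_of_notMem_tsupport a1
    have b2 := image_eq_zero_of_notMem_tsupport a2
    simp only [hk]
    rw [b1, b2]
    ring
  have hout : ∀ ζ ∉ ball (0 : E) ρ, fderiv ℝ φ ζ = 0 := fun ζ hζ =>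
    fderiv_zero_of (fun h' => hζ (hφ.2.2 h'))
  have hks : ∀ ζ, k (ζ + s • w) = fderiv ℝ v (ζ + s • w) w * fderiv ℝ φ ζ (bv 2) -
      fderiv ℝ v (ζ + s • w) (bv 2) * fderiv ℝ φ ζ w := by
    intro ζ
    simp only [hk, hφ₂, add_sub_cancel_right]
  have hρR : ρ < R := by linarith [norm_nonneg (s • w)]
  have hk0' : ∀ ζ ∉ ball (0 : E) R, k (ζ + s • w) = 0 := by
    intro ζ hζ
    rw [hks, hout ζ (fun h' => hζ (ball_subset_ball hρR.le h'))]
    simp
  rw [int_HB hk0, ← integral_add_right_eq_self k (s • w), ← int_HB hk0', L2.inner_def]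
  apply integral_congr_ae
  obtain ⟨m1, -, -, -⟩ := h.moved hη hs.le (by linarith) (by simp [hw2])
  filter_upwards [Gf_coe m1.memG, hF.coeFn_toLp, ae_restrict_mem oH.measurableSet]
    with ζ h3 h4 h5
  rw [h3, h4, hks, inner_sub_right, real_inner_smul_right, real_inner_smul_right, inner_grad,
    inner_grad]
  by_cases hζ : ζ ∈ ball (0 : E) ρ
  · have hloc : (fun ζ => u (Φ (psi η (s • w) ζ))) =ᶠ[𝓝 ζ] fun z => v (z + s • w) := by
      have hζ2 : ζ ∈ ball (0 : E) (R / 2) :=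
        ball_subset_ball (by linarith [norm_nonneg (s • w)]) hζ
      filter_upwards [isOpen_ball.mem_nhds hζ2] with z hz
      simp [psi, hη1 z hz, hv]
    rw [hloc.fderiv_eq, fderiv_comp_add_right]
    ring
  · rw [hout ζ hζ]
    simp

end Pool.Agent.Run7.h982
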