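import Pool.Agent.Run7.h982.J7

/-!
# Insulating cracks: propagation of the absence of a jump
-/

set_option autoImplicit false

open MeasureTheory Set Filter Topology Metric
open scoped ContDiff ENNReal NNReal InnerProductSpace

namespace Pool.Agent.Run7.h982

variable {Ω S : Set E} {u : E → ℝ} {Φ : OpenPartialHomeomorph E E} {R : ℝ}

theorem Loc.propagate (h : Loc Ω S u Φ R) (ha1 : ContDiffOn ℝ ω Φ Φ.source)
    (ha2 : ContDiffOn ℝ ω Φ.symm Φ.target) {η : E → ℝ} {C : ℝ} (hη : Cut R η C)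
    (hη1 : ∀ ζ ∈ ball (0 : E) (R / 2), η ζ = 1) {w : E} (hw2 : w 2 = 0) {ρ : ℝ} (hρ : 0 < ρ)
    (hs : C * ‖(2 : ℝ) • w‖ < 1 / 2) (hsR : ρ + ‖(2 : ℝ) • w‖ < R / 2)
    (hfree : ∀ ψ, IsTest (ball w (2 * ρ)) ψ → Jf R (fun ζ => u (Φ ζ)) ψ = 0)
    {φ : E → ℝ} (hφ : IsTest (ball (0 : E) ρ) φ) : Jf R (fun ζ => u (Φ ζ)) φ = 0 := by
  have hC0 : 0 ≤ C := (norm_nonneg _).trans (hη.bd 0)
  have hF : MemLp (fun ζ => fderiv ℝ φ ζ (bv 2) • w - fderiv ℝ φ ζ w • bv 2) 2
      (volume.restrict (HB R)) := by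
    have hsm : ∀ (f : E → ℝ) (c : E), MemLp f 2 (volume.restrict (HB R)) →
        MemLp (fun ζ => f ζ • c) 2 (volume.restrict (HB R)) := by
      intro f c hf
      apply MemLp.of_le_mul (c := ‖c‖) hf
      · exact hf.1.smul_const c
      · refine Eventually.of_forall (fun ζ => ?_)
        rw [norm_smul, mul_comm]
    exact (hsm _ w ((hφ.fderiv_apply (bv 2)).memLp _)).sub
      (hsm _ (bv 2) ((hφ.fderiv_apply w).memLp _))
  set D : ℝ → ℝ := fun s => Jf R (fun ζ => u (Φ ζ)) (fun ζ => φ (ζ - s • w)) with hD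
  set g : ℝ → ℝ := fun s => ⟪Gf Φ u η R w s, hF.toLp⟫_ℝ with hg
  have hle : ∀ s ∈ Ioo (-2 : ℝ) 2, ‖s • w‖ ≤ ‖(2 : ℝ) • w‖ := by
    intro s hs'
    rw [norm_smul, norm_smul]
    apply mul_le_mul_of_nonneg_right _ (norm_nonneg w)
    rw [Real.norm_eq_abs, Real.norm_eq_abs, abs_of_pos (by norm_num : (0 : ℝ) < 2)]
    exact (abs_lt.2 hs').le
  have hcs : ∀ s ∈ Ioo (-2 : ℝ) 2, C * ‖s • w‖ < 1 / 2 := fun s hs' =>
    (mul_le_mul_of_nonneg_left (hle s hs') hC0).trans_lt hs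
  have hder : ∀ s ∈ Ioo (-2 : ℝ) 2, HasDerivAt D (g s) s := by
    intro s hs'
    exact h.D_deriv hη hη1 hw2 hρ hφ (hcs s hs') (by linarith [hle s hs']) hF
  have hgan : AnalyticOnNhd ℝ g (Ioo (-2) 2) := by
    intro s hs'
    have h1 := h.flow_an ha1 ha2 hη hw2 (hcs s hs') (by
      have := h.hR
      linarith [hle s hs'])
    have h2 : g = fun s => (innerSL ℝ hF.toLp) (Gf Φ u η R w s) := by
      funext s
      simp only [hg]
      rw [real_inner_comm]
      rfl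
    rw [h2]
    exact AnalyticAt.comp (f := Gf Φ u η R w) ((innerSL ℝ hF.toLp).analyticAt _) h1
  have hD0 : D =ᶠ[𝓝 1] fun _ => 0 := by
    have h1 : ∀ᶠ s : ℝ in 𝓝 1, ‖(s - 1) • w‖ < ρ := by
      have h2 : ContinuousAt (fun s : ℝ => ‖(s - 1) • w‖) 1 := by fun_prop
      exact h2.eventually (gt_mem_nhds (by simpa using hρ))
    filter_upwards [h1] with s hs'
    apply hfree
    refine (hφ.shift (s • w)).mono ?_
    apply ball_subset_ball'
    rw [dist_eq_norm, zero_add]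
    have : s • w - w = (s - 1) • w := by module
    rw [this]
    linarith
  have h1mem : (1 : ℝ) ∈ Ioo (-2 : ℝ) 2 := by constructor <;> norm_num
  have h0mem : (0 : ℝ) ∈ Ioo (-2 : ℝ) 2 := by constructor <;> norm_num
  have hg0 : g =ᶠ[𝓝 1] 0 := by
    filter_upwards [hD0.eventuallyEq_nhds, isOpen_Ioo.mem_nhds h1mem] with s h1 h2
    have h3 : HasDerivAt D 0 s := (hasDerivAt_const s (0 : ℝ)).congr_of_eventuallyEq h1
    exact (hder s h2).unique h3
  have hgz : EqOn g 0 (Ioo (-2) 2) :=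
    hgan.eqOn_zero_of_preconnected_of_eventuallyEq_zero isPreconnected_Ioo h1mem hg0
  have hc : D 0 = D 1 := by
    apply isOpen_Ioo.is_const_of_deriv_eq_zero isPreconnected_Ioo
      (fun s hs' => (hder s hs').differentiableAt.differentiableWithinAt) _ h0mem h1mem
    intro s hs'
    rw [(hder s hs').deriv]
    exact hgz hs'
  have h2 : D 0 = Jf R (fun ζ => u (Φ ζ)) φ := by
    simp only [hD, zero_smul, sub_zero]
  rw [← h2, hc]
  exact hD0.eq_of_nhds

/-- test functions in charts -/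
theorem comp_test {Θ : OpenPartialHomeomorph E E} (h1 : ContDiffOn ℝ ∞ Θ Θ.source) {A : Set E}
    (hA : A ⊆ Θ.source) {φ : E → ℝ} (hφ : IsTest (Θ '' A) φ) :
    IsTest A (Θ.source.indicator (fun ζ => φ (Θ ζ))) := by
  have hK : IsCompact (Θ.symm '' tsupport φ) := by
    apply hφ.2.1.isCompact.image_of_continuousOn
    apply Θ.continuousOn_symm.mono
    intro x hx
    obtain ⟨ζ, hζ, rfl⟩ := hφ.2.2 hx
    exact Θ.map_source (hA hζ)
  have hKA : Θ.symm '' tsupport φ ⊆ A := by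
    rintro _ ⟨x, hx, rfl⟩
    obtain ⟨ζ, hζ, rfl⟩ := hφ.2.2 hx
    rw [Θ.left_inv (hA hζ)]
    exact hζ
  have h0 : ∀ ζ ∉ Θ.symm '' tsupport φ, Θ.source.indicator (fun ζ => φ (Θ ζ)) ζ = 0 := by
    intro ζ hζ
    by_cases hs : ζ ∈ Θ.source
    · rw [indicator_of_mem hs]
      apply image_eq_zero_of_notMem_tsupport
      intro h
      exact hζ ⟨Θ ζ, h, Θ.left_inv hs⟩
    · rw [indicator_of_notMem hs]
  have hts : tsupport (Θ.source.indicator (fun ζ => φ (Θ ζ))) ⊆ Θ.symm '' tsupport φ := by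
    apply closure_minimal _ hK.isClosed
    intro ζ hζ
    by_contra h
    exact hζ (h0 ζ h)
  refine ⟨?_, HasCompactSupport.of_support_subset_isCompact hK (subset_closure.trans hts),
    hts.trans hKA⟩
  rw [contDiff_iff_contDiffAt]
  intro ζ
  by_cases hs : ζ ∈ Θ.source
  · have h2 : ContDiffAt ℝ ∞ (fun ζ => φ (Θ ζ)) ζ :=
      hφ.1.contDiffAt.comp ζ (h1.contDiffAt (Θ.open_source.mem_nhds hs))
    apply h2.congr_of_eventuallyEq
    filter_upwards [Θ.open_source.mem_nhds hs] with z hz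
    rw [indicator_of_mem hz]
  · have h2 : ζ ∉ Θ.symm '' tsupport φ := fun h => hs (hA (hKA h))
    have h3 : Θ.source.indicator (fun ζ => φ (Θ ζ)) =ᶠ[𝓝 ζ] fun _ => 0 := by
      filter_upwards [hK.isClosed.isOpen_compl.mem_nhds h2] with z hz
      exact h0 z hz
    exact contDiffAt_const.congr_of_eventuallyEq h3

end Pool.Agent.Run7.h982
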