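import Pool.Agent.Run7.h982.J8

/-!
# Insulating cracks: propagation of the absence of a jump along an analytic surface
-/

set_option autoImplicit false

open MeasureTheory Set Filter Topology Metric
open scoped ContDiff ENNReal NNReal InnerProductSpace

namespace Pool.Agent.Run7.h982

variable {Ω S : Set E} {u : E → ℝ} {Φ : OpenPartialHomeomorph E E} {R : ℝ}

theorem detabs_smooth (h1 : ContDiffOn ℝ ∞ Φ Φ.source) (h2 : ContDiffOn ℝ ∞ Φ.symm Φ.target) :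
    ContDiffOn ℝ ∞ (fun ζ => |(fderiv ℝ Φ ζ).det|) Φ.source := by
  intro ζ hζ
  apply ContDiffAt.contDiffWithinAt
  have e1 : ContDiffAt ℝ ∞ (fderiv ℝ Φ) ζ :=
    (h1.contDiffAt (Φ.open_source.mem_nhds hζ)).fderiv_right (m := ∞) (by simp)
  have e2 : ContDiffAt ℝ ∞ (fun ζ => (fderiv ℝ Φ ζ).det) ζ := contDiff_det.contDiffAt.comp ζ e1
  exact ContDiffAt.comp (g := fun x : ℝ => |x|) ζ
    (contDiffAt_abs (det_ne_zero (chart_inv h1 h2 hζ).1)) e2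

theorem dt_smooth (h2 : ContDiffOn ℝ ∞ Φ.symm Φ.target) (e : E) :
    ContDiffOn ℝ ∞ (fun x => fderiv ℝ (fun x => Φ.symm x 2) x e) Φ.target := by
  have h3 : ContDiffOn ℝ ∞ (fun x => Φ.symm x 2) Φ.target := (coord_smooth 2).comp_contDiffOn h2
  exact (h3.fderiv_of_isOpen Φ.open_target (by simp)).clm_apply contDiffOn_const

/-- the normal derivative of the height is one -/
theorem dt_one (h1 : ContDiffOn ℝ ∞ Φ Φ.source) (h2 : ContDiffOn ℝ ∞ Φ.symm Φ.target)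
    {ζ : E} (hζ : ζ ∈ Φ.source) (y : E) :
    fderiv ℝ (fun x => Φ.symm x 2) (Φ ζ) (fderiv ℝ Φ ζ y) = y 2 := by
  have hT := Φ.map_source hζ
  have d1 : HasFDerivAt Φ.symm (fderiv ℝ Φ.symm (Φ ζ)) (Φ ζ) :=
    ((h2.contDiffAt (Φ.open_target.mem_nhds hT)).differentiableAt (by simp)).hasFDerivAt
  have d2 : HasFDerivAt (fun x => Φ.symm x 2) ((EuclideanSpace.proj (𝕜 := ℝ) (2 : Fin 3)).comp
      (fderiv ℝ Φ.symm (Φ ζ))) (Φ ζ) :=
    (EuclideanSpace.proj (𝕜 := ℝ) (2 : Fin 3)).hasFDerivAt.comp (Φ ζ) d1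
  obtain ⟨k1, k2⟩ := chart_inv h1 h2 hζ
  have h3 : (fderiv ℝ Φ.symm (Φ ζ)) ∘L (fderiv ℝ Φ ζ) = ContinuousLinearMap.id ℝ E := by
    rw [← k2]
    exact k1.inverse_comp_self
  have h4 : fderiv ℝ Φ.symm (Φ ζ) (fderiv ℝ Φ ζ y) = y :=
    congrArg (fun L : E →L[ℝ] E => L y) h3
  rw [d2.fderiv]
  show (fderiv ℝ Φ.symm (Φ ζ) (fderiv ℝ Φ ζ y)) 2 = y 2
  rw [h4]

theorem jump_split (_hΩ : IsOpen Ω) (hS : IsCompact S) (hu : Sol Ω S u) {φ : E → ℝ}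
    (hφ : IsTest Ω φ) (e : E) :
    (∫ x in Sᶜ, u x * fderiv ℝ φ x e = - ∫ x in Sᶜ, fderiv ℝ u x e * φ x) ↔
      ∫ x in Sᶜ, (u x * fderiv ℝ φ x e + fderiv ℝ u x e * φ x) = 0 := by
  have oc : MeasurableSet Sᶜ := hS.isClosed.isOpen_compl.measurableSet
  have i1 : IntegrableOn (fun x => u x * fderiv ℝ φ x e) Sᶜ := by
    apply IntegrableOn.of_forall_sdiff_eq_zero (s := Ω \ S)
      (int_mul hu.mem ((hφ.fderiv_apply e).memLp _)) oc
    rintro x ⟨hx, hx2⟩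
    have hxΩ : x ∉ Ω := fun h => hx2 ⟨h, hx⟩
    rw [fderiv_zero_of (fun h => hxΩ (hφ.2.2 h))]
    simp
  have i2 : IntegrableOn (fun x => fderiv ℝ u x e * φ x) Sᶜ := by
    apply IntegrableOn.of_forall_sdiff_eq_zero (s := Ω \ S)
      (int_mul (memLp_dir hu.memG e) (hφ.memLp _)) oc
    rintro x ⟨hx, hx2⟩
    have hxΩ : x ∉ Ω := fun h => hx2 ⟨h, hx⟩
    rw [image_eq_zero_of_notMem_tsupport (fun h => hxΩ (hφ.2.2 h))]
    simp
  rw [integral_add i1 i2]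
  constructor <;> intro h <;> linarith

theorem Loc.free_to (h : Loc Ω S u Φ R) {e : E}
    (he : ∀ ζ ∈ ball (0 : E) R, fderiv ℝ (fun x => Φ.symm x 2) (Φ ζ) e ≠ 0) {z : E} {r : ℝ}
    (hz : ball z r ⊆ ball (0 : E) R) {U : Set E} (hU : Φ '' ball z r ⊆ U)
    (hfree : ∀ φ, IsTest U φ → ∀ e : E,
      ∫ x in Sᶜ, u x * fderiv ℝ φ x e = - ∫ x in Sᶜ, fderiv ℝ u x e * φ x)
    {ψ : E → ℝ} (hψ : IsTest (ball z r) ψ) : Jf R (fun ζ => u (Φ ζ)) ψ = 0 := by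
  have hbs : ball (0 : E) R ⊆ Φ.source := ball_subset_closedBall.trans h.hbR
  have hzs := hz.trans hbs
  set A := Φ '' ball z r with hA
  have oA : IsOpen A := Φ.isOpen_image_of_subset_source isOpen_ball hzs
  have hAT : A ⊆ Φ.target := by
    rintro _ ⟨ζ, hζ, rfl⟩
    exact Φ.map_source (hzs hζ)
  have hAs : Φ.symm '' A = ball z r := by
    rw [hA]
    exact Φ.symm_image_image_of_subset_source hzs
  have t1 : IsTest A (Φ.symm.source.indicator (fun x => ψ (Φ.symm x))) := by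
    apply comp_test h.h2 hAT
    rw [hAs]
    exact hψ
  have hdet : ContDiffOn ℝ ∞ (fun x => |(fderiv ℝ Φ (Φ.symm x)).det|) A :=
    (detabs_smooth h.h1 h.h2).comp (h.h2.mono hAT) (fun x hx => Φ.map_target (hAT hx))
  have hg : ContDiffOn ℝ ∞ (fun x => (|(fderiv ℝ Φ (Φ.symm x)).det| *
      fderiv ℝ (fun x => Φ.symm x 2) x e)⁻¹) A := by
    apply ContDiffOn.inv (hdet.mul ((dt_smooth h.h2 e).mono hAT))
    rintro _ ⟨ζ, hζ, rfl⟩
    apply mul_ne_zero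
    · rw [Φ.left_inv (hzs hζ)]
      exact abs_ne_zero.2 (det_ne_zero (chart_inv h.h1 h.h2 (hzs hζ)).1)
    · exact he ζ (hz hζ)
  have t2 := isTest_mul oA hg t1
  have hUR : A ⊆ Φ '' ball (0 : E) R := image_mono hz
  have hzero := hfree _ (t2.mono hU) e
  rw [jump_split h.hΩ h.hS h.hu (t2.mono (hAT.trans h.hT)) e] at hzero
  rw [← hzero, ← h.conv (t2.mono hUR) e (hψ.mono hz) ?_]
  intro ζ hζ
  have hs := hbs hζ
  have hT := Φ.map_source hs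
  rw [indicator_of_mem (show Φ ζ ∈ Φ.symm.source from hT), Φ.left_inv hs]
  have h3 := he ζ hζ
  have h4 : |(fderiv ℝ Φ ζ).det| ≠ 0 :=
    abs_ne_zero.2 (det_ne_zero (chart_inv h.h1 h.h2 hs).1)
  field_simp

theorem Loc.free_of (h : Loc Ω S u Φ R) {r : ℝ} (hr : r ≤ R)
    (hfree : ∀ ψ, IsTest (ball (0 : E) r) ψ → Jf R (fun ζ => u (Φ ζ)) ψ = 0) :
    ∀ φ, IsTest (Φ '' ball (0 : E) r) φ → ∀ e : E,
      ∫ x in Sᶜ, u x * fderiv ℝ φ x e = - ∫ x in Sᶜ, fderiv ℝ u x e * φ x := by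
  intro φ hφ e
  have hbs : ball (0 : E) R ⊆ Φ.source := ball_subset_closedBall.trans h.hbR
  have hrR : ball (0 : E) r ⊆ ball (0 : E) R := ball_subset_ball hr
  have hrs := hrR.trans hbs
  have hUΩ : Φ '' ball (0 : E) r ⊆ Ω := by
    rintro _ ⟨ζ, hζ, rfl⟩
    exact h.hT (Φ.map_source (hrs hζ))
  rw [jump_split h.hΩ h.hS h.hu (hφ.mono hUΩ) e]
  have t1 := comp_test h.h1 hrs hφ
  have hg : ContDiffOn ℝ ∞ (fun ζ => fderiv ℝ (fun x => Φ.symm x 2) (Φ ζ) e *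
      |(fderiv ℝ Φ ζ).det|) (ball (0 : E) r) :=
    ((dt_smooth h.h2 e).comp (h.h1.mono hrs) (fun ζ hζ => Φ.map_source (hrs hζ))).mul
      ((detabs_smooth h.h1 h.h2).mono hrs)
  have t2 := isTest_mul isOpen_ball hg t1
  rw [h.conv (hφ.mono (image_mono hrR)) e (t2.mono hrR) ?_]
  · exact hfree _ t2
  · intro ζ hζ
    rw [indicator_of_mem (hbs hζ)]
    ring

/-- **Propagation of the absence of a jump along an analytic surface.** -/
theorem jump : J_stm := by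
  intro Ω S u hΩ hS hSΩ hu p hp hint hcl
  obtain ⟨Φ₀, k0, k1, k2, k3, k4⟩ := hint
  obtain ⟨Φ, m0, m1, m2, m3, m4, m5⟩ := rechart k2 k3 Φ₀.open_source Subset.rfl k0 (by simp) k4 hΩ
    (by rw [k1]; exact hSΩ hp)
  rw [k1] at m1
  have g1 : ContDiffOn ℝ ∞ Φ Φ.source := m2.of_le le_top
  have g2 : ContDiffOn ℝ ∞ Φ.symm Φ.target := m3.of_le le_top
  set e : E := fderiv ℝ Φ 0 (bv 2) with he
  have hN0 : fderiv ℝ (fun x => Φ.symm x 2) (Φ 0) e = 1 := by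
    rw [he, dt_one g1 g2 m0]
    simp [bv]
  have hNc : ContinuousOn (fun ζ => fderiv ℝ (fun x => Φ.symm x 2) (Φ ζ) e) Φ.source :=
    (dt_smooth g2 e).continuousOn.comp Φ.continuousOn (fun ζ hζ => Φ.map_source hζ)
  have hNn : ∀ᶠ ζ in 𝓝 (0 : E), ζ ∈ Φ.source ∧
      fderiv ℝ (fun x => Φ.symm x 2) (Φ ζ) e ≠ 0 := by
    have h1 : ContinuousAt (fun ζ => fderiv ℝ (fun x => Φ.symm x 2) (Φ ζ) e) 0 :=
      hNc.continuousAt (Φ.open_source.mem_nhds m0)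
    have hsrc : ∀ᶠ ζ in 𝓝 (0 : E), ζ ∈ Φ.source := Φ.open_source.mem_nhds m0
    refine hsrc.and ?_
    apply h1.eventually_ne
    rw [hN0]
    exact one_ne_zero
  obtain ⟨R₀, hR₀, hb₀⟩ := Metric.mem_nhds_iff.1 hNn
  set R := R₀ / 4 with hR
  have hRpos : 0 < R := by positivity
  have hloc : Loc Ω S u Φ R := by
    refine ⟨hΩ, hS, hu, g1, g2, m4, hRpos, ?_, m5⟩
    intro ζ hζ
    exact (hb₀ (closedBall_subset_ball (by linarith) hζ)).1
  have heR : ∀ ζ ∈ ball (0 : E) R, fderiv ℝ (fun x => Φ.symm x 2) (Φ ζ) e ≠ 0 := by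
    intro ζ hζ
    exact (hb₀ (ball_subset_ball (by linarith) hζ)).2
  obtain ⟨η, c1, c2, c3, c4, W, c5, c6, c7⟩ := cutoff (isCompact_closedBall (0 : E) (R / 2))
    (isOpen_ball (x := (0 : E)) (ε := R)) (closedBall_subset_ball (by linarith))
  obtain ⟨C, hC⟩ : ∃ C : ℝ, ∀ ζ, ‖fderiv ℝ η ζ‖ ≤ C :=
    (c1.continuous_fderiv (by simp)).bounded_above_of_compact_support (c2.fderiv (𝕜 := ℝ))
  have hcut : Cut R η C := ⟨c1, c2, c3, fun ζ => by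
    rw [abs_le]; constructor <;> linarith [(c4 ζ).1, (c4 ζ).2], hC⟩
  have hη1 : ∀ ζ ∈ ball (0 : E) (R / 2), η ζ = 1 := fun ζ hζ =>
    c7 ζ (c6 (ball_subset_closedBall hζ))
  -- a nearby point without jump
  have hpT : p ∈ Φ.target := by rw [← m1]; exact Φ.map_source m0
  have hsp : Φ.symm p = 0 := by rw [← m1, Φ.left_inv m0]
  have hcont : ContinuousAt Φ.symm p := Φ.continuousAt_symm hpT
  have hnear : ∀ᶠ q in 𝓝 p, q ∈ Φ.target ∧ C * ‖(2 : ℝ) • Φ.symm q‖ < 1 / 2 ∧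
      ‖(2 : ℝ) • Φ.symm q‖ < R / 4 := by
    have a1 : Tendsto (fun q => C * ‖(2 : ℝ) • Φ.symm q‖) (𝓝 p)
        (𝓝 (C * ‖(2 : ℝ) • Φ.symm p‖)) := ((hcont.const_smul (2 : ℝ)).norm).const_mul C
    have a2 : Tendsto (fun q => ‖(2 : ℝ) • Φ.symm q‖) (𝓝 p)
        (𝓝 (‖(2 : ℝ) • Φ.symm p‖)) := (hcont.const_smul (2 : ℝ)).norm
    rw [hsp, smul_zero, norm_zero] at a1 a2
    rw [mul_zero] at a1
    have htg : ∀ᶠ q in 𝓝 p, q ∈ Φ.target := Φ.open_target.mem_nhds hpT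
    exact htg.and ((a1.eventually (gt_mem_nhds (by norm_num))).and
      (a2.eventually (gt_mem_nhds (by positivity))))
  obtain ⟨q, ⟨hq1, hq2, hq3⟩, hqS, Uq, hUo, hqU, hUf⟩ := (mem_closure_iff_nhds.1 hcl _ hnear)
  set w := Φ.symm q with hw
  have hws : w ∈ Φ.source := Φ.map_target hq1
  have hΦw : Φ w = q := Φ.right_inv hq1
  have hw2 : w 2 = 0 := (m4 w hws).1 (by rw [hΦw]; exact hqS)
  have hwR : ‖w‖ < R / 4 := by
    rw [norm_smul, Real.norm_eq_abs, abs_of_pos (by norm_num : (0 : ℝ) < 2)] at hq3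
    linarith [norm_nonneg w]
  -- a small ball around `w`
  have hnb : ∀ᶠ ζ in 𝓝 w, Φ ζ ∈ Uq := by
    apply (Φ.continuousAt hws).eventually
    rw [hΦw]
    exact hUo.mem_nhds hqU
  obtain ⟨δ, hδ, hbδ⟩ := Metric.mem_nhds_iff.1 hnb
  set ρ := min (δ / 2) (R / 8) with hρ
  have hρ0 : 0 < ρ := lt_min (by positivity) (by positivity)
  have hρδ : 2 * ρ ≤ δ := by linarith [min_le_left (δ / 2) (R / 8)]
  have hρR : ρ ≤ R / 8 := min_le_right _ _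
  have hbw : ball w (2 * ρ) ⊆ ball (0 : E) R := by
    apply ball_subset_ball'
    rw [dist_zero_right]
    linarith
  have hUw : Φ '' ball w (2 * ρ) ⊆ Uq := by
    rintro _ ⟨ζ, hζ, rfl⟩
    exact hbδ (ball_subset_ball hρδ hζ)
  have hfree : ∀ ψ, IsTest (ball w (2 * ρ)) ψ → Jf R (fun ζ => u (Φ ζ)) ψ = 0 := fun ψ hψ =>
    hloc.free_to heR hbw hUw hUf hψ
  have hfree0 : ∀ ψ, IsTest (ball (0 : E) ρ) ψ → Jf R (fun ζ => u (Φ ζ)) ψ = 0 := fun ψ hψ =>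
    hloc.propagate m2 m3 hcut hη1 hw2 hρ0 hq2 (by linarith) hfree hψ
  have hfin := hloc.free_of (by linarith) hfree0
  refine ⟨Φ '' ball (0 : E) ρ, ?_, ⟨0, mem_ball_self hρ0, m1⟩, hfin⟩
  apply Φ.isOpen_image_of_subset_source isOpen_ball
  exact (ball_subset_ball (by linarith)).trans (ball_subset_closedBall.trans hloc.hbR)

end Pool.Agent.Run7.h982
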