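import Pool.Agent.Run7.h982.Basic

/-!
# Insulating cracks: potentials are analytic solutions
-/

set_option autoImplicit false

open MeasureTheory Set Filter Topology Metric
open scoped ContDiff ENNReal NNReal InnerProductSpace

namespace Pool.Agent.Run7.h982

theorem trace_of_compact {Ω : Set E} {φ : E → ℝ} {H : E → E} {K : Set E}
    (hK : IsCompact K) (hKΩ : K ⊆ Ω) (hΩ : IsOpen Ω) (h0 : ∀ x ∉ K, φ x = 0)
    (hH : ∀ x ∉ K, H x = 0) : HasTrace Ω φ H (fun _ => 0) := by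
  have hg : gradient (fun _ : E => (0 : ℝ)) = fun _ => 0 := by
    funext x; exact grad_of_fderiv_zero (by simp)
  refine ⟨MemLp.zero, K, hK, hKΩ, fun _ _ => 0, fun _ => contDiff_const, ?_, ?_, ?_⟩
  · have : eLpNorm (fun x => φ x - 0) 2 (volume.restrict (Ω \ K)) = 0 := by
      rw [eLpNorm_congr_ae (g := fun _ => 0), eLpNorm_zero']
      filter_upwards [ae_restrict_mem (hΩ.measurableSet.diff hK.measurableSet)] with x hx
      simp [h0 x hx.2]
    simp only [this]; exact tendsto_const_nhds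
  · have : eLpNorm (fun x => H x - gradient (fun _ : E => (0 : ℝ)) x) 2
        (volume.restrict (Ω \ K)) = 0 := by
      rw [eLpNorm_congr_ae (g := fun _ => 0), eLpNorm_zero']
      filter_upwards [ae_restrict_mem (hΩ.measurableSet.diff hK.measurableSet)] with x hx
      simp [hH x hx.2, hg]
    simp only [this]; exact tendsto_const_nhds
  · simp

theorem surf_ae (Ω : Set E) : ∀ᵐ x ∂(surf Ω), x ∈ frontier Ω := by
  unfold surf
  apply Measure.ae_smul_measure
  exact ae_restrict_mem isClosed_frontier.measurableSet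

theorem memLp_surf {Ω : Set E} (hb : Bornology.IsBounded Ω) (hf : surf Ω univ < ⊤)
    {φ : E → ℝ} (hφ : Continuous φ) (p : ℝ≥0∞) : MemLp φ p (surf Ω) := by
  have : IsFiniteMeasure (surf Ω) := ⟨hf⟩
  have hK : IsCompact (frontier Ω) :=
    Metric.isCompact_of_isClosed_isBounded isClosed_frontier
      (hb.closure.subset frontier_subset_closure)
  obtain ⟨C, hC⟩ := hK.exists_bound_of_continuousOn hφ.continuousOn
  apply MemLp.of_bound hφ.aestronglyMeasurable C
  filter_upwards [surf_ae Ω] with x hx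
  exact hC x hx

theorem trace_of_smooth {Ω : Set E} (hb : Bornology.IsBounded Ω) (hf : surf Ω univ < ⊤)
    {φ : E → ℝ} (hφ : ContDiff ℝ ∞ φ) : HasTrace Ω φ (gradient φ) φ := by
  refine ⟨memLp_surf hb hf hφ.continuous 2, ∅, isCompact_empty, empty_subset _, fun _ => φ,
    fun _ => hφ, ?_, ?_, ?_⟩ <;> simp

theorem HasTrace.mono_K {Ω : Set E} {u v : E → ℝ} {G H : E → E} {f : E → ℝ} {S : Set E}
    (h : HasTrace Ω u G f) (hS : IsCompact S) (hSΩ : S ⊆ Ω)
    (hu : ∀ᵐ x ∂(volume.restrict (Ω \ S)), u x = v x)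
    (hG : ∀ᵐ x ∂(volume.restrict (Ω \ S)), G x = H x) : HasTrace Ω v H f := by
  obtain ⟨h1, K, hK, hKΩ, Φ, h2, h3, h4, h5⟩ := h
  have hle : volume.restrict (Ω \ (K ∪ S)) ≤ volume.restrict (Ω \ K) :=
    Measure.restrict_mono (sdiff_subset_sdiff_right subset_union_left) le_rfl
  have hle2 : volume.restrict (Ω \ (K ∪ S)) ≤ volume.restrict (Ω \ S) :=
    Measure.restrict_mono (sdiff_subset_sdiff_right subset_union_right) le_rfl
  refine ⟨h1, K ∪ S, hK.union hS, union_subset hKΩ hSΩ, Φ, h2, ?_, ?_, h5⟩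
  · refine tendsto_of_tendsto_of_tendsto_of_le_of_le tendsto_const_nhds h3
      (fun _ => zero_le) (fun n => ?_)
    rw [eLpNorm_congr_ae (g := fun x => u x - Φ n x)]
    · exact eLpNorm_mono_measure _ hle
    · filter_upwards [ae_mono hle2 hu] with x hx
      rw [hx]
  · refine tendsto_of_tendsto_of_tendsto_of_le_of_le tendsto_const_nhds h4
      (fun _ => zero_le) (fun n => ?_)
    rw [eLpNorm_congr_ae (g := fun x => G x - gradient (Φ n) x)]
    · exact eLpNorm_mono_measure _ hle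
    · filter_upwards [ae_mono hle2 hG] with x hx
      rw [hx]

theorem GTest.grad_zero {φ : E → ℝ} {K : Set E} (hK : IsCompact K)
    (h0 : ∀ x ∉ K, φ x = 0) : ∀ x ∉ K, gradient φ x = 0 := by
  intro x hx
  apply grad_of_fderiv_zero
  have : φ =ᶠ[𝓝 x] fun _ => 0 := by
    filter_upwards [hK.isClosed.isOpen_compl.mem_nhds hx] with y hy
    exact h0 y hy
  rw [this.fderiv_eq]; simp

theorem GTest.isH1 {Ω S : Set E} (hΩ : IsOpen Ω) (hS : IsCompact S) {φ : E → ℝ}
    (h : GTest Ω S φ) : IsH1 (Ω \ S) φ (gradient φ) :=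
  isH1_of_c1 (hΩ.sdiff hS.isClosed) (h.smooth.mono (fun _ hx => hx.2)) h.mem h.memG

theorem GTest.trace {Ω S : Set E} (hΩ : IsOpen Ω) {φ : E → ℝ}
    (h : GTest Ω S φ) : HasTrace Ω φ (gradient φ) (fun _ => 0) := by
  obtain ⟨K, h1, h2, h3⟩ := h.supp
  exact trace_of_compact h1 h2 hΩ h3 (GTest.grad_zero h1 h3)

theorem IsTest.gtest {Ω S : Set E} {φ : E → ℝ} (hφ : IsTest Ω φ) : GTest Ω S φ where
  smooth := (hφ.1.of_le (by simp)).contDiffOn
  supp := ⟨tsupport φ, hφ.2.1, hφ.2.2, fun _ hx => image_eq_zero_of_notMem_tsupport hx⟩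
  mem := (hφ.1.continuous.memLp_of_hasCompactSupport hφ.2.1).restrict _
  memG := (grad_memLp (hφ.1.of_le (by simp)) hφ.2.1 2 volume).restrict _

theorem IsPotential.gtest {Ω S : Set E} {ψ u : E → ℝ} {G : E → E} {f : E → ℝ}
    (hΩ : IsOpen Ω) (hS : IsCompact S) (h : IsPotential Ω S ψ u G f) {φ : E → ℝ}
    (hφ : GTest Ω S φ) : ∫ x in Ω \ S, ⟪G x, gradient φ x⟫_ℝ = 0 := by
  rw [h.weak φ (gradient φ) _ (hφ.isH1 hΩ hS) (hφ.trace hΩ)]
  simp

theorem IsPotential.sol (hW : W_stm) {Ω S : Set E} {ψ u : E → ℝ} {G : E → E} {f : E → ℝ}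
    (hΩ : IsOpen Ω) (hS : IsCompact S) (hSΩ : S ⊆ Ω) (h : IsPotential Ω S ψ u G f) :
    ∃ v : E → ℝ, Sol Ω S v ∧ IsPotential Ω S ψ v (gradient v) f := by
  obtain ⟨v, h1, h2, h3, h4⟩ := hW (Ω \ S) u G (hΩ.sdiff hS.isClosed) h.h1
    (fun φ hφ => h.gtest hΩ hS (hφ.mono sdiff_subset).gtest)
  have hm : MemLp v 2 (volume.restrict (Ω \ S)) := h.h1.mem.ae_eq h3
  have hmG : MemLp (gradient v) 2 (volume.restrict (Ω \ S)) := h.h1.memG.ae_eq h4
  refine ⟨v, ⟨h1, h2, hm, hmG, fun φ hφ => ?_⟩, ⟨?_, h.trace.mono_K hS hSΩ h3 h4, ?_, h.norm⟩⟩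
  · rw [← h.gtest hΩ hS hφ]
    apply integral_congr_ae
    filter_upwards [h4] with x hx
    rw [hx]
  · apply isH1_of_c1 (hΩ.sdiff hS.isClosed) _ hm hmG
    exact (AnalyticOnNhd.contDiffOn (n := 1) h1 (hΩ.sdiff hS.isClosed).uniqueDiffOn)
  · intro φ H g hφ hg
    rw [← h.weak φ H g hφ hg]
    apply integral_congr_ae
    filter_upwards [h4] with x hx
    rw [hx]

end Pool.Agent.Run7.h982
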