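import Pool.Agent.Run7.h982.D4
import Pool.Agent.Run7.h982.Pot
import Pool.Agent.Run7.h982.Flux

/-!
# Insulating cracks: the flux of a harmonic function as a current profile
-/

set_option autoImplicit false

open MeasureTheory Set Filter Topology Metric
open scoped ContDiff ENNReal NNReal InnerProductSpace

namespace Pool.Agent.Run7.h982

theorem riesz_range {M H : Type*} [AddCommGroup M] [Module ℝ M] [NormedAddCommGroup H]
    [InnerProductSpace ℝ H] [CompleteSpace H] (T : M →ₗ[ℝ] H) (L : M →ₗ[ℝ] ℝ) (C : ℝ)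
    (h : ∀ m, |L m| ≤ C * ‖T m‖) : ∃ ψ : H, ∀ m, L m = ⟪ψ, T m⟫_ℝ := by
  have hker : LinearMap.ker T ≤ LinearMap.ker L := by
    intro m hm
    rw [LinearMap.mem_ker] at hm ⊢
    have := h m
    rw [hm, norm_zero, mul_zero] at this
    exact abs_nonpos_iff.1 this
  set L' : LinearMap.range T →ₗ[ℝ] ℝ :=
    ((LinearMap.ker T).liftQ L hker) ∘ₗ (T.quotKerEquivRange.symm : _ →ₗ[ℝ] _) with hL'
  have hLT : ∀ m, L' ⟨T m, LinearMap.mem_range_self T m⟩ = L m := by
    intro m
    simp only [hL', LinearMap.comp_apply]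
    have := T.quotKerEquivRange_symm_apply_image m (LinearMap.mem_range_self T m)
    rw [LinearEquiv.coe_coe, this, Submodule.mkQ_apply, Submodule.liftQ_apply]
  set f : StrongDual ℝ (LinearMap.range T) := L'.mkContinuous C (by
    rintro ⟨_, m, rfl⟩
    rw [hLT m]
    exact h m) with hf
  obtain ⟨g, hg, -⟩ := exists_extension_norm_eq (LinearMap.range T) f
  refine ⟨(InnerProductSpace.toDual ℝ H).symm g, fun m => ?_⟩
  rw [InnerProductSpace.toDual_symm_apply, ← hLT m]
  exact (hg ⟨T m, LinearMap.mem_range_self T m⟩).symm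

/-- smooth functions -/
def Csm : Submodule ℝ (E → ℝ) where
  carrier := {F | ContDiff ℝ ∞ F}
  add_mem' := by
    intro a b ha hb
    rw [mem_ofPred_eq] at *
    exact ContDiff.add ha hb
  zero_mem' := by
    rw [mem_ofPred_eq]
    exact contDiff_const
  smul_mem' := by
    intro c a ha
    rw [mem_ofPred_eq] at *
    exact ContDiff.const_smul c ha

theorem mem_Csm {F : E → ℝ} : F ∈ Csm ↔ ContDiff ℝ ∞ F := Iff.rfl

theorem Csm.cd (F : Csm) : ContDiff ℝ ∞ (F : E → ℝ) := mem_Csm.1 F.2

theorem int_bdd {Ω : Set E} (hb : Bornology.IsBounded Ω) {F : E → ℝ} (hF : Continuous F) :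
    IntegrableOn F Ω := by
  apply (hF.continuousOn.integrableOn_compact hb.isCompact_closure).mono_set subset_closure

theorem rz : RZ_stm := by
  intro Ω hΩ h hh hlap
  obtain ⟨hfin, C, hC, hdi⟩ := di Ω hΩ
  have hb := hΩ.bdd
  have hmem : ∀ F : E → ℝ, Continuous F → MemLp F 2 (surf Ω) := fun F hF =>
    memLp_surf hb hfin hF 2
  set T : Csm →ₗ[ℝ] Lp ℝ 2 (surf Ω) :=
    { toFun := fun F => (hmem F (Csm.cd F).continuous).toLp
      map_add' := fun F G => by
        rw [← MemLp.toLp_add]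
        rfl
      map_smul' := fun c F => by
        rw [RingHom.id_apply, ← MemLp.toLp_const_smul]
        rfl } with hT
  have hgr : ∀ F : E → ℝ, ContDiff ℝ ∞ F → ∀ x, ⟪gradient h x, gradient F x⟫_ℝ =
      ∑ i, fderiv ℝ h x (bv i) * fderiv ℝ F x (bv i) := by
    intro F hF x
    rw [inner_grad']
    conv_lhs => rw [vec_sum (gradient h x)]
    rw [map_sum]
    apply Finset.sum_congr rfl
    intro i _
    rw [map_smul, smul_eq_mul, ← inner_grad h x (bv i), inner_bv]
  have hci : ∀ F : E → ℝ, ContDiff ℝ ∞ F → ∀ i : Fin 3,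
      ContDiff ℝ ∞ (fun x => fderiv ℝ F x (bv i)) := fun F hF i =>
    (hF.fderiv_right (m := ∞) (by simp)).clm_apply contDiff_const
  have hint : ∀ F : E → ℝ, ContDiff ℝ ∞ F →
      IntegrableOn (fun x => ⟪gradient h x, gradient F x⟫_ℝ) Ω := by
    intro F hF
    apply int_bdd hb
    exact (grad_cont (hh.of_le (by simp))).inner (grad_cont (hF.of_le (by simp)))
  set L : Csm →ₗ[ℝ] ℝ :=
    { toFun := fun F => ∫ x in Ω, ⟪gradient h x, gradient (F : E → ℝ) x⟫_ℝ
      map_add' := fun F G => by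
        have hF : ContDiff ℝ ∞ (F : E → ℝ) := Csm.cd F
        have hG : ContDiff ℝ ∞ (G : E → ℝ) := Csm.cd G
        rw [← integral_add (hint _ hF) (hint _ hG)]
        congr 1
        funext x
        rw [← inner_add_right]
        congr 1
        have : ((F + G : Csm) : E → ℝ) = fun x => (F : E → ℝ) x + (G : E → ℝ) x := rfl
        rw [this]
        unfold gradient
        rw [fderiv_fun_add (hF.differentiable (by simp) x) (hG.differentiable (by simp) x), map_add]
      map_smul' := fun c F => by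
        have hF : ContDiff ℝ ∞ (F : E → ℝ) := Csm.cd F
        rw [RingHom.id_apply, smul_eq_mul, ← integral_const_mul]
        congr 1
        funext x
        have : ((c • F : Csm) : E → ℝ) = fun x => c • (F : E → ℝ) x := rfl
        rw [this]
        have h2 : gradient (fun x => c • (F : E → ℝ) x) x = c • gradient (F : E → ℝ) x := by
          unfold gradient
          rw [fderiv_fun_const_smul (hF.differentiable (by simp) x), map_smul]
        rw [h2, real_inner_smul_right] } with hL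
  -- the bound
  set N : Fin 3 → ℝ := fun i => (eLpNorm (fun x => fderiv ℝ h x (bv i)) 2 (surf Ω)).toReal with hN
  have hbound : ∀ F : Csm, |L F| ≤ (C * ∑ i, N i) * ‖T F‖ := by
    intro F
    have hF : ContDiff ℝ ∞ (F : E → ℝ) := Csm.cd F
    have hnorm : ‖T F‖ = (eLpNorm (F : E → ℝ) 2 (surf Ω)).toReal := by
      rw [hT]
      exact Lp.norm_toLp (F : E → ℝ) (hmem _ hF.continuous)
    have hLF : L F = ∫ x in Ω, ⟪gradient h x, gradient (F : E → ℝ) x⟫_ℝ := rfl
    have hprod : ∀ i : Fin 3, ContDiff ℝ ∞ (fun x => (F : E → ℝ) x * fderiv ℝ h x (bv i)) :=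
      fun i => hF.mul (hci h hh i)
    have hpt : ∀ x, ⟪gradient h x, gradient (F : E → ℝ) x⟫_ℝ =
        ∑ i : Fin 3, fderiv ℝ (fun x => (F : E → ℝ) x * fderiv ℝ h x (bv i)) x (bv i) := by
      intro x
      have h1 : ∀ i : Fin 3, fderiv ℝ (fun x => (F : E → ℝ) x * fderiv ℝ h x (bv i)) x (bv i) =
          fderiv ℝ h x (bv i) * fderiv ℝ (F : E → ℝ) x (bv i) +
          (F : E → ℝ) x * fderiv ℝ (fun x => fderiv ℝ h x (bv i)) x (bv i) := by
        intro i
        rw [fderiv_fun_mul (hF.differentiable (by simp) x)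
          ((hci h hh i).differentiable (by simp) x)]
        simp only [add_apply, smul_apply, smul_eq_mul]
        ring
      simp_rw [h1]
      rw [Finset.sum_add_distrib, ← Finset.mul_sum, hgr F hF]
      have h2 : ∑ i, fderiv ℝ (fun x => fderiv ℝ h x (bv i)) x (bv i) = lap h x := rfl
      rw [h2, hlap, mul_zero, add_zero]
    rw [hLF]
    simp_rw [hpt]
    rw [integral_finsetSum _ (fun i _ => int_bdd hb
      ((hprod i).continuous_fderiv (by simp) |>.clm_apply continuous_const))]
    refine (Finset.abs_sum_le_sum_abs _ _).trans ?_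
    rw [hnorm, mul_assoc, mul_comm (∑ i, N i), ← mul_assoc, Finset.mul_sum]
    apply Finset.sum_le_sum
    intro i _
    refine (hdi _ (hprod i) (bv i)).trans ?_
    have h3 : ‖(bv i : E)‖ = 1 := by simp [bv]
    rw [h3, mul_one, mul_assoc]
    apply mul_le_mul_of_nonneg_left _ hC
    exact int_abs_mul_le (hmem _ hF.continuous) (hmem _ (hci h hh i).continuous)
  obtain ⟨ψ, hψ⟩ := riesz_range T L _ hbound
  have hid : ∀ F : E → ℝ, ContDiff ℝ ∞ F →
      ∫ x in Ω, ⟪gradient h x, gradient F x⟫_ℝ = ∫ x, ψ x * F x ∂(surf Ω) := by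
    intro F hF
    have h1 := hψ ⟨F, mem_Csm.2 hF⟩
    have h2 : L ⟨F, mem_Csm.2 hF⟩ = ∫ x in Ω, ⟪gradient h x, gradient F x⟫_ℝ := rfl
    rw [← h2, h1, L2.inner_def]
    apply integral_congr_ae
    have h3 : (T ⟨F, mem_Csm.2 hF⟩ : E → ℝ) =ᵐ[surf Ω] F := (hmem F hF.continuous).coeFn_toLp
    filter_upwards [h3] with x hx
    rw [hx]
    simp [mul_comm]
  refine ⟨ψ, ⟨Lp.memLp ψ, ?_⟩, hid⟩
  have h1 := hid (fun _ => 1) contDiff_const
  have h2 : ∀ x, gradient (fun _ : E => (1 : ℝ)) x = 0 := fun x =>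
    grad_of_fderiv_zero (by simp)
  simp only [h2, inner_zero_right, integral_zero, mul_one] at h1
  exact h1.symm

end Pool.Agent.Run7.h982
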