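import Pool.Agent.Run7.h982.Remv

/-!
# Insulating cracks: compact sets of zero area have good cutoffs
-/

set_option autoImplicit false

open MeasureTheory Set Filter Topology Metric
open scoped ContDiff ENNReal NNReal InnerProductSpace

namespace Pool.Agent.Run7.h982

theorem ball_cut : ∃ C₀ : ℝ, 0 ≤ C₀ ∧ ∀ (x₀ : E) (ρ : ℝ), 0 < ρ → ∃ κ : E → ℝ,
    ContDiff ℝ ∞ κ ∧ HasCompactSupport κ ∧ tsupport κ ⊆ closedBall x₀ (2 * ρ) ∧
    (∀ x, 0 ≤ κ x ∧ κ x ≤ 1) ∧ (∀ x ∈ ball x₀ ρ, κ x = 1) ∧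
    ∫ x, ‖gradient κ x‖ ≤ C₀ * ρ ^ 2 := by
  obtain ⟨F, c1, c2, c3, c4, W, c5, c6, c7⟩ := cutoff (isCompact_closedBall (0 : E) 1)
    (isOpen_ball (x := (0 : E)) (ε := 2)) (closedBall_subset_ball (by norm_num))
  refine ⟨∫ x, ‖gradient F x‖, integral_nonneg (fun x => norm_nonneg _), fun x₀ ρ hρ => ?_⟩
  set T : E → E := fun x => ρ⁻¹ • (x - x₀) with hT
  have hTs : ContDiff ℝ ∞ T := (contDiff_id.sub contDiff_const).const_smul _
  have hTd : ∀ x, HasFDerivAt T (ρ⁻¹ • ContinuousLinearMap.id ℝ E) x := fun x =>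
    ((hasFDerivAt_id x).sub_const x₀).const_smul ρ⁻¹
  have h0 : ∀ x ∉ closedBall x₀ (2 * ρ), F (T x) = 0 := by
    intro x hx
    apply image_eq_zero_of_notMem_tsupport
    intro h
    have h1 := c3 h
    rw [mem_ball_zero_iff, hT] at h1
    simp only [norm_smul, norm_inv, Real.norm_eq_abs, abs_of_pos hρ] at h1
    apply hx
    rw [mem_closedBall, dist_eq_norm]
    rw [inv_mul_lt_iff₀ hρ] at h1
    linarith
  have hts : tsupport (fun x => F (T x)) ⊆ closedBall x₀ (2 * ρ) := by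
    apply closure_minimal _ isClosed_closedBall
    intro x hx
    by_contra h
    exact hx (h0 x h)
  refine ⟨fun x => F (T x), c1.comp hTs, HasCompactSupport.of_support_subset_isCompact
    (isCompact_closedBall x₀ (2 * ρ)) (subset_closure.trans hts), hts, fun x => c4 _, ?_, ?_⟩
  · intro x hx
    apply c7
    apply c6
    rw [mem_closedBall_zero_iff, hT]
    simp only [norm_smul, norm_inv, Real.norm_eq_abs, abs_of_pos hρ]
    rw [mem_ball, dist_eq_norm] at hx
    rw [inv_mul_le_iff₀ hρ]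
    linarith
  · have e1 : ∀ x, ‖gradient (fun x => F (T x)) x‖ = ρ⁻¹ * ‖gradient F (T x)‖ := by
      intro x
      have h2 : HasFDerivAt (fun x => F (T x)) ((fderiv ℝ F (T x)).comp
          (ρ⁻¹ • ContinuousLinearMap.id ℝ E)) x :=
        ((c1.differentiable (by simp)) (T x)).hasFDerivAt.comp x (hTd x)
      rw [norm_grad, h2.fderiv, ContinuousLinearMap.comp_smul, ContinuousLinearMap.comp_id,
        norm_smul, norm_grad, norm_inv, Real.norm_eq_abs, abs_of_pos hρ]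
    simp_rw [e1]
    rw [integral_const_mul]
    have e2 : ∫ x, ‖gradient F (T x)‖ = ρ ^ 3 * ∫ x, ‖gradient F x‖ := by
      have h3 := integral_sub_right_eq_self (μ := (volume : Measure E))
        (fun y => ‖gradient F (ρ⁻¹ • y)‖) x₀
      have h4 := Measure.integral_comp_smul (volume : Measure E)
        (fun y => ‖gradient F y‖) ρ⁻¹
      have h5 : Module.finrank ℝ E = 3 := by simp
      rw [h5, smul_eq_mul] at h4
      have h6 : |((ρ⁻¹) ^ 3)⁻¹| = ρ ^ 3 := by
        rw [inv_pow, inv_inv, abs_of_pos (by positivity)]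
      rw [h6] at h4
      rw [← h4, ← h3]
    rw [e2]
    apply le_of_eq
    field_simp

theorem fin_cut {C₀ : ℝ} (hC₀ : 0 ≤ C₀) (hcut : ∀ (x₀ : E) (ρ : ℝ), 0 < ρ → ∃ κ : E → ℝ,
    ContDiff ℝ ∞ κ ∧ HasCompactSupport κ ∧ tsupport κ ⊆ closedBall x₀ (2 * ρ) ∧
    (∀ x, 0 ≤ κ x ∧ κ x ≤ 1) ∧ (∀ x ∈ ball x₀ ρ, κ x = 1) ∧
    ∫ x, ‖gradient κ x‖ ≤ C₀ * ρ ^ 2) (x : ℕ → E) (ρ : ℕ → ℝ) (s : Finset ℕ)
    (hρ : ∀ n ∈ s, 0 < ρ n) :
    ∃ κ : E → ℝ, ContDiff ℝ ∞ κ ∧ HasCompactSupport κ ∧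
      tsupport κ ⊆ ⋃ n ∈ s, closedBall (x n) (2 * ρ n) ∧
      (∀ x, 0 ≤ κ x ∧ κ x ≤ 1) ∧ (∀ y ∈ ⋃ n ∈ s, ball (x n) (ρ n), κ y = 1) ∧
      ∫ x, ‖gradient κ x‖ ≤ C₀ * ∑ n ∈ s, ρ n ^ 2 := by
  induction s using Finset.induction_on with
  | empty =>
    refine ⟨fun _ => 0, contDiff_const, HasCompactSupport.zero, ?_, fun _ => ⟨le_rfl, zero_le_one⟩,
      ?_, ?_⟩
    · have : tsupport (fun _ : E => (0 : ℝ)) = ∅ := by
        rw [tsupport_eq_empty_iff]
        rfl
      rw [this]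
      exact empty_subset _
    · simp
    · have : ∀ y, gradient (fun _ : E => (0 : ℝ)) y = 0 := fun y =>
        grad_of_fderiv_zero (by simp)
      simp [this]
  | insert m s hm ih =>
    obtain ⟨κ₁, a1, a2, a3, a4, a5, a6⟩ := ih (fun n hn => hρ n (Finset.mem_insert_of_mem hn))
    obtain ⟨κ₂, b1, b2, b3, b4, b5, b6⟩ := hcut (x m) (ρ m) (hρ m (Finset.mem_insert_self m s))
    refine ⟨fun x => κ₁ x + κ₂ x - κ₁ x * κ₂ x, (a1.add b1).sub (a1.mul b1),
      (a2.add b2).sub a2.mul_right, ?_, ?_, ?_, ?_⟩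
    · have h : tsupport (fun x => κ₁ x + κ₂ x - κ₁ x * κ₂ x) ⊆ tsupport κ₁ ∪ tsupport κ₂ := by
        apply closure_minimal _ ((isClosed_tsupport κ₁).union (isClosed_tsupport κ₂))
        intro x hx
        by_contra h
        simp only [mem_union, not_or] at h
        apply hx
        simp only
        rw [image_eq_zero_of_notMem_tsupport h.1, image_eq_zero_of_notMem_tsupport h.2]
        simp
      refine h.trans (union_subset (a3.trans ?_) (b3.trans ?_))
      · exact biUnion_subset_biUnion_left (fun n hn => Finset.mem_insert_of_mem hn)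
      · exact subset_biUnion_of_mem (u := fun n => closedBall (x n) (2 * ρ n))
          (Finset.mem_insert_self m s)
    · intro x
      obtain ⟨c1, c2⟩ := a4 x
      obtain ⟨c3, c4⟩ := b4 x
      constructor <;> nlinarith
    · intro y hy
      rw [mem_iUnion₂] at hy
      obtain ⟨n, hn, hyn⟩ := hy
      rcases Finset.mem_insert.1 hn with rfl | hn
      · simp only [b5 y hyn]; ring
      · have : κ₁ y = 1 := a5 y (mem_iUnion₂.2 ⟨n, hn, hyn⟩)
        simp only [this]; ring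
    · have i1 : Integrable (fun x => ‖gradient κ₁ x‖) :=
        (memLp_one_iff_integrable.1 (grad_memLp (a1.of_le (by simp)) a2 1 volume)).norm
      have i2 : Integrable (fun x => ‖gradient κ₂ x‖) :=
        (memLp_one_iff_integrable.1 (grad_memLp (b1.of_le (by simp)) b2 1 volume)).norm
      have h1 : ∫ x, ‖gradient (fun x => κ₁ x + κ₂ x - κ₁ x * κ₂ x) x‖ ≤
          ∫ x, (‖gradient κ₁ x‖ + ‖gradient κ₂ x‖) := by
        apply integral_mono_of_nonneg (Eventually.of_forall (fun x => norm_nonneg _))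
          (i1.add i2)
        refine Eventually.of_forall (fun x => ?_)
        simp only
        rw [grad_union a1 b1]
        obtain ⟨c1, c2⟩ := a4 x
        obtain ⟨c3, c4⟩ := b4 x
        refine (norm_add_le _ _).trans (add_le_add ?_ ?_)
        · rw [norm_smul, Real.norm_eq_abs, abs_of_nonneg (by linarith)]
          exact mul_le_of_le_one_left (norm_nonneg _) (by linarith)
        · rw [norm_smul, Real.norm_eq_abs, abs_of_nonneg (by linarith)]
          exact mul_le_of_le_one_left (norm_nonneg _) (by linarith)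
      rw [integral_add i1 i2] at h1
      rw [Finset.sum_insert hm, mul_add]
      linarith

theorem null_cover {K : Set E} (hK : IsCompact K)
    (h0 : (Measure.hausdorffMeasure 2 : Measure E) K = 0) {δ η : ℝ} (hδ : 0 < δ) (hη : 0 < η) :
    ∃ (x : ℕ → E) (ρ : ℕ → ℝ) (s : Finset ℕ), (∀ n ∈ s, x n ∈ K ∧ 0 < ρ n ∧ ρ n < δ) ∧
      K ⊆ ⋃ n ∈ s, ball (x n) (ρ n) ∧ ∑ n ∈ s, ρ n ^ 2 < η := by
  classical
  rw [Measure.hausdorffMeasure_apply] at h0
  have hr : (0 : ℝ≥0∞) < ENNReal.ofReal (δ / 4) := ENNReal.ofReal_pos.2 (by positivity)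
  have h1 := (iSup₂_eq_bot.1 h0) _ hr
  have h2 : (⨅ (t : ℕ → Set E) (_ : K ⊆ ⋃ n, t n) (_ : ∀ n, ediam (t n) ≤
      ENNReal.ofReal (δ / 4)), ∑' n, ⨆ _ : (t n).Nonempty, ediam (t n) ^ (2 : ℝ)) <
      ENNReal.ofReal (η / 16) := by
    rw [h1]
    exact ENNReal.ofReal_pos.2 (by positivity)
  simp only [iInf_lt_iff] at h2
  obtain ⟨t, hcov, hdiam, hsum⟩ := h2
  obtain ⟨b, hb0, hbs⟩ := ENNReal.exists_pos_sum_of_countable'
    (ε := ENNReal.ofReal (min (min 1 (δ / 4)) (η / 8)))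
    (ENNReal.ofReal_pos.2 (by positivity)).ne' ℕ
  have hbfin : ∀ n, b n ≠ ⊤ := fun n =>
    ((ENNReal.le_tsum n).trans_lt (hbs.trans ENNReal.ofReal_lt_top)).ne
  set β : ℕ → ℝ := fun n => (b n).toReal with hβ
  have hβ0 : ∀ n, 0 < β n := fun n => ENNReal.toReal_pos (hb0 n).ne' (hbfin n)
  have hβle : ∀ n, β n ≤ min (min 1 (δ / 4)) (η / 8) := by
    intro n
    apply ENNReal.toReal_le_of_le_ofReal (by positivity)
    exact (ENNReal.le_tsum n).trans hbs.le
  set a : ℕ → ℝ := fun n => (ediam (t n)).toReal with ha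
  have hdfin : ∀ n, ediam (t n) ≠ ⊤ := fun n =>
    ((hdiam n).trans_lt ENNReal.ofReal_lt_top).ne
  have ha0 : ∀ n, 0 ≤ a n := fun n => ENNReal.toReal_nonneg
  have hale : ∀ n, a n ≤ δ / 4 := fun n =>
    ENNReal.toReal_le_of_le_ofReal (by positivity) (hdiam n)
  set I : Set ℕ := {n | (t n ∩ K).Nonempty} with hI
  have hex : ∀ n, ∃ y : E, (t n ∩ K).Nonempty → y ∈ t n ∩ K := by
    intro n
    by_cases h : (t n ∩ K).Nonempty
    · obtain ⟨y, hy⟩ := h
      exact ⟨y, fun _ => hy⟩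
    · exact ⟨0, fun h' => absurd h' h⟩
  choose x hx using hex
  set ρ : ℕ → ℝ := fun n => 2 * a n + β n with hρ
  have hcov2 : K ⊆ ⋃ n ∈ I, ball (x n) (ρ n) := by
    intro y hy
    obtain ⟨n, hn⟩ := mem_iUnion.1 (hcov hy)
    have hnI : (t n ∩ K).Nonempty := ⟨y, hn, hy⟩
    refine mem_iUnion₂.2 ⟨n, hnI, ?_⟩
    have h3 : edist y (x n) ≤ ediam (t n) := edist_le_ediam_of_mem hn (hx n hnI).1
    have h4 : dist y (x n) ≤ a n := by
      rw [dist_edist]
      exact ENNReal.toReal_mono (hdfin n) h3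
    rw [mem_ball]
    have := hβ0 n
    have := ha0 n
    simp only [hρ]
    linarith
  obtain ⟨s', hs'I, hs'f, hs'c⟩ := hK.elim_finite_subcover_image (b := I)
    (c := fun n => ball (x n) (ρ n)) (fun n _ => isOpen_ball) hcov2
  refine ⟨x, ρ, hs'f.toFinset, ?_, ?_, ?_⟩
  · intro n hn
    have hnI : (t n ∩ K).Nonempty := hs'I (hs'f.mem_toFinset.1 hn)
    have h5 := hβ0 n
    have h6 := ha0 n
    have h7 := hale n
    have h8 := (hβle n).trans ((min_le_left _ _).trans (min_le_right _ _))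
    refine ⟨(hx n hnI).2, ?_, ?_⟩
    · simp only [hρ]; linarith
    · simp only [hρ]; linarith
  · simpa using hs'c
  · set s := hs'f.toFinset with hs
    have hA : ∑ n ∈ s, a n ^ 2 < η / 16 := by
      have h9 : ∑ n ∈ s, ENNReal.ofReal (a n ^ 2) < ENNReal.ofReal (η / 16) := by
        refine lt_of_le_of_lt ?_ hsum
        refine le_trans ?_ (ENNReal.sum_le_tsum s)
        apply Finset.sum_le_sum
        intro n hn
        have hnI : (t n ∩ K).Nonempty := hs'I (hs'f.mem_toFinset.1 hn)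
        have hne : (t n).Nonempty := hnI.mono inter_subset_left
        refine le_iSup_of_le hne ?_
        apply le_of_eq
        rw [ENNReal.ofReal_pow (ha0 n), ha, ENNReal.ofReal_toReal (hdfin n)]
        norm_cast
      rw [← ENNReal.ofReal_sum_of_nonneg (fun n _ => by positivity)] at h9
      exact (ENNReal.ofReal_lt_ofReal_iff (by positivity)).1 h9
    have hB : ∑ n ∈ s, β n ^ 2 < η / 8 := by
      have h10 : ∑ n ∈ s, β n ^ 2 ≤ ∑ n ∈ s, β n := by
        apply Finset.sum_le_sum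
        intro n _
        have h11 := (hβle n).trans ((min_le_left _ _).trans (min_le_left _ _))
        have := (hβ0 n).le
        nlinarith
      have h12 : ∑ n ∈ s, ENNReal.ofReal (β n) < ENNReal.ofReal (η / 8) := by
        have h13 : ∑ n ∈ s, ENNReal.ofReal (β n) = ∑ n ∈ s, b n := by
          apply Finset.sum_congr rfl
          intro n _
          rw [hβ, ENNReal.ofReal_toReal (hbfin n)]
        rw [h13]
        refine lt_of_le_of_lt (ENNReal.sum_le_tsum s) (hbs.trans_le ?_)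
        exact ENNReal.ofReal_le_ofReal (min_le_right _ _)
      rw [← ENNReal.ofReal_sum_of_nonneg (fun n _ => (hβ0 n).le)] at h12
      exact h10.trans_lt ((ENNReal.ofReal_lt_ofReal_iff (by positivity)).1 h12)
    have hC : ∑ n ∈ s, ρ n ^ 2 ≤ 8 * ∑ n ∈ s, a n ^ 2 + 2 * ∑ n ∈ s, β n ^ 2 := by
      rw [Finset.mul_sum, Finset.mul_sum, ← Finset.sum_add_distrib]
      apply Finset.sum_le_sum
      intro n _
      simp only [hρ]
      nlinarith [sq_nonneg (2 * a n - β n)]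
    linarith

/-- **Compact sets of zero area have good cutoffs.** -/
theorem null_cut {K : Set E} (hK : IsCompact K)
    (h0 : (Measure.hausdorffMeasure 2 : Measure E) K = 0) {O : Set E} (hO : IsOpen O)
    (hKO : K ⊆ O) {ε : ℝ} (hε : 0 < ε) : ∃ κ : E → ℝ,
      ContDiff ℝ ∞ κ ∧ HasCompactSupport κ ∧ tsupport κ ⊆ O ∧ (∀ x, 0 ≤ κ x ∧ κ x ≤ 1) ∧
      (∃ W, IsOpen W ∧ K ⊆ W ∧ ∀ x ∈ W, κ x = 1) ∧ ∫ x, ‖gradient κ x‖ < ε := by
  obtain ⟨C₀, hC₀, hcut⟩ := ball_cut
  obtain ⟨δ, hδ, hδO⟩ := hK.exists_cthickening_subset_open hO hKO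
  obtain ⟨x, ρ, s, h1, h2, h3⟩ := null_cover hK h0 (δ := δ / 2) (η := ε / (C₀ + 1))
    (by positivity) (by positivity)
  obtain ⟨κ, a1, a2, a3, a4, a5, a6⟩ := fin_cut hC₀ hcut x ρ s (fun n hn => (h1 n hn).2.1)
  refine ⟨κ, a1, a2, a3.trans ?_, a4, ⟨⋃ n ∈ s, ball (x n) (ρ n), ?_, h2, a5⟩, ?_⟩
  · apply iUnion₂_subset
    intro n hn
    obtain ⟨b1, b2, b3⟩ := h1 n hn
    refine Subset.trans ?_ hδO
    intro y hy
    apply mem_cthickening_of_dist_le y (x n) δ K b1
    rw [mem_closedBall] at hy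
    linarith
  · exact isOpen_biUnion (fun n _ => isOpen_ball)
  · have h4 : C₀ * ∑ n ∈ s, ρ n ^ 2 ≤ C₀ * (ε / (C₀ + 1)) :=
      mul_le_mul_of_nonneg_left h3.le hC₀
    have h5 : C₀ * (ε / (C₀ + 1)) < ε := by
      rw [← mul_div_assoc, div_lt_iff₀ (by positivity)]
      nlinarith
    linarith

end Pool.Agent.Run7.h982
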