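import Pool.Agent.Run7.h982.K2
import Pool.Agent.Run7.h982.J6

/-!
# Insulating cracks: compact sets of zero area are removable for weak derivatives
-/

set_option autoImplicit false

open MeasureTheory Set Filter Topology Metric
open scoped ContDiff ENNReal NNReal InnerProductSpace

namespace Pool.Agent.Run7.h982

theorem rem_bounded {Ω K : Set E} (hΩ : IsOpen Ω) (hK : IsCompact K)
    (h0 : (Measure.hausdorffMeasure 2 : Measure E) K = 0) {g : E → ℝ}
    (hg : ContDiffOn ℝ 1 g (Ω \ K)) {M : ℝ} (hM : ∀ x, |g x| ≤ M)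
    (h1 : MemLp g 2 (volume.restrict (Ω \ K)))
    (h2 : MemLp (gradient g) 2 (volume.restrict (Ω \ K))) {φ : E → ℝ} (hφ : IsTest Ω φ) (e : E) :
    ∫ x in Ω \ K, (g x * fderiv ℝ φ x e + fderiv ℝ g x e * φ x) = 0 := by
  have hM0 : 0 ≤ M := (abs_nonneg _).trans (hM 0)
  have hex : ∀ ε : ℝ, ∃ κ : E → ℝ, 0 < ε → (ContDiff ℝ ∞ κ ∧ HasCompactSupport κ ∧
      tsupport κ ⊆ thickening ε K ∧ (∀ x, 0 ≤ κ x ∧ κ x ≤ 1) ∧
      (∃ W, IsOpen W ∧ K ⊆ W ∧ ∀ x ∈ W, κ x = 1) ∧ ∫ x, ‖gradient κ x‖ < ε) := by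
    intro ε
    by_cases hε : 0 < ε
    · obtain ⟨κ, hκ⟩ := null_cut hK h0 isOpen_thickening (self_subset_thickening hε K) hε
      exact ⟨κ, fun _ => hκ⟩
    · exact ⟨0, fun h => absurd h hε⟩
  choose κ hκ using hex
  set c : ℝ → E → ℝ := fun ε x => 1 - κ ε x with hc
  have hcs : ∀ ε, 0 < ε → ContDiff ℝ ∞ (c ε) := fun ε hε => contDiff_const.sub (hκ ε hε).1
  have hlim := cut_lim (hΩ.sdiff hK.isClosed) hΩ hg hφ (c := c)
    (fun ε hε => (hcs ε hε).contDiffOn)
    (fun ε hε x _ => by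
      obtain ⟨a1, a2⟩ := (hκ ε hε).2.2.2.1 x
      constructor <;> simp only [hc] <;> linarith)
    (fun ε hε => by
      obtain ⟨W, w1, w2, w3⟩ := (hκ ε hε).2.2.2.2.1
      refine ⟨W, w1, ?_, fun x hx => by simp only [hc]; rw [w3 x hx.1, sub_self]⟩
      rintro x ⟨hx, hx2⟩
      apply w2
      by_contra h
      exact hx2 ⟨hx, h⟩)
    (fun x hx => by
      have hxK : x ∉ K := hx.1.2
      have h3 : ∀ᶠ ε : ℝ in 𝓝[>] 0, x ∉ thickening ε K := by
        have h4 : ∀ᶠ ε : ℝ in 𝓝 0, x ∉ cthickening ε K :=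
          eventually_notMem_cthickening_of_infEDist_pos (by
            rw [← hK.isClosed.closure_eq] at hxK
            exact hxK)
        filter_upwards [h4.filter_mono nhdsWithin_le_nhds] with ε h5 h6
        exact h5 (thickening_subset_cthickening ε K h6)
      apply tendsto_const_nhds.congr'
      filter_upwards [h3, self_mem_nhdsWithin] with ε h4 hε
      simp only [hc]
      rw [image_eq_zero_of_notMem_tsupport (fun h => h4 ((hκ ε hε).2.2.1 h)), sub_zero]) e
    (jump_int h1 h2 hφ e)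
  obtain ⟨B, hB⟩ := hφ.1.continuous.bounded_above_of_compact_support hφ.2.1
  have hB0 : 0 ≤ B := (norm_nonneg _).trans (hB 0)
  have hz : Tendsto (fun ε => ∫ x in Ω \ K, g x * φ x * fderiv ℝ (c ε) x e) (𝓝[>] 0)
      (𝓝 0) := by
    have hup : Tendsto (fun ε : ℝ => M * B * ‖e‖ * ε) (𝓝[>] 0) (𝓝 0) := by
      have : Tendsto (fun ε : ℝ => M * B * ‖e‖ * ε) (𝓝 0) (𝓝 (M * B * ‖e‖ * 0)) :=
        tendsto_id.const_mul _
      rw [mul_zero] at this
      exact this.mono_left nhdsWithin_le_nhds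
    apply squeeze_zero_norm' _ hup
    filter_upwards [self_mem_nhdsWithin] with ε hε
    obtain ⟨k1, k2, -, -, -, k6⟩ := hκ ε hε
    have hgi : Integrable (fun x => ‖gradient (κ ε) x‖) :=
      (memLp_one_iff_integrable.1 (grad_memLp (k1.of_le (by simp)) k2 1 volume)).norm
    refine (norm_integral_le_integral_norm _).trans ?_
    have h7 : ∫ x in Ω \ K, ‖g x * φ x * fderiv ℝ (c ε) x e‖ ≤
        ∫ x in Ω \ K, M * B * ‖e‖ * ‖gradient (κ ε) x‖ := by
      apply integral_mono_of_nonneg (Eventually.of_forall (fun x => norm_nonneg _))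
        (hgi.restrict.const_mul _)
      refine Eventually.of_forall (fun x => ?_)
      simp only
      have h8 : fderiv ℝ (c ε) x = - fderiv ℝ (κ ε) x := by
        simp only [hc]
        rw [fderiv_const_sub]
      rw [h8, neg_apply, norm_mul, norm_mul, norm_neg]
      calc ‖g x‖ * ‖φ x‖ * ‖fderiv ℝ (κ ε) x e‖ ≤ M * B * (‖fderiv ℝ (κ ε) x‖ * ‖e‖) := by
            apply mul_le_mul _ ((fderiv ℝ (κ ε) x).le_opNorm e) (norm_nonneg _) (by positivity)
            exact mul_le_mul (hM x) (hB x) (norm_nonneg _) hM0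
        _ = M * B * ‖e‖ * ‖gradient (κ ε) x‖ := by rw [norm_grad]; ring
    refine h7.trans ?_
    rw [integral_const_mul]
    apply mul_le_mul_of_nonneg_left _ (by positivity)
    exact (setIntegral_le_integral hgi (Eventually.of_forall (fun x => norm_nonneg _))).trans k6.le
  have := tendsto_nhds_unique hlim hz
  linarith

/-- truncation -/
noncomputable def trn (k s : ℝ) : ℝ := k * Real.arctan (s / k)

theorem trn_deriv {k : ℝ} (hk : 0 < k) (s : ℝ) :
    HasDerivAt (trn k) (1 / (1 + (s / k) ^ 2)) s := by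
  have h1 : HasDerivAt (fun s => s / k) (1 / k) s := (hasDerivAt_id s).div_const k
  have h2 : HasDerivAt (fun s => k * Real.arctan (s / k))
      (k * (1 / (1 + (s / k) ^ 2) * (1 / k))) s := (h1.arctan).const_mul k
  have e : k * (1 / (1 + (s / k) ^ 2) * (1 / k)) = 1 / (1 + (s / k) ^ 2) := by
    have hk0 : k ≠ 0 := hk.ne'
    calc k * (1 / (1 + (s / k) ^ 2) * (1 / k)) = 1 / (1 + (s / k) ^ 2) * (k * (1 / k)) := by ring
      _ = 1 / (1 + (s / k) ^ 2) := by rw [mul_one_div_cancel hk0, mul_one]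
  rw [e] at h2
  exact h2

theorem trn_le {k : ℝ} (hk : 0 < k) (s : ℝ) : |trn k s| ≤ |s| := by
  have key : ∀ s : ℝ, 0 ≤ s → |trn k s| ≤ |s| := by
    intro s hs
    have h1 : 0 ≤ s / k := by positivity
    have h2 := arctan_le_self h1
    have h3 : 0 ≤ Real.arctan (s / k) := Real.arctan_nonneg.2 h1
    unfold trn
    rw [abs_of_nonneg (by positivity), abs_of_nonneg hs]
    calc k * Real.arctan (s / k) ≤ k * (s / k) := mul_le_mul_of_nonneg_left h2 hk.le
      _ = s := by field_simp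
  rcases le_total 0 s with h | h
  · exact key s h
  · have h1 : trn k s = - trn k (-s) := by
      unfold trn
      rw [neg_div, Real.arctan_neg]
      ring
    rw [h1, abs_neg, ← abs_neg s]
    exact key (-s) (by linarith)

theorem trn_bdd {k : ℝ} (hk : 0 < k) (s : ℝ) : |trn k s| ≤ 2 * k := by
  unfold trn
  rw [abs_mul, abs_of_pos hk, mul_comm]
  apply mul_le_mul_of_nonneg_right _ hk.le
  have h1 := Real.neg_pi_div_two_lt_arctan (s / k)
  have h2 := Real.arctan_lt_pi_div_two (s / k)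
  have h3 := Real.pi_le_four
  rw [abs_le]
  constructor <;> linarith

theorem trn_lim (s : ℝ) : Tendsto (fun n : ℕ => trn ((n : ℝ) + 1) s) atTop (𝓝 s) := by
  have h1 : HasFDerivAt Real.arctan _ (0 : ℝ) := (Real.hasDerivAt_arctan 0).hasFDerivAt
  have hc : Tendsto (fun n : ℕ => ‖(n : ℝ) + 1‖) atTop atTop := by
    apply tendsto_norm_atTop_atTop.comp
    exact tendsto_atTop_add_const_right _ _ tendsto_natCast_atTop_atTop
  have h2 := h1.lim s hc
  have h3 : (ContinuousLinearMap.toSpanSingleton ℝ (1 / (1 + (0 : ℝ) ^ 2))) s = s := by simp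
  rw [h3] at h2
  refine h2.congr (fun n => ?_)
  simp only [smul_eq_mul, zero_add, Real.arctan_zero, sub_zero, trn]
  rw [div_eq_inv_mul]

theorem trn_dlim (s : ℝ) : Tendsto (fun n : ℕ => 1 / (1 + (s / ((n : ℝ) + 1)) ^ 2)) atTop
    (𝓝 1) := by
  have h1 : Tendsto (fun n : ℕ => s / ((n : ℝ) + 1)) atTop (𝓝 0) := by
    apply Tendsto.const_div_atTop
    exact tendsto_atTop_add_const_right _ _ tendsto_natCast_atTop_atTop
  have h2 : Tendsto (fun n : ℕ => 1 / (1 + (s / ((n : ℝ) + 1)) ^ 2)) atTop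
      (𝓝 (1 / (1 + (0 : ℝ) ^ 2))) :=
    tendsto_const_nhds.div ((h1.pow 2).const_add 1) (by norm_num)
  simpa using h2

/-- **Removability of compact sets of zero area.** -/
theorem rem_null {Ω K : Set E} (hΩ : IsOpen Ω) (hK : IsCompact K)
    (h0 : (Measure.hausdorffMeasure 2 : Measure E) K = 0) {g : E → ℝ}
    (hg : ContDiffOn ℝ 1 g (Ω \ K)) (h1 : MemLp g 2 (volume.restrict (Ω \ K)))
    (h2 : MemLp (gradient g) 2 (volume.restrict (Ω \ K))) {φ : E → ℝ} (hφ : IsTest Ω φ) (e : E) :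
    ∫ x in Ω \ K, (g x * fderiv ℝ φ x e + fderiv ℝ g x e * φ x) = 0 := by
  have oO : IsOpen (Ω \ K) := hΩ.sdiff hK.isClosed
  set f : ℕ → E → ℝ := fun n x => trn ((n : ℝ) + 1) (g x) with hf
  have hk : ∀ n : ℕ, (0 : ℝ) < (n : ℝ) + 1 := fun n => by positivity
  have hgd : ∀ x ∈ Ω \ K, HasFDerivAt g (fderiv ℝ g x) x := fun x hx =>
    ((hg.contDiffAt (oO.mem_nhds hx)).differentiableAt one_ne_zero).hasFDerivAt
  have hfd : ∀ n, ∀ x ∈ Ω \ K, HasFDerivAt (f n)
      ((1 / (1 + (g x / ((n : ℝ) + 1)) ^ 2)) • fderiv ℝ g x) x := fun n x hx =>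
    (trn_deriv (hk n) (g x)).comp_hasFDerivAt x (hgd x hx)
  have hfs : ∀ n, ContDiffOn ℝ 1 (f n) (Ω \ K) := by
    intro n
    have h3 : ContDiffOn ℝ 1 (fun x => Real.arctan (g x / ((n : ℝ) + 1))) (Ω \ K) :=
      (hg.div_const _).arctan
    exact contDiffOn_const.mul h3
  have hw : ∀ (n : ℕ) (s : ℝ), 0 ≤ 1 / (1 + (s / ((n : ℝ) + 1)) ^ 2) ∧
      1 / (1 + (s / ((n : ℝ) + 1)) ^ 2) ≤ 1 := by
    intro n s
    refine ⟨by positivity, ?_⟩
    rw [div_le_one (by positivity)]
    nlinarith [sq_nonneg (s / ((n : ℝ) + 1))]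
  have hm1 : ∀ n, MemLp (f n) 2 (volume.restrict (Ω \ K)) := by
    intro n
    apply MemLp.of_le h1 ((hfs n).continuousOn.aestronglyMeasurable oO.measurableSet)
    exact Eventually.of_forall (fun x => trn_le (hk n) (g x))
  have hm2 : ∀ n, MemLp (gradient (f n)) 2 (volume.restrict (Ω \ K)) := by
    intro n
    apply MemLp.of_le h2 ((grad_contOn oO (hfs n)).aestronglyMeasurable oO.measurableSet)
    filter_upwards [ae_restrict_mem oO.measurableSet] with x hx
    rw [norm_grad, norm_grad, (hfd n x hx).fderiv, norm_smul, Real.norm_eq_abs,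
      abs_of_nonneg (hw n (g x)).1]
    exact mul_le_of_le_one_left (norm_nonneg _) (hw n (g x)).2
  have hz : ∀ n, ∫ x in Ω \ K, (f n x * fderiv ℝ φ x e + fderiv ℝ (f n) x e * φ x) = 0 :=
    fun n => rem_bounded hΩ hK h0 (hfs n) (fun x => trn_bdd (hk n) (g x)) (hm1 n) (hm2 n) hφ e
  have hT : Tendsto (fun n => ∫ x in Ω \ K, (f n x * fderiv ℝ φ x e +
      fderiv ℝ (f n) x e * φ x)) atTop
      (𝓝 (∫ x in Ω \ K, (g x * fderiv ℝ φ x e + fderiv ℝ g x e * φ x))) := by
    apply tendsto_integral_of_dominated_convergence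
      (fun x => |g x * fderiv ℝ φ x e| + |fderiv ℝ g x e * φ x|)
    · intro n
      exact (jump_int (hm1 n) (hm2 n) hφ e).1
    · exact (int_mul h1 ((hφ.fderiv_apply e).memLp _)).abs.add
        (int_mul (memLp_dir h2 e) (hφ.memLp _)).abs
    · intro n
      filter_upwards [ae_restrict_mem oO.measurableSet] with x hx
      refine (norm_add_le _ _).trans (add_le_add ?_ ?_)
      · rw [Real.norm_eq_abs, abs_mul, abs_mul]
        exact mul_le_mul_of_nonneg_right (trn_le (hk n) (g x)) (abs_nonneg _)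
      · rw [Real.norm_eq_abs, abs_mul, abs_mul, (hfd n x hx).fderiv, smul_apply, smul_eq_mul,
          abs_mul, abs_of_nonneg (hw n (g x)).1]
        apply mul_le_mul_of_nonneg_right _ (abs_nonneg _)
        exact mul_le_of_le_one_left (abs_nonneg _) (hw n (g x)).2
    · filter_upwards [ae_restrict_mem oO.measurableSet] with x hx
      have h3 : ∀ n, fderiv ℝ (f n) x e = 1 / (1 + (g x / ((n : ℝ) + 1)) ^ 2) *
          fderiv ℝ g x e := fun n => by
        rw [(hfd n x hx).fderiv, smul_apply, smul_eq_mul]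
      simp_rw [h3]
      have h4 := (trn_lim (g x)).mul_const (fderiv ℝ φ x e)
      have h5 := ((trn_dlim (g x)).mul_const (fderiv ℝ g x e)).mul_const (φ x)
      rw [one_mul] at h5
      exact h4.add h5
  simp_rw [hz] at hT
  exact tendsto_nhds_unique hT tendsto_const_nhds

end Pool.Agent.Run7.h982
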