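import Pool.Agent.Run7.h982.W3

/-!
# Insulating cracks: Weyl's lemma
-/

set_option autoImplicit false

open MeasureTheory Set Filter Topology Metric
open scoped ContDiff ENNReal NNReal InnerProductSpace

namespace Pool.Agent.Run7.h982

theorem ae_zero_of_test {U : Set E} (hU : IsOpen U) {f : E → ℝ} (hf : LocallyIntegrableOn f U)
    (h : ∀ ψ, IsTest U ψ → ∫ x, ψ x * f x = 0) : ∀ᵐ x ∂(volume.restrict U), f x = 0 := by
  rw [ae_restrict_iff' hU.measurableSet]
  apply hU.ae_eq_zero_of_integral_contDiff_smul_eq_zero hf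
  intro g h1 h2 h3
  exact h g ⟨h1, h2, h3⟩

theorem weyl_local {O : Set E} (hO : IsOpen O) {u : E → ℝ} {G : E → E} (h : IsH1 O u G)
    (hw : ∀ φ, IsTest O φ → ∫ x in O, ⟪G x, gradient φ x⟫_ℝ = 0) {p : E} (hp : p ∈ O) :
    ∃ r, 0 < r ∧ ball p r ⊆ O ∧ ∃ v : E → ℝ, AnalyticOnNhd ℝ v (ball p r) ∧
      ∀ᵐ x ∂(volume.restrict (ball p r)), u x = v x := by
  obtain ⟨R, hR, hB⟩ := Metric.nhds_basis_closedBall.mem_iff.1 (hO.mem_nhds hp)
  obtain ⟨χ, c, hc, hu, hχ, hχc, hχ1, hid⟩ := rep_lim hO h hw p hR hB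
  set v₀ : E → ℝ := fun x => ∫ y in closedBall p R, u y * ker χ 0 x y with hv₀
  have han : AnalyticOnNhd ℝ v₀ (ball p (R / 4)) := an_of_kernel hR hu hχ hχ1
  have hsub : ball p (R / 4) ⊆ closedBall p R :=
    (ball_subset_ball (by linarith)).trans ball_subset_closedBall
  refine ⟨R / 4, by positivity, hsub.trans hB, fun x => c⁻¹ * v₀ x,
    fun x hx => analyticAt_const.fun_mul (han x hx), ?_⟩
  have hloc : LocallyIntegrableOn (fun x => c * u x - v₀ x) (ball p (R / 4)) := by
    apply LocallyIntegrableOn.sub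
    · have h0 : IntegrableOn (fun x => c * u x) (closedBall p R) := hu.const_mul c
      exact (h0.mono_set hsub).locallyIntegrableOn
    · exact han.continuousOn.locallyIntegrableOn isOpen_ball.measurableSet
  have hae := ae_zero_of_test isOpen_ball hloc (by
    intro ψ hψ
    have h1 : Integrable (fun x => ψ x * (c * u x)) := by
      obtain ⟨C, hC⟩ := hψ.2.1.exists_bound_of_continuous hψ.1.continuous
      have h2 : IntegrableOn (fun x => ψ x * (c * u x)) (closedBall p R) :=
        (hu.const_mul c).bdd_mul (f := ψ) hψ.1.continuous.aestronglyMeasurable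
          (ae_of_all _ hC)
      rw [integrableOn_iff_integrable_of_support_subset] at h2
      · exact h2
      · intro x hx
        apply hsub
        apply hψ.2.2
        by_contra hc
        apply hx
        simp [image_eq_zero_of_notMem_tsupport hc]
    have h3 : Integrable (fun x => ψ x * v₀ x) := by
      have := int_mul_of isOpen_ball han.continuousOn hψ.1.continuous hψ.2.1 hψ.2.2
      simpa [mul_comm] using this
    have h4 : (fun x => ψ x * (c * u x - v₀ x)) = fun x => ψ x * (c * u x) - ψ x * v₀ x := by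
      funext x; ring
    rw [h4, integral_sub h1 h3, hid ψ hψ, ← integral_const_mul]
    rw [sub_eq_zero]
    symm
    have h5 : ∀ x, ψ x * (c * u x) = c * (u x * ψ x) := fun x => by ring
    simp_rw [h5]
    apply setIntegral_eq_integral_of_forall_compl_eq_zero
    intro x hx
    have : x ∉ tsupport ψ := fun hc => hx (hsub (hψ.2.2 hc))
    rw [image_eq_zero_of_notMem_tsupport this]
    ring)
  filter_upwards [hae] with x hx
  have : v₀ x = c * u x := by linarith
  rw [this]
  field_simp

theorem c1_of_an {O : Set E} {v : E → ℝ} (h : AnalyticOnNhd ℝ v O) : ContDiffOn ℝ 1 v O :=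
  fun x hx => (h x hx).contDiffAt.contDiffWithinAt

theorem cont_of_lap {O : Set E} {v : E → ℝ} (h : AnalyticOnNhd ℝ v O) :
    ContinuousOn (lap v) O := by
  intro x hx
  have h0 : AnalyticAt ℝ (lap v) x := by
    unfold lap
    apply Finset.analyticAt_fun_sum
    intro i _
    have h1 : AnalyticAt ℝ (fun y => fderiv ℝ v y (bv i)) x :=
      ((ContinuousLinearMap.apply ℝ ℝ (bv i)).analyticAt _).comp (h x hx).fderiv
    exact ((ContinuousLinearMap.apply ℝ ℝ (bv i)).analyticAt _).comp h1.fderiv
  exact h0.continuousAt.continuousWithinAt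

/-- **W** -/
theorem weyl : W_stm := by
  intro O u G hO h hw
  classical
  have hloc : ∀ p : O, ∃ r, 0 < r ∧ ball (p : E) r ⊆ O ∧ ∃ v : E → ℝ,
      AnalyticOnNhd ℝ v (ball (p : E) r) ∧
      ∀ᵐ x ∂(volume.restrict (ball (p : E) r)), u x = v x := fun p => weyl_local hO h hw p.2
  choose r hr hrO w hwan hwae using hloc
  set v : E → ℝ := fun x => if hx : x ∈ O then w ⟨x, hx⟩ x else 0 with hv
  have hvw : ∀ p : O, ∀ x ∈ ball (p : E) (r p), v x = w p x := by
    intro p x hx
    have hxO : x ∈ O := hrO p hx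
    simp only [hv]
    rw [dif_pos hxO]
    set q : O := ⟨x, hxO⟩ with hq
    have hsub1 : ball (p : E) (r p) ∩ ball (q : E) (r q) ⊆ ball (p : E) (r p) := inter_subset_left
    have hsub2 : ball (p : E) (r p) ∩ ball (q : E) (r q) ⊆ ball (q : E) (r q) := inter_subset_right
    have h1 : w q =ᵐ[volume.restrict (ball (p : E) (r p) ∩ ball (q : E) (r q))] w p := by
      have a1 := ae_restrict_of_ae_restrict_of_subset hsub1 (hwae p)
      have a2 := ae_restrict_of_ae_restrict_of_subset hsub2 (hwae q)
      filter_upwards [a1, a2] with y h3 h4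
      rw [← h3, h4]
    have h2 := Measure.eqOn_open_of_ae_eq h1 (isOpen_ball.inter isOpen_ball)
      ((hwan q).continuousOn.mono hsub2) ((hwan p).continuousOn.mono hsub1)
    exact h2 ⟨hx, mem_ball_self (hr q)⟩
  have hvan : AnalyticOnNhd ℝ v O := by
    intro x hx
    have h1 := hwan ⟨x, hx⟩ x (mem_ball_self (hr _))
    apply h1.congr
    filter_upwards [ball_mem_nhds x (hr ⟨x, hx⟩)] with y hy
    exact (hvw ⟨x, hx⟩ y hy).symm
  have huv : ∀ᵐ x ∂(volume.restrict O), u x = v x := by
    rw [ae_restrict_iff' hO.measurableSet, ae_iff]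
    apply measure_null_of_locally_null
    intro x hx
    have hxO : x ∈ O := by
      by_contra hc
      exact hx (fun h => absurd h hc)
    refine ⟨{y | ¬(y ∈ O → u y = v y)} ∩ ball x (r ⟨x, hxO⟩), ?_, ?_⟩
    · exact inter_mem self_mem_nhdsWithin (mem_nhdsWithin_of_mem_nhds (ball_mem_nhds x (hr _)))
    · have h1 := hwae ⟨x, hxO⟩
      rw [ae_restrict_iff' isOpen_ball.measurableSet, ae_iff] at h1
      refine measure_mono_null ?_ h1
      rintro y ⟨hy1, hy2⟩
      intro h2
      apply hy1
      intro _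
      rw [hvw ⟨x, hxO⟩ y hy2]
      exact h2 hy2
  have hc1 := c1_of_an hvan
  -- gradients
  have hGv : ∀ᵐ x ∂(volume.restrict O), G x = gradient v x := by
    have h1 : ∀ i : Fin 3, ∀ᵐ x ∂(volume.restrict O), ⟪G x, bv i⟫_ℝ - fderiv ℝ v x (bv i) = 0 := by
      intro i
      have hGi : MemLp (fun x => ⟪G x, bv i⟫_ℝ) 2 (volume.restrict O) := h.memG.inner_const _
      have hGl : LocallyIntegrableOn (fun x => ⟪G x, bv i⟫_ℝ) O := by
        rw [locallyIntegrableOn_iff hO.isLocallyClosed]
        intro k hk hkc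
        have : IsFiniteMeasure (volume.restrict k) := ⟨by simpa using hkc.measure_lt_top⟩
        have h2 : MemLp (fun x => ⟪G x, bv i⟫_ℝ) 2 (volume.restrict k) :=
          hGi.mono_measure (Measure.restrict_mono hk le_rfl)
        exact h2.integrable (by norm_num)
      have hdc : ContinuousOn (fun x => fderiv ℝ v x (bv i)) O := by
        have := hc1.continuousOn_fderiv_of_isOpen hO le_rfl
        exact this.clm_apply continuousOn_const
      have hl2 : LocallyIntegrableOn (fun x => ⟪G x, bv i⟫_ℝ - fderiv ℝ v x (bv i)) O :=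
        hGl.sub (hdc.locallyIntegrableOn hO.measurableSet)
      apply ae_zero_of_test hO hl2
      intro ψ hψ
      have e1 := h.weak ψ hψ (bv i)
      have e2 := ibp hO hc1 (hψ.1.of_le (by simp)) hψ.2.1 hψ.2.2 (bv i)
      have e3 : ∫ x in O, u x * fderiv ℝ ψ x (bv i) = ∫ x in O, v x * fderiv ℝ ψ x (bv i) := by
        apply integral_congr_ae
        filter_upwards [huv] with x hx
        rw [hx]
      rw [e3, e2, neg_inj] at e1
      have hz : ∀ x ∉ O, ψ x = 0 := fun x hx =>
        image_eq_zero_of_notMem_tsupport (fun h2 => hx (hψ.2.2 h2))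
      have i1 : Integrable (fun x => ⟪G x, bv i⟫_ℝ * ψ x) (volume.restrict O) :=
        int_mul hGi ((hψ.1.continuous.memLp_of_hasCompactSupport hψ.2.1).restrict O)
      have i2 : Integrable (fun x => fderiv ℝ v x (bv i) * ψ x) (volume.restrict O) :=
        (int_mul_of hO hdc hψ.1.continuous hψ.2.1 hψ.2.2).integrableOn
      rw [← setIntegral_eq_integral_of_forall_compl_eq_zero (s := O) (fun x hx => by
        rw [hz x hx, zero_mul])]
      have e4 : ∀ x, ψ x * (⟪G x, bv i⟫_ℝ - fderiv ℝ v x (bv i))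
          = ⟪G x, bv i⟫_ℝ * ψ x - fderiv ℝ v x (bv i) * ψ x := fun x => by ring
      simp_rw [e4]
      rw [integral_sub i1 i2, e1, sub_self]
    filter_upwards [ae_all_iff.2 h1] with x hx
    ext k
    have e1 := hx k
    have e2 := inner_grad v x (bv k)
    rw [EuclideanSpace.inner_single_right] at e1 e2
    simp only [conj_trivial, one_mul] at e1 e2
    rw [e2]
    linarith
  refine ⟨v, hvan, ?_, huv, hGv⟩
  -- harmonic
  have hlc := cont_of_lap hvan
  have hae : ∀ᵐ x ∂(volume.restrict O), lap v x = 0 := by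
    apply ae_zero_of_test hO (hlc.locallyIntegrableOn hO.measurableSet)
    intro ψ hψ
    have hz : ∀ x ∉ O, ψ x = 0 := fun x hx =>
      image_eq_zero_of_notMem_tsupport (fun h2 => hx (hψ.2.2 h2))
    have hwv : ∫ x in O, ⟪gradient v x, gradient ψ x⟫_ℝ = 0 := by
      rw [← hw ψ hψ]
      apply integral_congr_ae
      filter_upwards [hGv] with x hx
      rw [hx]
    have hdan : ∀ i : Fin 3, AnalyticOnNhd ℝ (fun y => fderiv ℝ v y (bv i)) O := fun i x hx =>
      ((ContinuousLinearMap.apply ℝ ℝ (bv i)).analyticAt _).comp (hvan x hx).fderiv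
    have e1 : ∀ i : Fin 3, ∫ x in O, fderiv ℝ v x (bv i) * fderiv ℝ ψ x (bv i)
        = - ∫ x in O, fderiv ℝ (fun y => fderiv ℝ v y (bv i)) x (bv i) * ψ x := fun i =>
      ibp hO (c1_of_an (hdan i)) (hψ.1.of_le (by simp)) hψ.2.1 hψ.2.2 (bv i)
    have hdd : ∀ i : Fin 3, ContinuousOn
        (fun x => fderiv ℝ (fun y => fderiv ℝ v y (bv i)) x (bv i)) O := by
      intro i
      have := (c1_of_an (hdan i)).continuousOn_fderiv_of_isOpen hO le_rfl
      exact this.clm_apply continuousOn_const
    rw [← setIntegral_eq_integral_of_forall_compl_eq_zero (s := O) (fun x hx => by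
        rw [hz x hx, zero_mul])]
    have e2 : ∀ x, ψ x * lap v x
        = ∑ i : Fin 3, fderiv ℝ (fun y => fderiv ℝ v y (bv i)) x (bv i) * ψ x := by
      intro x
      unfold lap
      rw [Finset.mul_sum]
      apply Finset.sum_congr rfl
      intro i _
      ring
    simp_rw [e2]
    rw [integral_finsetSum _ (fun i _ =>
      (int_mul_of hO (hdd i) hψ.1.continuous hψ.2.1 hψ.2.2).integrableOn)]
    have e3 : ∀ i : Fin 3, ∫ x in O, fderiv ℝ (fun y => fderiv ℝ v y (bv i)) x (bv i) * ψ x
        = - ∫ x in O, fderiv ℝ v x (bv i) * fderiv ℝ ψ x (bv i) := by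
      intro i
      rw [e1 i, neg_neg]
    rw [Finset.sum_congr rfl (fun i _ => e3 i), Finset.sum_neg_distrib, neg_eq_zero,
      ← integral_finsetSum _ (fun i _ => by
        have hφ := hψ.fderiv_apply (bv i)
        exact (int_mul_of hO (hdan i).continuousOn hφ.1.continuous hφ.2.1 hφ.2.2).integrableOn)]
    rw [← hwv]
    apply integral_congr_ae
    filter_upwards with x
    have h2 := (EuclideanSpace.basisFun (Fin 3) ℝ).sum_inner_mul_inner (gradient v x)
      (gradient ψ x)
    rw [← h2]
    apply Finset.sum_congr rfl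
    intro i _
    rw [basis_bv, inner_grad, inner_grad']
  have h0 : lap v =ᵐ[volume.restrict O] fun _ => 0 := hae
  intro x hx
  exact Measure.eqOn_open_of_ae_eq h0 hO hlc continuousOn_const hx

end Pool.Agent.Run7.h982
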