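import Pool.Agent.Run7.h982.K3
import Pool.Agent.Run7.h982.J9
import Pool.Agent.Run7.h982.W4
import Pool.Agent.Run7.h982.Pot

/-!
# Insulating cracks: removing the part of the crack without jump
-/

set_option autoImplicit false

open MeasureTheory Set Filter Topology Metric
open scoped ContDiff ENNReal NNReal InnerProductSpace

namespace Pool.Agent.Run7.h982

theorem jump_res {Ω S : Set E} (hΩ : IsOpen Ω) (hS : IsCompact S) {u φ : E → ℝ}
    (hφ : IsTest Ω φ) (e : E) :
    ∫ x in Sᶜ, (u x * fderiv ℝ φ x e + fderiv ℝ u x e * φ x) =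
      ∫ x in Ω \ S, (u x * fderiv ℝ φ x e + fderiv ℝ u x e * φ x) := by
  have oS : IsOpen (Ω \ S) := hΩ.sdiff hS.isClosed
  rw [← integral_indicator hS.isClosed.isOpen_compl.measurableSet,
    ← integral_indicator oS.measurableSet]
  congr 1
  funext x
  by_cases hx : x ∈ S
  · rw [indicator_of_notMem (show x ∉ Sᶜ from fun h' => h' hx),
      indicator_of_notMem (show x ∉ Ω \ S from fun h' => h'.2 hx)]
  · rw [indicator_of_mem (show x ∈ Sᶜ from hx)]
    by_cases hxΩ : x ∈ Ω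
    · rw [indicator_of_mem (show x ∈ Ω \ S from ⟨hxΩ, hx⟩)]
    · rw [indicator_of_notMem (show x ∉ Ω \ S from fun h' => hxΩ h'.1)]
      have h1 : x ∉ tsupport φ := fun h' => hxΩ (hφ.2.2 h')
      rw [fderiv_zero_of h1, image_eq_zero_of_notMem_tsupport h1]
      simp

theorem restrict_null {Ω S K : Set E} (hKS : K ⊆ S) (h0 : volume S = 0) :
    (volume : Measure E).restrict (Ω \ K) = volume.restrict (Ω \ S) := by
  apply Measure.restrict_congr_set
  rw [ae_eq_set]
  constructor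
  · apply measure_mono_null _ h0
    rintro x ⟨hx, hx2⟩
    by_contra h
    exact hx2 ⟨hx.1, h⟩
  · apply measure_mono_null _ h0
    rintro x ⟨hx, hx2⟩
    exact absurd ⟨hx.1, fun h => hx.2 (hKS h)⟩ hx2

theorem extend_free {Ω S K : Set E} (hΩ : IsOpen Ω) (hS : IsCompact S)
    (h0 : volume S = 0) (hK : IsCompact K) (hKS : K ⊆ S) {v : E → ℝ} (hv : Sol Ω S v)
    (hfree : ∀ p ∈ S \ K, JumpFree S v p) :
    ∃ V : E → ℝ, AnalyticOnNhd ℝ V (Ω \ K) ∧ (∀ x ∈ Ω \ S, V x = v x) := by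
  have hres := restrict_null (Ω := Ω) hKS h0
  have oS : IsOpen (Ω \ S) := hΩ.sdiff hS.isClosed
  have oK : IsOpen (Ω \ K) := hΩ.sdiff hK.isClosed
  have hloc : ∀ e : E, ∀ φ, IsTest (Ω \ K) φ →
      ∫ x in Ω \ S, (v x * fderiv ℝ φ x e + fderiv ℝ v x e * φ x) = 0 := by
    intro e φ hφ
    have key := localise (K := tsupport φ) hφ.2.1.isCompact (P := fun φ => IsTest Ω φ ∧
      ∫ x in Ω \ S, (v x * fderiv ℝ φ x e + fderiv ℝ v x e * φ x) = 0) ?_ ?_ ?_ φ
      (hφ.mono (subset_univ _)) Subset.rfl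
    · exact key.2
    · rintro φ ψ - - ⟨a1, a2⟩ ⟨b1, b2⟩
      refine ⟨a1.add b1, ?_⟩
      have i1 := jump_int hv.mem hv.memG a1 e
      have i2 := jump_int hv.mem hv.memG b1 e
      have : ∫ x in Ω \ S, (v x * fderiv ℝ (fun x => φ x + ψ x) x e +
          fderiv ℝ v x e * (φ x + ψ x)) =
          ∫ x in Ω \ S, ((v x * fderiv ℝ φ x e + fderiv ℝ v x e * φ x) +
          (v x * fderiv ℝ ψ x e + fderiv ℝ v x e * ψ x)) := by
        congr 1
        funext x
        rw [fderiv_fun_add (a1.1.differentiable (by simp) x) (b1.1.differentiable (by simp) x),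
          add_apply]
        ring
      rw [this, integral_add i1 i2, a2, b2, add_zero]
    · intro x hx
      have hxO := hφ.2.2 hx
      by_cases hxS : x ∈ S
      · obtain ⟨U, u1, u2, u3⟩ := hfree x ⟨hxS, hxO.2⟩
        refine ⟨U ∩ Ω, u1.inter hΩ, ⟨u2, hxO.1⟩, fun φ hφ => ?_⟩
        have hφΩ : IsTest Ω φ := hφ.mono inter_subset_right
        refine ⟨hφΩ, ?_⟩
        rw [← jump_res hΩ hS hφΩ e, ← jump_split hΩ hS hv hφΩ e]
        exact u3 φ (hφ.mono inter_subset_left) e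
      · refine ⟨Ω \ S, oS, ⟨hxO.1, hxS⟩, fun φ hφ => ?_⟩
        have hφΩ : IsTest Ω φ := hφ.mono sdiff_subset
        refine ⟨hφΩ, ?_⟩
        have h1 := ibp oS (c1_of_an hv.an) (hφ.1.of_le (by simp)) hφ.2.1 hφ.2.2 e
        rw [integral_add (int_mul hv.mem ((hφ.fderiv_apply e).memLp _))
          (int_mul (memLp_dir hv.memG e) (hφ.memLp _)), h1]
        ring
    · refine ⟨⟨contDiff_const, HasCompactSupport.zero, ?_⟩, ?_⟩
      · have : tsupport (fun _ : E => (0 : ℝ)) = ∅ := by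
          rw [tsupport_eq_empty_iff]
          rfl
        rw [this]
        exact empty_subset _
      · simp
  have hH1 : IsH1 (Ω \ K) v (gradient v) := by
    refine ⟨by rw [hres]; exact hv.mem, by rw [hres]; exact hv.memG, fun φ hφ e => ?_⟩
    rw [hres]
    have h1 := hloc e φ hφ
    rw [integral_add (int_mul hv.mem ((hφ.fderiv_apply e).memLp _))
      (int_mul (memLp_dir hv.memG e) (hφ.memLp _))] at h1
    simp_rw [inner_grad]
    linarith
  obtain ⟨V, v1, -, v3, -⟩ := weyl (Ω \ K) v (gradient v) oK hH1 (fun φ hφ => by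
    rw [hres]
    exact hv.weak φ (hφ.mono sdiff_subset).gtest)
  refine ⟨V, v1, ?_⟩
  have hsub : Ω \ S ⊆ Ω \ K := fun x hx => ⟨hx.1, fun h => hx.2 (hKS h)⟩
  have h5 : EqOn v V (Ω \ S) := by
    apply Measure.eqOn_open_of_ae_eq (μ := volume) _ oS
      (hv.an.continuousOn) (v1.continuousOn.mono hsub)
    rw [← hres]
    exact v3
  exact fun x hx => (h5 hx).symm

end Pool.Agent.Run7.h982
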