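import Pool.Agent.Run7.h982.K4
import Pool.Agent.Run7.h982.K1

/-!
# Insulating cracks: an invisible crack does not change the potential
-/

set_option autoImplicit false

open MeasureTheory Set Filter Topology Metric
open scoped ContDiff ENNReal NNReal InnerProductSpace

namespace Pool.Agent.Run7.h982

theorem tendsto_pair_vec {μ : Measure E} {f : E → E} {fn : ℕ → E → E} {g : E → E}
    (hf : MemLp f 2 μ) (hfn : ∀ n, AEStronglyMeasurable (fn n) μ) (hg : MemLp g 2 μ)
    (h : Tendsto (fun n => eLpNorm (fun x => f x - fn n x) 2 μ) atTop (𝓝 0)) :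
    Tendsto (fun n => ∫ x, ⟪fn n x, g x⟫_ℝ ∂μ) atTop (𝓝 (∫ x, ⟪f x, g x⟫_ℝ ∂μ)) := by
  have h1 : Tendsto (fun n => (eLpNorm (fun x => f x - fn n x) 2 μ).toReal *
      (eLpNorm g 2 μ).toReal) atTop (𝓝 0) := by
    have := ((ENNReal.tendsto_toReal ENNReal.zero_ne_top).comp h).mul_const
      (eLpNorm g 2 μ).toReal
    simpa using this
  have h2 : ∀ᶠ n in atTop, MemLp (fun x => f x - fn n x) 2 μ := by
    have : ∀ᶠ n in atTop, eLpNorm (fun x => f x - fn n x) 2 μ < 1 :=
      h.eventually (gt_mem_nhds zero_lt_one)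
    filter_upwards [this] with n hn
    exact ⟨hf.1.sub (hfn n), hn.trans ENNReal.one_lt_top⟩
  have h3 : Tendsto (fun n => ∫ x, ⟪f x - fn n x, g x⟫_ℝ ∂μ) atTop (𝓝 0) := by
    apply squeeze_zero_norm' _ h1
    filter_upwards [h2] with n hn
    refine (norm_integral_le_integral_norm _).trans ?_
    have h4 := int_abs_mul_le hn.norm hg.norm
    rw [eLpNorm_norm, eLpNorm_norm] at h4
    refine le_trans ?_ h4
    apply integral_mono_of_nonneg (Eventually.of_forall (fun x => norm_nonneg _))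
      (int_mul hn.norm hg.norm).abs
    refine Eventually.of_forall (fun x => ?_)
    simp only
    rw [abs_of_nonneg (by positivity)]
    exact norm_inner_le_norm _ _
  have h4 : (fun n => ∫ x, ⟪fn n x, g x⟫_ℝ ∂μ) =ᶠ[atTop]
      fun n => (∫ x, ⟪f x, g x⟫_ℝ ∂μ) - ∫ x, ⟪f x - fn n x, g x⟫_ℝ ∂μ := by
    filter_upwards [h2] with n hn
    rw [← integral_sub (int_inner hf hg) (int_inner hn hg)]
    congr 1
    funext x
    rw [inner_sub_left]
    ring
  rw [tendsto_congr' h4]
  simpa using (tendsto_const_nhds (x := ∫ x, ⟪f x, g x⟫_ℝ ∂μ)).sub h3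

theorem inner_sum (F h : E → ℝ) (x : E) : ⟪gradient F x, gradient h x⟫_ℝ =
    ∑ i, fderiv ℝ F x (bv i) * fderiv ℝ h x (bv i) := by
  rw [inner_grad']
  conv_lhs => rw [vec_sum (gradient F x)]
  rw [map_sum]
  apply Finset.sum_congr rfl
  intro i _
  rw [map_smul, smul_eq_mul, ← inner_grad F x (bv i), inner_bv]

variable {Ω S K : Set E} {v V f ψ h : E → ℝ}

theorem back_one (hΩ : IsOpen Ω) (hS : IsCompact S)
    (h0 : volume S = 0) (hK : IsCompact K) (hKS : K ⊆ S)
    (hK0 : (Measure.hausdorffMeasure 2 : Measure E) K = 0) (hv : Sol Ω S v)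
    (hV : AnalyticOnNhd ℝ V (Ω \ K)) (hVv : ∀ x ∈ Ω \ S, V x = v x) (hh : ContDiff ℝ ∞ h)
    (hlap : ∀ x, lap h x = 0) {χ : E → ℝ} (hχ : IsTest Ω χ) :
    ∫ x in Ω \ S, (v x * ⟪gradient χ x, gradient h x⟫_ℝ +
      χ x * ⟪gradient v x, gradient h x⟫_ℝ) = 0 := by
  have hres := restrict_null (Ω := Ω) hKS h0
  have oS : IsOpen (Ω \ S) := hΩ.sdiff hS.isClosed
  have hVg : ∀ x ∈ Ω \ S, fderiv ℝ V x = fderiv ℝ v x := by
    intro x hx
    apply Filter.EventuallyEq.fderiv_eq
    filter_upwards [oS.mem_nhds hx] with y hy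
    exact hVv y hy
  have mV : MemLp V 2 (volume.restrict (Ω \ K)) := by
    rw [hres]
    apply hv.mem.ae_eq
    filter_upwards [ae_restrict_mem oS.measurableSet] with x hx
    rw [hVv x hx]
  have mVg : MemLp (gradient V) 2 (volume.restrict (Ω \ K)) := by
    rw [hres]
    apply hv.memG.ae_eq
    filter_upwards [ae_restrict_mem oS.measurableSet] with x hx
    unfold gradient
    rw [hVg x hx]
  have hci : ∀ i : Fin 3, ContDiff ℝ ∞ (fun x => fderiv ℝ h x (bv i)) := fun i =>
    (hh.fderiv_right (m := ∞) (by simp)).clm_apply contDiff_const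
  have ht : ∀ i : Fin 3, IsTest Ω (fun x => fderiv ℝ h x (bv i) * χ x) := fun i =>
    IsTest.mul_left (hci i) hχ
  have hz : ∀ i : Fin 3, ∫ x in Ω \ S, (v x * fderiv ℝ (fun x => fderiv ℝ h x (bv i) * χ x) x
      (bv i) + fderiv ℝ v x (bv i) * (fderiv ℝ h x (bv i) * χ x)) = 0 := by
    intro i
    have h1 := rem_null hΩ hK hK0 (c1_of_an hV) mV mVg (ht i) (bv i)
    rw [hres] at h1
    rw [← h1]
    apply setIntegral_congr_fun oS.measurableSet
    intro x hx
    simp only
    rw [hVv x hx, hVg x hx]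
  have hi : ∀ i : Fin 3, Integrable (fun x => v x * fderiv ℝ (fun x => fderiv ℝ h x (bv i) *
      χ x) x (bv i) + fderiv ℝ v x (bv i) * (fderiv ℝ h x (bv i) * χ x))
      (volume.restrict (Ω \ S)) := fun i => jump_int hv.mem hv.memG (ht i) (bv i)
  have hsum : ∑ i : Fin 3, ∫ x in Ω \ S, (v x * fderiv ℝ (fun x => fderiv ℝ h x (bv i) * χ x) x
      (bv i) + fderiv ℝ v x (bv i) * (fderiv ℝ h x (bv i) * χ x)) = 0 := by
    simp_rw [hz]
    simp
  rw [← integral_finsetSum _ (fun i _ => hi i)] at hsum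
  rw [← hsum]
  congr 1
  funext x
  have h1 : ∀ i : Fin 3, fderiv ℝ (fun x => fderiv ℝ h x (bv i) * χ x) x (bv i) =
      fderiv ℝ χ x (bv i) * fderiv ℝ h x (bv i) +
      χ x * fderiv ℝ (fun x => fderiv ℝ h x (bv i)) x (bv i) := by
    intro i
    rw [fderiv_fun_mul ((hci i).differentiable (by simp) x) (hχ.1.differentiable (by simp) x)]
    simp only [add_apply, smul_apply, smul_eq_mul]
    ring
  have h2 : ∑ i, fderiv ℝ (fun x => fderiv ℝ h x (bv i)) x (bv i) = 0 := hlap x
  rw [inner_sum, inner_sum]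
  simp_rw [h1]
  rw [Fin.sum_univ_three, Fin.sum_univ_three, Fin.sum_univ_three]
  rw [Fin.sum_univ_three] at h2
  linear_combination (-(v x * χ x)) * h2

theorem back_two (hΩ : IsDomain3 Ω) (hfin : surf Ω univ < ⊤) (hS : IsCompact S)
    (h0 : volume S = 0) (hv : Sol Ω S v)
    (hp : IsPotential Ω S ψ v (gradient v) f) (hψ : MemLp ψ 2 (surf Ω)) (hh : ContDiff ℝ ∞ h)
    (hflux : ∀ F : E → ℝ, ContDiff ℝ ∞ F →
      ∫ x in Ω, ⟪gradient h x, gradient F x⟫_ℝ = ∫ x, ψ x * F x ∂(surf Ω)) :
    ∃ χ : E → ℝ, IsTest Ω χ ∧ ∫ x in Ω \ S, ((1 - χ x) * ⟪gradient v x, gradient h x⟫_ℝ -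
      v x * ⟪gradient χ x, gradient h x⟫_ℝ) = ∫ x, f x * ψ x ∂(surf Ω) := by
  obtain ⟨mf, K₀, hK₀, hK₀Ω, Φ, hΦ, t1, t2, t3⟩ := hp.trace
  obtain ⟨χ, c1, c2, c3, c4, W, c5, c6, c7⟩ := cutoff hK₀ hΩ.isOpen hK₀Ω
  have hχ : IsTest Ω χ := ⟨c1, c2, c3⟩
  refine ⟨χ, hχ, ?_⟩
  have oK : IsOpen (Ω \ K₀) := hΩ.isOpen.sdiff hK₀.isClosed
  have hres0 : (volume : Measure E).restrict Ω = volume.restrict (Ω \ S) := by
    have := restrict_null (Ω := Ω) (K := ∅) (empty_subset S) h0
    rwa [sdiff_empty] at this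
  have mv : MemLp v 2 (volume.restrict (Ω \ K₀)) := by
    have : MemLp v 2 (volume.restrict Ω) := by rw [hres0]; exact hv.mem
    exact this.mono_measure (Measure.restrict_mono sdiff_subset le_rfl)
  have mvg : MemLp (gradient v) 2 (volume.restrict (Ω \ K₀)) := by
    have : MemLp (gradient v) 2 (volume.restrict Ω) := by rw [hres0]; exact hv.memG
    exact this.mono_measure (Measure.restrict_mono sdiff_subset le_rfl)
  have hfO : IsFiniteMeasure (volume.restrict (Ω \ K₀) : Measure E) := by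
    refine ⟨?_⟩
    rw [Measure.restrict_apply_univ]
    exact (measure_mono sdiff_subset).trans_lt hΩ.bdd.measure_lt_top
  have hgc : Continuous (gradient h) := grad_cont (hh.of_le (by simp))
  have hχc : Continuous (gradient χ) := grad_cont (c1.of_le (by simp))
  have bddm : ∀ {F : Type} [NormedAddCommGroup F] (g : E → F), Continuous g →
      MemLp g 2 (volume.restrict (Ω \ K₀)) := by
    intro F _ g hg
    obtain ⟨B, hB⟩ := hΩ.bdd.isCompact_closure.exists_bound_of_continuousOn hg.continuousOn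
    have hgm : AEStronglyMeasurable g (volume.restrict (Ω \ K₀)) := hg.aestronglyMeasurable
    apply MemLp.of_bound hgm B
    filter_upwards [ae_restrict_mem oK.measurableSet] with x hx
    exact hB x (subset_closure hx.1)
  set a : E → E := fun x => (1 - χ x) • gradient h x with ha
  set b : E → ℝ := fun x => ⟪gradient χ x, gradient h x⟫_ℝ with hb
  have mca : Continuous a := (continuous_const.sub c1.continuous).smul hgc
  have mcb : Continuous b := hχc.inner hgc
  have ma : MemLp a 2 (volume.restrict (Ω \ K₀)) := bddm a mca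
  have mb : MemLp b 2 (volume.restrict (Ω \ K₀)) := bddm b mcb
  have hχK : ∀ x ∈ K₀, χ x = 1 ∧ gradient χ x = 0 := by
    intro x hx
    refine ⟨c7 x (c6 hx), grad_of_fderiv_zero ?_⟩
    have : χ =ᶠ[𝓝 x] fun _ => 1 := by
      filter_upwards [c5.mem_nhds (c6 hx)] with y hy
      exact c7 y hy
    rw [this.fderiv_eq]
    simp
  -- passage to the limit
  have L1 := tendsto_pair_vec (g := a) mvg
    (fun n => (grad_cont ((hΦ n).of_le (by simp))).aestronglyMeasurable) ma t2
  have L2 := tendsto_pair (g := b) mv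
    (fun n => (hΦ n).continuous.aestronglyMeasurable) mb t1
  have L3 := tendsto_pair (g := ψ) mf
    (fun n => (hΦ n).continuous.aestronglyMeasurable) hψ t3
  have L4 := L1.sub L2
  have hn : ∀ n, (∫ x in Ω \ K₀, ⟪gradient (Φ n) x, a x⟫_ℝ) - ∫ x in Ω \ K₀, Φ n x * b x =
      ∫ x, Φ n x * ψ x ∂(surf Ω) := by
    intro n
    have hF : ContDiff ℝ ∞ (fun x => (1 - χ x) * Φ n x) := (contDiff_const.sub c1).mul (hΦ n)
    have e1 := hflux _ hF
    have e2 : ∫ x, ψ x * ((1 - χ x) * Φ n x) ∂(surf Ω) = ∫ x, Φ n x * ψ x ∂(surf Ω) := by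
      apply integral_congr_ae
      filter_upwards [surf_ae Ω] with x hx
      have : x ∉ tsupport χ := by
        intro hx2
        rw [hΩ.isOpen.frontier_eq] at hx
        exact hx.2 (c3 hx2)
      rw [image_eq_zero_of_notMem_tsupport this]
      ring
    rw [← e2, ← e1, ← integral_sub (int_inner (bddm _ (grad_cont ((hΦ n).of_le (by simp)))) ma)
      (int_mul (bddm _ (hΦ n).continuous) mb)]
    have e3 : ∀ x, ⟪gradient h x, gradient (fun x => (1 - χ x) * Φ n x) x⟫_ℝ =
        ⟪gradient (Φ n) x, a x⟫_ℝ - Φ n x * b x := by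
      intro x
      have d1 : HasFDerivAt (fun x => 1 - χ x) (-fderiv ℝ χ x) x :=
        ((c1.differentiable (by simp)) x).hasFDerivAt.const_sub 1
      have d2 : HasFDerivAt (Φ n) (fderiv ℝ (Φ n) x) x :=
        (((hΦ n).differentiable (by simp)) x).hasFDerivAt
      have e4 : gradient (fun x => (1 - χ x) * Φ n x) x =
          (1 - χ x) • gradient (Φ n) x - Φ n x • gradient χ x := by
        unfold gradient
        rw [(d1.fun_mul d2).fderiv, map_add, map_smul, map_smul, map_neg, smul_neg,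
          ← sub_eq_add_neg]
      rw [e4, inner_sub_right, real_inner_smul_right, real_inner_smul_right]
      simp only [ha, hb]
      rw [real_inner_smul_right, real_inner_comm (gradient h x) (gradient (Φ n) x),
        real_inner_comm (gradient h x) (gradient χ x)]
    simp_rw [e3]
    apply (setIntegral_eq_of_subset_of_forall_sdiff_eq_zero hΩ.isOpen.measurableSet
      sdiff_subset ?_).symm
    intro x hx
    have hxK : x ∈ K₀ := by
      by_contra h'
      exact hx.2 ⟨hx.1, h'⟩
    simp only [ha, hb]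
    rw [(hχK x hxK).1, (hχK x hxK).2]
    simp
  simp_rw [hn] at L4
  have hL := tendsto_nhds_unique L3 L4
  rw [hL, ← integral_sub (int_inner mvg ma) (int_mul mv mb), ← hres0]
  have e5 : ∫ x in Ω \ K₀, (⟪gradient v x, a x⟫_ℝ - v x * b x) =
      ∫ x in Ω, (⟪gradient v x, a x⟫_ℝ - v x * b x) := by
    apply (setIntegral_eq_of_subset_of_forall_sdiff_eq_zero hΩ.isOpen.measurableSet
      sdiff_subset ?_).symm
    intro x hx
    have hxK : x ∈ K₀ := by
      by_contra h'
      exact hx.2 ⟨hx.1, h'⟩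
    simp only [ha, hb]
    rw [(hχK x hxK).1, (hχK x hxK).2]
    simp
  rw [e5]
  congr 1
  funext x
  simp only [ha, hb, real_inner_smul_right]

/-- **An invisible crack does not change the potential.** -/
theorem back_eq (hΩ : IsDomain3 Ω) (hfin : surf Ω univ < ⊤) (hS : IsCompact S)
    (h0 : volume S = 0) (hK : IsCompact K) (hKS : K ⊆ S)
    (hK0 : (Measure.hausdorffMeasure 2 : Measure E) K = 0) (hv : Sol Ω S v)
    (hp : IsPotential Ω S ψ v (gradient v) f) (hψ : MemLp ψ 2 (surf Ω))
    (hV : AnalyticOnNhd ℝ V (Ω \ K)) (hVv : ∀ x ∈ Ω \ S, V x = v x) (hh : ContDiff ℝ ∞ h)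
    (hlap : ∀ x, lap h x = 0) (hflux : ∀ F : E → ℝ, ContDiff ℝ ∞ F →
      ∫ x in Ω, ⟪gradient h x, gradient F x⟫_ℝ = ∫ x, ψ x * F x ∂(surf Ω)) :
    ∀ x ∈ Ω \ S, gradient v x = gradient h x := by
  obtain ⟨χ, hχ, h2⟩ := back_two hΩ hfin hS h0 hv hp hψ hh hflux
  have h1 := back_one hΩ.isOpen hS h0 hK hKS hK0 hv hV hVv hh hlap hχ
  have oS : IsOpen (Ω \ S) := hΩ.isOpen.sdiff hS.isClosed
  have hres0 : (volume : Measure E).restrict Ω = volume.restrict (Ω \ S) := by
    have := restrict_null (Ω := Ω) (K := ∅) (empty_subset S) h0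
    rwa [sdiff_empty] at this
  have hfO : IsFiniteMeasure (volume.restrict (Ω \ S) : Measure E) := by
    refine ⟨?_⟩
    rw [Measure.restrict_apply_univ]
    exact (measure_mono sdiff_subset).trans_lt hΩ.bdd.measure_lt_top
  have bddm : ∀ {F : Type} [NormedAddCommGroup F] (g : E → F), Continuous g →
      MemLp g 2 (volume.restrict (Ω \ S)) := by
    intro F _ g hg
    obtain ⟨B, hB⟩ := hΩ.bdd.isCompact_closure.exists_bound_of_continuousOn hg.continuousOn
    have hgm : AEStronglyMeasurable g (volume.restrict (Ω \ S)) := hg.aestronglyMeasurable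
    apply MemLp.of_bound hgm B
    filter_upwards [ae_restrict_mem oS.measurableSet] with x hx
    exact hB x (subset_closure hx.1)
  have mh : MemLp h 2 (volume.restrict (Ω \ S)) := bddm h hh.continuous
  have mhg : MemLp (gradient h) 2 (volume.restrict (Ω \ S)) :=
    bddm _ (grad_cont (hh.of_le (by simp)))
  have hχc : Continuous (gradient χ) := grad_cont (hχ.1.of_le (by simp))
  have hgc : Continuous (gradient h) := grad_cont (hh.of_le (by simp))
  -- the four identities
  have iA := hp.weak v (gradient v) f hp.h1 hp.trace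
  have iB := hp.weak h (gradient h) h (isH1_of_c1 oS (hh.of_le (by simp)).contDiffOn mh mhg)
    (trace_of_smooth hΩ.bdd hfin hh)
  have iC := hflux h hh
  rw [hres0] at iC
  have iD : ∫ x in Ω \ S, ⟪gradient v x, gradient h x⟫_ℝ = ∫ x, f x * ψ x ∂(surf Ω) := by
    have j1 : Integrable (fun x => v x * ⟪gradient χ x, gradient h x⟫_ℝ +
        χ x * ⟪gradient v x, gradient h x⟫_ℝ) (volume.restrict (Ω \ S)) := by
      apply (int_mul hv.mem (bddm _ (hχc.inner hgc))).add
      have : Integrable (fun x => ⟪gradient v x, χ x • gradient h x⟫_ℝ)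
          (volume.restrict (Ω \ S)) := int_inner hv.memG (bddm _ (hχ.1.continuous.smul hgc))
      refine this.congr (Eventually.of_forall (fun x => ?_))
      simp only [real_inner_smul_right]
    have j2 : Integrable (fun x => (1 - χ x) * ⟪gradient v x, gradient h x⟫_ℝ -
        v x * ⟪gradient χ x, gradient h x⟫_ℝ) (volume.restrict (Ω \ S)) := by
      refine Integrable.sub ?_ (int_mul hv.mem (bddm _ (hχc.inner hgc)))
      have : Integrable (fun x => ⟪gradient v x, (1 - χ x) • gradient h x⟫_ℝ)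
          (volume.restrict (Ω \ S)) := int_inner hv.memG
            (bddm _ ((continuous_const.sub hχ.1.continuous).smul hgc))
      refine this.congr (Eventually.of_forall (fun x => ?_))
      simp only [real_inner_smul_right]
    rw [← h2, ← zero_add (∫ x in Ω \ S, ((1 - χ x) * ⟪gradient v x, gradient h x⟫_ℝ -
      v x * ⟪gradient χ x, gradient h x⟫_ℝ)), ← h1, ← integral_add j1 j2]
    congr 1
    funext x
    ring
  have hzero : ∫ x in Ω \ S, ‖gradient v x - gradient h x‖ ^ 2 = 0 := by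
    have e1 : ∀ x, ‖gradient v x - gradient h x‖ ^ 2 = ⟪gradient v x, gradient v x⟫_ℝ -
        2 * ⟪gradient v x, gradient h x⟫_ℝ + ⟪gradient h x, gradient h x⟫_ℝ := by
      intro x
      rw [norm_sub_sq_real, real_inner_self_eq_norm_sq, real_inner_self_eq_norm_sq]
    simp_rw [e1]
    have k1 := int_inner hv.memG hv.memG
    have k2 := (int_inner hv.memG mhg).const_mul 2
    have k3 := int_inner mhg mhg
    have k12 : Integrable (fun x => ⟪gradient v x, gradient v x⟫_ℝ -
        2 * ⟪gradient v x, gradient h x⟫_ℝ) (volume.restrict (Ω \ S)) := k1.sub k2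
    rw [integral_add k12 k3, integral_sub k1 k2, integral_const_mul, iA, iC, iB]
    have e2 : ∫ x, f x * ψ x ∂(surf Ω) = ∫ x, ψ x * f x ∂(surf Ω) := by
      congr 1
      funext x
      ring
    rw [e2, iB] at iD
    linarith
  have hae : ∀ᵐ x ∂(volume.restrict (Ω \ S)), ‖gradient v x - gradient h x‖ ^ 2 = 0 := by
    have := (integral_eq_zero_iff_of_nonneg_ae (Eventually.of_forall (fun x => by positivity))
      ((memLp_two_iff_integrable_sq_norm (hv.memG.sub mhg).1).1 (hv.memG.sub mhg))).1 hzero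
    filter_upwards [this] with x hx
    simpa using hx
  have hcv : ContinuousOn (gradient v) (Ω \ S) := grad_contOn oS (c1_of_an hv.an)
  apply Measure.eqOn_open_of_ae_eq (μ := volume) _ oS hcv hgc.continuousOn
  filter_upwards [hae] with x hx
  have := pow_eq_zero_iff (two_ne_zero) |>.1 hx
  exact sub_eq_zero.1 (norm_eq_zero.1 this)

end Pool.Agent.Run7.h982
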