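import Pool.Agent.Run7.h982.J9
import Pool.Agent.Run7.h982.Loc3

/-!
# Insulating cracks: no surface is tangent to the two explicit gradients
-/

set_option autoImplicit false

open MeasureTheory Set Filter Topology Metric
open scoped ContDiff ENNReal NNReal InnerProductSpace

namespace Pool.Agent.Run7.h982

/-- the two explicit harmonic functions -/
noncomputable def hh (i : Fin 2) (x : E) : ℝ := if i = 0 then x 0 else x 0 * x 1 + x 2

theorem hh_zero : hh 0 = fun x => x 0 := by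
  funext x
  simp [hh]

theorem hh_one : hh 1 = fun x => x 0 * x 1 + x 2 := by
  funext x
  simp [hh]

theorem coord_fd (i : Fin 3) (x e : E) : fderiv ℝ (fun y : E => y i) x e = e i := by
  have : HasFDerivAt (fun y : E => y i) (EuclideanSpace.proj (𝕜 := ℝ) i) x :=
    (EuclideanSpace.proj (𝕜 := ℝ) i).hasFDerivAt
  rw [this.fderiv]
  rfl

theorem hh_smooth {n : WithTop ℕ∞} (i : Fin 2) : ContDiff ℝ n (hh i) := by
  fin_cases i
  · show ContDiff ℝ n (hh 0)
    rw [hh_zero]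
    exact coord_smooth 0
  · show ContDiff ℝ n (hh 1)
    rw [hh_one]
    exact ((coord_smooth 0).mul (coord_smooth 1)).add (coord_smooth 2)

theorem hh0_fd (x e : E) : fderiv ℝ (hh 0) x e = e 0 := by
  rw [hh_zero]
  exact coord_fd 0 x e

theorem hh1_fd (x e : E) : fderiv ℝ (hh 1) x e = x 0 * e 1 + x 1 * e 0 + e 2 := by
  rw [hh_one]
  have d : ∀ i : Fin 3, HasFDerivAt (fun y : E => y i) (EuclideanSpace.proj (𝕜 := ℝ) i) x :=
    fun i => (EuclideanSpace.proj (𝕜 := ℝ) i).hasFDerivAt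
  have h := ((d 0).fun_mul (d 1)).fun_add (d 2)
  rw [h.fderiv]
  simp

theorem hh_lap (i : Fin 2) (x : E) : lap (hh i) x = 0 := by
  unfold lap
  fin_cases i
  · show ∑ i : Fin 3, fderiv ℝ (fun y => fderiv ℝ (hh 0) y (bv i)) x (bv i) = 0
    simp_rw [hh0_fd]
    simp
  · show ∑ i : Fin 3, fderiv ℝ (fun y => fderiv ℝ (hh 1) y (bv i)) x (bv i) = 0
    simp_rw [hh1_fd]
    rw [Fin.sum_univ_three]
    have e0 : (fun y : E => y 0 * (bv 0 : E) 1 + y 1 * (bv 0 : E) 0 + (bv 0 : E) 2) =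
        fun y => y 1 := by
      funext y; simp [bv]
    have e1 : (fun y : E => y 0 * (bv 1 : E) 1 + y 1 * (bv 1 : E) 0 + (bv 1 : E) 2) =
        fun y => y 0 := by
      funext y; simp [bv]
    have e2 : (fun y : E => y 0 * (bv 2 : E) 1 + y 1 * (bv 2 : E) 0 + (bv 2 : E) 2) =
        fun _ => 1 := by
      funext y; simp [bv]
    rw [e0, e1, e2, coord_fd, coord_fd]
    simp [bv]

theorem hh0_grad (x : E) : gradient (hh 0) x = bv 0 := by
  apply ext_inner_right ℝ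
  intro e
  rw [inner_grad, hh0_fd]
  simp [bv, EuclideanSpace.inner_single_left]

theorem hh1_grad (x : E) : gradient (hh 1) x = x 0 • bv 1 + x 1 • bv 0 + bv 2 := by
  apply ext_inner_right ℝ
  intro e
  rw [inner_grad, hh1_fd]
  simp [bv, EuclideanSpace.inner_single_left, inner_add_left, real_inner_smul_left]

theorem snd_symm' {t : E → ℝ} {x : E} (h : ContDiffAt ℝ ∞ t x) (a b : E) :
    fderiv ℝ (fun y => fderiv ℝ t y a) x b = fderiv ℝ (fun y => fderiv ℝ t y b) x a := by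
  have h2 : ContDiffAt ℝ 2 t x := h.of_le (WithTop.coe_le_coe.2 (le_top : (2 : ℕ∞) ≤ ⊤))
  have h1 : IsSymmSndFDerivAt ℝ t x := h2.isSymmSndFDerivAt (by simp)
  have hd : DifferentiableAt ℝ (fderiv ℝ t) x :=
    (h2.fderiv_right (m := 1) (by norm_num)).differentiableAt one_ne_zero
  have e : ∀ c d : E, fderiv ℝ (fun y => fderiv ℝ t y c) x d = fderiv ℝ (fderiv ℝ t) x d c := by
    intro c d
    have := (hd.hasFDerivAt.clm_apply (hasFDerivAt_const c x)).fderiv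
    rw [this]
    simp
  rw [e, e]
  exact (h1 b a)

variable {S : Set E} {Φ : OpenPartialHomeomorph E E}

theorem tan_deriv (h1 : ContDiffOn ℝ ∞ Φ Φ.source) (h2 : ContDiffOn ℝ ∞ Φ.symm Φ.target)
    (hSS : ∀ ζ ∈ Φ.source, Φ ζ ∈ S ↔ ζ 2 = 0) {F : E → ℝ} {y : E} (hy : y ∈ Φ.target)
    (hyS : y ∈ S) (hF : DifferentiableAt ℝ F y) (hF0 : ∀ z ∈ Φ.target ∩ S, F z = 0) {τ : E}
    (hτ : fderiv ℝ (fun x => Φ.symm x 2) y τ = 0) : fderiv ℝ F y τ = 0 := by
  set ζ := Φ.symm y with hζ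
  have hζs : ζ ∈ Φ.source := Φ.map_target hy
  have hΦζ : Φ ζ = y := Φ.right_inv hy
  set w : E := fderiv ℝ Φ.symm y τ with hw
  have d1 : HasFDerivAt Φ.symm (fderiv ℝ Φ.symm y) y :=
    ((h2.contDiffAt (Φ.open_target.mem_nhds hy)).differentiableAt (by simp)).hasFDerivAt
  have d2 : HasFDerivAt (fun x => Φ.symm x 2) ((EuclideanSpace.proj (𝕜 := ℝ) (2 : Fin 3)).comp
      (fderiv ℝ Φ.symm y)) y := (EuclideanSpace.proj (𝕜 := ℝ) (2 : Fin 3)).hasFDerivAt.comp y d1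
  have hw2 : w 2 = 0 := by
    rw [d2.fderiv] at hτ
    exact hτ
  have hζ2 : ζ 2 = 0 := (hSS ζ hζs).1 (by rw [hΦζ]; exact hyS)
  obtain ⟨k1, k2⟩ := chart_inv h1 h2 hζs
  have hback : fderiv ℝ Φ ζ w = τ := by
    have h3 : (fderiv ℝ Φ ζ) ∘L (fderiv ℝ Φ.symm y) = ContinuousLinearMap.id ℝ E := by
      rw [← hΦζ, ← k2]
      exact k1.self_comp_inverse
    exact congrArg (fun L : E →L[ℝ] E => L τ) h3
  have d3 : HasFDerivAt Φ (fderiv ℝ Φ ζ) ζ :=
    ((h1.contDiffAt (Φ.open_source.mem_nhds hζs)).differentiableAt (by simp)).hasFDerivAt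
  have d4 : HasFDerivAt F (fderiv ℝ F y) (Φ ζ) := by
    rw [hΦζ]
    exact hF.hasFDerivAt
  have d5 : HasFDerivAt (fun z => F (Φ z)) ((fderiv ℝ F y).comp (fderiv ℝ Φ ζ)) ζ :=
    d4.comp ζ d3
  have d6 : HasDerivAt (fun s : ℝ => ζ + s • w) w 0 := by
    have := ((hasDerivAt_id (0 : ℝ)).smul_const w).const_add ζ
    simpa using this
  have d5' : HasFDerivAt (fun z => F (Φ z)) ((fderiv ℝ F y).comp (fderiv ℝ Φ ζ))
      ((fun s : ℝ => ζ + s • w) 0) := by
    simpa using d5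
  have d7 := HasFDerivAt.comp_hasDerivAt (f := fun s : ℝ => ζ + s • w) 0 d5' d6
  have hz : ((fun z => F (Φ z)) ∘ fun s : ℝ => ζ + s • w) =ᶠ[𝓝 0] fun _ => 0 := by
    have hc : ContinuousAt (fun s : ℝ => ζ + s • w) 0 := by fun_prop
    have hs : ∀ᶠ s : ℝ in 𝓝 0, ζ + s • w ∈ Φ.source := by
      apply hc.eventually
      simp only [zero_smul, add_zero]
      exact Φ.open_source.mem_nhds hζs
    filter_upwards [hs] with s hs
    apply hF0
    refine ⟨Φ.map_source hs, (hSS _ hs).2 ?_⟩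
    simp [hζ2, hw2]
  have d8 := (hasDerivAt_const (0 : ℝ) (0 : ℝ)).congr_of_eventuallyEq hz
  have := d7.unique d8
  rw [ContinuousLinearMap.comp_apply, hback] at this
  exact this

/-- **No surface is tangent to both explicit gradients.** -/
theorem contact (h1 : ContDiffOn ℝ ∞ Φ Φ.source) (h2 : ContDiffOn ℝ ∞ Φ.symm Φ.target)
    (hSS : ∀ ζ ∈ Φ.source, Φ ζ ∈ S ↔ ζ 2 = 0) (h0 : 0 ∈ Φ.source)
    (hn : ∀ i : Fin 2, ∀ x ∈ Φ.target ∩ S,
      fderiv ℝ (fun y => Φ.symm y 2) x (gradient (hh i) x) = 0) : False := by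
  set t : E → ℝ := fun y => Φ.symm y 2 with ht
  have hts : ContDiffOn ℝ ∞ t Φ.target := (coord_smooth 2).comp_contDiffOn h2
  have hA : ∀ x ∈ Φ.target ∩ S, fderiv ℝ t x (bv 0) = 0 := by
    intro x hx
    have := hn 0 x hx
    rwa [hh0_grad] at this
  have hB : ∀ x ∈ Φ.target ∩ S, x 0 * fderiv ℝ t x (bv 1) + fderiv ℝ t x (bv 2) = 0 := by
    intro x hx
    have h3 := hn 1 x hx
    rw [hh1_grad, map_add, map_add, map_smul, map_smul, hA x hx] at h3
    simpa using h3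
  set y : E := Φ 0 with hy
  have hyT : y ∈ Φ.target := Φ.map_source h0
  have hyS : y ∈ S := (hSS 0 h0).2 (by simp)
  have hct : ContDiffAt ℝ ∞ t y := hts.contDiffAt (Φ.open_target.mem_nhds hyT)
  have hda : ∀ a : E, DifferentiableAt ℝ (fun x => fderiv ℝ t x a) y := fun a =>
    ((hct.fderiv_right (m := 1) (by norm_cast)).differentiableAt one_ne_zero).clm_apply
      (differentiableAt_const a)
  -- first derivative
  have hτ1 : fderiv ℝ t y (y 0 • bv 1 + bv 2) = 0 := by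
    rw [map_add, map_smul]
    exact hB y ⟨hyT, hyS⟩
  have c1 := tan_deriv h1 h2 hSS hyT hyS (hda (bv 0)) hA hτ1
  rw [map_add, map_smul, smul_eq_mul] at c1
  -- second derivative
  have hcoord : HasFDerivAt (fun x : E => x 0) (EuclideanSpace.proj (𝕜 := ℝ) (0 : Fin 3)) y :=
    (EuclideanSpace.proj (𝕜 := ℝ) (0 : Fin 3)).hasFDerivAt
  have hF : HasFDerivAt (fun x : E => x 0 * fderiv ℝ t x (bv 1) + fderiv ℝ t x (bv 2)) _ y :=
    (hcoord.fun_mul (hda (bv 1)).hasFDerivAt).fun_add (hda (bv 2)).hasFDerivAt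
  have c2 := tan_deriv h1 h2 hSS hyT hyS hF.differentiableAt hB (hA y ⟨hyT, hyS⟩)
  rw [hF.fderiv] at c2
  have c3 : y 0 * fderiv ℝ (fun x => fderiv ℝ t x (bv 1)) y (bv 0) + fderiv ℝ t y (bv 1) +
      fderiv ℝ (fun x => fderiv ℝ t x (bv 2)) y (bv 0) = 0 := by
    have e1 : (EuclideanSpace.proj (𝕜 := ℝ) (0 : Fin 3)) (bv 0 : E) = 1 := by simp [bv]
    simp only [add_apply, smul_apply, smul_eq_mul, e1] at c2
    linarith
  rw [snd_symm' hct (bv 1) (bv 0), snd_symm' hct (bv 2) (bv 0)] at c3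
  have hz1 : fderiv ℝ t y (bv 1) = 0 := by linarith
  have hz0 : fderiv ℝ t y (bv 0) = 0 := hA y ⟨hyT, hyS⟩
  have hz2 : fderiv ℝ t y (bv 2) = 0 := by
    have := hB y ⟨hyT, hyS⟩
    rw [hz1, mul_zero, zero_add] at this
    exact this
  have hz : fderiv ℝ t y (fderiv ℝ Φ 0 (bv 2)) = 0 := by
    rw [vec_sum (fderiv ℝ Φ 0 (bv 2)), map_sum, Fin.sum_univ_three]
    simp only [map_smul, hz0, hz1, hz2, smul_zero, add_zero]
  have hone := dt_one h1 h2 h0 (bv 2)
  have : (bv 2 : E) 2 = 1 := by simp [bv]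
  rw [this] at hone
  rw [hone] at hz
  exact one_ne_zero hz

end Pool.Agent.Run7.h982
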