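import Pool.Agent.Run7.h982.K5
import Pool.Agent.Run7.h982.K6
import Pool.Agent.Run7.h982.FinS
import Pool.Agent.Run7.h982.Edge
import Pool.Agent.Run7.h982.Defs2

/-!
# Insulating cracks: two explicit profiles
-/

set_option autoImplicit false

open MeasureTheory Set Filter Topology Metric
open scoped ContDiff ENNReal NNReal InnerProductSpace

namespace Pool.Agent.Run7.h982

theorem jumpFree_open (S : Set E) (u : E → ℝ) : IsOpen {p | JumpFree S u p} := by
  rw [isOpen_iff_mem_nhds]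
  rintro p ⟨U, h1, h2, h3⟩
  filter_upwards [h1.mem_nhds h2] with q hq
  exact ⟨U, h1, hq, h3⟩

theorem free_of_eq {Ω S S' : Set E} (hΩ : IsOpen Ω) (hS : IsCompact S) (hS' : IsCompact S')
    (h0 : volume S = 0) (h0' : volume S' = 0) {v v' : E → ℝ} (hv : Sol Ω S v)
    (hv' : Sol Ω S' v') (heq : ∀ x ∈ Ω \ (S ∪ S'), v x = v' x) {p : E} (hp : p ∈ Ω \ S') :
    JumpFree S v p := by
  have oS : IsOpen (Ω \ S) := hΩ.sdiff hS.isClosed
  have oS' : IsOpen (Ω \ S') := hΩ.sdiff hS'.isClosed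
  refine ⟨Ω \ S', oS', hp, fun φ hφ e => ?_⟩
  have hφΩ : IsTest Ω φ := hφ.mono sdiff_subset
  rw [jump_split hΩ hS hv hφΩ e, jump_res hΩ hS hφΩ e]
  have hres : (volume : Measure E).restrict (Ω \ S) = volume.restrict (Ω \ S') := by
    rw [← restrict_null (Ω := Ω) (K := ∅) (empty_subset S) h0,
      ← restrict_null (Ω := Ω) (K := ∅) (empty_subset S') h0']
  have hE : ∫ x in Ω \ S, (v x * fderiv ℝ φ x e + fderiv ℝ v x e * φ x) =
      ∫ x in Ω \ S, (v' x * fderiv ℝ φ x e + fderiv ℝ v' x e * φ x) := by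
    apply setIntegral_congr_fun oS.measurableSet
    intro x hx
    simp only
    by_cases hxS : x ∈ S'
    · have h1 : x ∉ tsupport φ := fun h => (hφ.2.2 h).2 hxS
      rw [fderiv_zero_of h1, image_eq_zero_of_notMem_tsupport h1]
      simp
    · have hx2 : x ∈ Ω \ (S ∪ S') := ⟨hx.1, fun h => h.elim hx.2 hxS⟩
      have hloc : v =ᶠ[𝓝 x] v' := by
        have o : IsOpen (Ω \ (S ∪ S')) := hΩ.sdiff (hS.union hS').isClosed
        filter_upwards [o.mem_nhds hx2] with y hy
        exact heq y hy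
      rw [hloc.fderiv_eq, heq x hx2]
  rw [hE, hres]
  have h1 := ibp oS' (c1_of_an hv'.an) (hφ.1.of_le (by simp)) hφ.2.1 hφ.2.2 e
  rw [integral_add (int_mul hv'.mem ((hφ.fderiv_apply e).memLp _))
    (int_mul (memLp_dir hv'.memG e) (hφ.memLp _)), h1]
  ring

/-- **Main theorem on the explicit pair.** -/
theorem main_T {Ω S S' : Set E} (hΩ : IsDomain3 Ω) (hS : IsCrack Ω S) (hS' : IsCrack Ω S')
    {ψ : Fin 2 → E → ℝ} (hψ : ∀ i, IsProfile Ω (ψ i))
    (hind : ∀ a : Fin 2 → ℝ, (∀ᵐ x ∂(surf Ω), ∑ i, a i * ψ i x = 0) → a = 0)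
    (hflux : ∀ i, ∀ F : E → ℝ, ContDiff ℝ ∞ F →
      ∫ x in Ω, ⟪gradient (hh i) x, gradient F x⟫_ℝ = ∫ x, ψ i x * F x ∂(surf Ω))
    (hpot : ∀ i, ∃ (u : E → ℝ) (G : E → E) (u' : E → ℝ) (G' : E → E) (f : E → ℝ),
      IsPotential Ω S (ψ i) u G f ∧ IsPotential Ω S' (ψ i) u' G' f)
    (hne : (S \ S').Nonempty) :
    0 < (Measure.hausdorffMeasure 2 : Measure E) ((S ∩ S') \ reach S S') := by
  obtain ⟨hfin, -⟩ := di Ω hΩ
  have hex : ∀ i, ∃ (v v' f : E → ℝ), Sol Ω S v ∧ Sol Ω S' v' ∧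
      IsPotential Ω S (ψ i) v (gradient v) f ∧ IsPotential Ω S' (ψ i) v' (gradient v') f := by
    intro i
    obtain ⟨u, G, u', G', f, h1, h2⟩ := hpot i
    obtain ⟨v, a1, a2⟩ := h1.sol weyl hΩ.isOpen hS.compact hS.sub
    obtain ⟨v', b1, b2⟩ := h2.sol weyl hΩ.isOpen hS'.compact hS'.sub
    exact ⟨v, v', f, a1, b1, a2, b2⟩
  choose v v' f hv hv' hp hp' using hex
  have heq : ∀ i, ∀ x ∈ Ω \ (S ∪ S'), v i x = v' i x := fun i =>
    same_potential weyl di int_removable edge hΩ hS hS' (hψ i).mem (indep_ne hind i) (hv i)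
      (hv' i) (hp i) (hp' i)
  have n0 := hS.null
  have n0' := hS'.null
  -- the points without jump
  set U : Set E := {p | ∀ i, JumpFree S (v i) p} with hU
  have oU : IsOpen U := by
    have : U = ⋂ i, {p | JumpFree S (v i) p} := by
      ext p
      simp [hU]
    rw [this]
    exact isOpen_iInter_of_finite (fun i => jumpFree_open S (v i))
  have hSU : S \ S' ⊆ U := fun p hp i =>
    free_of_eq hΩ.isOpen hS.compact hS'.compact n0 n0' (hv i) (hv' i) (heq i)
      ⟨hS.sub hp.1, hp.2⟩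
  have hJ : ∀ p ∈ analyticLocus S, p ∈ closure (S ∩ U) → p ∈ U := by
    intro p hp hcl i
    apply jump Ω S (v i) hΩ.isOpen hS.compact hS.sub (hv i) p hp.1 hp.2
    apply closure_mono _ hcl
    rintro q ⟨hq1, hq2⟩
    exact ⟨hq1, hq2 i⟩
  have hR : reach S S' ⊆ U := by
    rintro p ⟨q, hq, hqC⟩
    set C := connectedComponentIn (analyticLocus S) p with hC
    have hCs : C ⊆ analyticLocus S := connectedComponentIn_subset _ _
    have hpA : p ∈ analyticLocus S := by
      by_contra h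
      rw [hC, connectedComponentIn_eq_empty h] at hqC
      exact hqC
    have hpC : p ∈ C := mem_connectedComponentIn hpA
    have hpre : IsPreconnected C := isPreconnected_connectedComponentIn
    have hcov : C ⊆ U ∪ (closure (S ∩ U))ᶜ := by
      intro y hy
      by_cases h : y ∈ closure (S ∩ U)
      · exact Or.inl (hJ y (hCs hy) h)
      · exact Or.inr h
    have hCU : (C ∩ U).Nonempty := ⟨q, hqC, hSU hq⟩
    rcases (C ∩ (closure (S ∩ U))ᶜ).eq_empty_or_nonempty with h | h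
    · have : p ∈ closure (S ∩ U) := by
        by_contra h'
        have : p ∈ C ∩ (closure (S ∩ U))ᶜ := ⟨hpC, h'⟩
        rw [h] at this
        exact this
      exact hJ p hpA this
    · obtain ⟨z, hz1, hz2, hz3⟩ := hpre U _ oU isClosed_closure.isOpen_compl hcov hCU h
      have hzc : z ∈ closure (S ∩ U) := subset_closure ⟨(hCs hz1).1, hz2⟩
      exact absurd hzc hz3
  -- the remaining part
  set K := S \ U with hK
  have hKc : IsCompact K := hS.compact.diff oU
  have hKsub : K ⊆ (S ∩ S') \ reach S S' := by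
    rintro x ⟨hx1, hx2⟩
    refine ⟨⟨hx1, ?_⟩, fun h => hx2 (hR h)⟩
    by_contra h
    exact hx2 (hSU ⟨hx1, h⟩)
  refine lt_of_lt_of_le ?_ (measure_mono hKsub)
  rw [pos_iff_ne_zero]
  intro hK0
  -- all potentials are the background potentials
  have hback : ∀ i, ∀ x ∈ Ω \ S, gradient (v i) x = gradient (hh i) x := by
    intro i
    obtain ⟨V, hV1, hV2⟩ := extend_free hΩ.isOpen hS.compact n0 hKc sdiff_subset (hv i)
      (fun p hp => by
        by_contra h
        apply hp.2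
        refine ⟨hp.1, fun h' => h (h' i)⟩)
    exact back_eq hΩ hfin hS.compact n0 hKc sdiff_subset hK0 (hv i) (hp i) (hψ i).mem hV1 hV2
      (hh_smooth i) (hh_lap i) (hflux i)
  obtain ⟨x, hxS, hxS'⟩ := hne
  have oO : IsOpen (Ω \ S') := hΩ.isOpen.sdiff hS'.compact.isClosed
  obtain ⟨q, ⟨hqS, hqO⟩, Φ₀, k0, k1, k2, k3, k4⟩ := exists_intPt (hS.pts x hxS) oO
    ⟨hS.sub hxS, hxS'⟩
  obtain ⟨Φ, m0, m1, m2, m3, m4, m5⟩ := rechart k2 k3 Φ₀.open_source Subset.rfl k0 (by simp) k4 oO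
    (by rw [k1]; exact hqO)
  have hTΩ : Φ.target ⊆ Ω := fun z hz => (m5 hz).1
  apply contact m2 m3 m4 m0
  intro i y hy
  have hneu : fderiv ℝ (fun y => Φ.symm y 2) y (gradient (v' i) y) = 0 := by
    apply neumann_pt hΩ.isOpen hS.compact (hv i) m3 m4 hTΩ
      (((hv' i).c1 hΩ.isOpen hS'.compact).mono m5) _ hy.1 hy.2
    intro z hz
    exact heq i z ⟨hTΩ hz.1, fun h => h.elim hz.2 (m5 hz.1).2⟩
  have hge : EqOn (gradient (v' i)) (gradient (hh i)) Φ.target := by
    apply Measure.eqOn_open_of_ae_eq (μ := volume) _ Φ.open_target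
      (grad_contOn Φ.open_target (((hv' i).c1 hΩ.isOpen hS'.compact).mono m5))
      (grad_cont (hh_smooth i)).continuousOn
    have hnS : ∀ᵐ z : E, z ∉ S := by
      rw [ae_iff]
      simpa using n0
    rw [Filter.EventuallyEq, ae_restrict_iff' Φ.open_target.measurableSet]
    filter_upwards [hnS] with z hzS hzT
    have hzΩ : z ∈ Ω \ (S ∪ S') := ⟨hTΩ hzT, fun h => h.elim hzS (m5 hzT).2⟩
    have hloc : v i =ᶠ[𝓝 z] v' i := by
      have o : IsOpen (Ω \ (S ∪ S')) :=
        hΩ.isOpen.sdiff (hS.compact.union hS'.compact).isClosed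
      filter_upwards [o.mem_nhds hzΩ] with y hy
      exact heq i y hy
    rw [← hloc.gradient_eq]
    exact hback i z ⟨hTΩ hzT, hzS⟩
  rw [← hge hy.1]
  exact hneu

end Pool.Agent.Run7.h982
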