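import Pool.Agent.Run7.h982.Conn

/-!
# Insulating cracks: pairings of square integrable functions
-/

set_option autoImplicit false

open MeasureTheory Set Filter Topology Metric
open scoped ContDiff ENNReal NNReal InnerProductSpace

namespace Pool.Agent.Run7.h982

theorem int_mul {μ : Measure E} {h g : E → ℝ} (hh : MemLp h 2 μ) (hg : MemLp g 2 μ) :
    Integrable (fun x => h x * g x) μ := hh.integrable_mul hg

theorem int_inner {μ : Measure E} {F G : E → E} (hF : MemLp F 2 μ) (hG : MemLp G 2 μ) :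
    Integrable (fun x => ⟪F x, G x⟫_ℝ) μ := by
  refine (int_mul hF.norm hG.norm).mono' (hF.1.inner hG.1) ?_
  filter_upwards with x
  exact norm_inner_le_norm _ _

theorem int_abs_mul_le {μ : Measure E} {h g : E → ℝ} (hh : MemLp h 2 μ) (hg : MemLp g 2 μ) :
    ∫ x, |h x * g x| ∂μ ≤ (eLpNorm h 2 μ).toReal * (eLpNorm g 2 μ).toReal := by
  have h1 : ∫ x, |h x * g x| ∂μ = (eLpNorm (h • g) 1 μ).toReal := by
    rw [eLpNorm_one_eq_lintegral_enorm]
    rw [← integral_norm_eq_lintegral_enorm (hh.1.smul hg.1)]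
    rfl
  rw [h1, ← ENNReal.toReal_mul]
  apply ENNReal.toReal_mono
  · exact ENNReal.mul_ne_top hh.2.ne hg.2.ne
  · exact eLpNorm_smul_le_mul_eLpNorm hg.1 hh.1

theorem abs_int_mul_le {μ : Measure E} {h g : E → ℝ} (hh : MemLp h 2 μ) (hg : MemLp g 2 μ) :
    |∫ x, h x * g x ∂μ| ≤ (eLpNorm h 2 μ).toReal * (eLpNorm g 2 μ).toReal :=
  (abs_integral_le_integral_abs).trans (int_abs_mul_le hh hg)

theorem tendsto_pair {μ : Measure E} {f : E → ℝ} {fn : ℕ → E → ℝ} {g : E → ℝ}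
    (hf : MemLp f 2 μ) (hfn : ∀ n, AEStronglyMeasurable (fn n) μ) (hg : MemLp g 2 μ)
    (h : Tendsto (fun n => eLpNorm (fun x => f x - fn n x) 2 μ) atTop (𝓝 0)) :
    Tendsto (fun n => ∫ x, fn n x * g x ∂μ) atTop (𝓝 (∫ x, f x * g x ∂μ)) := by
  have h1 : Tendsto (fun n => (eLpNorm (fun x => f x - fn n x) 2 μ).toReal *
      (eLpNorm g 2 μ).toReal) atTop (𝓝 0) := by
    have := ((ENNReal.tendsto_toReal ENNReal.zero_ne_top).comp h).mul_const
      (eLpNorm g 2 μ).toReal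
    simpa using this
  have h2 : ∀ᶠ n in atTop, MemLp (fun x => f x - fn n x) 2 μ := by
    have : ∀ᶠ n in atTop, eLpNorm (fun x => f x - fn n x) 2 μ < 1 :=
      h.eventually (gt_mem_nhds zero_lt_one)
    filter_upwards [this] with n hn
    exact ⟨hf.1.sub (hfn n), hn.trans ENNReal.one_lt_top⟩
  have h3 : Tendsto (fun n => ∫ x, (f x - fn n x) * g x ∂μ) atTop (𝓝 0) := by
    apply squeeze_zero_norm' _ h1
    filter_upwards [h2] with n hn
    exact abs_int_mul_le hn hg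
  have h4 : (fun n => ∫ x, fn n x * g x ∂μ) =ᶠ[atTop]
      fun n => (∫ x, f x * g x ∂μ) - ∫ x, (f x - fn n x) * g x ∂μ := by
    filter_upwards [h2] with n hn
    rw [← integral_sub (int_mul hf hg) (int_mul hn hg)]
    congr 1
    funext x
    ring
  rw [tendsto_congr' h4]
  simpa using (tendsto_const_nhds (x := ∫ x, f x * g x ∂μ)).sub h3

theorem eLpNorm_inner_le {μ : Measure E} (G : E → E) (e : E) (p : ℝ≥0∞) :
    eLpNorm (fun x => ⟪G x, e⟫_ℝ) p μ ≤ ENNReal.ofReal ‖e‖ * eLpNorm G p μ := by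
  apply eLpNorm_le_mul_eLpNorm_of_ae_le_mul
  filter_upwards with x
  rw [mul_comm]
  exact norm_inner_le_norm _ _

end Pool.Agent.Run7.h982
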