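import Pool.Agent.Run7.h982.Chart
import Pool.Agent.Run7.h982.L2

/-!
# Insulating cracks: the coefficient matrix of the transformed Laplace operator
-/

set_option autoImplicit false

open MeasureTheory Set Filter Topology Metric
open scoped ContDiff ENNReal NNReal InnerProductSpace

namespace Pool.Agent.Run7.h982

theorem contDiff_det {n : WithTop ℕ∞} : ContDiff ℝ n (fun f : E →L[ℝ] E => f.det) := by
  have h : (fun f : E →L[ℝ] E => f.det) = fun f : E →L[ℝ] E =>
      ∑ σ : Equiv.Perm (Fin 3), ((Equiv.Perm.sign σ : ℤ) : ℝ) *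
        ∏ i, (f (bv i)) (σ i) := by
    funext f
    have h1 : f.det = LinearMap.det (f : E →ₗ[ℝ] E) := rfl
    rw [h1, ← LinearMap.det_toMatrix (EuclideanSpace.basisFun (Fin 3) ℝ).toBasis,
      Matrix.det_apply']
    apply Finset.sum_congr rfl
    intro σ _
    congr 1
  rw [h]
  apply ContDiff.sum
  intro σ _
  apply contDiff_const.mul
  apply contDiff_prod
  intro i _
  have h2 : ContDiff ℝ n (fun f : E →L[ℝ] E => f (bv i)) :=
    contDiff_id.clm_apply contDiff_const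
  exact (coord_smooth (σ i)).comp h2

/-- the coefficient matrix -/
noncomputable def cof (M : E →L[ℝ] E) : E →L[ℝ] E :=
  |M.det| • (M.inverse ∘L (ContinuousLinearMap.adjoint M.inverse))

theorem cof_inner (M : E →L[ℝ] E) (α β : E) :
    ⟪cof M α, β⟫_ℝ = |M.det| * ⟪ContinuousLinearMap.adjoint M.inverse α,
      ContinuousLinearMap.adjoint M.inverse β⟫_ℝ := by
  have e1 : cof M α = |M.det| • (M.inverse (ContinuousLinearMap.adjoint M.inverse α)) := rfl
  rw [e1, real_inner_smul_left, ContinuousLinearMap.adjoint_inner_right]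

theorem cof_symm (M : E →L[ℝ] E) (α β : E) : ⟪cof M α, β⟫_ℝ = ⟪cof M β, α⟫_ℝ := by
  rw [cof_inner, cof_inner, real_inner_comm]

theorem det_ne_zero {M : E →L[ℝ] E} (h : M.IsInvertible) : M.det ≠ 0 := by
  obtain ⟨e, rfl⟩ := h
  have : (e : E →L[ℝ] E).det = LinearMap.det (e.toLinearEquiv : E →ₗ[ℝ] E) := rfl
  rw [this]
  exact (LinearEquiv.isUnit_det' e.toLinearEquiv).ne_zero

theorem contDiffAt_cof {n : WithTop ℕ∞} {M : E →L[ℝ] E} (h : M.IsInvertible) :
    ContDiffAt ℝ n cof M := by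
  have h1 : ContDiffAt ℝ n (fun M : E →L[ℝ] E => M.inverse) M := h.contDiffAt_map_inverse
  have h2 : ContDiffAt ℝ n (fun M : E →L[ℝ] E => |M.det|) M := by
    have h3 : ContDiffAt ℝ n (fun M : E →L[ℝ] E => M.det) M := contDiff_det.contDiffAt
    have h4 := det_ne_zero h
    have hc : ContinuousAt (fun M : E →L[ℝ] E => M.det) M :=
      ContinuousLinearMap.continuous_det.continuousAt
    rcases lt_or_gt_of_ne h4 with h5 | h5
    · have : (fun M : E →L[ℝ] E => |M.det|) =ᶠ[𝓝 M] fun M => - M.det := by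
        filter_upwards [hc.eventually (gt_mem_nhds h5)] with N hN
        exact abs_of_neg hN
      exact h3.neg.congr_of_eventuallyEq this
    · have : (fun M : E →L[ℝ] E => |M.det|) =ᶠ[𝓝 M] fun M => M.det := by
        filter_upwards [hc.eventually (lt_mem_nhds h5)] with N hN
        exact abs_of_pos hN
      exact h3.congr_of_eventuallyEq this
  have h3 : ContDiffAt ℝ n (fun M : E →L[ℝ] E => ContinuousLinearMap.adjoint M.inverse) M := by
    have : ContDiff ℝ n (fun N : E →L[ℝ] E => ContinuousLinearMap.adjoint N) :=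
      (ContinuousLinearMap.adjoint (𝕜 := ℝ) (E := E) (F := E)).toContinuousLinearEquiv.contDiff
    exact this.contDiffAt.comp M h1
  exact h2.smul (h1.clm_comp h3)

theorem cof_coercive {M : E →L[ℝ] E} (h : M.IsInvertible) {Λ c : ℝ} (hc : c ≤ |M.det|)
    (hc0 : 0 < c)
    (hM : ‖M‖ ≤ Λ) (hΛ : 0 < Λ) (α : E) : c / Λ ^ 2 * ‖α‖ ^ 2 ≤ ⟪cof M α, α⟫_ℝ := by
  rw [cof_inner, real_inner_self_eq_norm_sq]
  have h1 : ‖α‖ ≤ Λ * ‖ContinuousLinearMap.adjoint M.inverse α‖ := by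
    have h2 : ContinuousLinearMap.adjoint M (ContinuousLinearMap.adjoint M.inverse α) = α := by
      have : ContinuousLinearMap.adjoint M ∘L ContinuousLinearMap.adjoint M.inverse =
          ContinuousLinearMap.id ℝ E := by
        rw [← ContinuousLinearMap.adjoint_comp, h.inverse_comp_self]
        exact ContinuousLinearMap.adjoint_id
      have h3 := congrArg (fun L : E →L[ℝ] E => L α) this
      simpa using h3
    calc ‖α‖ = ‖ContinuousLinearMap.adjoint M (ContinuousLinearMap.adjoint M.inverse α)‖ := by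
          rw [h2]
      _ ≤ ‖ContinuousLinearMap.adjoint M‖ * ‖ContinuousLinearMap.adjoint M.inverse α‖ :=
          ContinuousLinearMap.le_opNorm _ _
      _ ≤ Λ * ‖ContinuousLinearMap.adjoint M.inverse α‖ := by
          apply mul_le_mul_of_nonneg_right _ (norm_nonneg _)
          rwa [LinearIsometryEquiv.norm_map]
  have h2 : ‖α‖ ^ 2 ≤ Λ ^ 2 * ‖ContinuousLinearMap.adjoint M.inverse α‖ ^ 2 := by
    rw [← mul_pow]
    exact pow_le_pow_left₀ (norm_nonneg _) h1 2
  calc c / Λ ^ 2 * ‖α‖ ^ 2 ≤ c / Λ ^ 2 * (Λ ^ 2 *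
        ‖ContinuousLinearMap.adjoint M.inverse α‖ ^ 2) :=
        mul_le_mul_of_nonneg_left h2 (by positivity)
    _ = c * ‖ContinuousLinearMap.adjoint M.inverse α‖ ^ 2 := by field_simp
    _ ≤ _ := mul_le_mul_of_nonneg_right hc (by positivity)

/-- derivatives of smooth charts are invertible -/
theorem chart_inv {Θ : OpenPartialHomeomorph E E} (h1 : ContDiffOn ℝ ∞ Θ Θ.source)
    (h2 : ContDiffOn ℝ ∞ Θ.symm Θ.target) {ζ : E} (hζ : ζ ∈ Θ.source) :
    (fderiv ℝ Θ ζ).IsInvertible ∧ (fderiv ℝ Θ ζ).inverse = fderiv ℝ Θ.symm (Θ ζ) := by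
  have d1 : HasFDerivAt Θ (fderiv ℝ Θ ζ) ζ :=
    ((h1.contDiffAt (Θ.open_source.mem_nhds hζ)).differentiableAt (by simp)).hasFDerivAt
  have hζ' := Θ.map_source hζ
  have d2 : HasFDerivAt Θ.symm (fderiv ℝ Θ.symm (Θ ζ)) (Θ ζ) :=
    ((h2.contDiffAt (Θ.open_target.mem_nhds hζ')).differentiableAt (by simp)).hasFDerivAt
  have e1 : (fderiv ℝ Θ.symm (Θ ζ)) ∘L (fderiv ℝ Θ ζ) = ContinuousLinearMap.id ℝ E := by
    have h3 : HasFDerivAt (Θ.symm ∘ Θ) ((fderiv ℝ Θ.symm (Θ ζ)) ∘L (fderiv ℝ Θ ζ)) ζ :=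
      d2.comp ζ d1
    have h4 : (Θ.symm ∘ Θ) =ᶠ[𝓝 ζ] id := by
      filter_upwards [Θ.open_source.mem_nhds hζ] with y hy
      exact Θ.left_inv hy
    exact h3.unique ((hasFDerivAt_id ζ).congr_of_eventuallyEq h4)
  have e2 : (fderiv ℝ Θ ζ) ∘L (fderiv ℝ Θ.symm (Θ ζ)) = ContinuousLinearMap.id ℝ E := by
    have d1' : HasFDerivAt Θ (fderiv ℝ Θ ζ) (Θ.symm (Θ ζ)) := by rwa [Θ.left_inv hζ]
    have h3 : HasFDerivAt (Θ ∘ Θ.symm) ((fderiv ℝ Θ ζ) ∘L (fderiv ℝ Θ.symm (Θ ζ))) (Θ ζ) :=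
      d1'.comp (Θ ζ) d2
    have h4 : (Θ ∘ Θ.symm) =ᶠ[𝓝 (Θ ζ)] id := by
      filter_upwards [Θ.open_target.mem_nhds hζ'] with y hy
      exact Θ.right_inv hy
    exact h3.unique ((hasFDerivAt_id (Θ ζ)).congr_of_eventuallyEq h4)
  have hinv : (fderiv ℝ Θ ζ).IsInvertible := ContinuousLinearMap.IsInvertible.of_inverse e2 e1
  refine ⟨hinv, ?_⟩
  ext1 y
  rw [hinv.inverse_apply_eq]
  have := congrArg (fun L : E →L[ℝ] E => L y) e2
  simpa using this.symm

end Pool.Agent.Run7.h982
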