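import Pool.Agent.Run7.h982.Ode
import Pool.Agent.Run7.h982.Chart

/-!
# Insulating cracks: analytic defining functions
-/

set_option autoImplicit false

open MeasureTheory Set Filter Topology Metric
open scoped ContDiff ENNReal NNReal InnerProductSpace

namespace Pool.Agent.Run7.h982

theorem diffeo_of {n : WithTop ℕ∞} (hn : n ≠ 0) {Γ : E → E} {p : E}
    (h : ∀ᶠ x in 𝓝 p, ContDiffAt ℝ n Γ x) (hinj : Function.Injective (fderiv ℝ Γ p))
    {O : Set E} (hO : O ∈ 𝓝 p) :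
    ∃ Θ : OpenPartialHomeomorph E E, (∀ x, Θ x = Γ x) ∧ p ∈ Θ.source ∧ Θ.source ⊆ O ∧
      ContDiffOn ℝ n Θ Θ.source ∧ ContDiffOn ℝ n Θ.symm Θ.target := by
  have hp := h.self_of_nhds
  set e : E ≃L[ℝ] E := (LinearEquiv.ofInjectiveEndo (fderiv ℝ Γ p).toLinearMap
    hinj).toContinuousLinearEquiv with he
  have hee : (e : E →L[ℝ] E) = fderiv ℝ Γ p := by
    ext x
    simp [he]
  have hd : HasFDerivAt Γ (e : E →L[ℝ] E) p := by
    rw [hee]
    exact (hp.differentiableAt hn).hasFDerivAt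
  set A := hp.toOpenPartialHomeomorph Γ hd hn with hA
  have h1 : 1 ≤ n := by
    rwa [ENat.one_le_iff_ne_zero_withTop]
  have hcont : ContinuousAt (fderiv ℝ Γ) p := by
    have : ContDiffAt ℝ 0 (fderiv ℝ Γ) p := hp.fderiv_right (m := 0) (by simpa using h1)
    exact this.continuousAt
  have hinv : ∀ᶠ x in 𝓝 p, fderiv ℝ Γ x ∈ range ((↑) : (E ≃L[ℝ] E) → E →L[ℝ] E) := by
    apply hcont.eventually_mem
    apply ContinuousLinearEquiv.isOpen.mem_nhds
    exact ⟨e, hee⟩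
  have hall := (h.and hinv).and hO
  obtain ⟨U, hU, oU, hpU⟩ := _root_.mem_nhds_iff.1 hall
  refine ⟨A.restrOpen U oU, fun x => rfl, ⟨ContDiffAt.mem_toOpenPartialHomeomorph_source _ _ _,
    hpU⟩, fun x hx => (hU hx.2).2, ?_, ?_⟩
  · intro x hx
    have h2 : ContDiffAt ℝ n Γ x := (hU hx.2).1.1
    exact h2.contDiffWithinAt
  · intro y hy
    have h3 := (A.restrOpen U oU).map_target hy
    obtain ⟨e', he'⟩ := (hU h3.2).1.2
    have h2 : ContDiffAt ℝ n Γ ((A.restrOpen U oU).symm y) := (hU h3.2).1.1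
    apply ContDiffAt.contDiffWithinAt
    apply (A.restrOpen U oU).contDiffAt_symm hy (f₀' := e')
    · change HasFDerivAt Γ _ _
      rw [he']
      exact (h2.differentiableAt hn).hasFDerivAt
    · exact h2

/-- replace one coordinate -/
theorem last_inj (j : Fin 3) (T : E →L[ℝ] E) (ℓ : E →L[ℝ] ℝ) (k : E) (hT : ∀ h, T h j = ℓ h)
    (hk : ∀ h, (∀ i, i ≠ j → T h i = 0) → ∃ c : ℝ, h = c • k) (g : E →L[ℝ] ℝ) (hg : g k ≠ 0) :
    Function.Injective (T + (g - ℓ).smulRight (bv j)) := by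
  rw [injective_iff_map_eq_zero]
  intro h hh
  have h1 : ∀ i, (T h + ((g - ℓ) h) • bv j) i = 0 := by
    intro i
    have : T h + ((g - ℓ) h) • bv j = 0 := hh
    rw [this]; rfl
  obtain ⟨c, hc⟩ := hk h (by
    intro i hi
    have := h1 i
    simp only [PiLp.add_apply, PiLp.smul_apply, PiLp.single_apply] at this
    rw [if_neg hi] at this
    simpa using this)
  have h2 := h1 j
  simp only [PiLp.add_apply, PiLp.smul_apply, PiLp.single_apply] at h2
  rw [hT] at h2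
  simp only [sub_apply, if_true, smul_eq_mul, mul_one] at h2
  have h3 : g h = 0 := by linarith
  rw [hc, map_smul, smul_eq_mul, mul_eq_zero] at h3
  rcases h3 with h3 | h3
  · rw [hc, h3, zero_smul]
  · exact absurd h3 hg

/-- **Analytic defining function.** -/
theorem an_chart {S : Set E} {Φ : OpenPartialHomeomorph E E} {ζ₀ : E} (hζ₀ : ζ₀ ∈ Φ.source)
    (hz : ζ₀ 2 = 0) (hΦ : ContDiffOn ℝ ∞ Φ Φ.source) (hΨ : ContDiffOn ℝ ∞ Φ.symm Φ.target)
    (hS : ∀ ζ ∈ Φ.source, Φ ζ ∈ S ↔ ζ 2 = 0) {G : E → ℝ} (hG : AnalyticAt ℝ G (Φ ζ₀))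
    (hG0 : ∀ᶠ x in 𝓝 (Φ ζ₀), x ∈ S → G x = 0) (hG1 : fderiv ℝ G (Φ ζ₀) ≠ 0) :
    IntPt ω S (Φ ζ₀) := by
  set p := Φ ζ₀ with hp
  -- the zero set is the surface
  have hΦat : ContDiffAt ℝ ∞ Φ ζ₀ := hΦ.contDiffAt (Φ.open_source.mem_nhds hζ₀)
  have hdΦ : HasFDerivAt Φ (fderiv ℝ Φ ζ₀) ζ₀ :=
    (hΦat.differentiableAt (by simp)).hasFDerivAt
  have hdG : HasFDerivAt G (fderiv ℝ G p) p := hG.differentiableAt.hasFDerivAt
  set F : E → ℝ := fun ζ => G (Φ ζ) with hF
  have hdF : HasFDerivAt F ((fderiv ℝ G p).comp (fderiv ℝ Φ ζ₀)) ζ₀ := hdG.comp ζ₀ hdΦ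
  have hpl : ∀ᶠ ζ in 𝓝 ζ₀, ζ 2 = 0 → F ζ = 0 := by
    have h1 := (Φ.continuousAt hζ₀).eventually hG0
    filter_upwards [h1, Φ.open_source.mem_nhds hζ₀] with ζ h2 h3 h4
    exact h2 ((hS ζ h3).2 h4)
  have hF2 : ∀ k : E, k 2 = 0 → (fderiv ℝ G p) (fderiv ℝ Φ ζ₀ k) = 0 := by
    intro k hk
    have h1 : HasDerivAt (fun t : ℝ => F (ζ₀ + t • k)) ((fderiv ℝ G p) (fderiv ℝ Φ ζ₀ k)) 0 := by
      have h2 : HasDerivAt (fun t : ℝ => ζ₀ + t • k) k 0 := by
        simpa using ((hasDerivAt_id (0 : ℝ)).smul_const k).const_add ζ₀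
      have h3 : HasFDerivAt F ((fderiv ℝ G p).comp (fderiv ℝ Φ ζ₀)) (ζ₀ + (0 : ℝ) • k) := by
        simpa using hdF
      exact HasFDerivAt.comp_hasDerivAt (f := fun t : ℝ => ζ₀ + t • k) (0 : ℝ) h3 h2
    have h4 : (fun t : ℝ => F (ζ₀ + t • k)) =ᶠ[𝓝 0] fun _ => 0 := by
      have h5 : Tendsto (fun t : ℝ => ζ₀ + t • k) (𝓝 0) (𝓝 ζ₀) := by
        have : Continuous (fun t : ℝ => ζ₀ + t • k) := by fun_prop
        simpa using this.tendsto 0
      filter_upwards [h5.eventually hpl] with t ht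
      apply ht
      simp [hz, hk]
    have h6 : HasDerivAt (fun _ : ℝ => (0 : ℝ)) ((fderiv ℝ G p) (fderiv ℝ Φ ζ₀ k)) 0 :=
      h1.congr_of_eventuallyEq h4.symm
    exact h6.unique (hasDerivAt_const _ _)
  have hsurj : Function.Surjective (fderiv ℝ Φ ζ₀) := by
    have h1 : ContDiffAt ℝ ∞ Φ.symm p := hΨ.contDiffAt (Φ.open_target.mem_nhds (Φ.map_source hζ₀))
    have h2 : HasFDerivAt Φ.symm (fderiv ℝ Φ.symm p) p :=
      (h1.differentiableAt (by simp)).hasFDerivAt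
    have h3 : HasFDerivAt Φ (fderiv ℝ Φ ζ₀) (Φ.symm p) := by
      rw [hp, Φ.left_inv hζ₀]; exact hdΦ
    have h4 := h3.comp p h2
    have h5 : (Φ ∘ Φ.symm) =ᶠ[𝓝 p] id := by
      filter_upwards [Φ.open_target.mem_nhds (Φ.map_source hζ₀)] with x hx
      exact Φ.right_inv hx
    have h6 := (h4.congr_of_eventuallyEq h5.symm).unique (hasFDerivAt_id p)
    intro y
    refine ⟨fderiv ℝ Φ.symm p y, ?_⟩
    have := congrArg (fun T : E →L[ℝ] E => T y) h6
    simpa using this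
  have hF3 : (fderiv ℝ G p) (fderiv ℝ Φ ζ₀ (bv 2)) ≠ 0 := by
    intro h0
    apply hG1
    ext y
    obtain ⟨k, rfl⟩ := hsurj y
    have h1 : k = (k - k 2 • bv 2) + k 2 • bv 2 := by abel
    rw [h1, map_add, map_add, hF2 _ (by simp), map_smul, map_smul, h0]
    simp
  have hzero : ∀ᶠ x in 𝓝 p, x ∈ S ↔ G x = 0 := by
    set K : E → E := fun ζ => ζ + (F ζ - ζ 2) • bv 2 with hK
    have hFs : ∀ᶠ ζ in 𝓝 ζ₀, ContDiffAt ℝ ∞ F ζ := by
      have h1 : ∀ᶠ x in 𝓝 p, AnalyticAt ℝ G x := hG.eventually_analyticAt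
      have h2 := (Φ.continuousAt hζ₀).eventually h1
      filter_upwards [h2, Φ.open_source.mem_nhds hζ₀] with ζ h3 h4
      exact (h3.contDiffAt (n := ∞)).comp ζ (hΦ.contDiffAt (Φ.open_source.mem_nhds h4))
    have hKs : ∀ᶠ ζ in 𝓝 ζ₀, ContDiffAt ℝ ∞ K ζ := by
      filter_upwards [hFs] with ζ h1
      exact contDiffAt_id.add ((h1.sub (coord_smooth 2).contDiffAt).smul contDiffAt_const)
    have hdK : HasFDerivAt K (ContinuousLinearMap.id ℝ E +
        ((fderiv ℝ G p).comp (fderiv ℝ Φ ζ₀) - EuclideanSpace.proj (𝕜 := ℝ) (2 : Fin 3)).smulRight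
          (bv 2)) ζ₀ := by
      apply (hasFDerivAt_id ζ₀).add
      apply HasFDerivAt.smul_const
      exact hdF.sub (EuclideanSpace.proj (𝕜 := ℝ) (2 : Fin 3)).hasFDerivAt
    obtain ⟨Θ, h1, h2, h3, h4, h5⟩ := diffeo_of (by simp) hKs (by
      rw [hdK.fderiv]
      apply last_inj 2 (ContinuousLinearMap.id ℝ E) _ (bv 2) (fun h => rfl) _ _ hF3
      intro h hh
      refine ⟨h 2, ?_⟩
      ext i
      fin_cases i
      · have := hh 0 (by decide); simpa using this
      · have := hh 1 (by decide); simpa using this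
      · simp) (hpl.and (Φ.open_source.mem_nhds hζ₀))
    -- transfer
    have hproj : Tendsto (fun ζ : E => ζ - ζ 2 • bv 2) (𝓝 ζ₀) (𝓝 ζ₀) := by
      have h6 : Continuous (fun ζ : E => ζ - ζ 2 • bv 2) := by fun_prop
      have h7 := h6.tendsto ζ₀
      simpa [hz] using h7
    have hmain : ∀ᶠ ζ in 𝓝 ζ₀, Φ ζ ∈ S ↔ G (Φ ζ) = 0 := by
      filter_upwards [Θ.open_source.mem_nhds h2, hproj.eventually (Θ.open_source.mem_nhds h2)]
        with ζ h6 h7
      have h8 := h3 h6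
      have h9 := h3 h7
      constructor
      · intro h10
        exact h8.1 ((hS ζ h8.2).1 h10)
      · intro h10
        have h11 : F ζ = 0 := h10
        have h12 : F (ζ - ζ 2 • bv 2) = 0 := h9.1 (by simp)
        have h13 : Θ ζ = Θ (ζ - ζ 2 • bv 2) := by
          rw [h1, h1]
          simp only [hK]
          rw [h11, h12]
          simp
          abel
        have h14 := Θ.injOn h6 h7 h13
        rw [hS ζ h8.2, h14]
        simp
    have h15 : ContinuousAt Φ.symm p := Φ.continuousAt_symm (Φ.map_source hζ₀)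
    have h16 : Tendsto Φ.symm (𝓝 p) (𝓝 ζ₀) := by
      have := h15.tendsto
      rwa [hp, Φ.left_inv hζ₀] at this
    filter_upwards [h16.eventually hmain, Φ.open_target.mem_nhds (Φ.map_source hζ₀)] with x h17 h18
    rwa [Φ.right_inv h18] at h17
  -- the analytic chart
  have hGp : G p = 0 := by
    rw [← hzero.self_of_nhds]
    exact (hS ζ₀ hζ₀).2 hz
  obtain ⟨j, hj⟩ : ∃ j, fderiv ℝ G p (bv j) ≠ 0 := by
    by_contra hcon
    push Not at hcon
    apply hG1
    ext y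
    have h1 : y = ∑ i, y i • bv i := by
      ext k
      simp [Finset.sum_apply, Pi.single_apply]
    rw [h1, map_sum]
    simp [hcon]
  set σ : E ≃ₗᵢ[ℝ] E := LinearIsometryEquiv.piLpCongrLeft 2 ℝ ℝ (Equiv.swap j 2) with hσ
  have hσi : ∀ (h : E) (i : Fin 3), σ h i = h (Equiv.swap j 2 i) := by
    intro h i
    simp [hσ, LinearIsometryEquiv.piLpCongrLeft_apply, Equiv.piCongrLeft'_apply]
  set Γ : E → E := fun x => σ (x - p) + (G x - (x - p) j) • bv 2 with hΓ
  have hΓs : ∀ᶠ x in 𝓝 p, ContDiffAt ℝ ω Γ x := by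
    filter_upwards [hG.eventually_analyticAt] with x hx
    have h1 : ContDiffAt ℝ ω (fun x : E => σ (x - p)) x :=
      (σ.toContinuousLinearEquiv.contDiff.comp (contDiff_id.sub contDiff_const)).contDiffAt
    have h2 : ContDiffAt ℝ ω (fun x : E => (x - p) j) x :=
      ((coord_smooth j).comp (contDiff_id.sub contDiff_const)).contDiffAt
    exact h1.add (((hx.contDiffAt (n := ω)).sub h2).smul contDiffAt_const)
  have hdΓ : HasFDerivAt Γ ((σ.toContinuousLinearEquiv : E →L[ℝ] E) +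
      (fderiv ℝ G p - EuclideanSpace.proj (𝕜 := ℝ) j).smulRight (bv 2)) p := by
    apply HasFDerivAt.add
    · have h1 := (σ.toContinuousLinearEquiv : E →L[ℝ] E).hasFDerivAt (x := p - p)
      have h2 := HasFDerivAt.comp (f := fun x : E => x - p) p h1 ((hasFDerivAt_id p).sub_const p)
      rw [ContinuousLinearMap.comp_id] at h2
      exact h2
    · apply HasFDerivAt.smul_const
      apply hdG.sub
      have h1 := (EuclideanSpace.proj (𝕜 := ℝ) j).hasFDerivAt (x := p - p)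
      have h2 := HasFDerivAt.comp (f := fun x : E => x - p) p h1 ((hasFDerivAt_id p).sub_const p)
      rw [ContinuousLinearMap.comp_id] at h2
      exact h2
  have hΓp : Γ p = 0 := by
    simp [hΓ, hGp]
  have hΓ2 : ∀ x, Γ x 2 = G x := by
    intro x
    simp only [hΓ, PiLp.add_apply, PiLp.smul_apply, hσi, Equiv.swap_apply_right,
      PiLp.single_apply, if_true, smul_eq_mul, mul_one]
    ring
  obtain ⟨Θ, h1, h2, h3, h4, h5⟩ := diffeo_of (n := ω) (by simp) hΓs (by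
    rw [hdΓ.fderiv]
    apply last_inj 2 _ _ (bv j) _ _ _ hj
    · intro h
      change σ h 2 = h j
      rw [hσi, Equiv.swap_apply_right]
    · intro h hh
      refine ⟨h j, ?_⟩
      ext i
      by_cases hi : i = j
      · subst hi; simp
      · have h6 : Equiv.swap j 2 i ≠ 2 := by
          intro h7
          apply hi
          have h8 := congrArg (Equiv.swap j 2) h7
          rwa [Equiv.swap_apply_self, Equiv.swap_apply_right] at h8
        have h9 : σ h (Equiv.swap j 2 i) = 0 := hh _ h6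
        rw [hσi, Equiv.swap_apply_self] at h9
        simp [h9, hi]) hzero
  have hp0 : Θ.symm 0 = p := by
    rw [← hΓp, ← h1, Θ.left_inv h2]
  have h0 : (0 : E) ∈ Θ.symm.source := by
    change (0 : E) ∈ Θ.target
    rw [← hΓp, ← h1]
    exact Θ.map_source h2
  rw [← hp0]
  refine intPt_iff_of (Φ := Θ.symm) h5 h4 Θ.open_target Subset.rfl h0 (by simp) ?_
  intro ζ hζ
  have h6 : (Θ.symm ζ ∈ S ↔ G (Θ.symm ζ) = 0) := h3 (Θ.map_target hζ)
  have h7 : Γ (Θ.symm ζ) = ζ := by rw [← h1, Θ.right_inv hζ]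
  rw [h6, ← hΓ2, h7]

end Pool.Agent.Run7.h982
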