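import Pool.Agent.Run7.h982.Loc1

/-!
# Insulating cracks: surfaces with analytic normal field
-/

set_option autoImplicit false

open MeasureTheory Set Filter Topology Metric
open scoped ContDiff ENNReal NNReal InnerProductSpace

namespace Pool.Agent.Run7.h982

theorem vec_sum' (y : E) : y = ∑ i, y i • bv i := by
  ext k
  simp [Finset.sum_apply, Pi.single_apply]

/-- A smooth surface whose normal is parallel to an analytic field is analytic. -/
theorem normal_analytic {S : Set E} {Φ : OpenPartialHomeomorph E E}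
    (hΦ : ContDiffOn ℝ ∞ Φ Φ.source) (hΨ : ContDiffOn ℝ ∞ Φ.symm Φ.target)
    (hS : ∀ ζ ∈ Φ.source, Φ ζ ∈ S ↔ ζ 2 = 0) {w : E → E} {x₀ : E} (hx₀ : x₀ ∈ Φ.target)
    (hxS : x₀ ∈ S) (hw : AnalyticAt ℝ w x₀) (hw0 : w x₀ ≠ 0)
    (hpar : ∀ᶠ x in 𝓝 x₀, x ∈ S → ∀ i k : Fin 3,
      fderiv ℝ (fun y => Φ.symm y 2) x (bv i) * w x k
        = fderiv ℝ (fun y => Φ.symm y 2) x (bv k) * w x i) :
    IntPt ω S x₀ := by
  set g : E → ℝ := fun y => Φ.symm y 2 with hg
  have hgs : ∀ x ∈ Φ.target, ContDiffAt ℝ ∞ g x := fun x hx =>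
    (coord_smooth 2).contDiffAt.comp x (hΨ.contDiffAt (Φ.open_target.mem_nhds hx))
  have hgS : ∀ x ∈ Φ.target, x ∈ S ↔ g x = 0 := by
    intro x hx
    have := hS (Φ.symm x) (Φ.map_target hx)
    rwa [Φ.right_inv hx] at this
  have hgn : fderiv ℝ g x₀ ≠ 0 := by
    intro h0
    have h1 : HasFDerivAt Φ (fderiv ℝ Φ (Φ.symm x₀)) (Φ.symm x₀) :=
      ((hΦ.contDiffAt (Φ.open_source.mem_nhds (Φ.map_target hx₀))).differentiableAt
        (by simp)).hasFDerivAt
    have h2 : HasFDerivAt g (fderiv ℝ g x₀) (Φ (Φ.symm x₀)) := by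
      rw [Φ.right_inv hx₀]
      exact ((hgs x₀ hx₀).differentiableAt (by simp)).hasFDerivAt
    have h3 := h2.comp _ h1
    have h4 : (g ∘ Φ) =ᶠ[𝓝 (Φ.symm x₀)] fun ζ => ζ 2 := by
      filter_upwards [Φ.open_source.mem_nhds (Φ.map_target hx₀)] with ζ hζ
      simp only [hg, Function.comp_apply]
      rw [Φ.left_inv hζ]
    have h5 := (h3.congr_of_eventuallyEq h4.symm).unique
      (EuclideanSpace.proj (𝕜 := ℝ) (2 : Fin 3)).hasFDerivAt
    have h6 := congrArg (fun T : E →L[ℝ] ℝ => T (bv 2)) h5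
    rw [h0] at h6
    simp at h6
  obtain ⟨j, hj⟩ : ∃ j, w x₀ j ≠ 0 := by
    by_contra hcon
    push Not at hcon
    apply hw0
    ext k
    exact hcon k
  have hgj : ∀ x, fderiv ℝ g x ≠ 0 → w x j ≠ 0 → (∀ i k : Fin 3,
      fderiv ℝ g x (bv i) * w x k = fderiv ℝ g x (bv k) * w x i) → fderiv ℝ g x (bv j) ≠ 0 := by
    intro x h1 h2 h3 h4
    apply h1
    ext y
    rw [vec_sum' y, map_sum]
    simp only [map_smul]
    have h5 : ∀ i, fderiv ℝ g x (bv i) = 0 := by
      intro i
      have h6 := h3 i j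
      rw [h4, zero_mul, mul_eq_zero] at h6
      exact h6.resolve_right h2
    simp [h5]
  have hgj0 : fderiv ℝ g x₀ (bv j) ≠ 0 := hgj x₀ hgn hj (hpar.self_of_nhds hxS)
  -- the good set
  have hgood : ∀ᶠ x in 𝓝 x₀, x ∈ Φ.target ∧ w x j ≠ 0 ∧ fderiv ℝ g x (bv j) ≠ 0 ∧
      (x ∈ S → ∀ i k : Fin 3, fderiv ℝ g x (bv i) * w x k = fderiv ℝ g x (bv k) * w x i) := by
    have h1 : ContinuousAt (fun x => w x j) x₀ := (coord_cont j).continuousAt.comp hw.continuousAt
    have h2 : ContinuousAt (fun x => fderiv ℝ g x (bv j)) x₀ := by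
      have h3 : ContDiffAt ℝ 0 (fderiv ℝ g) x₀ := (hgs x₀ hx₀).fderiv_right (m := 0) (by simp)
      exact (ContinuousLinearMap.apply ℝ ℝ (bv j)).continuous.continuousAt.comp h3.continuousAt
    filter_upwards [Φ.open_target.mem_nhds hx₀, h1.eventually_ne hj, h2.eventually_ne hgj0, hpar]
      with x a b c d
    exact ⟨a, b, c, d⟩
  set K : E → E := fun x => x + (g x - x j) • bv j with hK
  have hKs : ∀ᶠ x in 𝓝 x₀, ContDiffAt ℝ ∞ K x := by
    filter_upwards [Φ.open_target.mem_nhds hx₀] with x hx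
    exact contDiffAt_id.add (((hgs x hx).sub (coord_smooth j).contDiffAt).smul contDiffAt_const)
  have hdK : HasFDerivAt K (ContinuousLinearMap.id ℝ E +
      (fderiv ℝ g x₀ - EuclideanSpace.proj (𝕜 := ℝ) j).smulRight (bv j)) x₀ := by
    apply (hasFDerivAt_id x₀).add
    apply HasFDerivAt.smul_const
    exact ((hgs x₀ hx₀).differentiableAt (by simp)).hasFDerivAt.sub
      (EuclideanSpace.proj (𝕜 := ℝ) j).hasFDerivAt
  obtain ⟨Θ, h1, h2, h3, h4, h5⟩ := diffeo_of (by simp) hKs (by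
    rw [hdK.fderiv]
    apply last_inj j (ContinuousLinearMap.id ℝ E) _ (bv j) (fun h => rfl) _ _ hgj0
    intro h hh
    refine ⟨h j, ?_⟩
    ext i
    by_cases hi : i = j
    · subst hi; simp
    · have := hh i hi
      simp only [ContinuousLinearMap.id_apply] at this
      simp [this, hi]) hgood
  -- the projection
  set q : E → E := fun y => y - y j • bv j with hq
  have hqd : ContDiff ℝ ∞ q := contDiff_id.sub ((coord_smooth j).smul contDiff_const)
  have hKq : ∀ x, g x = 0 → K x = q x := by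
    intro x hx
    simp only [hK, hq, hx]
    rw [zero_sub, neg_smul, sub_eq_add_neg]
  have hgx₀ : g x₀ = 0 := (hgS x₀ hx₀).1 hxS
  have hqx₀ : q x₀ ∈ Θ.target := by
    rw [← hKq x₀ hgx₀, ← h1]
    exact Θ.map_source h2
  set X : E → E := fun y => Θ.symm (q y) with hX
  set f : E → ℝ := fun y => X y j with hf
  have hXx₀ : X x₀ = x₀ := by
    simp only [hX]
    rw [← hKq x₀ hgx₀, ← h1, Θ.left_inv h2]
  have hqt : ∀ᶠ y in 𝓝 x₀, q y ∈ Θ.target :=
    hqd.continuous.continuousAt.eventually (Θ.open_target.mem_nhds hqx₀)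
  have hXeq : ∀ y, q y ∈ Θ.target → K (X y) = q y := by
    intro y hy
    rw [← h1]
    exact Θ.right_inv hy
  have hXi : ∀ y, q y ∈ Θ.target → ∀ i, i ≠ j → X y i = y i := by
    intro y hy i hi
    have h6 := congrArg (fun z : E => z i) (hXeq y hy)
    simp only [hK, hq, PiLp.add_apply, PiLp.smul_apply, PiLp.single_apply, PiLp.sub_apply,
      if_neg hi] at h6
    simpa using h6
  have hXg : ∀ y, q y ∈ Θ.target → g (X y) = 0 := by
    intro y hy
    have h6 := congrArg (fun z : E => z j) (hXeq y hy)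
    simp only [hK, hq, PiLp.add_apply, PiLp.smul_apply, PiLp.single_apply, PiLp.sub_apply,
      if_true, smul_eq_mul, mul_one] at h6
    linarith
  have hXf : ∀ y, q y ∈ Θ.target → X y = y + (f y - y j) • bv j := by
    intro y hy
    ext i
    by_cases hi : i = j
    · subst hi
      simp [hf]
    · rw [hXi y hy i hi]
      simp [hi]
  have hXgood : ∀ y, q y ∈ Θ.target → (X y ∈ Φ.target ∧ w (X y) j ≠ 0 ∧
      fderiv ℝ g (X y) (bv j) ≠ 0 ∧ ∀ i k : Fin 3, fderiv ℝ g (X y) (bv i) * w (X y) k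
        = fderiv ℝ g (X y) (bv k) * w (X y) i) := by
    intro y hy
    obtain ⟨a, b, c, d⟩ := h3 (Θ.map_target hy)
    exact ⟨a, b, c, d ((hgS _ a).2 (hXg y hy))⟩
  have hXd : ∀ y, q y ∈ Θ.target → DifferentiableAt ℝ X y := by
    intro y hy
    have h6 : ContDiffAt ℝ ∞ Θ.symm (q y) := h5.contDiffAt (Θ.open_target.mem_nhds hy)
    exact (h6.comp y hqd.contDiffAt).differentiableAt (by simp)
  -- the equation
  set F : E × ℝ → E →L[ℝ] ℝ := fun p =>
    (-(w (p.1 + (p.2 - p.1 j) • bv j) j)⁻¹) •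
      ((innerSL ℝ (w (p.1 + (p.2 - p.1 j) • bv j)) : E →L[ℝ] ℝ) -
        (w (p.1 + (p.2 - p.1 j) • bv j) j) • EuclideanSpace.proj (𝕜 := ℝ) j) with hF
  have hfx₀ : f x₀ = x₀ j := by simp only [hf]; rw [hXx₀]
  have hFan : AnalyticAt ℝ F (x₀, f x₀) := by
    have a1 : AnalyticAt ℝ (fun p : E × ℝ => p.1 + (p.2 - p.1 j) • bv j) (x₀, f x₀) := by
      have b1 : AnalyticAt ℝ (fun p : E × ℝ => p.1 j) (x₀, f x₀) :=
        ((EuclideanSpace.proj (𝕜 := ℝ) j).analyticAt _).comp analyticAt_fst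
      exact analyticAt_fst.add ((analyticAt_snd.sub b1).smul analyticAt_const)
    have a2 : AnalyticAt ℝ w ((fun p : E × ℝ => p.1 + (p.2 - p.1 j) • bv j) (x₀, f x₀)) := by
      simp only [hfx₀, sub_self, zero_smul, add_zero]
      exact hw
    have a3 := AnalyticAt.comp (f := fun p : E × ℝ => p.1 + (p.2 - p.1 j) • bv j) a2 a1
    have a4 : AnalyticAt ℝ (fun p : E × ℝ => w (p.1 + (p.2 - p.1 j) • bv j) j) (x₀, f x₀) :=
      ((EuclideanSpace.proj (𝕜 := ℝ) j).analyticAt _).comp a3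
    have a5 : AnalyticAt ℝ (fun p : E × ℝ =>
        (innerSL ℝ (w (p.1 + (p.2 - p.1 j) • bv j)) : E →L[ℝ] ℝ)) (x₀, f x₀) :=
      ((innerSL ℝ : E →L[ℝ] E →L[ℝ] ℝ).analyticAt _).comp a3
    apply AnalyticAt.fun_smul
    · apply AnalyticAt.fun_neg
      apply a4.fun_inv
      simp only [hfx₀, sub_self, zero_smul, add_zero]
      exact hj
    · exact a5.fun_sub (a4.fun_smul analyticAt_const)
  have hfd : ∀ᶠ y in 𝓝 x₀, HasFDerivAt f (F (y, f y)) y := by
    filter_upwards [hqt.eventually_nhds] with y hy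
    have hy0 := hy.self_of_nhds
    obtain ⟨b1, b2, b3, b4⟩ := hXgood y hy0
    have c1 : HasFDerivAt f ((EuclideanSpace.proj (𝕜 := ℝ) j).comp (fderiv ℝ X y)) y :=
      (EuclideanSpace.proj (𝕜 := ℝ) j).hasFDerivAt.comp y (hXd y hy0).hasFDerivAt
    refine c1.congr_fderiv ?_
    set D := (EuclideanSpace.proj (𝕜 := ℝ) j).comp (fderiv ℝ X y) with hD
    have c2 : fderiv ℝ X y = ContinuousLinearMap.id ℝ E +
        (D - EuclideanSpace.proj (𝕜 := ℝ) j).smulRight (bv j) := by
      have c3 : HasFDerivAt (fun y => y + (f y - y j) • bv j) (ContinuousLinearMap.id ℝ E +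
        (D - EuclideanSpace.proj (𝕜 := ℝ) j).smulRight (bv j)) y := by
        apply (hasFDerivAt_id y).add
        apply HasFDerivAt.smul_const
        exact c1.sub (EuclideanSpace.proj (𝕜 := ℝ) j).hasFDerivAt
      apply HasFDerivAt.fderiv
      apply c3.congr_of_eventuallyEq
      filter_upwards [hy] with z hz
      exact hXf z hz
    have c4 : (fderiv ℝ g (X y)).comp (fderiv ℝ X y) = 0 := by
      have c5 := ((hgs _ b1).differentiableAt (by simp)).hasFDerivAt.comp y
        (hXd y hy0).hasFDerivAt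
      have c6 : (g ∘ X) =ᶠ[𝓝 y] fun _ => 0 := by
        filter_upwards [hy] with z hz
        exact hXg z hz
      exact (c5.congr_of_eventuallyEq c6.symm).unique (hasFDerivAt_const _ _)
    have c7 : y + (f y - y j) • bv j = X y := (hXf y hy0).symm
    ext k
    have c8 : fderiv ℝ g (X y) k + (D k - k j) * fderiv ℝ g (X y) (bv j) = 0 := by
      have c9 := congrArg (fun T : E →L[ℝ] ℝ => T k) c4
      rw [c2] at c9
      simp only [ContinuousLinearMap.comp_apply, add_apply,
        ContinuousLinearMap.id_apply, ContinuousLinearMap.smulRight_apply, map_add, map_smul,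
        smul_eq_mul, zero_apply] at c9
      exact c9
    have c10 : fderiv ℝ g (X y) k * w (X y) j = fderiv ℝ g (X y) (bv j) * ⟪w (X y), k⟫_ℝ := by
      conv_lhs => rw [vec_sum' k]
      conv_rhs => rw [vec_sum' k]
      rw [map_sum, Finset.sum_mul, inner_sum, Finset.mul_sum]
      apply Finset.sum_congr rfl
      intro i _
      rw [map_smul, smul_eq_mul, inner_smul_right, EuclideanSpace.inner_single_right]
      have := b4 i j
      simp only [conj_trivial, one_mul]
      linear_combination (k i) * this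
    simp only [hF]
    rw [c7]
    simp only [smul_apply, sub_apply, innerSL_apply_apply,
      PiLp.proj_apply, smul_eq_mul]
    have c11 : D k * w (X y) j = k j * w (X y) j - ⟪w (X y), k⟫_ℝ :=
      mul_right_cancel₀ b3 (by linear_combination (w (X y) j) * c8 - c10)
    field_simp
    linear_combination c11
  have hfan : AnalyticAt ℝ f x₀ := ode E F f x₀ hFan hfd
  have hfin := an_chart (S := S) (Φ := Φ) (ζ₀ := Φ.symm x₀) (G := fun x => x j - f x)
    (Φ.map_target hx₀) hgx₀ hΦ hΨ hS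
  rw [Φ.right_inv hx₀] at hfin
  have hpj : AnalyticAt ℝ (fun x : E => x j) x₀ := (EuclideanSpace.proj (𝕜 := ℝ) j).analyticAt _
  apply hfin (hpj.sub hfan)
  · filter_upwards [Θ.open_source.mem_nhds h2] with x hx hxS'
    have e1 : x ∈ Φ.target := (h3 hx).1
    have e2 : g x = 0 := (hgS x e1).1 hxS'
    have e3 : X x = x := by
      simp only [hX]
      rw [← hKq x e2, ← h1, Θ.left_inv hx]
    simp only [hf]
    rw [e3, sub_self]
  · intro h0
    have e1 : HasFDerivAt (fun x => x j - f x)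
        (EuclideanSpace.proj (𝕜 := ℝ) j - F (x₀, f x₀)) x₀ :=
      (EuclideanSpace.proj (𝕜 := ℝ) j).hasFDerivAt.sub hfd.self_of_nhds
    rw [e1.fderiv] at h0
    have e2 := congrArg (fun T : E →L[ℝ] ℝ => T (bv j)) h0
    simp only [hF, hfx₀, sub_self, zero_smul, add_zero, sub_apply,
      smul_apply, innerSL_apply_apply, PiLp.proj_apply,
      EuclideanSpace.inner_single_right, smul_eq_mul, zero_apply] at e2
    simp at e2

end Pool.Agent.Run7.h982
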