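import Pool.Agent.Run7.h982.Near

/-!
# Insulating cracks: the crack is negligible for the flow
-/

set_option autoImplicit false

open MeasureTheory Set Filter Topology Metric
open scoped ContDiff ENNReal NNReal InnerProductSpace

namespace Pool.Agent.Run7.h982

/-- the cutoff functions in `Rem` -/
def RemAt (Ω S : Set E) (u : E → ℝ) (K O : Set E) (ε : ℝ) : Prop :=
  ∃ κ : E → ℝ,
    ContDiff ℝ ∞ κ ∧ HasCompactSupport κ ∧ tsupport κ ⊆ O ∧ (∀ x, 0 ≤ κ x ∧ κ x ≤ 1) ∧
    (∃ W, IsOpen W ∧ K ⊆ W ∧ ∀ x ∈ W, κ x = 1) ∧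
    ∫ x in Ω \ S, |⟪gradient u x, gradient κ x⟫_ℝ| < ε

theorem grad_union {κ₁ κ₂ : E → ℝ} (h1 : ContDiff ℝ ∞ κ₁) (h2 : ContDiff ℝ ∞ κ₂) (x : E) :
    gradient (fun x => κ₁ x + κ₂ x - κ₁ x * κ₂ x) x =
      (1 - κ₂ x) • gradient κ₁ x + (1 - κ₁ x) • gradient κ₂ x := by
  have d1 := ((h1.differentiable (by simp)) x).hasFDerivAt
  have d2 := ((h2.differentiable (by simp)) x).hasFDerivAt
  have d3 := (d1.fun_add d2).fun_sub (d1.fun_mul d2)
  unfold gradient
  rw [d3.fderiv]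
  simp only [map_add, map_sub, map_smul]
  module

theorem RemAt.union {Ω S : Set E} {u : E → ℝ} (hG : MemLp (gradient u) 2 (volume.restrict (Ω \ S)))
    {K₁ K₂ O : Set E} {ε₁ ε₂ : ℝ} (h1 : RemAt Ω S u K₁ O ε₁) (h2 : RemAt Ω S u K₂ O ε₂) :
    RemAt Ω S u (K₁ ∪ K₂) O (ε₁ + ε₂) := by
  obtain ⟨κ₁, a1, a2, a3, a4, ⟨W₁, a5, a6, a7⟩, a8⟩ := h1
  obtain ⟨κ₂, b1, b2, b3, b4, ⟨W₂, b5, b6, b7⟩, b8⟩ := h2
  refine ⟨fun x => κ₁ x + κ₂ x - κ₁ x * κ₂ x, ?_, ?_, ?_, ?_, ⟨W₁ ∪ W₂, a5.union b5, ?_, ?_⟩, ?_⟩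
  · exact (a1.add b1).sub (a1.mul b1)
  · exact (a2.add b2).sub a2.mul_right
  · have h : tsupport (fun x => κ₁ x + κ₂ x - κ₁ x * κ₂ x) ⊆ tsupport κ₁ ∪ tsupport κ₂ := by
      apply closure_minimal _ ((isClosed_tsupport κ₁).union (isClosed_tsupport κ₂))
      intro x hx
      by_contra h
      simp only [mem_union, not_or] at h
      apply hx
      simp only
      rw [image_eq_zero_of_notMem_tsupport h.1, image_eq_zero_of_notMem_tsupport h.2]
      simp
    exact h.trans (union_subset a3 b3)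
  · intro x
    obtain ⟨c1, c2⟩ := a4 x
    obtain ⟨c3, c4⟩ := b4 x
    constructor
    · nlinarith
    · nlinarith
  · exact union_subset_union a6 b6
  · rintro x (hx | hx)
    · simp only [a7 x hx]; ring
    · simp only [b7 x hx]; ring
  · have i1 : Integrable (fun x => |⟪gradient u x, gradient κ₁ x⟫_ℝ|)
        (volume.restrict (Ω \ S)) :=
      (int_inner hG ((grad_memLp (a1.of_le (by simp)) a2 2 volume).restrict _)).abs
    have i2 : Integrable (fun x => |⟪gradient u x, gradient κ₂ x⟫_ℝ|)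
        (volume.restrict (Ω \ S)) :=
      (int_inner hG ((grad_memLp (b1.of_le (by simp)) b2 2 volume).restrict _)).abs
    refine lt_of_le_of_lt ?_ (add_lt_add a8 b8)
    rw [← integral_add i1 i2]
    apply integral_mono_of_nonneg
    · exact Eventually.of_forall (fun x => abs_nonneg _)
    · exact i1.add i2
    · refine Eventually.of_forall (fun x => ?_)
      simp only
      rw [grad_union a1 b1, inner_add_right, inner_smul_right, inner_smul_right]
      obtain ⟨c1, c2⟩ := a4 x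
      obtain ⟨c3, c4⟩ := b4 x
      refine (abs_add_le _ _).trans (add_le_add ?_ ?_)
      · rw [abs_mul, abs_of_nonneg (by linarith)]
        have := abs_nonneg ⟪gradient u x, gradient κ₁ x⟫_ℝ
        nlinarith
      · rw [abs_mul, abs_of_nonneg (by linarith)]
        have := abs_nonneg ⟪gradient u x, gradient κ₂ x⟫_ℝ
        nlinarith

theorem rem_of_local {Ω S : Set E} {u : E → ℝ}
    (hG : MemLp (gradient u) 2 (volume.restrict (Ω \ S))) {K : Set E} (hK : IsCompact K)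
    (hKS : K ⊆ S)
    (hloc : ∀ x ∈ K, ∃ V, IsOpen V ∧ x ∈ V ∧ ∀ K', K' ⊆ S ∩ V → IsCompact K' → Rem Ω S u K') :
    Rem Ω S u K := by
  have key : ∃ V, IsOpen V ∧ K ⊆ V ∧ ∀ K', K' ⊆ S ∩ V → IsCompact K' → Rem Ω S u K' := by
    refine IsCompact.induction_on (p := fun s => ∃ V, IsOpen V ∧ s ⊆ V ∧
      ∀ K', K' ⊆ S ∩ V → IsCompact K' → Rem Ω S u K') hK ?_ ?_ ?_ ?_
    · refine ⟨∅, isOpen_empty, Subset.rfl, fun K' h1 _ => ?_⟩
      have : K' = ∅ := by
        rw [inter_empty] at h1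
        exact subset_empty_iff.1 h1
      subst this
      intro O hO hKO ε hε
      refine ⟨fun _ => 0, contDiff_const, HasCompactSupport.zero, ?_, fun x => by simp,
        ⟨∅, isOpen_empty, Subset.rfl, fun x hx => by simp at hx⟩, ?_⟩
      · have : tsupport (fun _ : E => (0 : ℝ)) = ∅ := by
          simp [tsupport, Function.support]
        rw [this]; exact empty_subset _
      · have : ∀ x : E, gradient (fun _ : E => (0 : ℝ)) x = 0 :=
          fun x => grad_of_fderiv_zero (by simp)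
        simp [this, hε]
    · rintro s t hst ⟨O, h1, h2, h3⟩
      exact ⟨O, h1, hst.trans h2, h3⟩
    · rintro s t ⟨O, h1, h2, h3⟩ ⟨O', h1', h2', h3'⟩
      refine ⟨O ∪ O', h1.union h1', union_subset_union h2 h2', fun K' hK' hK'c => ?_⟩
      obtain ⟨K₁, K₂, hK₁, hK₂, hs₁, hs₂, hKK⟩ :=
        hK'c.binary_compact_cover h1 h1' (fun x hx => (hK' hx).2)
      intro W hW hKW ε hε
      have e1 : RemAt Ω S u K₁ W (ε / 2) := h3 K₁ (fun x hx =>
        ⟨(hK' (by rw [hKK]; exact Or.inl hx)).1, hs₁ hx⟩) hK₁ W hW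
        (fun x hx => hKW (by rw [hKK]; exact Or.inl hx)) _ (half_pos hε)
      have e2 : RemAt Ω S u K₂ W (ε / 2) := h3' K₂ (fun x hx =>
        ⟨(hK' (by rw [hKK]; exact Or.inr hx)).1, hs₂ hx⟩) hK₂ W hW
        (fun x hx => hKW (by rw [hKK]; exact Or.inr hx)) _ (half_pos hε)
      have e3 := e1.union hG e2
      rw [add_halves, ← hKK] at e3
      exact e3
    · intro x hx
      obtain ⟨U, h1, h2, h3⟩ := hloc x hx
      exact ⟨U, mem_nhdsWithin_of_mem_nhds (h1.mem_nhds h2), U, h1, Subset.rfl, h3⟩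
  obtain ⟨V, h1, h2, h3⟩ := key
  exact h3 K (subset_inter hKS h2) hK

theorem rem_edge (hE : EDGE_stm) {Ω S : Set E} {u : E → ℝ} (hΩ : IsOpen Ω) (hS : IsCompact S)
    (hG : MemLp (gradient u) 2 (volume.restrict (Ω \ S))) {γ : ℝ → E} {C : ℝ≥0}
    (hγ : LipschitzOnWith C γ (Icc 0 1)) {K : Set E} (hK : K ⊆ γ '' Icc 0 1)
    (hKc : IsCompact K) : Rem Ω S u K := by
  intro O hO hKO ε hε
  have mO : MeasurableSet (Ω \ S) := (hΩ.sdiff hS.isClosed).measurableSet
  set g : E → ℝ := (Ω \ S).indicator (fun x => ‖gradient u x‖) with hg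
  have hgm : MemLp g 2 volume := by
    rw [hg, memLp_indicator_iff_restrict mO]
    exact hG.norm
  obtain ⟨κ, a1, a2, a3, a4, a5, a6⟩ := hE γ C hγ K hK hKc g hgm O hO hKO ε hε
  refine ⟨κ, a1, a2, a3, a4, a5, lt_of_le_of_lt ?_ a6⟩
  have hκ : MemLp (fun x => ‖gradient κ x‖) 2 volume :=
    (grad_memLp (a1.of_le (by simp)) a2 2 volume).norm
  have hint : Integrable (fun x => |g x| * ‖gradient κ x‖) := by
    exact (int_mul hgm.abs hκ)
  calc ∫ x in Ω \ S, |⟪gradient u x, gradient κ x⟫_ℝ|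
      ≤ ∫ x in Ω \ S, |g x| * ‖gradient κ x‖ := by
        apply integral_mono_of_nonneg
        · exact Eventually.of_forall (fun x => abs_nonneg _)
        · exact hint.restrict
        · filter_upwards [ae_restrict_mem mO] with x hx
          rw [hg, indicator_of_mem hx, abs_norm]
          exact abs_real_inner_le_norm _ _
    _ ≤ ∫ x, |g x| * ‖gradient κ x‖ :=
        setIntegral_le_integral hint (Eventually.of_forall (fun x => by positivity))

/-- Lipschitz bound on small balls for charts -/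
theorem chart_lip {Φ : E → E} {s : Set E} (hs : IsOpen s) (hΦ : ContDiffOn ℝ ∞ Φ s) {z : E} {r : ℝ}
    (hb : closedBall z r ⊆ s) : ∃ C : ℝ≥0, LipschitzOnWith C Φ (closedBall z r) := by
  have h1 : ContinuousOn (fderiv ℝ Φ) (closedBall z r) :=
    (hΦ.continuousOn_fderiv_of_isOpen hs (by simp)).mono hb
  obtain ⟨C, hC⟩ := (isCompact_closedBall z r).exists_bound_of_continuousOn h1
  refine ⟨C.toNNReal, (convex_closedBall z r).lipschitzOnWith_of_nnnorm_fderiv_le
    (𝕜 := ℝ) (fun x hx => ?_) (fun x hx => ?_)⟩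
  · exact (hΦ.contDiffAt (hs.mem_nhds (hb hx))).differentiableAt (by simp)
  · rw [← NNReal.coe_le_coe, coe_nnnorm]
    exact (hC x hx).trans (Real.le_coe_toNNReal C)

theorem rem_bd_local (hINT : INT_stm) (hE : EDGE_stm) {Ω S : Set E} {u : E → ℝ}
    (hΩ : IsOpen Ω) (hS : IsCompact S) (hSΩ : S ⊆ Ω) (hu : Sol Ω S u) {p : E}
    (hp : BdPt ∞ S p) :
    ∃ V, IsOpen V ∧ p ∈ V ∧ ∀ K, K ⊆ S ∩ V → IsCompact K → Rem Ω S u K := by
  obtain ⟨Φ, h, L, h0, h1, h2, h3, hL, hh0, hSS⟩ := hp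
  subst h1
  obtain ⟨r, hr, hb⟩ := Metric.isOpen_iff.1 Φ.open_source 0 h0
  have hbc : closedBall (0 : E) (r / 2) ⊆ Φ.source :=
    (closedBall_subset_ball (by linarith)).trans hb
  obtain ⟨C, hC⟩ := chart_lip Φ.open_source h2 hbc
  set r' : ℝ := r / (2 * (1 + L)) with hr'
  have hL0 : (0 : ℝ) ≤ L := L.2
  have hr'0 : 0 < r' := by positivity
  have hr'1 : (1 + L) * r' = r / 2 := by
    rw [hr']; field_simp
  have hr'2 : r' ≤ r / 2 := by nlinarith
  have hb' : ball (0 : E) r' ⊆ Φ.source :=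
    (ball_subset_closedBall.trans (closedBall_subset_closedBall hr'2)).trans hbc
  refine ⟨Φ '' ball 0 r', Φ.isOpen_image_of_subset_source isOpen_ball hb',
    ⟨0, mem_ball_self hr'0, rfl⟩, fun K hK hKc => ?_⟩
  -- the edge
  set η : ℝ → E := fun y => h y • bv 0 + y • bv 1 with hη
  have hηL : LipschitzWith (L + 1) η := by
    apply LipschitzWith.of_dist_le_mul
    intro y y'
    rw [dist_eq_norm, hη]
    have e1 : (h y • bv 0 + y • bv 1) - (h y' • bv 0 + y' • bv 1) =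
        (h y - h y') • bv 0 + (y - y') • bv 1 := by module
    simp only
    rw [e1]
    refine (norm_add_le _ _).trans ?_
    rw [norm_smul, norm_smul]
    simp only [bv, PiLp.norm_single, norm_one, mul_one]
    have := hL.dist_le_mul y y'
    rw [Real.dist_eq, Real.dist_eq] at this
    rw [Real.dist_eq, Real.norm_eq_abs, Real.norm_eq_abs]
    push_cast
    linarith
  have hηm : ∀ y ∈ Icc (-r') r', η y ∈ closedBall (0 : E) (r / 2) := by
    intro y hy
    have e2 := hηL.dist_le_mul y 0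
    have e3 : η 0 = 0 := by simp [hη, hh0]
    rw [e3, Real.dist_eq, sub_zero] at e2
    rw [mem_closedBall]
    have : |y| ≤ r' := abs_le.2 ⟨hy.1, hy.2⟩
    push_cast at e2
    nlinarith
  set γ : ℝ → E := fun s => Φ (η (-r' + 2 * r' * s)) with hγ
  have hγL : ∃ C' : ℝ≥0, LipschitzOnWith C' γ (Icc 0 1) := by
    refine ⟨C * ((L + 1) * (2 * r').toNNReal), ?_⟩
    apply hC.comp
    · apply LipschitzWith.lipschitzOnWith
      apply hηL.comp
      apply LipschitzWith.of_dist_le_mul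
      intro s t
      rw [Real.dist_eq, Real.dist_eq]
      have : -r' + 2 * r' * s - (-r' + 2 * r' * t) = 2 * r' * (s - t) := by ring
      rw [this, abs_mul, abs_of_pos (by positivity), Real.coe_toNNReal _ (by positivity)]
    · intro s hs
      apply hηm
      constructor <;> nlinarith [hs.1, hs.2]
  obtain ⟨C', hC'⟩ := hγL
  have hsymm : ContinuousOn Φ.symm K :=
    Φ.symm.continuousOn.mono (fun x hx => by
      obtain ⟨ζ, hζ, rfl⟩ := (hK hx).2
      exact Φ.map_source (hb' hζ))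
  set Ke : Set E := {x ∈ K | Φ.symm x 0 = h (Φ.symm x 1)} with hKe
  have hKec : IsCompact Ke := by
    have : Ke = K ∩ (fun x => Φ.symm x 0 - h (Φ.symm x 1)) ⁻¹' {0} := by
      ext x
      simp only [hKe, mem_inter_iff, mem_preimage, mem_singleton_iff, sub_eq_zero]
      rfl
    rw [this]
    apply hKc.of_isClosed_subset _ inter_subset_left
    apply ContinuousOn.preimage_isClosed_of_isClosed _ hKc.isClosed isClosed_singleton
    exact ((coord_cont 0).comp_continuousOn hsymm).sub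
      (hL.continuous.comp_continuousOn ((coord_cont 1).comp_continuousOn hsymm))
  have hKeγ : Ke ⊆ γ '' Icc 0 1 := by
    rintro x ⟨hxK, hx⟩
    obtain ⟨hxS, ζ, hζ, rfl⟩ := hK hxK
    rw [Φ.left_inv (hb' hζ)] at hx
    obtain ⟨z2, z0⟩ := (hSS ζ (hb' hζ)).1 hxS
    have hζn : ‖ζ‖ < r' := by simpa using hζ
    have hζ1 : |ζ 1| < r' := by
      have := EuclideanSpace.norm_eq ζ
      have h5 : |ζ 1| ≤ ‖ζ‖ := by
        simpa using PiLp.norm_apply_le ζ 1
      linarith
    refine ⟨(ζ 1 + r') / (2 * r'), ⟨?_, ?_⟩, ?_⟩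
    · apply div_nonneg _ (by positivity)
      linarith [(abs_lt.1 hζ1).1]
    · rw [div_le_one (by positivity)]
      linarith [(abs_lt.1 hζ1).2]
    · simp only [hγ]
      have e5 : -r' + 2 * r' * ((ζ 1 + r') / (2 * r')) = ζ 1 := by
        field_simp
        ring
      rw [e5]
      congr 1
      ext i
      fin_cases i
      · simp [hη, hx]
      · simp [hη]
      · simp [hη, z2]
  have hRe := rem_edge hE hΩ hS hu.memG hC' hKeγ hKec
  intro O hO hKO ε hε
  obtain ⟨κ, b1, b2, b3, b4, ⟨W, b5, b6, b7⟩, b8⟩ :=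
    hRe O hO (fun x hx => hKO hx.1) (ε / 2) (half_pos hε)
  have hK2 : IsCompact (K \ W) := hKc.diff b5
  have hR2 : Rem Ω S u (K \ W) := by
    apply rem_of_local hu.memG hK2 (fun x hx => (hK hx.1).1)
    intro x hx
    apply hINT Ω S u hΩ hS hSΩ hu x (hK hx.1).1
    obtain ⟨hxS, ζ, hζ, hζx⟩ := hK hx.1
    have hxe : x ∉ Ke := fun h => hx.2 (b6 h)
    subst hζx
    obtain ⟨z2, z0⟩ := (hSS ζ (hb' hζ)).1 hxS
    have hne : ζ 0 ≠ h (ζ 1) := by
      intro h
      apply hxe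
      refine ⟨hx.1, ?_⟩
      rw [Φ.left_inv (hb' hζ)]
      exact h
    have hlt : h (ζ 1) < ζ 0 := lt_of_le_of_ne z0 (Ne.symm hne)
    have hc : Continuous (fun ζ : E => h (ζ 1)) := hL.continuous.comp (coord_cont 1)
    refine intPt_iff_of h2 h3 (isOpen_ball.inter (isOpen_lt hc (coord_cont 0)))
      (inter_subset_left.trans hb') ⟨hζ, hlt⟩ z2 ?_
    intro ξ hξ
    rw [hSS ξ (hb' hξ.1)]
    constructor
    · exact fun h => h.1
    · exact fun h => ⟨h, le_of_lt hξ.2⟩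
  have e1 : RemAt Ω S u W O (ε / 2) := ⟨κ, b1, b2, b3, b4, ⟨W, b5, Subset.rfl, b7⟩, b8⟩
  have e2 : RemAt Ω S u (K \ W) O (ε / 2) :=
    hR2 O hO (fun x hx => hKO hx.1) (ε / 2) (half_pos hε)
  obtain ⟨κ', c1, c2, c3, c4, ⟨W', c5, c6, c7⟩, c8⟩ := e1.union hu.memG e2
  refine ⟨κ', c1, c2, c3, c4, ⟨W', c5, fun x hx => ?_, c7⟩, by rwa [add_halves] at c8⟩
  by_cases hxW : x ∈ W
  · exact c6 (Or.inl hxW)
  · exact c6 (Or.inr ⟨hx, hxW⟩)

theorem rem_all (hINT : INT_stm) (hE : EDGE_stm) {Ω S : Set E} {u : E → ℝ}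
    (hΩ : IsOpen Ω) (hS : IsCrack Ω S) (hu : Sol Ω S u) : Rem Ω S u S := by
  apply rem_of_local hu.memG hS.compact Subset.rfl
  intro p hp
  rcases hS.pts p hp with h | h
  · exact hINT Ω S u hΩ hS.compact hS.sub hu p hp h
  · exact rem_bd_local hINT hE hΩ hS.compact hS.sub hu h

end Pool.Agent.Run7.h982
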