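import Pool.Agent.Run7.h982.J9
import Pool.Agent.Run7.h982.Remv

/-!
# Insulating cracks: cracks with real analytic interior
-/

set_option autoImplicit false

open MeasureTheory Set Filter Topology Metric
open scoped ContDiff ENNReal NNReal InnerProductSpace

namespace Pool.Agent.Run7.h982

theorem curve_chart {Φ : OpenPartialHomeomorph E E} (h1 : ContDiffOn ℝ ∞ Φ Φ.source)
    (h0 : 0 ∈ Φ.source) (w : E) :
    HasDerivAt (fun s : ℝ => Φ (s • w)) (fderiv ℝ Φ 0 w) 0 ∧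
      ∀ᶠ s : ℝ in 𝓝 0, s • w ∈ Φ.source := by
  have hc : ContinuousAt (fun s : ℝ => s • w) 0 := by fun_prop
  constructor
  · have d3 : HasFDerivAt Φ (fderiv ℝ Φ 0) ((fun s : ℝ => s • w) 0) := by
      simp only [zero_smul]
      exact ((h1.contDiffAt (Φ.open_source.mem_nhds h0)).differentiableAt (by simp)).hasFDerivAt
    have d6 : HasDerivAt (fun s : ℝ => s • w) w 0 := by
      simpa using (hasDerivAt_id (0 : ℝ)).smul_const w
    exact HasFDerivAt.comp_hasDerivAt (f := fun s : ℝ => s • w) 0 d3 d6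
  · apply hc.eventually
    simp only [zero_smul]
    exact Φ.open_source.mem_nhds h0

/-- Interior points and boundary points of smooth surfaces are different. -/
theorem not_both {S : Set E} {p : E} (hi : IntPt ∞ S p) (hb : BdPt ∞ S p) : False := by
  obtain ⟨Φ, a0, a1, a2, a3, a4⟩ := hi
  obtain ⟨Θ, g, L, b0, b1, b2, b3, hL, hg0, b4⟩ := hb
  -- the direction into the surface
  set τ : E := fderiv ℝ Θ 0 (bv 0) with hτ
  set w : E := -(fderiv ℝ Φ.symm p τ) with hw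
  have hpΦ : p ∈ Φ.target := by rw [← a1]; exact Φ.map_source a0
  have hpΘ : p ∈ Θ.target := by rw [← b1]; exact Θ.map_source b0
  have dΦs : HasFDerivAt Φ.symm (fderiv ℝ Φ.symm p) p :=
    ((a3.contDiffAt (Φ.open_target.mem_nhds hpΦ)).differentiableAt (by simp)).hasFDerivAt
  have dΘs : HasFDerivAt Θ.symm (fderiv ℝ Θ.symm p) p :=
    ((b3.contDiffAt (Θ.open_target.mem_nhds hpΘ)).differentiableAt (by simp)).hasFDerivAt
  obtain ⟨c1, c2⟩ := curve_chart b2 b0 (bv 0)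
  -- first step: `w 2 = 0`
  have hw2 : w 2 = 0 := by
    have d1 : HasDerivAt (fun s : ℝ => Φ.symm (Θ (s • bv 0))) (fderiv ℝ Φ.symm p τ) 0 := by
      have dΦs' : HasFDerivAt Φ.symm (fderiv ℝ Φ.symm p) ((fun s : ℝ => Θ (s • bv 0)) 0) := by
        simp only [zero_smul, b1]
        exact dΦs
      exact HasFDerivAt.comp_hasDerivAt (f := fun s : ℝ => Θ (s • bv 0)) 0 dΦs' c1
    have d2 : HasDerivAt (fun s : ℝ => Φ.symm (Θ (s • bv 0)) 2) ((fderiv ℝ Φ.symm p τ) 2) 0 :=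
      HasFDerivAt.comp_hasDerivAt (f := fun s : ℝ => Φ.symm (Θ (s • bv 0))) 0
        (EuclideanSpace.proj (𝕜 := ℝ) (2 : Fin 3)).hasFDerivAt d1
    have hz : ∀ᶠ s : ℝ in 𝓝[>] 0, Φ.symm (Θ (s • bv 0)) 2 = 0 := by
      have e1 : ∀ᶠ s : ℝ in 𝓝 0, Θ (s • bv 0) ∈ Φ.target := by
        apply c1.continuousAt.eventually
        simp only [zero_smul, b1]
        exact Φ.open_target.mem_nhds hpΦ
      filter_upwards [e1.filter_mono nhdsWithin_le_nhds, c2.filter_mono nhdsWithin_le_nhds,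
        self_mem_nhdsWithin] with s h3 h4 h5
      have h5' : 0 < s := h5
      have hS : Θ (s • bv 0) ∈ S := by
        rw [b4 _ h4]
        constructor
        · simp
        · simp [hg0, h5'.le]
      have h6 := (a4 _ (Φ.map_target h3)).1 (by rw [Φ.right_inv h3]; exact hS)
      exact h6
    have h0 : Φ.symm (Θ ((0 : ℝ) • bv 0)) 2 = 0 := by
      rw [zero_smul, b1, ← a1, Φ.left_inv a0]
      simp
    have d3 : HasDerivWithinAt (fun s : ℝ => Φ.symm (Θ (s • bv 0)) 2)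
        ((fderiv ℝ Φ.symm p τ) 2) (Ioi 0) 0 := d2.hasDerivWithinAt
    have d4 : HasDerivWithinAt (fun s : ℝ => Φ.symm (Θ (s • bv 0)) 2) 0 (Ioi 0) 0 := by
      apply (hasDerivWithinAt_const (0 : ℝ) (Ioi 0) (0 : ℝ)).congr_of_eventuallyEq hz h0
    have := (uniqueDiffWithinAt_Ioi (0 : ℝ)).eq_deriv _ d3 d4
    rw [hw]
    simp [this]
  -- second step
  obtain ⟨e1, e2⟩ := curve_chart a2 a0 w
  have hback : fderiv ℝ Φ 0 w = -τ := by
    obtain ⟨k1, k2⟩ := chart_inv a2 a3 a0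
    rw [a1] at k2
    have h3 : (fderiv ℝ Φ 0) ∘L (fderiv ℝ Φ.symm p) = ContinuousLinearMap.id ℝ E := by
      rw [← k2]
      exact k1.self_comp_inverse
    rw [hw, map_neg]
    exact congrArg Neg.neg (congrArg (fun L : E →L[ℝ] E => L τ) h3)
  have hfor : fderiv ℝ Θ.symm p τ = bv 0 := by
    obtain ⟨k1, k2⟩ := chart_inv b2 b3 b0
    rw [b1] at k2
    have h3 : (fderiv ℝ Θ.symm p) ∘L (fderiv ℝ Θ 0) = ContinuousLinearMap.id ℝ E := by
      rw [← k2]
      exact k1.inverse_comp_self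
    exact congrArg (fun L : E →L[ℝ] E => L (bv 0)) h3
  have d1 : HasDerivAt (fun s : ℝ => Θ.symm (Φ (s • w))) (-(bv 0)) 0 := by
    have dΘs' : HasFDerivAt Θ.symm (fderiv ℝ Θ.symm p) ((fun s : ℝ => Φ (s • w)) 0) := by
      simp only [zero_smul, a1]
      exact dΘs
    have := HasFDerivAt.comp_hasDerivAt (f := fun s : ℝ => Φ (s • w)) 0 dΘs' e1
    rw [hback, map_neg, hfor] at this
    exact this
  have dco : ∀ i : Fin 3, HasDerivAt (fun s : ℝ => Θ.symm (Φ (s • w)) i)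
      ((-(bv 0) : E) i) 0 := fun i =>
    HasFDerivAt.comp_hasDerivAt (f := fun s : ℝ => Θ.symm (Φ (s • w))) 0
      (EuclideanSpace.proj (𝕜 := ℝ) i).hasFDerivAt d1
  have h00 : Θ.symm (Φ ((0 : ℝ) • w)) = 0 := by
    rw [zero_smul, a1, ← b1, Θ.left_inv b0]
  have hlim : ∀ i : Fin 3, Tendsto (fun s : ℝ => s⁻¹ * Θ.symm (Φ (s • w)) i) (𝓝[>] 0)
      (𝓝 ((-(bv 0) : E) i)) := by
    intro i
    have h3 := (dco i).tendsto_slope_zero_right
    refine h3.congr (fun s => ?_)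
    simp only [zero_add, smul_eq_mul]
    rw [h00]
    simp
  have hineq : ∀ᶠ s : ℝ in 𝓝[>] 0, -(L * |s⁻¹ * Θ.symm (Φ (s • w)) 1|) ≤
      s⁻¹ * Θ.symm (Φ (s • w)) 0 := by
    have e3 : ∀ᶠ s : ℝ in 𝓝 0, Φ (s • w) ∈ Θ.target := by
      apply e1.continuousAt.eventually
      simp only [zero_smul, a1]
      exact Θ.open_target.mem_nhds hpΘ
    filter_upwards [e3.filter_mono nhdsWithin_le_nhds, e2.filter_mono nhdsWithin_le_nhds,
      self_mem_nhdsWithin] with s h3 h4 h5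
    have h5' : 0 < s := h5
    have hS : Φ (s • w) ∈ S := (a4 _ h4).2 (by simp [hw2])
    have h6 := ((b4 _ (Θ.map_target h3)).1 (by rw [Θ.right_inv h3]; exact hS)).2
    have h7 := hL.dist_le_mul (Θ.symm (Φ (s • w)) 1) 0
    rw [hg0, Real.dist_eq, Real.dist_eq, sub_zero, sub_zero] at h7
    have h8 := neg_abs_le (g (Θ.symm (Φ (s • w)) 1))
    rw [abs_mul, abs_of_pos (inv_pos.2 h5')]
    have h9 : -(L * |Θ.symm (Φ (s • w)) 1|) ≤ Θ.symm (Φ (s • w)) 0 := by linarith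
    calc -(L * (s⁻¹ * |Θ.symm (Φ (s • w)) 1|)) = s⁻¹ * -(L * |Θ.symm (Φ (s • w)) 1|) := by ring
      _ ≤ s⁻¹ * Θ.symm (Φ (s • w)) 0 := mul_le_mul_of_nonneg_left h9 (inv_pos.2 h5').le
  have hl1 : Tendsto (fun s : ℝ => -(L * |s⁻¹ * Θ.symm (Φ (s • w)) 1|)) (𝓝[>] 0)
      (𝓝 (-(L * |(-(bv 0) : E) 1|))) := (((hlim 1).abs).const_mul _).neg
  have := le_of_tendsto_of_tendsto hl1 (hlim 0) hineq
  simp [bv] at this
  linarith

end Pool.Agent.Run7.h982
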