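import Pool.Agent.Run7.h982.M1

/-!
# Insulating cracks: the interior of a crack
-/

set_option autoImplicit false

open MeasureTheory Set Filter Topology Metric
open scoped ContDiff ENNReal NNReal InnerProductSpace

namespace Pool.Agent.Run7.h982

theorem norm_le_coord (ζ : E) : ‖ζ‖ ≤ |ζ 0| + |ζ 1| + |ζ 2| := by
  conv_lhs => rw [vec_sum ζ, Fin.sum_univ_three]
  refine (norm_add_le _ _).trans (add_le_add ((norm_add_le _ _).trans (add_le_add ?_ ?_)) ?_) <;>
    simp [norm_smul, bv]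

theorem h2_curve {γ : ℝ → E} {C : ℝ≥0} {s : Set ℝ} (hγ : LipschitzOnWith C γ s) :
    (Measure.hausdorffMeasure 2 : Measure E) (γ '' s) = 0 := by
  have h1 := hγ.hausdorffMeasure_image_le (d := 2) (by norm_num)
  have h2 : (Measure.hausdorffMeasure 2 : Measure ℝ) s = 0 := by
    have h3 : dimH s < ((2 : ℝ≥0) : ℝ≥0∞) := by
      refine (dimH_mono (subset_univ s)).trans_lt ?_
      rw [Real.dimH_univ]
      norm_num
    have := hausdorffMeasure_of_dimH_lt h3
    simpa using this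
  rw [h2, mul_zero] at h1
  exact le_antisymm h1 zero_le

theorem bd_struct {S : Set E} {p : E} (h : BdPt ∞ S p) : ∃ N C : Set E, IsOpen N ∧ p ∈ N ∧
    C ⊆ S ∩ N ∧ IsPreconnected C ∧ S ∩ N ⊆ closure C ∧ (∀ q ∈ C, IntPt ∞ S q) ∧
    (Measure.hausdorffMeasure 2 : Measure E) ((S ∩ N) \ C) = 0 := by
  obtain ⟨Φ, g, L, h0, h1, h2, h3, hL, hg0, hS⟩ := h
  subst h1
  obtain ⟨r, hr, hb, -⟩ := chart_ball h0 (univ_mem (f := 𝓝 (Φ 0)))
  set ρ : ℝ := r / (2 * (L + 3)) with hρ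
  have hρ0 : 0 < ρ := by positivity
  have hgc : Continuous (fun ζ : E => g (ζ 1)) := hL.continuous.comp (coord_cont 1)
  have hgb : ∀ b : ℝ, |g b| ≤ L * |b| := by
    intro b
    have := hL.dist_le_mul b 0
    rwa [hg0, Real.dist_eq, Real.dist_eq, sub_zero, sub_zero] at this
  set O : Set E := {ζ : E | |ζ 1| < ρ} ∩ ({ζ : E | |ζ 0 - g (ζ 1)| < ρ} ∩ {ζ : E | |ζ 2| < ρ})
    with hO
  have oO : IsOpen O := by
    apply IsOpen.inter (isOpen_lt (coord_cont 1).abs continuous_const)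
    apply IsOpen.inter (isOpen_lt ((coord_cont 0).sub hgc).abs continuous_const)
    exact isOpen_lt (coord_cont 2).abs continuous_const
  have hOr : O ⊆ closedBall (0 : E) (r / 2) := by
    rintro ζ ⟨q1, q2, q3⟩
    have q1' : |ζ 1| < ρ := q1
    have q2' : |ζ 0 - g (ζ 1)| < ρ := q2
    have q3' : |ζ 2| < ρ := q3
    rw [mem_closedBall_zero_iff]
    have e1 : |ζ 0| ≤ |ζ 0 - g (ζ 1)| + |g (ζ 1)| := by
      have := abs_add_le (ζ 0 - g (ζ 1)) (g (ζ 1))
      rwa [sub_add_cancel] at this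
    have e2 := hgb (ζ 1)
    have e3 : (L : ℝ) * |ζ 1| ≤ L * ρ := mul_le_mul_of_nonneg_left q1'.le L.coe_nonneg
    have e4 : (L + 3) * ρ = r / 2 := by
      rw [hρ]; field_simp
    have := norm_le_coord ζ
    nlinarith
  have hObr : O ⊆ ball (0 : E) r := hOr.trans (closedBall_subset_ball (by linarith))
  have hOs : O ⊆ Φ.source := hObr.trans hb
  set D : Set E := {ζ : E | ζ ∈ O ∧ ζ 2 = 0 ∧ g (ζ 1) < ζ 0} with hD
  have hSN : S ∩ Φ '' O = Φ '' {ζ : E | ζ ∈ O ∧ ζ 2 = 0 ∧ g (ζ 1) ≤ ζ 0} := by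
    ext x
    constructor
    · rintro ⟨hx, ζ, hζ, rfl⟩
      exact ⟨ζ, ⟨hζ, (hS ζ (hOs hζ)).1 hx⟩, rfl⟩
    · rintro ⟨ζ, ⟨hζ, hζ2⟩, rfl⟩
      exact ⟨(hS ζ (hOs hζ)).2 hζ2, ζ, hζ, rfl⟩
  refine ⟨Φ '' O, Φ '' D, Φ.isOpen_image_of_subset_source oO hOs, ⟨0, ?_, rfl⟩, ?_, ?_, ?_, ?_, ?_⟩
  · refine ⟨?_, ?_, ?_⟩
    · simpa using hρ0
    · simpa [hg0] using hρ0
    · simpa using hρ0
  · rw [hSN]
    apply image_mono
    rintro ζ ⟨q1, q2, q3⟩
    exact ⟨q1, q2, q3.le⟩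
  · apply IsPreconnected.image _ _ (Φ.continuousOn.mono (fun ζ hζ => hOs hζ.1))
    have hDe : D = (fun q : ℝ × ℝ => (g q.1 + q.2) • bv 0 + q.1 • bv 1) ''
        (Ioo (-ρ) ρ ×ˢ Ioo 0 ρ) := by
      ext ζ
      constructor
      · rintro ⟨⟨q1, q2, q3⟩, q4, q5⟩
        have q1' : |ζ 1| < ρ := q1
        have q2' : |ζ 0 - g (ζ 1)| < ρ := q2
        refine ⟨(ζ 1, ζ 0 - g (ζ 1)), ⟨abs_lt.1 q1', ?_, (abs_lt.1 q2').2⟩, ?_⟩
        · show 0 < ζ 0 - g (ζ 1)
          linarith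
        · ext j
          fin_cases j <;> simp [bv, q4]
      · rintro ⟨⟨b, s⟩, ⟨hb', hs1, hs2⟩, rfl⟩
        have e0 : (((g b + s) • bv 0 + b • bv 1 : E)) 0 = g b + s := by simp [bv]
        have e1 : (((g b + s) • bv 0 + b • bv 1 : E)) 1 = b := by simp [bv]
        have e2 : (((g b + s) • bv 0 + b • bv 1 : E)) 2 = 0 := by simp [bv]
        have hs1' : 0 < s := hs1
        have hs2' : s < ρ := hs2
        refine ⟨⟨?_, ?_, ?_⟩, e2, ?_⟩
        · show |((g b + s) • bv 0 + b • bv 1 : E) 1| < ρ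
          rw [e1]
          exact abs_lt.2 hb'
        · show |((g b + s) • bv 0 + b • bv 1 : E) 0 -
            g (((g b + s) • bv 0 + b • bv 1 : E) 1)| < ρ
          rw [e0, e1, add_sub_cancel_left, abs_of_pos hs1']
          exact hs2'
        · show |((g b + s) • bv 0 + b • bv 1 : E) 2| < ρ
          rw [e2, abs_zero]
          exact hρ0
        · show g (((g b + s) • bv 0 + b • bv 1 : E) 1) < ((g b + s) • bv 0 + b • bv 1 : E) 0
          rw [e0, e1]
          linarith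
    rw [hDe]
    apply IsPreconnected.image
    · exact isPreconnected_Ioo.prod isPreconnected_Ioo
    · have : Continuous (fun q : ℝ × ℝ => (g q.1 + q.2) • bv 0 + q.1 • (bv 1 : E)) := by
        have := hL.continuous
        fun_prop
      exact this.continuousOn
  · rw [hSN]
    rintro _ ⟨ζ, ⟨hζ, hζ2, hζ3⟩, rfl⟩
    rcases hζ3.lt_or_eq with hlt | heq
    · exact subset_closure ⟨ζ, ⟨hζ, hζ2, hlt⟩, rfl⟩
    · have hc : ContinuousAt (fun s : ℝ => Φ (ζ + s • bv 0)) 0 := by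
        have c1 : ContinuousAt Φ ((fun s : ℝ => ζ + s • (bv 0 : E)) 0) := by
          simp only [zero_smul, add_zero]
          exact Φ.continuousAt (hOs hζ)
        exact ContinuousAt.comp (f := fun s : ℝ => ζ + s • (bv 0 : E)) c1 (by fun_prop)
      have ht : Tendsto (fun s : ℝ => Φ (ζ + s • bv 0)) (𝓝[>] 0) (𝓝 (Φ ζ)) := by
        have := hc.tendsto
        simp only [zero_smul, add_zero] at this
        exact this.mono_left nhdsWithin_le_nhds
      apply mem_closure_of_tendsto ht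
      have hin : ∀ᶠ s : ℝ in 𝓝 0, ζ + s • bv 0 ∈ O := by
        have c2 : ContinuousAt (fun s : ℝ => ζ + s • (bv 0 : E)) 0 := by fun_prop
        apply c2.eventually
        simp only [zero_smul, add_zero]
        exact oO.mem_nhds hζ
      filter_upwards [hin.filter_mono nhdsWithin_le_nhds, self_mem_nhdsWithin] with s hs1 hs2
      have hs2' : 0 < s := hs2
      refine ⟨ζ + s • bv 0, ⟨hs1, ?_, ?_⟩, rfl⟩
      · simp [hζ2, bv]
      · have e1 : (ζ + s • bv 0 : E) 1 = ζ 1 := by simp [bv]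
        have e0 : (ζ + s • bv 0 : E) 0 = ζ 0 + s := by simp [bv]
        rw [e1, e0]
        linarith
  · rintro _ ⟨ζ, ⟨hζ, hζ2, hζ3⟩, rfl⟩
    have hV : IsOpen (O ∩ {ζ : E | g (ζ 1) < ζ 0}) :=
      oO.inter (isOpen_lt hgc (coord_cont 0))
    apply intPt_iff_of h2 h3 hV (inter_subset_left.trans hOs) ⟨hζ, hζ3⟩ hζ2
    rintro z ⟨hz1, hz2⟩
    rw [hS z (hOs hz1)]
    exact ⟨fun h => h.1, fun h => ⟨h, le_of_lt hz2⟩⟩
  · obtain ⟨CΦ, hCΦ⟩ := chart_lip Φ.open_source h2 (z := (0 : E)) (r := r / 2)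
      ((closedBall_subset_ball (by linarith)).trans hb)
    set γ₀ : ℝ → E := fun b => g b • bv 0 + b • bv 1 with hγ₀
    have hγL : LipschitzWith (L + 1) γ₀ := by
      apply LipschitzWith.of_dist_le_mul
      intro a b
      have e1 : γ₀ a - γ₀ b = (g a - g b) • bv 0 + (a - b) • bv 1 := by
        simp only [hγ₀]; module
      rw [dist_eq_norm, e1]
      refine (norm_add_le _ _).trans ?_
      have hn : ∀ i : Fin 3, ‖(bv i : E)‖ = 1 := fun i => by simp [bv]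
      rw [norm_smul, norm_smul, hn, hn, mul_one, mul_one, Real.norm_eq_abs, Real.norm_eq_abs,
        NNReal.coe_add, NNReal.coe_one, add_mul, one_mul, Real.dist_eq]
      have := hL.dist_le_mul a b
      rw [Real.dist_eq, Real.dist_eq] at this
      linarith
    set I : Set ℝ := {b : ℝ | γ₀ b ∈ closedBall (0 : E) (r / 2)} with hI
    have hlip : LipschitzOnWith (CΦ * (L + 1)) (fun b => Φ (γ₀ b)) I :=
      hCΦ.comp (hγL.lipschitzOnWith) (fun b hb => hb)
    apply measure_mono_null _ (h2_curve hlip)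
    rw [hSN]
    rintro x ⟨⟨ζ, ⟨hζ, hζ2, hζ3⟩, rfl⟩, hx2⟩
    have heq : g (ζ 1) = ζ 0 := by
      rcases hζ3.lt_or_eq with hlt | heq
      · exact absurd ⟨ζ, ⟨hζ, hζ2, hlt⟩, rfl⟩ hx2
      · exact heq
    have hγζ : γ₀ (ζ 1) = ζ := by
      ext j
      fin_cases j <;> simp [hγ₀, bv, hζ2, heq]
    refine ⟨ζ 1, ?_, ?_⟩
    · show γ₀ (ζ 1) ∈ closedBall (0 : E) (r / 2)
      rw [hγζ]
      exact hOr hζ
    · simp only
      rw [hγζ]

/-- The analytic part of a crack with real analytic interior is connected and of full area. -/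
theorem analytic_conn {Ω S : Set E} (hS : IsCrack Ω S)
    (ha : ∀ p ∈ S, IntPt ω S p ∨ BdPt ∞ S p) :
    IsConnected (analyticLocus S) ∧
      (Measure.hausdorffMeasure 2 : Measure E) (S \ analyticLocus S) = 0 := by
  have hup : ∀ q ∈ S, IntPt ∞ S q → q ∈ analyticLocus S := by
    intro q hq hi
    rcases ha q hq with h | h
    · exact ⟨hq, h⟩
    · exact (not_both hi h).elim
  have hnot : ∀ q ∈ S, q ∉ analyticLocus S → BdPt ∞ S q := by
    intro q hq hn
    rcases ha q hq with h | h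
    · exact absurd ⟨hq, h⟩ hn
    · exact h
  have hdense : S ⊆ closure (analyticLocus S) := by
    intro p hp
    rw [_root_.mem_closure_iff]
    intro O hO hpO
    obtain ⟨q, ⟨q1, q2⟩, q3⟩ := exists_intPt (hS.pts p hp) hO hpO
    exact ⟨q, q2, hup q q1 q3⟩
  refine ⟨⟨?_, ?_⟩, ?_⟩
  · obtain ⟨p, hp⟩ := hS.conn.nonempty
    obtain ⟨q, ⟨q1, -⟩, q3⟩ := exists_intPt (hS.pts p hp) isOpen_univ (mem_univ p)
    exact ⟨q, hup q q1 q3⟩
  · intro U V hU hV hcov hAU hAV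
    by_contra hne
    have hempty : ∀ x ∈ analyticLocus S, x ∈ U → x ∈ V → False := fun x h1 h2 h3 =>
      hne ⟨x, h1, h2, h3⟩
    have hSc : S ⊆ closure (analyticLocus S ∩ U) ∪ closure (analyticLocus S ∩ V) := by
      rw [← closure_union]
      refine hdense.trans (closure_mono ?_)
      intro x hx
      rcases hcov hx with h | h
      · exact Or.inl ⟨hx, h⟩
      · exact Or.inr ⟨hx, h⟩
    have hpre := isPreconnected_closed_iff.1 hS.conn.isPreconnected _ _ isClosed_closure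
      isClosed_closure hSc (by
        obtain ⟨x, h1, h2⟩ := hAU
        exact ⟨x, h1.1, subset_closure ⟨h1, h2⟩⟩) (by
        obtain ⟨x, h1, h2⟩ := hAV
        exact ⟨x, h1.1, subset_closure ⟨h1, h2⟩⟩)
    obtain ⟨p, hpS, hpU, hpV⟩ := hpre
    by_cases hpA : p ∈ analyticLocus S
    · rcases hcov hpA with h | h
      · obtain ⟨x, x1, x2, x3⟩ := _root_.mem_closure_iff.1 hpV U hU h
        exact hempty x x2 x1 x3
      · obtain ⟨x, x1, x2, x3⟩ := _root_.mem_closure_iff.1 hpU V hV h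
        exact hempty x x2 x3 x1
    · obtain ⟨N, C, n1, n2, n3, n4, n5, n6, -⟩ := bd_struct (hnot p hpS hpA)
      have hCA : C ⊆ analyticLocus S ∩ N := fun x hx =>
        ⟨hup x (n3 hx).1 (n6 x hx), (n3 hx).2⟩
      have hpc : IsPreconnected (analyticLocus S ∩ N) :=
        n4.subset_closure hCA (fun x hx => n5 ⟨hx.1.1, hx.2⟩)
      obtain ⟨x, x1, x2, x3⟩ := _root_.mem_closure_iff.1 hpU N n1 n2
      obtain ⟨y, y1, y2, y3⟩ := _root_.mem_closure_iff.1 hpV N n1 n2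
      obtain ⟨z, z1, z2, z3⟩ := hpc U V hU hV (inter_subset_left.trans hcov)
        ⟨x, ⟨x2, x1⟩, x3⟩ ⟨y, ⟨y2, y1⟩, y3⟩
      exact hempty z z1.1 z2 z3
  · apply measure_null_of_locally_null
    intro p hp
    obtain ⟨N, C, n1, n2, n3, n4, n5, n6, n7⟩ := bd_struct (hnot p hp.1 hp.2)
    refine ⟨(S \ analyticLocus S) ∩ N, inter_mem self_mem_nhdsWithin
      (mem_nhdsWithin_of_mem_nhds (n1.mem_nhds n2)), measure_mono_null ?_ n7⟩
    rintro x ⟨⟨x1, x2⟩, x3⟩
    exact ⟨⟨x1, x3⟩, fun hC => x2 (hup x x1 (n6 x hC))⟩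

end Pool.Agent.Run7.h982
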