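import Pool.Agent.Run7.h982.K7
import Pool.Agent.Run7.h982.M2

/-!
# Insulating cracks: the explicit pair of profiles, assembled
-/

set_option autoImplicit false

open MeasureTheory Set Filter Topology Metric
open scoped ContDiff ENNReal NNReal InnerProductSpace

namespace Pool.Agent.Run7.h982

theorem flux_indep {Ω : Set E} (hΩ : IsDomain3 Ω) {ψ : Fin 2 → E → ℝ}
    (hψ : ∀ i, IsProfile Ω (ψ i)) (hflux : ∀ i, IsFlux Ω (hh i) (ψ i)) :
    ∀ a : Fin 2 → ℝ, (∀ᵐ x ∂(surf Ω), ∑ i, a i * ψ i x = 0) → a = 0 := by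
  intro a ha
  obtain ⟨hfin, -⟩ := di Ω hΩ
  set F : E → ℝ := fun x => a 0 * hh 0 x + a 1 * hh 1 x with hF
  have hFs : ContDiff ℝ ∞ F :=
    (contDiff_const.mul (hh_smooth 0)).add (contDiff_const.mul (hh_smooth 1))
  have hg : ∀ x, gradient F x = a 0 • gradient (hh 0) x + a 1 • gradient (hh 1) x := by
    intro x
    have d : ∀ i : Fin 2, HasFDerivAt (hh i) (fderiv ℝ (hh i) x) x := fun i =>
      (((hh_smooth (n := ∞) i).differentiable (by simp)) x).hasFDerivAt
    have d2 := ((d 0).const_mul (a 0)).fun_add ((d 1).const_mul (a 1))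
    unfold gradient
    rw [hF, d2.fderiv, map_add, map_smul, map_smul]
  have hFm : MemLp F 2 (surf Ω) := memLp_surf hΩ.bdd hfin hFs.continuous 2
  have h0 := hflux 0 F hFs
  have h1 := hflux 1 F hFs
  have hzero : ∫ x in Ω, ⟪gradient F x, gradient F x⟫_ℝ = 0 := by
    have e1 : ∀ x, ⟪gradient F x, gradient F x⟫_ℝ =
        a 0 * ⟪gradient (hh 0) x, gradient F x⟫_ℝ + a 1 * ⟪gradient (hh 1) x, gradient F x⟫_ℝ := by
      intro x
      conv_lhs => rw [hg x, inner_add_left, real_inner_smul_left, real_inner_smul_left]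
      rw [hg x]
    have i : ∀ j : Fin 2, IntegrableOn (fun x => ⟪gradient (hh j) x, gradient F x⟫_ℝ) Ω := fun j =>
      int_bdd hΩ.bdd ((grad_cont (hh_smooth j)).inner (grad_cont (hFs.of_le (by simp))))
    simp_rw [e1]
    rw [integral_add ((i 0).const_mul _) ((i 1).const_mul _), integral_const_mul,
      integral_const_mul, h0, h1, ← integral_const_mul, ← integral_const_mul,
      ← integral_add ((int_mul (hψ 0).mem hFm).const_mul _) ((int_mul (hψ 1).mem hFm).const_mul _)]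
    rw [← integral_zero E ℝ (μ := surf Ω)]
    apply integral_congr_ae
    filter_upwards [ha] with x hx
    rw [Fin.sum_univ_two] at hx
    calc a 0 * (ψ 0 x * F x) + a 1 * (ψ 1 x * F x) = (a 0 * ψ 0 x + a 1 * ψ 1 x) * F x := by ring
      _ = 0 := by rw [hx, zero_mul]
  have hgc : Continuous (gradient F) := grad_cont (hFs.of_le (by simp))
  have hae : (fun x => ⟪gradient F x, gradient F x⟫_ℝ) =ᵐ[volume.restrict Ω] 0 :=
    (integral_eq_zero_iff_of_nonneg_ae (Eventually.of_forall (fun x => real_inner_self_nonneg))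
      (int_bdd hΩ.bdd (hgc.inner hgc))).1 hzero
  have hall : EqOn (fun x => ⟪gradient F x, gradient F x⟫_ℝ) (fun _ => 0) Ω := by
    apply Measure.eqOn_open_of_ae_eq (μ := volume) hae hΩ.isOpen (hgc.inner hgc).continuousOn
      continuousOn_const
  obtain ⟨x, hx⟩ := hΩ.conn.nonempty
  have hz : gradient F x = 0 := inner_self_eq_zero.1 (hall hx)
  rw [hg x, hh0_grad, hh1_grad] at hz
  have e2 := congrArg (fun y : E => y 2) hz
  have e0 := congrArg (fun y : E => y 0) hz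
  simp [bv] at e2 e0
  funext i
  fin_cases i
  · show a 0 = 0
    rw [e2] at e0
    simpa using e0
  · exact e2

theorem mixed_of {Ω S S' : Set E} (hΩ : IsDomain3 Ω) (hS : IsCrack Ω S) (hS' : IsCrack Ω S')
    {ψ : Fin 2 → E → ℝ} (hψ : ∀ i, IsProfile Ω (ψ i)) (hflux : ∀ i, IsFlux Ω (hh i) (ψ i))
    (hpot : ∀ i, SameData Ω (ψ i) S S') (hne : (S \ S').Nonempty) : Mixed S S' := by
  have hind := flux_indep hΩ hψ hflux
  have hd := main_S weyl di int_removable edge loc hΩ hS hS' hψ hind hpot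
  have harea := main_T hΩ hS hS' hψ hind (fun i => hflux i) hpot hne
  refine ⟨hne, hd, fun hana => ?_, harea⟩
  obtain ⟨hc, hz⟩ := analytic_conn hS hana
  obtain ⟨x, hxS, hxS'⟩ := hne
  -- an analytic point in `S \ S'`
  obtain ⟨q, hq1, hq2⟩ := _root_.mem_closure_iff.1 (hd ⟨hxS, hxS'⟩) S'ᶜ
    hS'.compact.isClosed.isOpen_compl hxS'
  have hsub : (S ∩ S') \ reach S S' ⊆ S \ analyticLocus S := by
    rintro p ⟨⟨h1, -⟩, h3⟩
    refine ⟨h1, fun hp => h3 ⟨q, ⟨hq2.1, hq1⟩, ?_⟩⟩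
    exact hc.isPreconnected.subset_connectedComponentIn hp Subset.rfl hq2
  have := measure_mono_null hsub hz
  rw [this] at harea
  exact lt_irrefl _ harea

/-- the general statement -/
theorem explicit_pair (Ω : Set E) (hΩ : IsDomain3 Ω) :
    ∃ ψ₀ ψ₁ : E → ℝ, IsProfile Ω ψ₀ ∧ IsProfile Ω ψ₁ ∧ IsFlux Ω (fun x => x 0) ψ₀ ∧
      IsFlux Ω (fun x => x 0 * x 1 + x 2) ψ₁ ∧
      ∀ S S' : Set E, IsCrack Ω S → IsCrack Ω S' → SameData Ω ψ₀ S S' → SameData Ω ψ₁ S S' →
        S = S' ∨ Mixed S S' ∨ Mixed S' S := by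
  obtain ⟨ψ₀, a1, a2⟩ := rz Ω hΩ (hh 0) (hh_smooth 0) (hh_lap 0)
  obtain ⟨ψ₁, b1, b2⟩ := rz Ω hΩ (hh 1) (hh_smooth 1) (hh_lap 1)
  refine ⟨ψ₀, ψ₁, a1, b1, ?_, ?_, ?_⟩
  · rw [← hh_zero]
    exact a2
  · rw [← hh_one]
    exact b2
  · intro S S' hS hS' h0 h1
    have hψ : ∀ i, IsProfile Ω (![ψ₀, ψ₁] i) := by
      intro i
      fin_cases i
      · exact a1
      · exact b1
    have hflux : ∀ i, IsFlux Ω (hh i) (![ψ₀, ψ₁] i) := by
      intro i
      fin_cases i
      · exact a2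
      · exact b2
    have hd : ∀ i, SameData Ω (![ψ₀, ψ₁] i) S S' := by
      intro i
      fin_cases i
      · exact h0
      · exact h1
    have hd' : ∀ i, SameData Ω (![ψ₀, ψ₁] i) S' S := by
      intro i
      obtain ⟨u, G, u', G', f, k1, k2⟩ := hd i
      exact ⟨u', G', u, G, f, k2, k1⟩
    rcases (S \ S').eq_empty_or_nonempty with h | h
    · rcases (S' \ S).eq_empty_or_nonempty with h' | h'
      · exact Or.inl (Subset.antisymm (sdiff_eq_empty.1 h) (sdiff_eq_empty.1 h'))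
      · exact Or.inr (Or.inr (mixed_of hΩ hS' hS hψ hflux hd' h'))
    · exact Or.inr (Or.inl (mixed_of hΩ hS hS' hψ hflux hd h))

end Pool.Agent.Run7.h982
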