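import Pool.Agent.Run7.h982.L2

/-!
# Insulating cracks: equal measurements give equal potentials near the boundary
-/

set_option autoImplicit false

open MeasureTheory Set Filter Topology Metric
open scoped ContDiff ENNReal NNReal InnerProductSpace

namespace Pool.Agent.Run7.h982

theorem Sol.c1 {Ω S : Set E} {v : E → ℝ} (hΩ : IsOpen Ω) (hS : IsCompact S) (h : Sol Ω S v) :
    ContDiffOn ℝ 1 v (Ω \ S) :=
  AnalyticOnNhd.contDiffOn (n := 1) h.an (hΩ.sdiff hS.isClosed).uniqueDiffOn

/-- integrals of functions cut off to `Ω`, against functions vanishing off `U` -/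
theorem int_cut {Ω U K : Set E} (hΩ : MeasurableSet Ω) (hU : MeasurableSet U)
    (hK : MeasurableSet K) (hUK : Disjoint U K) {F : E → ℝ} {P : E → ℝ}
    (hF : ∀ x ∉ U, F x = 0) (hP : ∀ x, P x = Ω.indicator F x) :
    ∫ x in U, P x = ∫ x in Ω \ K, F x := by
  rw [← integral_indicator hU, ← integral_indicator (hΩ.diff hK)]
  congr 1
  funext x
  by_cases hx : x ∈ U
  · have h1 : x ∉ K := Set.disjoint_left.1 hUK hx
    rw [indicator_of_mem hx, hP]
    by_cases h2 : x ∈ Ω
    · have h4 : x ∈ Ω \ K := ⟨h2, h1⟩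
      rw [indicator_of_mem h2, indicator_of_mem h4]
    · rw [indicator_of_notMem h2, indicator_of_notMem (fun h => h2 h.1)]
  · rw [indicator_of_notMem hx]
    by_cases h2 : x ∈ Ω \ K
    · rw [indicator_of_mem h2, hF x hx]
    · rw [indicator_of_notMem h2]

theorem int_cut' {Ω K L : Set E} (hΩ : MeasurableSet Ω) (hK : MeasurableSet K)
    (hL : MeasurableSet L) (hLK : L ⊆ K)
    {F : E → ℝ} (hF : ∀ x ∈ K, F x = 0) : ∫ x in Ω \ K, F x = ∫ x in Ω \ L, F x := by
  rw [← integral_indicator (hΩ.diff hL), ← integral_indicator (hΩ.diff hK)]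
  congr 1
  funext x
  by_cases h1 : x ∈ K
  · rw [indicator_of_notMem (fun h => h.2 h1)]
    by_cases h2 : x ∈ Ω \ L
    · rw [indicator_of_mem h2, hF x h1]
    · rw [indicator_of_notMem h2]
  · have h3 : x ∉ L := fun h => h1 (hLK h)
    by_cases h2 : x ∈ Ω
    · have h4 : x ∈ Ω \ K := ⟨h2, h1⟩
      have h5 : x ∈ Ω \ L := ⟨h2, h3⟩
      rw [indicator_of_mem h4, indicator_of_mem h5]
    · rw [indicator_of_notMem (fun h => h2 h.1), indicator_of_notMem (fun h => h2 h.1)]

/-- points outside the closure near boundary points of Lipschitz domains -/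
theorem exists_exterior {Ω : Set E} (hΩ : IsDomain3 Ω) {p : E} (hp : p ∈ frontier Ω) {U : Set E}
    (hU : U ∈ 𝓝 p) : (U \ closure Ω).Nonempty := by
  obtain ⟨e, g, L, r, hr, hL, hg⟩ := hΩ.lip p hp
  have hpΩ : p ∉ Ω := by
    rw [hΩ.isOpen.frontier_eq] at hp
    exact hp.2
  have hp1 : e p 2 ≤ g !₂[e p 0, e p 1] := by
    by_contra h
    exact hpΩ ((hg p (mem_ball_self hr)).2 (not_le.1 h))
  have hcont : Tendsto (fun s : ℝ => p - s • e.symm (bv 2)) (𝓝[>] 0) (𝓝 p) := by
    have : Continuous (fun s : ℝ => p - s • e.symm (bv 2)) := by fun_prop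
    have h2 := this.tendsto 0
    simp only [zero_smul, sub_zero] at h2
    exact h2.mono_left nhdsWithin_le_nhds
  obtain ⟨s, ⟨hs1, hs2⟩, hs3⟩ := ((hcont.eventually (inter_mem hU (ball_mem_nhds p hr))).and
    self_mem_nhdsWithin).exists
  have hs3' : 0 < s := hs3
  refine ⟨_, hs1, ?_⟩
  have he : ∀ i : Fin 3, e (p - s • e.symm (bv 2)) i = e p i - s * (bv 2) i := by
    intro i
    rw [map_sub, map_smul, LinearIsometryEquiv.apply_symm_apply]
    simp
  have hopen : IsOpen (ball p r ∩ {x : E | e x 2 < g !₂[e x 0, e x 1]}) := by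
    apply isOpen_ball.inter
    have hc2 : Continuous (fun x : E => (!₂[e x 0, e x 1] : EuclideanSpace ℝ (Fin 2))) := by
      have h0 : Continuous (fun x : E => e x 0) := (coord_cont 0).comp e.continuous
      have h1 : Continuous (fun x : E => e x 1) := (coord_cont 1).comp e.continuous
      fun_prop
    exact isOpen_lt ((coord_cont 2).comp e.continuous) (hL.continuous.comp hc2)
  intro hcl
  obtain ⟨y, hy1, hy2⟩ := mem_closure_iff.1 hcl _ hopen ⟨hs2, by
    show e (p - s • e.symm (bv 2)) 2 < g !₂[e (p - s • e.symm (bv 2)) 0,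
      e (p - s • e.symm (bv 2)) 1]
    rw [he 0, he 1, he 2]
    simp
    linarith⟩
  have h3 : e y 2 < g !₂[e y 0, e y 1] := hy1.2
  have h4 := (hg y hy1.1).1 hy2
  linarith

theorem near_local (hW : W_stm) (hDI : DI_stm) {Ω S S' : Set E} (hΩ : IsDomain3 Ω)
    (hS : IsCompact S) (hSΩ : S ⊆ Ω) (hS' : IsCompact S') (hS'Ω : S' ⊆ Ω)
    {ψ v v' f : E → ℝ} (hv : Sol Ω S v) (hv' : Sol Ω S' v')
    (h : IsPotential Ω S ψ v (gradient v) f) (h' : IsPotential Ω S' ψ v' (gradient v') f)
    {p : E} (hp : p ∈ frontier Ω) :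
    ∃ U, IsOpen U ∧ p ∈ U ∧ ∀ x ∈ U ∩ Ω, x ∉ S ∧ x ∉ S' ∧ v x = v' x := by
  obtain ⟨hfin, C, hC0, hC⟩ := hDI Ω hΩ
  obtain ⟨-, K₁, hK₁, hK₁Ω, Φ, hΦ, hΦ1, hΦ2, hΦ3⟩ := h.trace
  obtain ⟨-, K₂, hK₂, hK₂Ω, Ψ, hΨ, hΨ1, hΨ2, hΨ3⟩ := h'.trace
  set K := (S ∪ S') ∪ (K₁ ∪ K₂) with hKdef
  have hK : IsCompact K := (hS.union hS').union (hK₁.union hK₂)
  have hKΩ : K ⊆ Ω := union_subset (union_subset hSΩ hS'Ω) (union_subset hK₁Ω hK₂Ω)
  have hpΩ : p ∉ Ω := by
    have := hp
    rw [hΩ.isOpen.frontier_eq] at this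
    exact this.2
  have hpK : p ∉ K := fun h => hpΩ (hKΩ h)
  obtain ⟨r, hr, hrK⟩ := Metric.isOpen_iff.1 hK.isClosed.isOpen_compl p hpK
  set U := ball p r with hU
  have hUK : Disjoint U K := Set.disjoint_left.2 (fun x hx => hrK hx)
  have oU : IsOpen U := isOpen_ball
  have mK : MeasurableSet K := hK.measurableSet
  have mΩ : MeasurableSet Ω := hΩ.isOpen.measurableSet
  have lS : volume.restrict (Ω \ K) ≤ volume.restrict (Ω \ S) :=
    Measure.restrict_mono (sdiff_subset_sdiff_right
      (subset_union_left.trans subset_union_left)) le_rfl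
  have lS' : volume.restrict (Ω \ K) ≤ volume.restrict (Ω \ S') :=
    Measure.restrict_mono (sdiff_subset_sdiff_right
      (subset_union_right.trans subset_union_left)) le_rfl
  have l1 : volume.restrict (Ω \ K) ≤ volume.restrict (Ω \ K₁) :=
    Measure.restrict_mono (sdiff_subset_sdiff_right
      (subset_union_left.trans subset_union_right)) le_rfl
  have l2 : volume.restrict (Ω \ K) ≤ volume.restrict (Ω \ K₂) :=
    Measure.restrict_mono (sdiff_subset_sdiff_right
      (subset_union_right.trans subset_union_right)) le_rfl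
  have mv : MemLp v 2 (volume.restrict (Ω \ K)) := hv.mem.mono_measure lS
  have mv' : MemLp v' 2 (volume.restrict (Ω \ K)) := hv'.mem.mono_measure lS'
  have mG : MemLp (gradient v) 2 (volume.restrict (Ω \ K)) := hv.memG.mono_measure lS
  have mG' : MemLp (gradient v') 2 (volume.restrict (Ω \ K)) := hv'.memG.mono_measure lS'
  have md : MemLp (fun x => v x - v' x) 2 (volume.restrict (Ω \ K)) := mv.sub mv'
  have mdG : MemLp (fun x => gradient v x - gradient v' x) 2 (volume.restrict (Ω \ K)) :=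
    mG.sub mG'
  set w : E → ℝ := Ω.indicator (fun x => v x - v' x) with hw
  set Gw : E → E := Ω.indicator (fun x => gradient v x - gradient v' x) with hGw
  have hrestr : (volume.restrict U).restrict Ω ≤ volume.restrict (Ω \ K) := by
    rw [Measure.restrict_restrict mΩ]
    have hsub : Ω ∩ U ⊆ Ω \ K := fun x hx => ⟨hx.1, Set.disjoint_left.1 hUK hx.2⟩
    exact Measure.restrict_mono hsub le_rfl
  have mw : MemLp w 2 (volume.restrict U) := by
    rw [hw, memLp_indicator_iff_restrict mΩ]
    exact md.mono_measure hrestr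
  have mGw : MemLp Gw 2 (volume.restrict U) := by
    rw [hGw, memLp_indicator_iff_restrict mΩ]
    exact mdG.mono_measure hrestr
  -- convergence
  have cv1 : Tendsto (fun n => eLpNorm (fun x => (v x - v' x) - (Φ n x - Ψ n x)) 2
      (volume.restrict (Ω \ K))) atTop (𝓝 0) := by
    have hs := hΦ1.add hΨ1
    rw [add_zero] at hs
    refine tendsto_of_tendsto_of_tendsto_of_le_of_le tendsto_const_nhds hs
      (fun _ => zero_le) (fun n => ?_)
    have e1 : (fun x => (v x - v' x) - (Φ n x - Ψ n x)) =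
        (fun x => v x - Φ n x) - (fun x => v' x - Ψ n x) := by
      funext x; simp only [Pi.sub_apply]; ring
    rw [e1]
    refine (eLpNorm_sub_le (mv.1.sub (hΦ n).continuous.aestronglyMeasurable)
      (mv'.1.sub (hΨ n).continuous.aestronglyMeasurable) (by norm_num)).trans ?_
    exact add_le_add (eLpNorm_mono_measure _ l1) (eLpNorm_mono_measure _ l2)
  have cv2 : ∀ e : E, Tendsto (fun n => eLpNorm (fun x => ⟪gradient v x - gradient v' x, e⟫_ℝ -
      ⟪gradient (Φ n) x - gradient (Ψ n) x, e⟫_ℝ) 2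
      (volume.restrict (Ω \ K))) atTop (𝓝 0) := by
    intro e
    have hs := hΦ2.add hΨ2
    rw [add_zero] at hs
    have hs2 := ENNReal.Tendsto.const_mul (a := ENNReal.ofReal ‖e‖) hs
      (Or.inr ENNReal.ofReal_ne_top)
    rw [mul_zero] at hs2
    refine tendsto_of_tendsto_of_tendsto_of_le_of_le tendsto_const_nhds hs2
      (fun _ => zero_le) (fun n => ?_)
    have e1 : (fun x => ⟪gradient v x - gradient v' x, e⟫_ℝ -
      ⟪gradient (Φ n) x - gradient (Ψ n) x, e⟫_ℝ) =
        fun x => ⟪((fun x => gradient v x - gradient (Φ n) x) -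
          (fun x => gradient v' x - gradient (Ψ n) x)) x, e⟫_ℝ := by
      funext x
      simp only [Pi.sub_apply, inner_sub_left]
      ring
    rw [e1]
    refine (eLpNorm_inner_le _ e 2).trans ?_
    refine mul_le_mul_right ?_ _
    have c1 : Continuous (gradient (Φ n)) := grad_cont ((hΦ n).of_le (by simp))
    have c2 : Continuous (gradient (Ψ n)) := grad_cont ((hΨ n).of_le (by simp))
    refine (eLpNorm_sub_le (mG.1.sub c1.aestronglyMeasurable)
      (mG'.1.sub c2.aestronglyMeasurable) (by norm_num)).trans ?_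
    exact add_le_add (eLpNorm_mono_measure _ l1) (eLpNorm_mono_measure _ l2)
  have mfin : IsFiniteMeasure (surf Ω) := ⟨hfin⟩
  have mΦ : ∀ n, MemLp (Φ n) 2 (surf Ω) := fun n => memLp_surf hΩ.bdd hfin (hΦ n).continuous 2
  have mΨ : ∀ n, MemLp (Ψ n) 2 (surf Ω) := fun n => memLp_surf hΩ.bdd hfin (hΨ n).continuous 2
  have cv3 : Tendsto (fun n => eLpNorm (fun x => Φ n x - Ψ n x) 2 (surf Ω)) atTop (𝓝 0) := by
    have hs := hΨ3.add hΦ3
    rw [add_zero] at hs
    refine tendsto_of_tendsto_of_tendsto_of_le_of_le tendsto_const_nhds hs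
      (fun _ => zero_le) (fun n => ?_)
    have e1 : (fun x => Φ n x - Ψ n x) =
        (fun x => f x - Ψ n x) - (fun x => f x - Φ n x) := by
      funext x; simp only [Pi.sub_apply]; ring
    rw [e1]
    exact eLpNorm_sub_le (h.trace.1.1.sub (hΨ n).continuous.aestronglyMeasurable)
      (h.trace.1.1.sub (hΦ n).continuous.aestronglyMeasurable) (by norm_num)
  -- weak gradient
  have hh1 : IsH1 U w Gw := by
    refine ⟨mw, mGw, fun φ hφ e => ?_⟩
    have hφ1 : ContDiff ℝ 1 φ := hφ.1.of_le (by simp)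
    have hφe := hφ.fderiv_apply e
    have z1 : ∀ x ∉ U, φ x = 0 := fun x hx =>
      image_eq_zero_of_notMem_tsupport (fun h => hx (hφ.2.2 h))
    have z2 : ∀ x ∉ U, fderiv ℝ φ x e = 0 := fun x hx => by
      rw [fderiv_zero_of (fun h => hx (hφ.2.2 h))]; simp
    have i1 : ∫ x in U, w x * fderiv ℝ φ x e = ∫ x in Ω \ K, (v x - v' x) * fderiv ℝ φ x e := by
      apply int_cut mΩ oU.measurableSet mK hUK
      · intro x hx; rw [z2 x hx]; simp
      · intro x
        by_cases hx : x ∈ Ω
        · simp [hw, hx]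
        · simp [hw, hx]
    have i2 : ∫ x in U, ⟪Gw x, e⟫_ℝ * φ x =
        ∫ x in Ω \ K, ⟪gradient v x - gradient v' x, e⟫_ℝ * φ x := by
      apply int_cut mΩ oU.measurableSet mK hUK
      · intro x hx; rw [z1 x hx]; simp
      · intro x
        by_cases hx : x ∈ Ω
        · simp [hGw, hx]
        · simp [hGw, hx]
    rw [i1, i2]
    have mφ : MemLp φ 2 (volume.restrict (Ω \ K)) :=
      (hφ.1.continuous.memLp_of_hasCompactSupport hφ.2.1).restrict _
    have mφe : MemLp (fun x => fderiv ℝ φ x e) 2 (volume.restrict (Ω \ K)) :=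
      (hφe.1.continuous.memLp_of_hasCompactSupport hφe.2.1).restrict _
    have t1 := tendsto_pair (fn := fun n x => Φ n x - Ψ n x) md
      (fun n => ((hΦ n).continuous.sub (hΨ n).continuous).aestronglyMeasurable) mφe cv1
    have t2 := tendsto_pair (fn := fun n x => ⟪gradient (Φ n) x - gradient (Ψ n) x, e⟫_ℝ)
      (mdG.inner_const e) (fun n => by
        have c1 : Continuous (gradient (Φ n)) := grad_cont ((hΦ n).of_le (by simp))
        have c2 : Continuous (gradient (Ψ n)) := grad_cont ((hΨ n).of_le (by simp))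
        exact ((c1.sub c2).inner continuous_const).aestronglyMeasurable) mφ (cv2 e)
    have t3 := t1.add t2
    have t4 : Tendsto (fun n => (∫ x in Ω \ K, (Φ n x - Ψ n x) * fderiv ℝ φ x e) +
        ∫ x in Ω \ K, ⟪gradient (Φ n) x - gradient (Ψ n) x, e⟫_ℝ * φ x) atTop (𝓝 0) := by
      have hb : Tendsto (fun n => C * ‖e‖ * ((eLpNorm (fun x => Φ n x - Ψ n x) 2 (surf Ω)).toReal *
          (eLpNorm φ 2 (surf Ω)).toReal)) atTop (𝓝 0) := by
        have := (((ENNReal.tendsto_toReal ENNReal.zero_ne_top).comp cv3).mul_const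
          (eLpNorm φ 2 (surf Ω)).toReal).const_mul (C * ‖e‖)
        simpa using this
      apply squeeze_zero_norm _ hb
      intro n
      have hD : ContDiff ℝ ∞ (fun x => Φ n x - Ψ n x) := (hΦ n).sub (hΨ n)
      have hDφ : ContDiff ℝ ∞ (fun x => (Φ n x - Ψ n x) * φ x) := hD.mul hφ.1
      have hder : ∀ x, fderiv ℝ (fun x => (Φ n x - Ψ n x) * φ x) x e =
          (Φ n x - Ψ n x) * fderiv ℝ φ x e +
            ⟪gradient (Φ n) x - gradient (Ψ n) x, e⟫_ℝ * φ x := by
        intro x
        have d1 : DifferentiableAt ℝ (Φ n) x := (hΦ n).differentiable (by simp) x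
        have d2 : DifferentiableAt ℝ (Ψ n) x := (hΨ n).differentiable (by simp) x
        have d3 : DifferentiableAt ℝ φ x := hφ1.differentiable one_ne_zero x
        have hfd := (d1.hasFDerivAt.fun_sub d2.hasFDerivAt).fun_mul d3.hasFDerivAt
        rw [hfd.fderiv, inner_sub_left, inner_grad, inner_grad]
        simp
        ring
      have j1 : Integrable (fun x => (Φ n x - Ψ n x) * fderiv ℝ φ x e)
          (volume.restrict (Ω \ K)) := by
        apply Integrable.restrict
        exact (hD.continuous.mul hφe.1.continuous).integrable_of_hasCompactSupport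
          hφe.2.1.mul_left
      have j2 : Integrable (fun x => ⟪gradient (Φ n) x - gradient (Ψ n) x, e⟫_ℝ * φ x)
          (volume.restrict (Ω \ K)) := by
        apply Integrable.restrict
        have c1 : Continuous (gradient (Φ n)) := grad_cont ((hΦ n).of_le (by simp))
        have c2 : Continuous (gradient (Ψ n)) := grad_cont ((hΨ n).of_le (by simp))
        exact (((c1.sub c2).inner continuous_const).mul
          hφ.1.continuous).integrable_of_hasCompactSupport hφ.2.1.mul_left
      rw [← integral_add j1 j2]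
      have e1 : ∫ x in Ω \ K, ((Φ n x - Ψ n x) * fderiv ℝ φ x e +
            ⟪gradient (Φ n) x - gradient (Ψ n) x, e⟫_ℝ * φ x) =
          ∫ x in Ω, fderiv ℝ (fun x => (Φ n x - Ψ n x) * φ x) x e := by
        have := int_cut' (Ω := Ω) (K := K) (L := ∅) mΩ mK MeasurableSet.empty (empty_subset _)
          (F := fun x => fderiv ℝ (fun x => (Φ n x - Ψ n x) * φ x) x e) (by
            intro x hx
            have hxU : x ∉ U := fun h => Set.disjoint_left.1 hUK h hx
            rw [hder, z1 x hxU, z2 x hxU]; simp)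
        rw [sdiff_empty] at this
        rw [← this]
        simp_rw [hder]
      rw [e1]
      refine (hC _ hDφ e).trans ?_
      apply mul_le_mul_of_nonneg_left _ (by positivity)
      exact int_abs_mul_le ((mΦ n).sub (mΨ n)) (memLp_surf hΩ.bdd hfin hφ.1.continuous 2)
    have t5 := tendsto_nhds_unique t3 t4
    linarith
  -- weakly harmonic
  have hh2 : ∀ φ, IsTest U φ → ∫ x in U, ⟪Gw x, gradient φ x⟫_ℝ = 0 := by
    intro φ hφ
    have z3 : ∀ x ∉ U, gradient φ x = 0 := fun x hx => grad_zero_of (fun h => hx (hφ.2.2 h))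
    have mgφ : MemLp (gradient φ) 2 (volume.restrict (Ω \ K)) :=
      (grad_memLp (hφ.1.of_le (by simp)) hφ.2.1 2 volume).restrict _
    have i1 : ∫ x in U, ⟪Gw x, gradient φ x⟫_ℝ =
        ∫ x in Ω \ K, ⟪gradient v x - gradient v' x, gradient φ x⟫_ℝ := by
      apply int_cut mΩ oU.measurableSet mK hUK
      · intro x hx; rw [z3 x hx]; simp
      · intro x
        by_cases hx : x ∈ Ω
        · simp [hGw, hx]
        · simp [hGw, hx]
    rw [i1]
    simp_rw [inner_sub_left]
    rw [integral_sub (int_inner mG mgφ) (int_inner mG' mgφ)]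
    have zK : ∀ x ∈ K, gradient φ x = 0 := fun x hx =>
      z3 x (fun h => Set.disjoint_left.1 hUK h hx)
    rw [int_cut' (L := S) mΩ mK hS.measurableSet (subset_union_left.trans subset_union_left)
      (fun x hx => by rw [zK x hx]; simp),
      int_cut' (L := S') mΩ mK hS'.measurableSet (subset_union_right.trans subset_union_left)
      (fun x hx => by rw [zK x hx]; simp)]
    rw [h.weak φ (gradient φ) φ (hφ.isH1 (hΩ.isOpen.sdiff hS.isClosed))
        (trace_of_smooth hΩ.bdd hfin hφ.1),
      h'.weak φ (gradient φ) φ (hφ.isH1 (hΩ.isOpen.sdiff hS'.isClosed))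
        (trace_of_smooth hΩ.bdd hfin hφ.1), sub_self]
  obtain ⟨V, hV1, -, hV3, -⟩ := hW U w Gw oU hh1 hh2
  -- the analytic representative vanishes
  have hext : (U \ closure Ω).Nonempty := exists_exterior hΩ hp (oU.mem_nhds (mem_ball_self hr))
  have oext : IsOpen (U \ closure Ω) := oU.sdiff isClosed_closure
  have hV0 : EqOn V (fun _ => 0) (U \ closure Ω) := by
    apply Measure.eqOn_open_of_ae_eq (μ := volume) _ oext
      (hV1.continuousOn.mono sdiff_subset) continuousOn_const
    have h1 : ∀ᵐ x ∂(volume.restrict (U \ closure Ω)), w x = V x :=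
      ae_mono (Measure.restrict_mono sdiff_subset le_rfl) hV3
    filter_upwards [h1, ae_restrict_mem oext.measurableSet] with x hx1 hx2
    rw [← hx1, hw, indicator_of_notMem (fun h => hx2.2 (subset_closure h))]
  obtain ⟨q, hq⟩ := hext
  have hVz : EqOn V 0 U := by
    apply hV1.eqOn_zero_of_preconnected_of_eventuallyEq_zero (convex_ball p r).isPreconnected
      hq.1
    filter_upwards [oext.mem_nhds hq] with x hx
    exact hV0 hx
  have hUO : ∀ x ∈ U ∩ Ω, x ∉ S ∧ x ∉ S' := by
    intro x hx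
    have : x ∉ K := Set.disjoint_left.1 hUK hx.1
    exact ⟨fun h => this (Or.inl (Or.inl h)), fun h => this (Or.inl (Or.inr h))⟩
  have hfinal : EqOn v v' (U ∩ Ω) := by
    apply Measure.eqOn_open_of_ae_eq (μ := volume) _ (oU.inter hΩ.isOpen)
    · exact (hv.c1 hΩ.isOpen hS).continuousOn.mono (fun x hx => ⟨hx.2, (hUO x hx).1⟩)
    · exact (hv'.c1 hΩ.isOpen hS').continuousOn.mono (fun x hx => ⟨hx.2, (hUO x hx).2⟩)
    · have h1 : ∀ᵐ x ∂(volume.restrict (U ∩ Ω)), w x = V x :=
        ae_mono (Measure.restrict_mono inter_subset_left le_rfl) hV3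
      filter_upwards [h1, ae_restrict_mem (oU.inter hΩ.isOpen).measurableSet] with x hx1 hx2
      rw [hVz hx2.1, hw, indicator_of_mem hx2.2] at hx1
      simp only [Pi.zero_apply] at hx1
      linarith
  exact ⟨U, oU, mem_ball_self hr, fun x hx => ⟨(hUO x hx).1, (hUO x hx).2, hfinal hx⟩⟩

end Pool.Agent.Run7.h982
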