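import Pool.Agent.Run7.h982.Iface

/-!
# Insulating cracks: superposition operators are analytic
-/

set_option autoImplicit false

open MeasureTheory Set Filter Topology Metric
open scoped ContDiff ENNReal NNReal InnerProductSpace

namespace Pool.Agent.Run7.h982

section

variable {X V W : Type*} [TopologicalSpace X] [CompactSpace X] [NormedAddCommGroup V]
  [NormedSpace ℝ V] [NormedAddCommGroup W] [NormedSpace ℝ W]

/-- superposition by a continuous multilinear map -/
noncomputable def supM {n : ℕ} (p : V [×n]→L[ℝ] W) : C(X, V) [×n]→L[ℝ] C(X, W) :=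
  MultilinearMap.mkContinuous
    { toFun := fun h => ⟨fun x => p (fun i => h i x), by fun_prop⟩
      map_update_add' := by
        intro _ m i x y
        ext t
        have h1 : ∀ z : C(X, V), (fun j => Function.update m i z j t)
            = Function.update (fun j => m j t) i (z t) := by
          intro z
          ext j
          by_cases h : j = i
          · subst h; simp
          · simp [h]
        simp only [ContinuousMap.coe_mk, ContinuousMap.add_apply]
        rw [h1, h1, h1]
        simp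
      map_update_smul' := by
        intro _ m i c x
        ext t
        have h1 : ∀ z : C(X, V), (fun j => Function.update m i z j t)
            = Function.update (fun j => m j t) i (z t) := by
          intro z
          ext j
          by_cases h : j = i
          · subst h; simp
          · simp [h]
        simp only [ContinuousMap.coe_mk, ContinuousMap.smul_apply]
        rw [h1, h1]
        simp }
    ‖p‖ (by
      intro m
      rw [ContinuousMap.norm_le _ (by positivity)]
      intro x
      refine (p.le_opNorm _).trans ?_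
      apply mul_le_mul_of_nonneg_left _ (norm_nonneg _)
      apply Finset.prod_le_prod (fun _ _ => norm_nonneg _)
      intro i _
      exact (m i).norm_coe_le_norm x)

theorem supM_norm {n : ℕ} (p : V [×n]→L[ℝ] W) :
    ‖(supM p : C(X, V) [×n]→L[ℝ] C(X, W))‖ ≤ ‖p‖ :=
  MultilinearMap.mkContinuous_norm_le _ (norm_nonneg _) _

theorem supM_apply {n : ℕ} (p : V [×n]→L[ℝ] W) (h : Fin n → C(X, V)) (x : X) :
    (supM p h) x = p (fun i => h i x) := rfl

/-- near a constant -/
theorem nem_const [CompleteSpace W] (f : V → W) (v₀ : V) (h : AnalyticAt ℝ f v₀) :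
    ∃ (r : ℝ) (P : C(X, V) → C(X, W)), 0 < r ∧ (∀ g, ‖g‖ < r → AnalyticAt ℝ P g) ∧
      ∀ g, ‖g‖ < r → ∀ x, P g x = f (v₀ + g x) := by
  obtain ⟨p, ρ, hp⟩ := h
  obtain ⟨r, hr0, hrρ⟩ := ENNReal.lt_iff_exists_nnreal_btwn.1 hp.r_pos
  have hr0' : (0 : ℝ) < r := by
    have := ENNReal.coe_pos.1 hr0
    exact_mod_cast this
  set q : FormalMultilinearSeries ℝ C(X, V) C(X, W) := fun n => supM (p n) with hq
  have hrad : ρ ≤ q.radius := hp.r_le.trans
    (FormalMultilinearSeries.radius_le_of_le (fun n => supM_norm (p n)))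
  have hrq : (r : ℝ≥0∞) < q.radius := hrρ.trans_le hrad
  have hqp := q.hasFPowerSeriesOnBall ((hp.r_pos).trans_le hrad)
  have hmem : ∀ g : C(X, V), ‖g‖ < r → g ∈ Metric.eball (0 : C(X, V)) q.radius := by
    intro g hg
    rw [Metric.mem_eball, edist_zero_right]
    refine lt_trans ?_ hrq
    rw [← ofReal_norm, ← ENNReal.ofReal_coe_nnreal]
    exact (ENNReal.ofReal_lt_ofReal_iff hr0').2 hg
  refine ⟨r, q.sum, hr0', fun g hg => hqp.analyticAt_of_mem (hmem g hg), ?_⟩
  intro g hg x
  have h1 := hqp.hasSum (hmem g hg)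
  rw [zero_add] at h1
  have h2 : HasSum (fun n => (q n (fun _ => g)) x) (q.sum g x) := by
    have h0 : HasSum (fun n => q n (fun _ => g)) (q.sum g) := h1
    exact (ContinuousMap.hasSum_apply h0 x)
  have h3 : HasSum (fun n => p n (fun _ => g x)) (f (v₀ + g x)) := by
    apply hp.hasSum
    rw [Metric.mem_eball, edist_zero_right]
    refine lt_of_le_of_lt ?_ hrρ
    rw [← ofReal_norm, ← ENNReal.ofReal_coe_nnreal]
    exact ENNReal.ofReal_le_ofReal ((g.norm_coe_le_norm x).trans hg.le)
  exact h2.unique h3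

/-- multiplication by a continuous function -/
noncomputable def mulL (a : C(X, ℝ)) : C(X, W) →L[ℝ] C(X, W) :=
  LinearMap.mkContinuous
    { toFun := fun h => ⟨fun x => a x • h x, by fun_prop⟩
      map_add' := by intro x y; ext t; simp
      map_smul' := by
        intro c x
        ext t
        simp only [ContinuousMap.coe_mk, ContinuousMap.smul_apply, RingHom.id_apply]
        rw [smul_comm] }
    ‖a‖ (by
      intro m
      rw [ContinuousMap.norm_le _ (by positivity)]
      intro x
      simp only [LinearMap.coe_mk, AddHom.coe_mk, ContinuousMap.coe_mk]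
      rw [norm_smul]
      exact mul_le_mul (a.norm_coe_le_norm x) (m.norm_coe_le_norm x) (norm_nonneg _)
        (norm_nonneg _))

theorem mulL_apply (a : C(X, ℝ)) (h : C(X, W)) (x : X) : mulL a h x = a x • h x := rfl

end

/-- **NEM** -/
theorem nem : NEM_stm := by
  intro X V W _ _ _ _ _ _ _ _ f g₀ N hf hN
  have h1 : ∀ x : X, ∃ (r : ℝ) (P : C(X, V) → C(X, W)), 0 < r ∧
      (∀ g, ‖g‖ < r → AnalyticAt ℝ P g) ∧ ∀ g, ‖g‖ < r → ∀ y, P g y = f (g₀ x + g y) :=
    fun x => nem_const f (g₀ x) (hf x)
  choose r P hr hP1 hP2 using h1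
  obtain ⟨t, ht⟩ := CompactSpace.elim_nhds_subcover (fun x => g₀ ⁻¹' ball (g₀ x) (r x / 2))
    (fun x => g₀.continuous.continuousAt.preimage_mem_nhds
      (ball_mem_nhds _ (by have := hr x; positivity)))
  set a : X → C(X, ℝ) := fun x => ⟨fun y => max 0 (r x / 2 - dist (g₀ y) (g₀ x)), by fun_prop⟩
    with ha
  set s : C(X, ℝ) := ∑ x ∈ t, a x with hs
  have ha0 : ∀ x y, 0 ≤ a x y := fun x y => le_max_left _ _
  have hsy : ∀ y, s y = ∑ x ∈ t, a x y := by
    intro y
    rw [hs, ContinuousMap.coe_sum, Finset.sum_apply]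
  have hs0 : ∀ y, 0 < s y := by
    intro y
    have hy : y ∈ ⋃ x ∈ t, g₀ ⁻¹' ball (g₀ x) (r x / 2) := by rw [ht]; trivial
    simp only [mem_iUnion, mem_preimage, mem_ball] at hy
    obtain ⟨x, hx, hxy⟩ := hy
    rw [hsy]
    apply Finset.sum_pos' (fun x _ => ha0 x y)
    refine ⟨x, hx, ?_⟩
    change 0 < max 0 (r x / 2 - dist (g₀ y) (g₀ x))
    rw [lt_max_iff]
    right
    linarith
  set χ : X → C(X, ℝ) := fun x => ⟨fun y => a x y / s y,
    (a x).continuous.div s.continuous (fun y => (hs0 y).ne')⟩ with hχ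
  set θ : X → C(X, ℝ) := fun x => ⟨fun y => min 1 (max 0 (3 - 4 * dist (g₀ y) (g₀ x) / r x)),
    by fun_prop⟩ with hθ
  set A : X → C(X, V) → C(X, V) := fun x g => mulL (θ x) (g - ContinuousMap.const X (g₀ x))
    with hA
  have hAan : ∀ x, AnalyticAt ℝ (A x) g₀ := by
    intro x
    have e0 : AnalyticAt ℝ (fun g : C(X, V) => g - ContinuousMap.const X (g₀ x)) g₀ :=
      analyticAt_id.sub analyticAt_const
    exact ((mulL (θ x) : C(X, V) →L[ℝ] C(X, V)).analyticAt _).comp e0
  have hA1 : ∀ x g, ‖g - g₀‖ < r x / 8 → ‖A x g‖ < r x := by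
    intro x g hg
    have hrx := hr x
    refine lt_of_le_of_lt (b := 7 / 8 * r x) ?_ (by linarith)
    rw [ContinuousMap.norm_le _ (by positivity)]
    intro y
    change ‖min 1 (max 0 (3 - 4 * dist (g₀ y) (g₀ x) / r x)) • (g y - g₀ x)‖ ≤ _
    by_cases hd : dist (g₀ y) (g₀ x) < 3 / 4 * r x
    · rw [norm_smul]
      have e1 : ‖min 1 (max 0 (3 - 4 * dist (g₀ y) (g₀ x) / r x))‖ ≤ 1 := by
        rw [Real.norm_of_nonneg (le_min zero_le_one (le_max_left _ _))]
        exact min_le_left _ _
      have e2 : ‖g y - g₀ x‖ ≤ 7 / 8 * r x := by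
        have e3 : ‖g y - g₀ y‖ ≤ ‖g - g₀‖ := (g - g₀).norm_coe_le_norm y
        have e4 : g y - g₀ x = (g y - g₀ y) + (g₀ y - g₀ x) := by abel
        rw [e4]
        refine (norm_add_le _ _).trans ?_
        rw [dist_eq_norm] at hd
        linarith
      calc _ ≤ 1 * (7 / 8 * r x) := mul_le_mul e1 e2 (norm_nonneg _) zero_le_one
        _ = _ := one_mul _
    · push Not at hd
      have e1 : 3 - 4 * dist (g₀ y) (g₀ x) / r x ≤ 0 := by
        rw [sub_nonpos, le_div_iff₀ hrx]
        linarith
      rw [max_eq_left e1, min_eq_right zero_le_one, zero_smul, norm_zero]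
      positivity
  have key : N =ᶠ[𝓝 g₀] fun g => ∑ x ∈ t, mulL (χ x) (P x (A x g)) := by
    have h2 : ∀ᶠ g in 𝓝 g₀, ∀ x ∈ t, ‖g - g₀‖ < r x / 8 := by
      rw [Finset.eventually_all]
      intro x _
      have : ∀ᶠ g in 𝓝 g₀, g ∈ ball g₀ (r x / 8) := ball_mem_nhds _ (by have := hr x; positivity)
      filter_upwards [this] with g hg
      rwa [mem_ball_iff_norm] at hg
    filter_upwards [hN, h2] with g hg1 hg2
    ext y
    rw [hg1, ContinuousMap.coe_sum, Finset.sum_apply]
    have e1 : ∀ x ∈ t, mulL (χ x) (P x (A x g)) y = χ x y • f (g y) := by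
      intro x hx
      rw [mulL_apply, hP2 x _ (hA1 x g (hg2 x hx))]
      by_cases hd : dist (g₀ y) (g₀ x) < r x / 2
      · congr 2
        have e2 : (θ x) y = 1 := by
          change min 1 (max 0 (3 - 4 * dist (g₀ y) (g₀ x) / r x)) = 1
          apply min_eq_left
          apply le_max_of_le_right
          have : 4 * dist (g₀ y) (g₀ x) / r x ≤ 2 := by
            rw [div_le_iff₀ (hr x)]
            linarith
          linarith
        change g₀ x + (θ x) y • (g y - g₀ x) = g y
        rw [e2, one_smul]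
        abel
      · have e2 : χ x y = 0 := by
          change (max 0 (r x / 2 - dist (g₀ y) (g₀ x))) / s y = 0
          rw [max_eq_left (by linarith), zero_div]
        rw [e2, zero_smul, zero_smul]
    rw [Finset.sum_congr rfl e1, ← Finset.sum_smul]
    have e3 : ∑ x ∈ t, χ x y = 1 := by
      change ∑ x ∈ t, a x y / s y = 1
      rw [← Finset.sum_div, ← hsy, div_self (hs0 y).ne']
    rw [e3, one_smul]
  apply AnalyticAt.congr _ key.symm
  apply Finset.analyticAt_fun_sum
  intro x hx
  have e1 : AnalyticAt ℝ (P x) (A x g₀) := hP1 x _ (hA1 x g₀ (by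
    rw [sub_self, norm_zero]
    have := hr x
    positivity))
  exact ((mulL (χ x) : C(X, W) →L[ℝ] C(X, W)).analyticAt _).comp (e1.comp (hAan x))

end Pool.Agent.Run7.h982
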