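import Pool.Agent.Run7.h982.Nem

/-!
# Insulating cracks: analytic total differential equations
-/

set_option autoImplicit false

open MeasureTheory Set Filter Topology Metric unitInterval
open scoped ContDiff ENNReal NNReal InnerProductSpace

namespace Pool.Agent.Run7.h982

/-- the primitive -/
noncomputable def prim : C(I, ℝ) →L[ℝ] C(I, ℝ) :=
  LinearMap.mkContinuous
    { toFun := fun ψ => ⟨fun t => ∫ s in (0 : ℝ)..t, ψ (projIcc 0 1 zero_le_one s), by
        have h : Continuous fun s => ψ (projIcc 0 1 zero_le_one s) :=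
          ψ.continuous.comp continuous_projIcc
        exact (intervalIntegral.continuous_primitive (fun a b => h.intervalIntegrable a b) 0).comp
          continuous_subtype_val⟩
      map_add' := by
        intro x y
        ext t
        simp only [ContinuousMap.coe_mk, ContinuousMap.add_apply]
        apply intervalIntegral.integral_add
        · exact (x.continuous.comp continuous_projIcc).intervalIntegrable _ _
        · exact (y.continuous.comp continuous_projIcc).intervalIntegrable _ _
      map_smul' := by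
        intro c x
        ext t
        simp }
    1 (by
      intro ψ
      rw [one_mul, ContinuousMap.norm_le _ (norm_nonneg _)]
      intro t
      simp only [LinearMap.coe_mk, AddHom.coe_mk, ContinuousMap.coe_mk]
      have h := intervalIntegral.norm_integral_le_of_norm_le_const (a := (0 : ℝ)) (b := t)
        (f := fun s => ψ (projIcc 0 1 zero_le_one s)) (C := ‖ψ‖)
        (fun s _ => ψ.norm_coe_le_norm _)
      refine h.trans ?_
      rw [sub_zero, abs_of_nonneg t.2.1]
      exact mul_le_of_le_one_right (norm_nonneg _) t.2.2)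

theorem prim_apply (ψ : C(I, ℝ)) (t : I) :
    prim ψ t = ∫ s in (0 : ℝ)..t, ψ (projIcc 0 1 zero_le_one s) := rfl

section

variable {V : Type*} [NormedAddCommGroup V] [NormedSpace ℝ V]

/-- the ray -/
noncomputable def rayL : V × C(I, ℝ) →L[ℝ] C(I, V × ℝ) :=
  LinearMap.mkContinuous
    { toFun := fun p => ⟨fun t => ((t : ℝ) • p.1, p.2 t), by fun_prop⟩
      map_add' := by intro x y; ext t <;> simp
      map_smul' := by
        intro c x
        ext t
        · simp only [ContinuousMap.coe_mk, Prod.smul_fst, Prod.smul_snd, RingHom.id_apply,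
            ContinuousMap.smul_apply]
          rw [smul_comm]
        · simp }
    1 (by
      intro p
      rw [one_mul, ContinuousMap.norm_le _ (norm_nonneg _)]
      intro t
      simp only [LinearMap.coe_mk, AddHom.coe_mk, ContinuousMap.coe_mk]
      rw [Prod.norm_def, Prod.norm_def]
      apply max_le_max
      · rw [norm_smul, Real.norm_of_nonneg t.2.1]
        exact mul_le_of_le_one_left (norm_nonneg _) t.2.2
      · exact p.2.norm_coe_le_norm t)

theorem rayL_apply (p : V × C(I, ℝ)) (t : I) : rayL p t = ((t : ℝ) • p.1, p.2 t) := rfl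

/-- evaluation of functionals -/
noncomputable def evF (q : C(I, V →L[ℝ] ℝ) × V) : C(I, ℝ) := ⟨fun t => q.1 t q.2, by fun_prop⟩

theorem evF_apply (ψ : C(I, V →L[ℝ] ℝ)) (v : V) (t : I) : evF (ψ, v) t = ψ t v := rfl

theorem evF_zero (ψ : C(I, V →L[ℝ] ℝ)) : evF (ψ, (0 : V)) = 0 := by
  ext t
  simp [evF]

theorem evF_bdd : IsBoundedBilinearMap ℝ (evF : C(I, V →L[ℝ] ℝ) × V → C(I, ℝ)) where
  add_left := by intro a b c; ext t; simp [evF]
  smul_left := by intro a b c; ext t; simp [evF]
  add_right := by intro a b c; ext t; simp [evF]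
  smul_right := by intro a b c; ext t; simp [evF]
  bound := by
    refine ⟨1, one_pos, ?_⟩
    intro ψ v
    rw [one_mul, ContinuousMap.norm_le _ (by positivity)]
    intro t
    exact ((ψ t).le_opNorm v).trans
      (mul_le_mul_of_nonneg_right (ψ.norm_coe_le_norm t) (norm_nonneg _))

end

/-- **ODE** -/
theorem ode : ODE_stm := by
  intro V _ _ _ F f x₀ hF hf
  have : CompleteSpace V := FiniteDimensional.complete ℝ V
  obtain ⟨r, P, hr, hP1, hP2⟩ := nem_const (X := I) F (x₀, f x₀) hF
  set Z := C(I, ℝ)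
  set H : V × Z → V × Z := fun p => (p.1, p.2 - prim (evF (P (rayL p), p.1))) with hH
  have hH0 : H 0 = 0 := by
    simp only [hH, Prod.fst_zero, Prod.snd_zero, evF_zero, map_zero, sub_zero]
    rfl
  have hPan : AnalyticAt ℝ (fun p : V × Z => P (rayL p)) 0 := by
    have h1 : AnalyticAt ℝ P (rayL (0 : V × Z)) := hP1 _ (by rw [map_zero, norm_zero]; exact hr)
    exact h1.comp ((rayL : V × Z →L[ℝ] _).analyticAt 0)
  have hHan : AnalyticAt ℝ H 0 := by
    apply AnalyticAt.prod
    · exact analyticAt_fst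
    · apply AnalyticAt.sub
      · exact analyticAt_snd
      · have h3 : AnalyticAt ℝ (fun p : V × Z => evF (P (rayL p), p.1)) 0 := by
          have h4 : AnalyticAt ℝ (evF : C(I, V →L[ℝ] ℝ) × V → C(I, ℝ)) (P (rayL 0), (0 : V)) :=
            (evF_bdd.contDiff (n := ω)).contDiffAt.analyticAt
          have h5 : AnalyticAt ℝ (fun p : V × Z => (P (rayL p), p.1)) 0 := hPan.prod analyticAt_fst
          exact AnalyticAt.comp (f := fun p : V × Z => (P (rayL p), p.1)) h4 h5
        exact (prim.analyticAt _).comp h3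
  set T : V →L[ℝ] Z := prim.comp (evF_bdd.isBoundedLinearMap_right (P 0)).toContinuousLinearMap
    with hT
  set e : (V × Z) ≃L[ℝ] (V × Z) := ContinuousLinearEquiv.equivOfInverse
    ((ContinuousLinearMap.fst ℝ V Z).prod
      (ContinuousLinearMap.snd ℝ V Z - T.comp (ContinuousLinearMap.fst ℝ V Z)))
    ((ContinuousLinearMap.fst ℝ V Z).prod
      (ContinuousLinearMap.snd ℝ V Z + T.comp (ContinuousLinearMap.fst ℝ V Z)))
    (by rintro ⟨y, z⟩; simp) (by rintro ⟨y, z⟩; simp) with he
  have hder : HasFDerivAt H (e : (V × Z) →L[ℝ] (V × Z)) 0 := by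
    have h1 : HasFDerivAt (fun p : V × Z => P (rayL p))
        (fderiv ℝ (fun p : V × Z => P (rayL p)) 0) 0 := hPan.differentiableAt.hasFDerivAt
    have h2 := (evF_bdd.hasFDerivAt (P (rayL (0 : V × Z)), (0 : V))).comp (0 : V × Z)
      (h1.prodMk (hasFDerivAt_fst (𝕜 := ℝ) (p := (0 : V × Z))))
    have h3 := prim.hasFDerivAt.comp (0 : V × Z) h2
    have h4 := (hasFDerivAt_fst (𝕜 := ℝ) (p := (0 : V × Z))).prodMk
      ((hasFDerivAt_snd (𝕜 := ℝ) (p := (0 : V × Z))).sub h3)
    refine h4.congr_fderiv ?_
    have hz : (0 : V × Z).1 = 0 := rfl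
    ext p
    · simp [he]
    · have h5 : T p = prim (evF (P 0, p)) := rfl
      simp [he, evF_zero, h5]
    · simp [he]
    · have h5 : T 0 = prim (evF (P 0, 0)) := rfl
      simp [he, evF_zero]
  have hinv := (hHan.contDiffAt (n := ω)).to_localInverse hder (by simp)
  have hleft : ∀ᶠ p in 𝓝 (0 : V × Z),
      (hHan.contDiffAt (n := ω)).localInverse hder (by simp) (H p) = p :=
    HasStrictFDerivAt.eventually_left_inverse _
  rw [hH0] at hinv
  -- the solution
  classical
  set η : V → Z := fun y => if h : Continuous (fun t : I => f (x₀ + (t : ℝ) • y) - f x₀) then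
    ⟨_, h⟩ else 0 with hη
  obtain ⟨δ, hδ, hball⟩ := Metric.eventually_nhds_iff_ball.1 hf
  have hcont : ∀ y, ‖y‖ < δ → Continuous (fun t : I => f (x₀ + (t : ℝ) • y) - f x₀) := by
    intro y hy
    apply Continuous.sub _ continuous_const
    have h1 : ContinuousOn f (ball x₀ δ) := fun x hx =>
      (hball x hx).continuousAt.continuousWithinAt
    apply h1.comp_continuous (by fun_prop)
    intro t
    rw [mem_ball_iff_norm, add_sub_cancel_left, norm_smul, Real.norm_of_nonneg t.2.1]
    exact (mul_le_of_le_one_left (norm_nonneg _) t.2.2).trans_lt hy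
  have hηa : ∀ y, ‖y‖ < δ → ∀ t : I, η y t = f (x₀ + (t : ℝ) • y) - f x₀ := by
    intro y hy t
    simp only [hη]
    rw [dif_pos (hcont y hy)]
    rfl
  have hηt : Tendsto η (𝓝 0) (𝓝 0) := by
    rw [Metric.tendsto_nhds_nhds]
    intro ε hε
    have h1 : ContinuousAt f x₀ := (hball x₀ (mem_ball_self hδ)).continuousAt
    rw [Metric.continuousAt_iff] at h1
    obtain ⟨δ', hδ', h2⟩ := h1 (ε / 2) (by positivity)
    refine ⟨min δ δ', lt_min hδ hδ', ?_⟩
    intro y hy
    rw [dist_zero_right] at hy
    rw [dist_zero_right]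
    refine lt_of_le_of_lt (b := ε / 2) ?_ (by linarith)
    rw [ContinuousMap.norm_le _ (by positivity)]
    intro t
    rw [hηa y (hy.trans_le (min_le_left _ _)), ← dist_eq_norm]
    apply le_of_lt
    apply h2
    rw [dist_eq_norm, add_sub_cancel_left, norm_smul, Real.norm_of_nonneg t.2.1]
    exact (mul_le_of_le_one_left (norm_nonneg _) t.2.2).trans_lt (hy.trans_le (min_le_right _ _))
  have hpair : Tendsto (fun y : V => ((y, η y) : V × Z)) (𝓝 0) (𝓝 0) := by
    have : Tendsto (fun y : V => ((y, η y) : V × Z)) (𝓝 0) (𝓝 ((0 : V), (0 : Z))) :=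
      tendsto_id.prodMk_nhds hηt
    exact this
  have heq : ∀ᶠ y in 𝓝 (0 : V), H (y, η y) = (y, 0) := by
    have hn : ∀ᶠ y in 𝓝 (0 : V), ‖rayL (y, η y)‖ < r := by
      have h1 : Tendsto (fun y : V => ‖(rayL (y, η y) : C(I, V × ℝ))‖) (𝓝 0) (𝓝 0) := by
        have h2 := (((rayL : V × Z →L[ℝ] _).continuous.tendsto 0).comp hpair).norm
        rw [map_zero, norm_zero] at h2
        exact h2
      exact h1.eventually (gt_mem_nhds hr)
    have hy2 : ∀ᶠ y in 𝓝 (0 : V), ‖y‖ < δ := by
      have : ∀ᶠ y in 𝓝 (0 : V), y ∈ ball (0 : V) δ := ball_mem_nhds _ hδ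
      filter_upwards [this] with y hy
      simpa using hy
    filter_upwards [hn, hy2] with y hy1 hy2
    simp only [hH]
    congr 1
    rw [sub_eq_zero]
    ext t
    rw [prim_apply, hηa y hy2]
    have h1 : ∀ s ∈ Icc (0 : ℝ) 1, HasDerivAt (fun s => f (x₀ + s • y))
        (F (x₀ + s • y, f (x₀ + s • y)) y) s := by
      intro s hs
      have h2 : HasDerivAt (fun s : ℝ => x₀ + s • y) y s := by
        simpa using ((hasDerivAt_id s).smul_const y).const_add x₀
      have h3 : x₀ + s • y ∈ ball x₀ δ := by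
        rw [mem_ball_iff_norm, add_sub_cancel_left, norm_smul, Real.norm_of_nonneg hs.1]
        exact (mul_le_of_le_one_left (norm_nonneg _) hs.2).trans_lt hy2
      exact (hball _ h3).comp_hasDerivAt s h2
    have h2 : ∀ s ∈ Icc (0 : ℝ) 1, evF (P (rayL (y, η y)), y) (projIcc 0 1 zero_le_one s)
        = F (x₀ + s • y, f (x₀ + s • y)) y := by
      intro s hs
      rw [evF_apply, hP2 _ hy1, rayL_apply, hηa y hy2, projIcc_of_mem _ hs]
      simp
    have h0t : Icc (0 : ℝ) t ⊆ Icc 0 1 := Icc_subset_Icc_right t.2.2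
    have hsub : uIcc (0 : ℝ) t ⊆ Icc 0 1 := by rw [uIcc_of_le t.2.1]; exact h0t
    rw [intervalIntegral.integral_congr (g := fun s => F (x₀ + s • y, f (x₀ + s • y)) y)
      (fun s hs => h2 s (hsub hs))]
    rw [intervalIntegral.integral_eq_sub_of_hasDerivAt (fun s hs => h1 s (hsub hs))]
    · simp
    · apply ContinuousOn.intervalIntegrable
      have h3 : Continuous (fun s : ℝ => evF (P (rayL (y, η y)), y) (projIcc 0 1 zero_le_one s)) :=
        (ContinuousMap.continuous _).comp continuous_projIcc
      exact h3.continuousOn.congr (fun s hs => (h2 s (hsub hs)).symm)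
  have hfin : ∀ᶠ y in 𝓝 (0 : V),
      (hHan.contDiffAt (n := ω)).localInverse hder (by simp) (y, 0) = (y, η y) := by
    filter_upwards [heq, hpair.eventually hleft] with y h1 h2
    rw [← h1]
    exact h2
  have hηan : AnalyticAt ℝ η 0 := by
    have h1 : AnalyticAt ℝ (fun y : V => ((hHan.contDiffAt (n := ω)).localInverse hder (by simp)
        (y, 0)).2) 0 := by
      have h2 := hinv.analyticAt
      have h3 : AnalyticAt ℝ (fun y : V => ((y, 0) : V × Z)) 0 :=
        AnalyticAt.prod analyticAt_id analyticAt_const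
      have h4 := AnalyticAt.comp (x := (0 : V)) (f := fun y : V => ((y, 0) : V × Z)) h2 h3
      exact analyticAt_snd.comp h4
    apply h1.congr
    filter_upwards [hfin] with y hy
    rw [hy]
  have hlast : AnalyticAt ℝ (fun x : V => f x₀ + η (x - x₀) 1) x₀ := by
    apply AnalyticAt.add analyticAt_const
    have h1 : AnalyticAt ℝ (fun x : V => x - x₀) x₀ := analyticAt_id.sub analyticAt_const
    have h2 : AnalyticAt ℝ η (x₀ - x₀) := by rw [sub_self]; exact hηan
    have h3 := AnalyticAt.comp (f := fun x : V => x - x₀) h2 h1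
    exact ((ContinuousMap.evalCLM ℝ (1 : I)).analyticAt _).comp h3
  apply hlast.congr
  have : ∀ᶠ x in 𝓝 x₀, x ∈ ball x₀ δ := ball_mem_nhds _ hδ
  filter_upwards [this] with x hx
  rw [hηa (x - x₀) (by rwa [← mem_ball_iff_norm])]
  simp

end Pool.Agent.Run7.h982
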