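import Pool.Agent.Run7.h982.Basic
import Pool.Agent.Run7.h982.L2
import Pool.Agent.Helper486.TP.NewtonLap

/-!
# Insulating cracks: the representation formula for weakly harmonic functions
-/

set_option autoImplicit false

open MeasureTheory Set Filter Topology Metric
open scoped ContDiff ENNReal NNReal InnerProductSpace

namespace Pool.Agent.Run7.h982

open Pool.Agent.Helper486.TP (fe fe_contDiff fe_D fe_lap subst_eq kint)

theorem basis_bv (i : Fin 3) : EuclideanSpace.basisFun (Fin 3) ℝ i = bv i := by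
  simp

theorem cd_fderiv {φ : E → ℝ} (h : ContDiff ℝ ∞ φ) (e : E) :
    ContDiff ℝ ∞ (fun y => fderiv ℝ φ y e) :=
  (h.fderiv_right (m := ∞) (by simp)).clm_apply contDiff_const

theorem lap_cont' {φ : E → ℝ} (h : ContDiff ℝ ∞ φ) : Continuous (lap φ) := by
  unfold lap
  exact continuous_finsetSum _ (fun i _ => (cd_fderiv (cd_fderiv h _) _).continuous)

theorem lap_zero_of {φ : E → ℝ} {x : E} {U : Set E} (hU : IsOpen U) (hx : x ∈ U) {c : ℝ}
    (h : ∀ y ∈ U, φ y = c) : fderiv ℝ φ x = 0 ∧ lap φ x = 0 := by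
  have h1 : ∀ y ∈ U, fderiv ℝ φ y = 0 := by
    intro y hy
    have : φ =ᶠ[𝓝 y] fun _ => c := by
      filter_upwards [hU.mem_nhds hy] with z hz
      exact h z hz
    rw [this.fderiv_eq]
    simp
  refine ⟨h1 x hx, ?_⟩
  unfold lap
  apply Finset.sum_eq_zero
  intro i _
  have : (fun y => fderiv ℝ φ y (bv i)) =ᶠ[𝓝 x] fun _ => 0 := by
    filter_upwards [hU.mem_nhds hx] with z hz
    rw [h1 z hz]
    rfl
  rw [this.fderiv_eq]
  simp

theorem lap_mul {f g : E → ℝ} (hf : ContDiff ℝ ∞ f) (hg : ContDiff ℝ ∞ g) (x : E) :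
    lap (fun y => f y * g y) x = f x * lap g x
      + 2 * ∑ i, fderiv ℝ f x (bv i) * fderiv ℝ g x (bv i) + g x * lap f x := by
  have hfd : Differentiable ℝ f := hf.differentiable (by simp)
  have hgd : Differentiable ℝ g := hg.differentiable (by simp)
  have h1 : ∀ i, (fun y => fderiv ℝ (fun y => f y * g y) y (bv i))
      = fun y => f y * fderiv ℝ g y (bv i) + g y * fderiv ℝ f y (bv i) := by
    intro i
    funext y
    have := ((hfd y).hasFDerivAt.mul (hgd y).hasFDerivAt).fderiv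
    have h2 : fderiv ℝ (fun y => f y * g y) y = _ := this
    rw [h2]
    simp
  unfold lap
  rw [Finset.mul_sum, Finset.mul_sum, Finset.mul_sum, ← Finset.sum_add_distrib,
    ← Finset.sum_add_distrib]
  apply Finset.sum_congr rfl
  intro i _
  rw [h1 i]
  have a1 : DifferentiableAt ℝ (fun y => fderiv ℝ g y (bv i)) x :=
    ((cd_fderiv hg (bv i)).differentiable (by simp)) x
  have a2 : DifferentiableAt ℝ (fun y => fderiv ℝ f y (bv i)) x :=
    ((cd_fderiv hf (bv i)).differentiable (by simp)) x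
  have h3 := (((hfd x).hasFDerivAt.mul a1.hasFDerivAt).add
    ((hgd x).hasFDerivAt.mul a2.hasFDerivAt)).fderiv
  have h4 : fderiv ℝ (fun y => f y * fderiv ℝ g y (bv i) + g y * fderiv ℝ f y (bv i)) x = _ := h3
  rw [h4]
  simp only [add_apply, smul_apply, smul_eq_mul]
  ring

theorem weak_lap {O : Set E} {u : E → ℝ} {G : E → E} (h : IsH1 O u G)
    (hw : ∀ φ, IsTest O φ → ∫ x in O, ⟪G x, gradient φ x⟫_ℝ = 0) {φ : E → ℝ}
    (hφ : IsTest O φ) : ∫ x in O, u x * lap φ x = 0 := by
  have hm : ∀ ψ : E → ℝ, IsTest O ψ → MemLp ψ 2 (volume.restrict O) := fun ψ hψ =>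
    (hψ.1.continuous.memLp_of_hasCompactSupport hψ.2.1).restrict O
  have hG : ∀ e : E, MemLp (fun x => ⟪G x, e⟫_ℝ) 2 (volume.restrict O) := by
    intro e
    exact h.memG.inner_const e
  unfold lap
  simp_rw [Finset.mul_sum]
  rw [integral_finsetSum _ (fun i _ => int_mul h.mem (hm _ ((hφ.fderiv_apply _).fderiv_apply _)))]
  have h1 : ∀ i : Fin 3, ∫ x in O, u x * fderiv ℝ (fun y => fderiv ℝ φ y (bv i)) x (bv i)
      = - ∫ x in O, ⟪G x, bv i⟫_ℝ * fderiv ℝ φ x (bv i) := fun i =>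
    h.weak _ (hφ.fderiv_apply _) (bv i)
  rw [Finset.sum_congr rfl (fun i _ => h1 i), Finset.sum_neg_distrib,
    ← integral_finsetSum _ (fun i _ => int_mul (hG _) (hm _ (hφ.fderiv_apply _)))]
  rw [neg_eq_zero, ← hw φ hφ]
  apply integral_congr_ae
  filter_upwards with x
  simp_rw [← inner_grad φ x]
  have h2 := (EuclideanSpace.basisFun (Fin 3) ℝ).sum_inner_mul_inner (G x) (gradient φ x)
  rw [← h2]
  apply Finset.sum_congr rfl
  intro i _
  rw [basis_bv, real_inner_comm (gradient φ x)]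

/-- the kernel -/
noncomputable def ker (χ : E → ℝ) (ε : ℝ) (x y : E) : ℝ :=
  -2 * ((‖y - x‖ ^ 2 + ε ^ 2) ^ (-(3 : ℝ) / 2) * ⟪gradient χ y, y - x⟫_ℝ)
    + (‖y - x‖ ^ 2 + ε ^ 2) ^ (-(1 : ℝ) / 2) * lap χ y

/-- the approximate identity -/
noncomputable def aid (ε : ℝ) (x y : E) : ℝ :=
  3 * (ε ^ 2 * (‖y - x‖ ^ 2 + ε ^ 2) ^ (-(5 : ℝ) / 2))

theorem lap_cut {χ : E → ℝ} (hχ : ContDiff ℝ ∞ χ) {ε : ℝ} (hε : 0 < ε) (x y : E) :
    lap (fun y => χ y * fe ε x y) y = - (χ y * aid ε x y) + ker χ ε x y := by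
  rw [lap_mul hχ (fe_contDiff hε x)]
  have h1 := fe_lap hε x y (n := 3)
  have h2 : lap (fe ε x) y = - aid ε x y := by
    unfold lap aid
    simp_rw [basis_bv] at h1
    rw [h1]
    norm_num
  have h3 : ∑ i, fderiv ℝ χ y (bv i) * fderiv ℝ (fe ε x) y (bv i)
      = - ((‖y - x‖ ^ 2 + ε ^ 2) ^ (-(3 : ℝ) / 2) * ⟪gradient χ y, y - x⟫_ℝ) := by
    have h4 : ∀ i, fderiv ℝ (fe ε x) y (bv i)
        = - ((y i - x i) * (‖y - x‖ ^ 2 + ε ^ 2) ^ (-(3 : ℝ) / 2)) := by
      intro i
      have := fe_D hε x y i (n := 3)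
      rw [basis_bv] at this
      rw [this]
      norm_num
    have h5 := (EuclideanSpace.basisFun (Fin 3) ℝ).sum_inner_mul_inner (gradient χ y) (y - x)
    rw [← h5, Finset.mul_sum, ← Finset.sum_neg_distrib]
    apply Finset.sum_congr rfl
    intro i _
    rw [h4 i, basis_bv, inner_grad, EuclideanSpace.inner_single_left]
    simp only [conj_trivial, one_mul, PiLp.sub_apply]
    ring
  have h6 : fe ε x y = (‖y - x‖ ^ 2 + ε ^ 2) ^ (-(1 : ℝ) / 2) := by
    unfold fe
    norm_num
  rw [h2, h3, h6]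
  unfold ker
  ring

theorem aid_cont {ε : ℝ} (hε : 0 < ε) : Continuous (fun q : E × E => aid ε q.1 q.2) := by
  unfold aid
  apply Continuous.mul continuous_const
  apply Continuous.mul continuous_const
  apply Continuous.rpow_const (by fun_prop)
  intro q
  left
  positivity

theorem aid_cont' {ε : ℝ} (hε : 0 < ε) (x : E) : Continuous (fun y : E => aid ε x y) := by
  unfold aid
  apply Continuous.mul continuous_const
  apply Continuous.mul continuous_const
  apply Continuous.rpow_const (by fun_prop)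
  intro q
  left
  positivity

theorem ker_cont {χ : E → ℝ} (hχ : ContDiff ℝ ∞ χ) {ε : ℝ} (hε : 0 < ε) (x : E) :
    Continuous (ker χ ε x) := by
  have h1 : Continuous (gradient χ) := grad_cont (hχ.of_le (by simp))
  have h2 := lap_cont' hχ
  unfold ker
  have h3 : ∀ s : ℝ, Continuous (fun y : E => (‖y - x‖ ^ 2 + ε ^ 2) ^ s) := by
    intro s
    apply Continuous.rpow_const (by fun_prop)
    intro q
    left
    positivity
  exact (continuous_const.mul ((h3 _).mul (h1.inner (by fun_prop)))).add ((h3 _).mul h2)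

theorem ker_meas {χ : E → ℝ} (hχ : ContDiff ℝ ∞ χ) (ε : ℝ) :
    Measurable (fun q : E × E => ker χ ε q.1 q.2) := by
  have h1 : Measurable (gradient χ) := (grad_cont (hχ.of_le (by simp))).measurable
  have h2 := (lap_cont' hχ).measurable
  unfold ker
  have h3 : ∀ s : ℝ, Measurable (fun q : E × E => (‖q.2 - q.1‖ ^ 2 + ε ^ 2) ^ s) := by
    intro s
    apply Measurable.pow_const
    fun_prop
  have h4 : Measurable (fun q : E × E => ⟪gradient χ q.2, q.2 - q.1⟫_ℝ) :=
    (h1.comp measurable_snd).inner (by fun_prop)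
  exact (measurable_const.mul ((h3 _).mul h4)).add ((h3 _).mul (h2.comp measurable_snd))

theorem ker_zero {χ : E → ℝ} {ε : ℝ} {x y : E} (hy : y ∉ tsupport χ) : ker χ ε x y = 0 := by
  have h1 := lap_zero_of (isClosed_tsupport χ).isOpen_compl (mem_compl hy) (c := 0)
    (fun z hz => image_eq_zero_of_notMem_tsupport hz)
  unfold ker
  rw [h1.2, grad_of_fderiv_zero h1.1]
  simp

/-- the identity for fixed `ε` -/
theorem rep_eps {O : Set E} {u : E → ℝ} {G : E → E} (h : IsH1 O u G)
    (hw : ∀ φ, IsTest O φ → ∫ x in O, ⟪G x, gradient φ x⟫_ℝ = 0) {χ : E → ℝ}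
    (hχ : IsTest O χ) {ε : ℝ} (hε : 0 < ε) (x : E) :
    ∫ y in O, u y * (χ y * aid ε x y) = ∫ y in O, u y * ker χ ε x y := by
  have h1 := weak_lap h hw (φ := fun y => χ y * fe ε x y) (by
    refine ⟨hχ.1.mul (fe_contDiff hε x), hχ.2.1.mul_right, ?_⟩
    exact (tsupport_mul_subset_left).trans hχ.2.2)
  simp_rw [lap_cut hχ.1 hε] at h1
  have h2 : Integrable (fun y => u y * (χ y * aid ε x y)) (volume.restrict O) := by
    apply int_mul h.mem
    apply MemLp.restrict
    apply Continuous.memLp_of_hasCompactSupport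
    · exact hχ.1.continuous.mul (aid_cont' hε x)
    · exact hχ.2.1.mul_right
  have h5 : HasCompactSupport (ker χ ε x) := by
    apply HasCompactSupport.intro hχ.2.1
    intro y hy
    exact ker_zero hy
  have h3 : Integrable (fun y => u y * ker χ ε x y) (volume.restrict O) := by
    apply int_mul h.mem
    apply MemLp.restrict
    exact (ker_cont hχ.1 hε x).memLp_of_hasCompactSupport h5
  have h4 : (fun y => u y * (-(χ y * aid ε x y) + ker χ ε x y))
      = fun y => u y * ker χ ε x y - u y * (χ y * aid ε x y) := by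
    funext y; ring
  rw [h4, integral_sub h3 h2] at h1
  linarith

end Pool.Agent.Run7.h982
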