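import Pool.Agent.Run7.h982.W1

/-!
# Insulating cracks: the limit of the representation formula
-/

set_option autoImplicit false

open MeasureTheory Set Filter Topology Metric
open scoped ContDiff ENNReal NNReal InnerProductSpace

namespace Pool.Agent.Run7.h982

open Pool.Agent.Helper486.TP (subst_eq kint)

theorem rpow_anti {a b s : ℝ} (ha : 0 < a) (h : a ≤ b) (hs : s ≤ 0) : b ^ s ≤ a ^ s :=
  Real.rpow_le_rpow_of_nonpos ha h hs

theorem ker_inner {χ : E → ℝ} {p : E} {R : ℝ} (h1 : ∀ y ∈ ball p (R / 2), χ y = 1) (ε : ℝ)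
    (x : E) {y : E} (hy : y ∈ ball p (R / 2)) : ker χ ε x y = 0 := by
  have h2 := lap_zero_of isOpen_ball hy (c := 1) h1
  unfold ker
  rw [h2.2, grad_of_fderiv_zero h2.1]
  simp

theorem far {p x y : E} {R : ℝ} (hx : x ∈ ball p (R / 4)) (hy : y ∉ ball p (R / 2)) :
    R / 4 ≤ ‖y - x‖ := by
  rw [mem_ball, not_lt] at hy
  rw [mem_ball] at hx
  have h1 := dist_triangle y x p
  rw [dist_eq_norm y x] at h1
  linarith

theorem ker_bound {χ : E → ℝ} (hχ : ContDiff ℝ ∞ χ) (hc : HasCompactSupport χ) {p : E} {R : ℝ}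
    (hR : 0 < R) (h1 : ∀ y ∈ ball p (R / 2), χ y = 1) :
    ∃ M, 0 ≤ M ∧ ∀ ε, ∀ x ∈ ball p (R / 4), ∀ y ∈ closedBall p R, |ker χ ε x y| ≤ M := by
  have hg : Continuous (gradient χ) := grad_cont (hχ.of_le (by simp))
  have hl := lap_cont' hχ
  obtain ⟨C1, hC1⟩ := (grad_compact hc).exists_bound_of_continuous hg
  have hlc : HasCompactSupport (lap χ) := by
    apply HasCompactSupport.intro hc
    intro y hy
    exact (lap_zero_of (isClosed_tsupport χ).isOpen_compl (mem_compl hy) (c := 0)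
      (fun z hz => image_eq_zero_of_notMem_tsupport hz)).2
  obtain ⟨C2, hC2⟩ := hlc.exists_bound_of_continuous hl
  have hC1' : 0 ≤ C1 := (norm_nonneg _).trans (hC1 0)
  have hC2' : 0 ≤ C2 := (norm_nonneg _).trans (hC2 0)
  set A : ℝ := ((R / 4) ^ 2) ^ (-(3 : ℝ) / 2) with hA
  set B : ℝ := ((R / 4) ^ 2) ^ (-(1 : ℝ) / 2) with hB
  have hA0 : 0 ≤ A := by positivity
  have hB0 : 0 ≤ B := by positivity
  refine ⟨2 * (A * (C1 * (2 * R))) + B * C2, by positivity, ?_⟩
  intro ε x hx y hy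
  by_cases hy2 : y ∈ ball p (R / 2)
  · rw [ker_inner h1 ε x hy2, abs_zero]
    positivity
  have h3 := far hx hy2
  have h4 : (R / 4) ^ 2 ≤ ‖y - x‖ ^ 2 + ε ^ 2 := by
    have : (R / 4) ^ 2 ≤ ‖y - x‖ ^ 2 := by gcongr
    nlinarith [sq_nonneg ε]
  have h5 : (‖y - x‖ ^ 2 + ε ^ 2) ^ (-(3 : ℝ) / 2) ≤ A :=
    rpow_anti (by positivity) h4 (by norm_num)
  have h6 : (‖y - x‖ ^ 2 + ε ^ 2) ^ (-(1 : ℝ) / 2) ≤ B :=
    rpow_anti (by positivity) h4 (by norm_num)
  have h7 : ‖y - x‖ ≤ 2 * R := by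
    rw [mem_closedBall] at hy
    rw [mem_ball'] at hx
    have h8 := dist_triangle y p x
    rw [dist_eq_norm y x] at h8
    linarith
  have h8 : |⟪gradient χ y, y - x⟫_ℝ| ≤ C1 * (2 * R) :=
    (abs_real_inner_le_norm _ _).trans (mul_le_mul (hC1 y) h7 (norm_nonneg _) hC1')
  have h9 : |lap χ y| ≤ C2 := hC2 y
  unfold ker
  refine (abs_add_le _ _).trans (add_le_add ?_ ?_)
  · rw [abs_mul, abs_mul, abs_of_nonneg (Real.rpow_nonneg (by positivity) _)]
    have : |(-2 : ℝ)| = 2 := by norm_num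
    rw [this]
    apply mul_le_mul_of_nonneg_left _ (by norm_num)
    exact mul_le_mul h5 h8 (abs_nonneg _) hA0
  · rw [abs_mul, abs_of_nonneg (Real.rpow_nonneg (by positivity) _)]
    exact mul_le_mul h6 h9 (abs_nonneg _) hB0

theorem ker_tendsto {χ : E → ℝ} {p : E} {R : ℝ} (hR : 0 < R)
    (h1 : ∀ y ∈ ball p (R / 2), χ y = 1) {x : E} (hx : x ∈ ball p (R / 4)) (y : E)
    {e : ℕ → ℝ} (he : Tendsto e atTop (𝓝 0)) :
    Tendsto (fun m => ker χ (e m) x y) atTop (𝓝 (ker χ 0 x y)) := by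
  by_cases hy2 : y ∈ ball p (R / 2)
  · simp only [ker_inner h1 _ x hy2]
    exact tendsto_const_nhds
  have h3 := far hx hy2
  have h4 : ‖y - x‖ ^ 2 + (0 : ℝ) ^ 2 ≠ 0 := by
    have : 0 < ‖y - x‖ := by linarith
    positivity
  have h5 : ∀ s : ℝ, Tendsto (fun m => (‖y - x‖ ^ 2 + (e m) ^ 2) ^ s) atTop
      (𝓝 ((‖y - x‖ ^ 2 + (0 : ℝ) ^ 2) ^ s)) := by
    intro s
    apply Tendsto.rpow_const
    · exact tendsto_const_nhds.add (he.pow 2)
    · exact Or.inl h4
  unfold ker
  exact (tendsto_const_nhds.mul ((h5 _).mul tendsto_const_nhds)).add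
    ((h5 _).mul tendsto_const_nhds)

theorem aid_symm (ε : ℝ) (x y : E) : aid ε x y = aid ε y x := by
  unfold aid
  rw [norm_sub_rev]

/-- the bump profile -/
noncomputable def kk (w : E) : ℝ := 3 * ((1 : ℝ) + ‖w‖ ^ 2) ^ (-(5 : ℝ) / 2)

theorem kk_pos (w : E) : 0 < kk w := by unfold kk; positivity

theorem kk_int : Integrable kk := by
  have h := (kint (n := 3)).const_mul 3
  unfold kk
  convert! h using 4
  norm_num

theorem kk_pos_int : 0 < ∫ w, kk w := by
  rw [integral_pos_iff_support_of_nonneg (fun w => (kk_pos w).le) kk_int]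
  have : Function.support kk = univ := by
    ext w; simp [(kk_pos w).ne']
  rw [this]
  simp

theorem aid_subst {ε : ℝ} (hε : 0 < ε) (ψ : E → ℝ) (y : E) :
    ∫ x, aid ε x y * ψ x = ∫ w, kk w * ψ (y + ε • w) := by
  have h := subst_eq (n := 3) hε ψ y
  have h1 : ∀ x : E, -(((3 : ℕ) : ℝ) * (((3 : ℕ) : ℝ) - 2)) *
      (ε ^ 2 * (‖x - y‖ ^ 2 + ε ^ 2) ^ (-(((3 : ℕ) : ℝ) + 2) / 2)) * ψ x
      = - (aid ε x y * ψ x) := by
    intro x
    rw [aid_symm]
    unfold aid
    norm_num
  have h2 : ∀ w : E, (((3 : ℕ) : ℝ) * (((3 : ℕ) : ℝ) - 2)) *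
      ((1 : ℝ) + ‖w‖ ^ 2) ^ (-(((3 : ℕ) : ℝ) + 2) / 2) * ψ (y + ε • w)
      = kk w * ψ (y + ε • w) := by
    intro w
    unfold kk
    norm_num
  simp_rw [h1, h2] at h
  rw [integral_neg] at h
  linarith

theorem aid_bound {ε : ℝ} (hε : 0 < ε) (x y : E) :
    ‖aid ε x y‖ ≤ 3 * (ε ^ 2 * (ε ^ 2) ^ (-(5 : ℝ) / 2)) := by
  unfold aid
  rw [Real.norm_of_nonneg (by positivity)]
  have : (‖y - x‖ ^ 2 + ε ^ 2) ^ (-(5 : ℝ) / 2) ≤ (ε ^ 2) ^ (-(5 : ℝ) / 2) :=
    rpow_anti (by positivity) (by nlinarith [sq_nonneg ‖y - x‖]) (by norm_num)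
  gcongr

/-- the limit formula -/
theorem rep_lim {O : Set E} (hO : IsOpen O) {u : E → ℝ} {G : E → E} (h : IsH1 O u G)
    (hw : ∀ φ, IsTest O φ → ∫ x in O, ⟪G x, gradient φ x⟫_ℝ = 0) (p : E) {R : ℝ} (hR : 0 < R)
    (hB : closedBall p R ⊆ O) :
    ∃ (χ : E → ℝ) (c : ℝ), 0 < c ∧ IntegrableOn u (closedBall p R) ∧ ContDiff ℝ ∞ χ ∧
      HasCompactSupport χ ∧ (∀ y ∈ ball p (R / 2), χ y = 1) ∧
      ∀ ψ, IsTest (ball p (R / 4)) ψ →
        ∫ x, ψ x * (∫ y in closedBall p R, u y * ker χ 0 x y)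
          = c * ∫ y in closedBall p R, u y * ψ y := by
  set b : ContDiffBump p := ⟨R / 2, R, by positivity, by linarith⟩ with hb
  set χ : E → ℝ := fun x => b x with hχ
  have hχs : ContDiff ℝ ∞ χ := b.contDiff
  have hχc : HasCompactSupport χ := b.hasCompactSupport
  have hχt : tsupport χ = closedBall p R := b.tsupport_eq
  have hχ1 : ∀ y ∈ ball p (R / 2), χ y = 1 := fun y hy =>
    b.one_of_mem_closedBall (ball_subset_closedBall hy)
  have hχT : IsTest O χ := ⟨hχs, hχc, by rw [hχt]; exact hB⟩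
  set B := closedBall p R with hBdef
  have hBm : MeasurableSet B := isClosed_closedBall.measurableSet
  have hfinB : volume B < ⊤ := measure_closedBall_lt_top
  have : IsFiniteMeasure (volume.restrict B) := ⟨by simpa using hfinB⟩
  have hu : IntegrableOn u B := by
    have h1 : MemLp u 2 (volume.restrict B) := h.mem.mono_measure (Measure.restrict_mono hB le_rfl)
    exact h1.integrable (by norm_num)
  refine ⟨χ, ∫ w, kk w, kk_pos_int, hu, hχs, hχc, hχ1, ?_⟩
  intro ψ hψ
  obtain ⟨Cψ, hCψ⟩ := hψ.2.1.exists_bound_of_continuous hψ.1.continuous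
  have hψi : Integrable ψ := hψ.1.continuous.integrable_of_hasCompactSupport hψ.2.1
  obtain ⟨M, hM0, hM⟩ := ker_bound hχs hχc hR hχ1
  have hψ0 : ∀ x ∉ ball p (R / 4), ψ x = 0 := fun x hx =>
    image_eq_zero_of_notMem_tsupport (fun h2 => hx (hψ.2.2 h2))
  -- the identity on the ball
  have hid : ∀ ε, 0 < ε → ∀ x, ∫ y in B, u y * ker χ ε x y
      = ∫ y in B, u y * (χ y * aid ε x y) := by
    intro ε hε x
    have h1 := rep_eps h hw hχT hε x
    rw [setIntegral_eq_of_subset_of_forall_sdiff_eq_zero hO.measurableSet hB,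
      setIntegral_eq_of_subset_of_forall_sdiff_eq_zero hO.measurableSet hB] at h1
    · exact h1.symm
    · intro y hy
      have : y ∉ tsupport χ := by rw [hχt]; exact hy.2
      rw [ker_zero this, mul_zero]
    · intro y hy
      have : y ∉ tsupport χ := by rw [hχt]; exact hy.2
      rw [image_eq_zero_of_notMem_tsupport this, zero_mul, mul_zero]
  set e : ℕ → ℝ := fun m => 1 / ((m : ℝ) + 1) with he
  have hepos : ∀ m, 0 < e m := fun m => by positivity
  have helim : Tendsto e atTop (𝓝 0) := tendsto_one_div_add_atTop_nhds_zero_nat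
  -- the product integrals
  have hmeas : ∀ ε, AEStronglyMeasurable (fun q : E × E => ψ q.1 * (u q.2 * ker χ ε q.1 q.2))
      (volume.prod (volume.restrict B)) := by
    intro ε
    exact (hψ.1.continuous.comp continuous_fst).aestronglyMeasurable.mul
      (hu.1.comp_snd.mul (ker_meas hχs ε).aestronglyMeasurable)
  have hae : ∀ᵐ q : E × E ∂(volume.prod (volume.restrict B)), q.2 ∈ B := by
    have h1 : ∀ᵐ y ∂(volume.restrict B), y ∈ B := ae_restrict_mem hBm
    exact Measure.quasiMeasurePreserving_snd.ae h1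
  have hbd : ∀ ε, ∀ᵐ q : E × E ∂(volume.prod (volume.restrict B)),
      ‖ψ q.1 * (u q.2 * ker χ ε q.1 q.2)‖ ≤ M * (‖ψ q.1‖ * ‖u q.2‖) := by
    intro ε
    filter_upwards [hae] with q hq
    by_cases hq1 : q.1 ∈ ball p (R / 4)
    · have h1 := hM ε q.1 hq1 q.2 hq
      rw [norm_mul, norm_mul]
      calc ‖ψ q.1‖ * (‖u q.2‖ * ‖ker χ ε q.1 q.2‖) ≤ ‖ψ q.1‖ * (‖u q.2‖ * M) := by
            gcongr
            exact h1
        _ = _ := by ring
    · rw [hψ0 _ hq1]
      simp
  have hdom : Integrable (fun q : E × E => M * (‖ψ q.1‖ * ‖u q.2‖))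
      (volume.prod (volume.restrict B)) := (hψi.norm.mul_prod hu.norm).const_mul M
  have hprod : ∀ ε, Integrable (fun q : E × E => ψ q.1 * (u q.2 * ker χ ε q.1 q.2))
      (volume.prod (volume.restrict B)) := fun ε => hdom.mono' (hmeas ε) (hbd ε)
  have hT : ∀ ε, ∫ x, ψ x * (∫ y in B, u y * ker χ ε x y)
      = ∫ q : E × E, ψ q.1 * (u q.2 * ker χ ε q.1 q.2) ∂(volume.prod (volume.restrict B)) := by
    intro ε
    rw [integral_prod _ (hprod ε)]
    simp_rw [integral_const_mul]
  have hC : Tendsto (fun m => ∫ x, ψ x * (∫ y in B, u y * ker χ (e m) x y)) atTop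
      (𝓝 (∫ x, ψ x * (∫ y in B, u y * ker χ 0 x y))) := by
    simp_rw [hT]
    apply tendsto_integral_of_dominated_convergence _ (fun m => hmeas (e m)) hdom
      (fun m => hbd (e m))
    filter_upwards with q
    by_cases hq1 : q.1 ∈ ball p (R / 4)
    · exact tendsto_const_nhds.mul (tendsto_const_nhds.mul (ker_tendsto hR hχ1 hq1 q.2 helim))
    · simp only [hψ0 _ hq1, zero_mul]
      exact tendsto_const_nhds
  have huχ : Integrable (fun y => u y * χ y) (volume.restrict B) :=
    Integrable.mul_bdd (c := 1) hu hχs.continuous.aestronglyMeasurable (by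
      filter_upwards with y
      change ‖b y‖ ≤ 1
      rw [Real.norm_of_nonneg b.nonneg]
      exact b.le_one)
  have hA : ∀ m, ∫ x, ψ x * (∫ y in B, u y * ker χ (e m) x y)
      = ∫ y in B, (u y * χ y) * (∫ w, kk w * ψ (y + e m • w)) := by
    intro m
    have hx : ∀ x, ψ x * (∫ y in B, u y * ker χ (e m) x y)
        = ∫ y in B, ψ x * (u y * (χ y * aid (e m) x y)) := by
      intro x
      rw [hid (e m) (hepos m), integral_const_mul]
    rw [integral_congr_ae (ae_of_all _ hx), integral_integral_swap]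
    · apply integral_congr_ae
      filter_upwards with y
      rw [← aid_subst (hepos m) ψ y, ← integral_const_mul]
      apply integral_congr_ae
      filter_upwards with x
      rw [aid_symm (e m) x y]
      ring
    · have h1 : Integrable (fun q : E × E => ψ q.1 * (u q.2 * χ q.2))
          (volume.prod (volume.restrict B)) := hψi.mul_prod huχ
      have h2 := h1.bdd_mul (f := fun q : E × E => aid (e m) q.1 q.2)
        (aid_cont (hepos m)).aestronglyMeasurable
        (ae_of_all _ (fun q => aid_bound (hepos m) q.1 q.2))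
      apply h2.congr
      filter_upwards with q
      simp only [Function.uncurry]
      ring
  have hBl : Tendsto (fun m => ∫ y in B, (u y * χ y) * (∫ w, kk w * ψ (y + e m • w))) atTop
      (𝓝 (∫ y in B, (u y * χ y) * (∫ w, kk w * ψ y))) := by
    have hb1 : ∀ z w : E, ‖kk w * ψ z‖ ≤ kk w * Cψ := by
      intro z w
      rw [norm_mul, Real.norm_of_nonneg (kk_pos w).le]
      exact mul_le_mul_of_nonneg_left (hCψ z) (kk_pos w).le
    have hm1 : ∀ (m : ℕ) (y : E), AEStronglyMeasurable (fun w => kk w * ψ (y + e m • w)) volume := by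
      intro m y
      apply kk_int.1.mul
      exact (hψ.1.continuous.comp (by fun_prop)).aestronglyMeasurable
    have hcont : ∀ m, Continuous (fun y => ∫ w, kk w * ψ (y + e m • w)) := by
      intro m
      apply continuous_of_dominated (hm1 m) (fun y => ae_of_all _ (fun w => hb1 _ w))
        (kk_int.mul_const Cψ)
      filter_upwards with w
      exact continuous_const.mul (hψ.1.continuous.comp (by fun_prop))
    apply tendsto_integral_of_dominated_convergence
      (fun y => ‖u y * χ y‖ * (∫ w, kk w * Cψ))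
    · intro m
      exact (hu.1.mul hχs.continuous.aestronglyMeasurable).mul (hcont m).aestronglyMeasurable
    · exact huχ.norm.mul_const _
    · intro m
      filter_upwards with y
      rw [norm_mul]
      apply mul_le_mul_of_nonneg_left _ (norm_nonneg _)
      exact norm_integral_le_of_norm_le (kk_int.mul_const Cψ) (ae_of_all _ (fun w => hb1 _ w))
    · filter_upwards with y
      apply Tendsto.const_mul
      apply tendsto_integral_of_dominated_convergence _ (fun m => hm1 m y)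
        (kk_int.mul_const Cψ) (fun m => ae_of_all _ (fun w => hb1 _ w))
      filter_upwards with w
      apply Tendsto.const_mul
      have h1 : Tendsto (fun m => y + e m • w) atTop (𝓝 (y + (0 : ℝ) • w)) :=
        tendsto_const_nhds.add (helim.smul_const w)
      rw [zero_smul, add_zero] at h1
      exact (hψ.1.continuous.tendsto y).comp h1
  have hfin := tendsto_nhds_unique hC ((tendsto_congr hA).2 hBl)
  rw [hfin]
  simp_rw [integral_mul_const]
  rw [← integral_const_mul]
  apply integral_congr_ae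
  filter_upwards with y
  by_cases hy : y ∈ ball p (R / 4)
  · rw [hχ1 y (ball_subset_ball (by linarith) hy)]
    ring
  · rw [hψ0 y hy]
    ring

end Pool.Agent.Run7.h982
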