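import Pool.Agent.Run7.h982.W2
import Pool.Agent.Run7.h982.Nem

/-!
# Insulating cracks: analyticity of the representation formula
-/

set_option autoImplicit false

open MeasureTheory Set Filter Topology Metric
open scoped ContDiff ENNReal NNReal InnerProductSpace

namespace Pool.Agent.Run7.h982

/-- the singular kernel -/
noncomputable def sk (z : E) : E × ℝ :=
  ((‖z‖ ^ 2 + (0 : ℝ) ^ 2) ^ (-(3 : ℝ) / 2) • z, (‖z‖ ^ 2 + (0 : ℝ) ^ 2) ^ (-(1 : ℝ) / 2))

theorem sk_an {z : E} (hz : z ≠ 0) : AnalyticAt ℝ sk z := by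
  have h1 : ∀ s : ℝ, ContDiffAt ℝ ω (fun z : E => (‖z‖ ^ 2 + (0 : ℝ) ^ 2) ^ s) z := by
    intro s
    have h2 : ContDiffAt ℝ ω (fun z : E => ‖z‖ ^ 2 + (0 : ℝ) ^ 2) z :=
      (contDiff_norm_sq ℝ).contDiffAt.add contDiffAt_const
    apply h2.rpow_const_of_ne
    have : 0 < ‖z‖ := norm_pos_iff.2 hz
    positivity
  have h3 : ContDiffAt ℝ ω sk z := ((h1 _).smul contDiffAt_id).prodMk (h1 _)
  exact h3.analyticAt

theorem ker_sk (χ : E → ℝ) (x y : E) :
    ker χ 0 x y = -2 * ⟪gradient χ y, (sk (y - x)).1⟫_ℝ + (sk (y - x)).2 * lap χ y := by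
  unfold ker sk
  simp only
  rw [inner_smul_right]

theorem fnl_an {A : Set E} [CompactSpace A] (hA : IsCompact A) {u c : E → ℝ} {b : E → E}
    (hb : Continuous b) (hc : Continuous c) (hu : IntegrableOn u A) :
    ∃ M : C(A, E × ℝ) →L[ℝ] ℝ, ∀ h : C(A, E × ℝ),
      M h = ∫ y : A, u y * (-2 * ⟪b y, (h y).1⟫_ℝ + (h y).2 * c y) ∂(Measure.comap Subtype.val volume) := by
  set μ : Measure A := (Measure.comap Subtype.val volume) with hμ
  have hui : Integrable (fun y : A => u y) μ := by
    rw [IntegrableOn, ← map_comap_subtype_coe hA.measurableSet,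
      (MeasurableEmbedding.subtype_coe hA.measurableSet).integrable_map_iff] at hu
    rw [hμ]
    exact hu
  obtain ⟨C1, hC1⟩ := hA.exists_bound_of_continuousOn hb.continuousOn
  obtain ⟨C2, hC2⟩ := hA.exists_bound_of_continuousOn hc.continuousOn
  have hcont : ∀ h : C(A, E × ℝ),
      Continuous (fun y : A => -2 * ⟪b y, (h y).1⟫_ℝ + (h y).2 * c y) := by
    intro h
    have h1 : Continuous (fun y : A => (h y).1) := continuous_fst.comp h.continuous
    have h2 : Continuous (fun y : A => (h y).2) := continuous_snd.comp h.continuous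
    have h3 : Continuous (fun y : A => b y) := hb.comp continuous_subtype_val
    have h4 : Continuous (fun y : A => c y) := hc.comp continuous_subtype_val
    exact (continuous_const.mul (h3.inner h1)).add (h2.mul h4)
  have hbd : ∀ (h : C(A, E × ℝ)) (y : A),
      ‖-2 * ⟪b y, (h y).1⟫_ℝ + (h y).2 * c y‖ ≤ (2 * C1 + C2) * ‖h‖ := by
    intro h y
    have h1 : ‖(h y).1‖ ≤ ‖h‖ := (norm_fst_le _).trans (h.norm_coe_le_norm y)
    have h2 : ‖(h y).2‖ ≤ ‖h‖ := (norm_snd_le _).trans (h.norm_coe_le_norm y)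
    have h3 := hC1 y y.2
    have h4 := hC2 y y.2
    refine (norm_add_le _ _).trans ?_
    rw [norm_mul, norm_mul]
    have h5 : ‖⟪b y, (h y).1⟫_ℝ‖ ≤ C1 * ‖h‖ :=
      (norm_inner_le_norm _ _).trans (mul_le_mul h3 h1 (norm_nonneg _) ((norm_nonneg _).trans h3))
    have h6 : ‖(h y).2‖ * ‖c y‖ ≤ ‖h‖ * C2 := mul_le_mul h2 h4 (norm_nonneg _) (norm_nonneg _)
    have h7 : ‖(-2 : ℝ)‖ = 2 := by norm_num
    rw [h7]
    linarith
  have hint : ∀ h : C(A, E × ℝ),
      Integrable (fun y : A => u y * (-2 * ⟪b y, (h y).1⟫_ℝ + (h y).2 * c y)) μ := by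
    intro h
    exact Integrable.mul_bdd (c := (2 * C1 + C2) * ‖h‖) hui (hcont h).aestronglyMeasurable
      (ae_of_all _ (hbd h))
  refine ⟨LinearMap.mkContinuous
    { toFun := fun h => ∫ y : A, u y * (-2 * ⟪b y, (h y).1⟫_ℝ + (h y).2 * c y) ∂μ
      map_add' := by
        intro h k
        rw [← integral_add (hint h) (hint k)]
        congr 1
        ext y
        simp only [ContinuousMap.add_apply, Prod.fst_add, Prod.snd_add, inner_add_right]
        ring
      map_smul' := by
        intro r h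
        simp only [ContinuousMap.smul_apply, Prod.smul_fst, Prod.smul_snd, inner_smul_right,
          RingHom.id_apply, smul_eq_mul]
        rw [← integral_const_mul]
        congr 1
        ext y
        ring } ((∫ y : A, ‖u y‖ ∂μ) * (2 * C1 + C2)) ?_, fun h => rfl⟩
  intro h
  simp only [LinearMap.coe_mk, AddHom.coe_mk]
  refine (norm_integral_le_of_norm_le (g := fun y : A => ‖u y‖ * ((2 * C1 + C2) * ‖h‖))
    (hui.norm.mul_const _) (ae_of_all _ (fun y => ?_))).trans ?_
  · rw [norm_mul]
    exact mul_le_mul_of_nonneg_left (hbd h y) (norm_nonneg _)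
  · rw [integral_mul_const]
    apply le_of_eq
    ring

theorem an_of_kernel {p : E} {R : ℝ} (hR : 0 < R) {u χ : E → ℝ}
    (hu : IntegrableOn u (closedBall p R)) (hχ : ContDiff ℝ ∞ χ)
    (h1 : ∀ y ∈ ball p (R / 2), χ y = 1) :
    AnalyticOnNhd ℝ (fun x => ∫ y in closedBall p R, u y * ker χ 0 x y) (ball p (R / 4)) := by
  classical
  set A : Set E := closedBall p R \ ball p (R / 2) with hAdef
  have hAc : IsCompact A := (isCompact_closedBall p R).diff isOpen_ball
  have hAcs : CompactSpace A := isCompact_iff_compactSpace.1 hAc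
  have hg : Continuous (gradient χ) := grad_cont (hχ.of_le (by simp))
  have hl := lap_cont' hχ
  obtain ⟨M, hM⟩ := fnl_an hAc hg hl (hu.mono_set sdiff_subset)
  set κ : E → C(A, E) := fun x => ⟨fun y => (y : E) - x, by fun_prop⟩ with hκ
  set N : C(A, E) → C(A, E × ℝ) := fun g =>
    if h : Continuous (fun y => sk (g y)) then ⟨_, h⟩ else 0 with hN
  have hκan : ∀ x, AnalyticAt ℝ κ x := by
    intro x
    set cst : E →L[ℝ] C(A, E) := LinearMap.mkContinuous
      { toFun := fun x => ContinuousMap.const A x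
        map_add' := by intro a b; ext y; simp
        map_smul' := by intro a b; ext y; simp } 1 (by
          intro z
          rw [one_mul, ContinuousMap.norm_le _ (norm_nonneg _)]
          intro y
          simp) with hcst
    have h2 : κ = fun x => κ 0 - cst x := by
      ext x y
      simp [hκ, hcst]
    rw [h2]
    exact analyticAt_const.fun_sub (cst.analyticAt x)
  have hcont : ∀ g : C(A, E), (∀ y, g y ≠ 0) → Continuous (fun y => sk (g y)) := by
    intro g hg
    rw [continuous_iff_continuousAt]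
    intro y
    exact (sk_an (hg y)).continuousAt.comp g.continuous.continuousAt
  intro x₀ hx₀
  have hfar : ∀ x ∈ ball p (R / 4), ∀ y : A, R / 4 ≤ ‖(y : E) - x‖ := fun x hx y =>
    far hx y.2.2
  have hNan : AnalyticAt ℝ N (κ x₀) := by
    apply nem A E (E × ℝ) sk (κ x₀) N
    · intro y
      apply sk_an
      have := hfar x₀ hx₀ y
      intro h0
      have h2 : (y : E) - x₀ = 0 := h0
      rw [h2, norm_zero] at this
      linarith
    · have h2 : ∀ᶠ g in 𝓝 (κ x₀), g ∈ ball (κ x₀) (R / 8) := ball_mem_nhds _ (by positivity)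
      filter_upwards [h2] with g hg y
      have h3 : ∀ y, g y ≠ 0 := by
        intro y h0
        have h4 : ‖g y - κ x₀ y‖ < R / 8 := by
          rw [mem_ball_iff_norm] at hg
          exact ((g - κ x₀).norm_coe_le_norm y).trans_lt hg
        rw [h0, zero_sub, norm_neg] at h4
        have h5 := hfar x₀ hx₀ y
        have h6 : κ x₀ y = (y : E) - x₀ := rfl
        rw [h6] at h4
        linarith
      simp only [hN]
      rw [dif_pos (hcont g h3)]
      rfl
  have hcomp : AnalyticAt ℝ (fun x => M (N (κ x))) x₀ :=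
    (M.analyticAt _).comp (AnalyticAt.comp (f := κ) hNan (hκan x₀))
  apply hcomp.congr
  filter_upwards [isOpen_ball.mem_nhds hx₀] with x hx
  have h3 : ∀ y, κ x y ≠ 0 := by
    intro y h0
    have h5 := hfar x hx y
    have h6 : (y : E) - x = 0 := h0
    rw [h6, norm_zero] at h5
    linarith
  rw [hM]
  simp only [hN]
  rw [dif_pos (hcont _ h3)]
  have h7 : ∀ y : A, u y * (-2 * ⟪gradient χ y, ((⟨fun y => sk (κ x y), hcont _ h3⟩ :
      C(A, E × ℝ)) y).1⟫_ℝ + ((⟨fun y => sk (κ x y), hcont _ h3⟩ : C(A, E × ℝ)) y).2 * lap χ y)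
      = u y * ker χ 0 x y := by
    intro y
    rw [ker_sk]
    rfl
  rw [integral_congr_ae (ae_of_all _ h7),
    integral_subtype_comap hAc.measurableSet (fun y => u y * ker χ 0 x y)]
  symm
  apply setIntegral_eq_of_subset_of_forall_sdiff_eq_zero isClosed_closedBall.measurableSet
    sdiff_subset
  intro y hy
  have h8 : y ∈ ball p (R / 2) := by
    by_contra hc
    exact hy.2 ⟨hy.1, hc⟩
  rw [ker_inner h1 0 x h8, mul_zero]

end Pool.Agent.Run7.h982
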